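import Pool.Agent.Lib.IsoPt.Combi

/-!
# Construction of the instance

* `Nm` : names of the basic variables: `[0, l]` is `x_l`, `[1, j]` is `y_j`, `[2, ...]` are the bits
  of the parameters of the perturbation, `[3]` is `1/2`, `[4]` is `-1`, and `[5, c, i]`, `[6, j, i]`,
  `[7, l, i]` are chains of iterated squares.
* `TN` : terms in the basic variables.
* `FN` : names of the variables of the instance.
-/

set_option autoImplicit false

namespace Pool.Agent.IsoPt

open Pool.Agent.PolyTime

deriving instance DecidableEq for Tm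

abbrev Nm := List ℕ
abbrev TN := Tm Nm
abbrev FN := ℕ × List ℕ × TN

/-- All nodes of an expression, with the operation symbol and the two children (as terms). -/
def flatE {V : Type} : Ex V → Tm V × List (ℕ × Tm V × Tm V)
  | .var v => (.var v, [])
  | .op0 k => (if k = 0 then .zero else .one, [(k, .zero, .zero)])
  | .op1 _ a => (.zero, (flatE a).2)
  | .op2 k a b =>
    (if k = 2 then .add (flatE a).1 (flatE b).1 else if k = 3 then .mul (flatE a).1 (flatE b).1
      else .zero, (k, (flatE a).1, (flatE b).1) :: ((flatE a).2 ++ (flatE b).2))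

/-- Variables `x_l`, `y_j`, `1/2`, `-1`. -/
def vX (l : ℕ) : TN := .var [0, l]
def vY (j : ℕ) : TN := .var [1, j]
def vH : TN := .var [3]
def vN : TN := .var [4]
def two : TN := .add .one .one

/-- difference -/
def subT (a b : TN) : TN := .add a (.mul vN b)

/-- The keys of the atoms. -/
def keysOf (ψ : Fm Nm) : List (ℕ × TN × TN) :=
  (flatE ψ.toEx).2.filter fun q => decide (q.1 = 4) || decide (q.1 = 5)

/-- Witness variable of an atom. -/
def zv (m₀ : ℕ) (ks : List (ℕ × TN × TN)) (k : ℕ) (a b : TN) : TN := vY (m₀ + ks.idxOf (k, a, b))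

/-- Positive and negative polynomials of an atom. -/
def atomP (m₀ : ℕ) (ks : List (ℕ × TN × TN)) (k : ℕ) (a b : TN) : TN × TN :=
  if k = 4 then (sqT (subT a b), sqT (subT (.mul (subT a b) (zv m₀ ks k a b)) .one))
  else (sqT (subT (.mul (subT b a) (sqT (zv m₀ ks k a b))) .one),
    sqT (subT (subT a b) (sqT (zv m₀ ks k a b))))

/-- The term, the positive polynomial and the negative polynomial of an expression. -/
def pn (m₀ : ℕ) (ks : List (ℕ × TN × TN)) : Ex Nm → TN × TN × TN
  | .var v => (.var v, .zero, .zero)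
  | .op0 k => (if k = 0 then .zero else .one, .zero, .zero)
  | .op1 _ a => (.zero, (pn m₀ ks a).2.2, (pn m₀ ks a).2.1)
  | .op2 k a b =>
    if k = 2 then (.add (pn m₀ ks a).1 (pn m₀ ks b).1, .zero, .zero)
    else if k = 3 then (.mul (pn m₀ ks a).1 (pn m₀ ks b).1, .zero, .zero)
    else if k = 7 then (.zero, .add (pn m₀ ks a).2.1 (pn m₀ ks b).2.1,
      .mul (pn m₀ ks a).2.2 (pn m₀ ks b).2.2)
    else if k = 8 then (.zero, .mul (pn m₀ ks a).2.1 (pn m₀ ks b).2.1,
      .add (pn m₀ ks a).2.2 (pn m₀ ks b).2.2)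
    else (.zero, atomP m₀ ks k (pn m₀ ks a).1 (pn m₀ ks b).1)

/-- The polynomial whose positivity for all values of the `y` means that `ψ` holds for all `y`. -/
def gOf (m₀ : ℕ) (ψ : Fm Nm) : TN := (pn m₀ (keysOf ψ) ψ.toEx).2.2

/-- Parameters of the construction. -/
structure Par where
  ns : List ℕ
  ms : List ℕ
  cs : List ℕ
  rs : List ℕ
  fs : List ℕ
  bs : List ℕ
  ts : List ℕ
  m : ℕ
  k : ℕ
  a1 : ℕ
  a2 : ℕ
  a4 : ℕ
  a5 : ℕ
  g : TN

/-- Chain of iterated squares of the term `b`. -/
def chainsOf (t c : ℕ) (b : TN) (ts : List ℕ) : List (Nm × TN) :=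
  ([t, c, 0], b) :: ts.map fun i => ([t, c, i + 1], sqT (.var [t, c, i]))

/-- Bases of the chains. -/
def bases (p : Par) : List (ℕ × ℕ × TN) :=
  (5, 0, two) :: (5, 1, vH) :: (5, 2, .add .one (sumT (p.ms.map fun j => sqT (vY j)))) ::
    (p.ms.map (fun j => (6, j, vY j)) ++ p.ns.map (fun l => (7, l, vX l)))

/-- All assignments. -/
def asg (p : Par) : List (Nm × TN) := (bases p).flatMap fun q => chainsOf q.1 q.2.1 q.2.2 p.ts

/-- The parameters of the perturbation. -/
def th (bs : List ℕ) (N r j : ℕ) : TN := horner two (bs.map fun b => .var [2, 0, N, r, j, b])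
def thx (bs : List ℕ) (l : ℕ) : TN := horner two (bs.map fun b => .var [2, 1, l, b])

/-- linear form -/
def lin (ms : List ℕ) (N : ℕ) : TN := horner (numT N) (ms.map vY)

/-- The perturbation. -/
def pertT (p : Par) : TN :=
  .add (sumT (p.fs.map fun N => horner (lin p.ms N) (p.rs.map fun r =>
      .add (th p.bs N r p.m) (sumT (p.ms.map fun j => .mul (th p.bs N r j) (vY j))))))
    (sumT (p.ns.map fun l => .mul (thx p.bs l) (vX l)))

/-- The whole polynomial. -/
def fT (p : Par) : TN :=
  .add (.mul (.var [5, 0, p.a1]) (.mul p.g (.var [5, 2, p.k])))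
  (.add (.mul (.var [5, 1, p.a2]) (sumT (p.ms.map fun j => .var [6, j, p.k + 2])))
  (.add (.mul vN (.mul (.var [5, 1, p.a1]) (sumT (p.ns.map fun l => .var [7, l, p.k]))))
  (.add (.mul vN (.var [5, 0, p.a4])) (.mul (.var [5, 1, p.a5]) (pertT p)))))

/-- Target of an instruction. -/
def tgt (q : ℕ × TN × TN) : TN :=
  if q.1 = 0 then .zero else if q.1 = 1 then .one else if q.1 = 2 then .add q.2.1 q.2.2
  else .mul q.2.1 q.2.2

/-- Instructions computing the value of a term: `(operation, target, argument, argument)`. -/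
def insT (e : TN) : List (ℕ × TN × TN × TN) :=
  (flatE e.toEx).2.map fun q => (q.1, tgt q, q.2.1, q.2.2)

/-- All instructions. -/
def allIns (p : Par) : List (ℕ × TN × TN × TN) :=
  ((asg p).flatMap fun q => insT q.2 ++ [(4, .var q.1, q.2, q.2)]) ++ insT (fT p)

/-- names of bits -/
def bitNames (p : Par) : List Nm :=
  (p.fs.flatMap fun N => p.rs.flatMap fun r => (p.m :: p.ms).flatMap fun j =>
    p.bs.map fun b => [2, 0, N, r, j, b]) ++
  p.ns.flatMap fun l => p.bs.map fun b => [2, 1, l, b]

/-- names of the parameters -/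
def parNames (p : Par) : List Nm := [3] :: [4] :: (p.ns.map (fun l => [0, l]) ++ bitNames p)

/-- names of the inputs -/
def inNames (p : Par) : List Nm := p.ms.map (fun j => [1, j]) ++ parNames p

/-- names of the variables of the instance -/
def nP (nm : Nm) : FN := (12, [], .var nm)
def nV (i : ℕ) (e : TN) : FN := (10, [i], e)
def nD (i : ℕ) (dir : Nm) (e : TN) : FN := (11, i :: dir, e)
def nS (e : TN) : FN := (13, [], e)
def nT : FN := (14, [], .zero)
def nL (i : ℕ) : FN := (15, [i], .zero)
def nv : FN := (16, [], .zero)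

/-- variable as a term -/
abbrev vv (v : FN) : Tm FN := .var v

/-- value instruction -/
def insV (i : ℕ) (q : ℕ × TN × TN × TN) : Fm FN :=
  .eq (vv (nV i q.2.1)) (if q.1 = 0 then .zero else if q.1 = 1 then .one
    else if q.1 = 2 then .add (vv (nV i q.2.2.1)) (vv (nV i q.2.2.2))
    else if q.1 = 3 then .mul (vv (nV i q.2.2.1)) (vv (nV i q.2.2.2))
    else vv (nV i q.2.2.1))

/-- derivative instruction -/
def insD (i : ℕ) (d : Nm) (q : ℕ × TN × TN × TN) : Fm FN :=
  .eq (vv (nD i d q.2.1)) (if q.1 = 0 then .zero else if q.1 = 1 then .zero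
    else if q.1 = 2 then .add (vv (nD i d q.2.2.1)) (vv (nD i d q.2.2.2))
    else if q.1 = 3 then .add (.mul (vv (nD i d q.2.2.1)) (vv (nV i q.2.2.2)))
      (.mul (vv (nV i q.2.2.1)) (vv (nD i d q.2.2.2)))
    else vv (nD i d q.2.2.1))

/-- scaled instruction -/
def insS (q : ℕ × TN × TN × TN) : Fm FN :=
  if q.1 = 3 then .eq (.mul (vv nT) (vv (nS q.2.1))) (.mul (vv (nS q.2.2.1)) (vv (nS q.2.2.2)))
  else .eq (vv (nS q.2.1)) (if q.1 = 0 then .zero else if q.1 = 1 then vv nT
    else if q.1 = 2 then .add (vv (nS q.2.2.1)) (vv (nS q.2.2.2))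
    else vv (nS q.2.2.1))

/-- constraints on the parameters -/
def phiA (p : Par) : List (Fm FN) :=
  .eq (.add (vv (nP [3])) (vv (nP [3]))) .one :: .eq (.add (vv (nP [4])) .one) .zero ::
    (bitNames p).map fun nm => .eq (.mul (vv (nP nm)) (vv (nP nm))) (vv (nP nm))

/-- constraints on copy `i` -/
def phiB (p : Par) (i : ℕ) : List (Fm FN) :=
  (parNames p).map (fun nm => .eq (vv (nV i (.var nm))) (vv (nP nm))) ++
  (allIns p).map (insV i)

/-- directions -/
def dirs (p : Par) : List Nm := p.ns.map (fun l => [0, l]) ++ p.ms.map (fun j => [1, j])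

/-- constraints on the derivatives of copy `i` in direction `d` -/
def phiD (p : Par) (i : ℕ) (d : Nm) : List (Fm FN) :=
  (inNames p).map (fun nm => .eq (vv (nD i d (.var nm))) (if nm = d then .one else .zero)) ++
  (allIns p).map (insD i d)

/-- activity of copy `i` -/
def phiE (p : Par) (i : ℕ) : Fm FN :=
  .or (conj (.eq (vv (nL i)) .zero :: p.ms.map fun j => .eq (vv (nV i (vY j))) .zero))
    (conj (.not (.eq (vv (nL i)) .zero) :: .eq (vv (nV i (fT p))) (vv nv) ::
      p.ms.map fun j => .eq (vv (nD i [1, j] (fT p))) .zero))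

/-- stationarity -/
def phiS (p : Par) (l : ℕ) : Fm FN :=
  .eq (sumT (p.cs.map fun i => .mul (vv (nL i)) (vv (nD i [0, l] (fT p))))) .zero

/-- distinctness -/
def phiN (p : Par) (i i' : ℕ) : Fm FN :=
  if i = i' then .eq .zero .zero else
  .not (conj (.not (.eq (vv (nL i)) .zero) :: .not (.eq (vv (nL i')) .zero) ::
    p.ms.map fun j => .eq (vv (nV i (vY j))) (vv (nV i' (vY j)))))

/-- the cone -/
def phiC (p : Par) : Fm FN :=
  .or (conj (.eq (vv nT) .zero :: ((inNames p).map (fun nm => .eq (vv (nS (.var nm))) .zero) ++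
      (allIns p).map fun q => .eq (vv (nS q.2.1)) .zero)))
    (conj (.lt .zero (vv nT) :: .not (.lt .zero (vv (nS (fT p)))) ::
      ((parNames p).map (fun nm => .eq (vv (nS (.var nm))) (.mul (vv nT) (vv (nP nm)))) ++
      (allIns p).map insS)))

/-- The formula. -/
def Phi (p : Par) : Fm FN :=
  conj (phiA p ++ ((p.cs.flatMap fun i => phiB p i) ++
    ((p.cs.flatMap fun i => (dirs p).flatMap fun d => phiD p i d) ++
    (p.cs.map (phiE p) ++ (p.ns.map (phiS p) ++
    ((p.cs.flatMap fun i => p.cs.map fun i' => phiN p i i') ++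
    [.eq (sumT (p.cs.map fun i => vv (nL i))) .one, phiC p]))))))

end Pool.Agent.IsoPt
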