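import Pool.Agent.Lib.IsoPt.PnPT

/-!
# Polynomial time: the construction of the formula
-/

set_option autoImplicit false

namespace Pool.Agent.IsoPt

open Pool.Agent.PolyTime

/-- all fields of the parameters -/
def Par.tup (p : Par) : (List ℕ × List ℕ × List ℕ × List ℕ) × (List ℕ × List ℕ × List ℕ) ×
    (ℕ × ℕ × ℕ) × (ℕ × ℕ × ℕ) × TN :=
  ((p.ns, p.ms, p.cs, p.rs), (p.fs, p.bs, p.ts), (p.m, p.k, p.a1), (p.a2, p.a4, p.a5), p.g)

instance : Enc Par := ⟨fun p => enc p.tup⟩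

section

variable {α : Type} [Enc α]

@[fun_prop] lemma PT.partup {f : α → Par} (hf : PT f) : PT fun a => (f a).tup := hf
@[fun_prop] lemma PT.ns {f : α → Par} (hf : PT f) : PT fun a => (f a).ns :=
  PT.fst (PT.fst (PT.partup hf))
@[fun_prop] lemma PT.ms {f : α → Par} (hf : PT f) : PT fun a => (f a).ms :=
  PT.fst (PT.snd (PT.fst (PT.partup hf)))
@[fun_prop] lemma PT.cs {f : α → Par} (hf : PT f) : PT fun a => (f a).cs :=
  PT.fst (PT.snd (PT.snd (PT.fst (PT.partup hf))))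
@[fun_prop] lemma PT.rs {f : α → Par} (hf : PT f) : PT fun a => (f a).rs :=
  PT.snd (PT.snd (PT.snd (PT.fst (PT.partup hf))))
@[fun_prop] lemma PT.fs {f : α → Par} (hf : PT f) : PT fun a => (f a).fs :=
  PT.fst (PT.fst (PT.snd (PT.partup hf)))
@[fun_prop] lemma PT.bs {f : α → Par} (hf : PT f) : PT fun a => (f a).bs :=
  PT.fst (PT.snd (PT.fst (PT.snd (PT.partup hf))))
@[fun_prop] lemma PT.ts {f : α → Par} (hf : PT f) : PT fun a => (f a).ts :=
  PT.snd (PT.snd (PT.fst (PT.snd (PT.partup hf))))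
@[fun_prop] lemma PT.pm {f : α → Par} (hf : PT f) : PT fun a => (f a).m :=
  PT.fst (PT.fst (PT.snd (PT.snd (PT.partup hf))))
@[fun_prop] lemma PT.pk {f : α → Par} (hf : PT f) : PT fun a => (f a).k :=
  PT.fst (PT.snd (PT.fst (PT.snd (PT.snd (PT.partup hf)))))
@[fun_prop] lemma PT.pa1 {f : α → Par} (hf : PT f) : PT fun a => (f a).a1 :=
  PT.snd (PT.snd (PT.fst (PT.snd (PT.snd (PT.partup hf)))))
@[fun_prop] lemma PT.pa2 {f : α → Par} (hf : PT f) : PT fun a => (f a).a2 :=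
  PT.fst (PT.fst (PT.snd (PT.snd (PT.snd (PT.partup hf)))))
@[fun_prop] lemma PT.pa4 {f : α → Par} (hf : PT f) : PT fun a => (f a).a4 :=
  PT.fst (PT.snd (PT.fst (PT.snd (PT.snd (PT.snd (PT.partup hf))))))
@[fun_prop] lemma PT.pa5 {f : α → Par} (hf : PT f) : PT fun a => (f a).a5 :=
  PT.snd (PT.snd (PT.fst (PT.snd (PT.snd (PT.snd (PT.partup hf))))))
@[fun_prop] lemma PT.pg {f : α → Par} (hf : PT f) : PT fun a => (f a).g :=
  PT.snd (PT.snd (PT.snd (PT.snd (PT.partup hf))))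

@[fun_prop] lemma PT.chainsOf {t c : α → ℕ} {b : α → TN} {ts : α → List ℕ} (ht : PT t) (hc : PT c)
    (hb : PT b) (hts : PT ts) : PT fun a => chainsOf (t a) (c a) (b a) (ts a) := by
  unfold IsoPt.chainsOf
  refine PT.cons (by fun_prop) (PT.map
    (f := fun a i => ([t a, c a, i + 1], IsoPt.sqT (.var [t a, c a, i]))) (by fun_prop) hts)

@[fun_prop] lemma PT.bases {p : α → Par} (hp : PT p) : PT fun a => bases (p a) := by
  unfold IsoPt.bases
  have h1 : PT fun a => (p a).ms.map fun j => IsoPt.sqT (IsoPt.vY j) :=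
    PT.map (f := fun _ j => IsoPt.sqT (IsoPt.vY j)) (by fun_prop) (by fun_prop)
  have h2 : PT fun a => (p a).ms.map fun j => (6, j, IsoPt.vY j) :=
    PT.map (f := fun _ j => (6, j, IsoPt.vY j)) (by fun_prop) (by fun_prop)
  have h3 : PT fun a => (p a).ns.map fun l => (7, l, IsoPt.vX l) :=
    PT.map (f := fun _ l => (7, l, IsoPt.vX l)) (by fun_prop) (by fun_prop)
  fun_prop

@[fun_prop] lemma PT.asg {p : α → Par} (hp : PT p) : PT fun a => asg (p a) := by
  unfold IsoPt.asg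
  exact PT.flatMap (f := fun (a : α) (q : ℕ × ℕ × TN) =>
    IsoPt.chainsOf q.1 q.2.1 q.2.2 (p a).ts) (by fun_prop) (by fun_prop)

@[fun_prop] lemma PT.th {bs : α → List ℕ} {N r j : α → ℕ} (hbs : PT bs) (hN : PT N) (hr : PT r)
    (hj : PT j) : PT fun a => th (bs a) (N a) (r a) (j a) := by
  unfold IsoPt.th
  refine PT.horner (PT.const _) (PT.map (f := fun a b => (Tm.var [2, 0, N a, r a, j a, b] : TN))
    (by fun_prop) hbs)

@[fun_prop] lemma PT.thx {bs : α → List ℕ} {l : α → ℕ} (hbs : PT bs) (hl : PT l) :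
    PT fun a => thx (bs a) (l a) := by
  unfold IsoPt.thx
  refine PT.horner (PT.const _) (PT.map (f := fun a b => (Tm.var [2, 1, l a, b] : TN))
    (by fun_prop) hbs)

@[fun_prop] lemma PT.lin {ms : α → List ℕ} {N : α → ℕ} (hms : PT ms) (hN : PT N) :
    PT fun a => lin (ms a) (N a) := by
  unfold IsoPt.lin
  refine PT.horner (by fun_prop) (PT.map (f := fun _ j => IsoPt.vY j) (by fun_prop) hms)

@[fun_prop] lemma PT.pertT {p : α → Par} (hp : PT p) : PT fun a => pertT (p a) := by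
  unfold IsoPt.pertT
  have h1 : PT fun q : ((α × ℕ) × ℕ) =>
      (p q.1.1).ms.map fun j => Tm.mul (IsoPt.th (p q.1.1).bs q.1.2 q.2 j) (IsoPt.vY j) :=
    PT.map (f := fun (q : (α × ℕ) × ℕ) j =>
      Tm.mul (IsoPt.th (p q.1.1).bs q.1.2 q.2 j) (IsoPt.vY j)) (by fun_prop) (by fun_prop)
  have h2 : PT fun q : α × ℕ => (p q.1).rs.map fun r =>
      Tm.add (IsoPt.th (p q.1).bs q.2 r (p q.1).m) (IsoPt.sumT ((p q.1).ms.map fun j =>
        Tm.mul (IsoPt.th (p q.1).bs q.2 r j) (IsoPt.vY j))) :=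
    PT.map (f := fun (q : α × ℕ) r =>
      Tm.add (IsoPt.th (p q.1).bs q.2 r (p q.1).m) (IsoPt.sumT ((p q.1).ms.map fun j =>
        Tm.mul (IsoPt.th (p q.1).bs q.2 r j) (IsoPt.vY j)))) (by fun_prop) (by fun_prop)
  have h3 : PT fun a => (p a).fs.map fun N => IsoPt.horner (IsoPt.lin (p a).ms N)
      ((p a).rs.map fun r => Tm.add (IsoPt.th (p a).bs N r (p a).m)
        (IsoPt.sumT ((p a).ms.map fun j => Tm.mul (IsoPt.th (p a).bs N r j) (IsoPt.vY j)))) :=
    PT.map (f := fun a N => IsoPt.horner (IsoPt.lin (p a).ms N)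
      ((p a).rs.map fun r => Tm.add (IsoPt.th (p a).bs N r (p a).m)
        (IsoPt.sumT ((p a).ms.map fun j => Tm.mul (IsoPt.th (p a).bs N r j) (IsoPt.vY j)))))
      (PT.horner (by fun_prop) h2) (by fun_prop)
  have h4 : PT fun a => (p a).ns.map fun l => Tm.mul (IsoPt.thx (p a).bs l) (IsoPt.vX l) :=
    PT.map (f := fun a l => Tm.mul (IsoPt.thx (p a).bs l) (IsoPt.vX l)) (by fun_prop) (by fun_prop)
  fun_prop

@[fun_prop] lemma PT.fT {p : α → Par} (hp : PT p) : PT fun a => fT (p a) := by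
  unfold IsoPt.fT
  have h1 : PT fun a => (p a).ms.map fun j => (Tm.var [6, j, (p a).k + 2] : TN) :=
    PT.map (f := fun a j => (Tm.var [6, j, (p a).k + 2] : TN)) (by fun_prop) (by fun_prop)
  have h2 : PT fun a => (p a).ns.map fun l => (Tm.var [7, l, (p a).k] : TN) :=
    PT.map (f := fun a l => (Tm.var [7, l, (p a).k] : TN)) (by fun_prop) (by fun_prop)
  fun_prop

@[fun_prop] lemma PT.tgt {q : α → ℕ × TN × TN} (hq : PT q) : PT fun a => tgt (q a) := by
  unfold IsoPt.tgt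
  exact PT.ite (by fun_prop) (by fun_prop) (PT.ite (by fun_prop) (by fun_prop)
    (PT.ite (by fun_prop) (by fun_prop) (by fun_prop)))

@[fun_prop] lemma PT.insT {e : α → TN} (he : PT e) : PT fun a => insT (e a) := by
  unfold IsoPt.insT
  exact PT.map (f := fun (_ : α) (q : ℕ × TN × TN) => (q.1, IsoPt.tgt q, q.2.1, q.2.2))
    (by fun_prop) (PT.insT_aux he)

@[fun_prop] lemma PT.allIns {p : α → Par} (hp : PT p) : PT fun a => allIns (p a) := by
  unfold IsoPt.allIns
  refine PT.append (PT.flatMap (f := fun (_ : α) (q : Nm × TN) =>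
    IsoPt.insT q.2 ++ [(4, .var q.1, q.2, q.2)]) (by fun_prop) (by fun_prop)) (by fun_prop)

@[fun_prop] lemma PT.bitNames {p : α → Par} (hp : PT p) : PT fun a => bitNames (p a) := by
  unfold IsoPt.bitNames
  have h1 : PT fun q : ((α × ℕ) × ℕ) × ℕ =>
      (p q.1.1.1).bs.map fun b => ([2, 0, q.1.1.2, q.1.2, q.2, b] : Nm) :=
    PT.map (f := fun (q : ((α × ℕ) × ℕ) × ℕ) b => ([2, 0, q.1.1.2, q.1.2, q.2, b] : Nm))
      (by fun_prop) (by fun_prop)
  have h2 : PT fun q : (α × ℕ) × ℕ => ((p q.1.1).m :: (p q.1.1).ms).flatMap fun j =>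
      (p q.1.1).bs.map fun b => ([2, 0, q.1.2, q.2, j, b] : Nm) :=
    PT.flatMap (f := fun (q : (α × ℕ) × ℕ) j =>
      (p q.1.1).bs.map fun b => ([2, 0, q.1.2, q.2, j, b] : Nm)) h1 (by fun_prop)
  have h3 : PT fun q : α × ℕ => (p q.1).rs.flatMap fun r => ((p q.1).m :: (p q.1).ms).flatMap
      fun j => (p q.1).bs.map fun b => ([2, 0, q.2, r, j, b] : Nm) :=
    PT.flatMap (f := fun (q : α × ℕ) r => ((p q.1).m :: (p q.1).ms).flatMap
      fun j => (p q.1).bs.map fun b => ([2, 0, q.2, r, j, b] : Nm)) h2 (by fun_prop)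
  have h4 : PT fun a => (p a).fs.flatMap fun N => (p a).rs.flatMap fun r =>
      ((p a).m :: (p a).ms).flatMap fun j => (p a).bs.map fun b => ([2, 0, N, r, j, b] : Nm) :=
    PT.flatMap (f := fun a N => (p a).rs.flatMap fun r =>
      ((p a).m :: (p a).ms).flatMap fun j => (p a).bs.map fun b => ([2, 0, N, r, j, b] : Nm))
      h3 (by fun_prop)
  have h5 : PT fun q : α × ℕ => (p q.1).bs.map fun b => ([2, 1, q.2, b] : Nm) :=
    PT.map (f := fun (q : α × ℕ) b => ([2, 1, q.2, b] : Nm)) (by fun_prop) (by fun_prop)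
  have h6 : PT fun a => (p a).ns.flatMap fun l => (p a).bs.map fun b => ([2, 1, l, b] : Nm) :=
    PT.flatMap (f := fun a l => (p a).bs.map fun b => ([2, 1, l, b] : Nm)) h5 (by fun_prop)
  fun_prop

@[fun_prop] lemma PT.parNames {p : α → Par} (hp : PT p) : PT fun a => parNames (p a) := by
  unfold IsoPt.parNames
  have h1 : PT fun a => (p a).ns.map fun l => ([0, l] : Nm) :=
    PT.map (f := fun _ l => ([0, l] : Nm)) (by fun_prop) (by fun_prop)
  fun_prop

@[fun_prop] lemma PT.inNames {p : α → Par} (hp : PT p) : PT fun a => inNames (p a) := by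
  unfold IsoPt.inNames
  have h1 : PT fun a => (p a).ms.map fun l => ([1, l] : Nm) :=
    PT.map (f := fun _ l => ([1, l] : Nm)) (by fun_prop) (by fun_prop)
  fun_prop

@[fun_prop] lemma PT.nP {nm : α → Nm} (h : PT nm) : PT fun a => nP (nm a) := by
  unfold IsoPt.nP; fun_prop
@[fun_prop] lemma PT.nV {i : α → ℕ} {e : α → TN} (hi : PT i) (he : PT e) :
    PT fun a => nV (i a) (e a) := by
  unfold IsoPt.nV; fun_prop
@[fun_prop] lemma PT.nD {i : α → ℕ} {d : α → Nm} {e : α → TN} (hi : PT i) (hd : PT d) (he : PT e) :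
    PT fun a => nD (i a) (d a) (e a) := by
  unfold IsoPt.nD; fun_prop
@[fun_prop] lemma PT.nS {e : α → TN} (he : PT e) : PT fun a => nS (e a) := by
  unfold IsoPt.nS; fun_prop
@[fun_prop] lemma PT.nL {i : α → ℕ} (hi : PT i) : PT fun a => nL (i a) := by
  unfold IsoPt.nL; fun_prop

@[fun_prop] lemma PT.insV {i : α → ℕ} {q : α → ℕ × TN × TN × TN} (hi : PT i) (hq : PT q) :
    PT fun a => insV (i a) (q a) := by
  unfold IsoPt.insV
  refine PT.fmEq (by fun_prop) (PT.ite (by fun_prop) (by fun_prop) (PT.ite (by fun_prop)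
    (by fun_prop) (PT.ite (by fun_prop) (by fun_prop) (PT.ite (by fun_prop)
    (by fun_prop) (by fun_prop)))))

@[fun_prop] lemma PT.insD {i : α → ℕ} {d : α → Nm} {q : α → ℕ × TN × TN × TN} (hi : PT i)
    (hd : PT d) (hq : PT q) : PT fun a => insD (i a) (d a) (q a) := by
  unfold IsoPt.insD
  refine PT.fmEq (by fun_prop) (PT.ite (by fun_prop) (by fun_prop) (PT.ite (by fun_prop)
    (by fun_prop) (PT.ite (by fun_prop) (by fun_prop) (PT.ite (by fun_prop)
    (by fun_prop) (by fun_prop)))))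

@[fun_prop] lemma PT.insS {q : α → ℕ × TN × TN × TN} (hq : PT q) :
    PT fun a => insS (q a) := by
  unfold IsoPt.insS
  refine PT.ite (by fun_prop) (by fun_prop) (PT.fmEq (by fun_prop) (PT.ite (by fun_prop)
    (by fun_prop) (PT.ite (by fun_prop) (by fun_prop) (PT.ite (by fun_prop)
    (by fun_prop) (by fun_prop)))))

@[fun_prop] lemma PT.phiA {p : α → Par} (hp : PT p) : PT fun a => phiA (p a) := by
  unfold IsoPt.phiA
  have h1 : PT fun a => (IsoPt.bitNames (p a)).map fun nm =>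
      Fm.eq (.mul (vv (IsoPt.nP nm)) (vv (IsoPt.nP nm))) (vv (IsoPt.nP nm)) :=
    PT.map (f := fun _ nm => Fm.eq (.mul (vv (IsoPt.nP nm)) (vv (IsoPt.nP nm)))
      (vv (IsoPt.nP nm))) (by fun_prop) (by fun_prop)
  fun_prop

@[fun_prop] lemma PT.phiB {p : α → Par} {i : α → ℕ} (hp : PT p) (hi : PT i) :
    PT fun a => phiB (p a) (i a) := by
  unfold IsoPt.phiB
  refine PT.append (PT.map (f := fun a nm =>
    Fm.eq (vv (IsoPt.nV (i a) (.var nm))) (vv (IsoPt.nP nm))) (by fun_prop) (by fun_prop))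
    (PT.map (f := fun a q => IsoPt.insV (i a) q) (by fun_prop) (by fun_prop))

@[fun_prop] lemma PT.dirs {p : α → Par} (hp : PT p) : PT fun a => dirs (p a) := by
  unfold IsoPt.dirs
  refine PT.append (PT.map (f := fun _ l => ([0, l] : Nm)) (by fun_prop) (by fun_prop))
    (PT.map (f := fun _ l => ([1, l] : Nm)) (by fun_prop) (by fun_prop))

@[fun_prop] lemma PT.phiD {p : α → Par} {i : α → ℕ} {d : α → Nm} (hp : PT p) (hi : PT i)
    (hd : PT d) : PT fun a => phiD (p a) (i a) (d a) := by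
  unfold IsoPt.phiD
  refine PT.append (PT.map (f := fun a nm => Fm.eq (vv (IsoPt.nD (i a) (d a) (.var nm)))
    (if nm = d a then .one else .zero)) (PT.fmEq (by fun_prop) (PT.ite ?_ (by fun_prop)
    (by fun_prop))) (by fun_prop))
    (PT.map (f := fun a q => IsoPt.insD (i a) (d a) q) (by fun_prop) (by fun_prop))
  exact PT.decide_eq (by fun_prop) (by fun_prop)

@[fun_prop] lemma PT.phiE {p : α → Par} {i : α → ℕ} (hp : PT p) (hi : PT i) :
    PT fun a => phiE (p a) (i a) := by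
  unfold IsoPt.phiE
  have h1 : PT fun a => (p a).ms.map fun j => Fm.eq (vv (IsoPt.nV (i a) (IsoPt.vY j))) Tm.zero :=
    PT.map (f := fun a j => Fm.eq (vv (IsoPt.nV (i a) (IsoPt.vY j))) Tm.zero) (by fun_prop)
      (by fun_prop)
  have h2 : PT fun a => (p a).ms.map fun j =>
      Fm.eq (vv (IsoPt.nD (i a) [1, j] (IsoPt.fT (p a)))) Tm.zero :=
    PT.map (f := fun a j => Fm.eq (vv (IsoPt.nD (i a) [1, j] (IsoPt.fT (p a)))) Tm.zero)
      (by fun_prop) (by fun_prop)
  fun_prop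

@[fun_prop] lemma PT.phiS {p : α → Par} {l : α → ℕ} (hp : PT p) (hl : PT l) :
    PT fun a => phiS (p a) (l a) := by
  unfold IsoPt.phiS
  have h1 : PT fun a => (p a).cs.map fun i =>
      Tm.mul (vv (IsoPt.nL i)) (vv (IsoPt.nD i [0, l a] (IsoPt.fT (p a)))) :=
    PT.map (f := fun a i =>
      Tm.mul (vv (IsoPt.nL i)) (vv (IsoPt.nD i [0, l a] (IsoPt.fT (p a))))) (by fun_prop)
      (by fun_prop)
  fun_prop

@[fun_prop] lemma PT.phiN {p : α → Par} {i i' : α → ℕ} (hp : PT p) (hi : PT i) (hi' : PT i') :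
    PT fun a => phiN (p a) (i a) (i' a) := by
  unfold IsoPt.phiN
  have h1 : PT fun a => (p a).ms.map fun j =>
      Fm.eq (vv (IsoPt.nV (i a) (IsoPt.vY j))) (vv (IsoPt.nV (i' a) (IsoPt.vY j))) :=
    PT.map (f := fun a j =>
      Fm.eq (vv (IsoPt.nV (i a) (IsoPt.vY j))) (vv (IsoPt.nV (i' a) (IsoPt.vY j)))) (by fun_prop)
      (by fun_prop)
  exact PT.ite (by fun_prop) (by fun_prop) (by fun_prop)

@[fun_prop] lemma PT.phiC {p : α → Par} (hp : PT p) : PT fun a => phiC (p a) := by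
  unfold IsoPt.phiC
  have h1 : PT fun a => (IsoPt.inNames (p a)).map fun nm =>
      Fm.eq (vv (IsoPt.nS (.var nm))) Tm.zero :=
    PT.map (f := fun _ nm => Fm.eq (vv (IsoPt.nS (.var nm))) Tm.zero) (by fun_prop) (by fun_prop)
  have h2 : PT fun a => (IsoPt.allIns (p a)).map fun q =>
      Fm.eq (vv (IsoPt.nS q.2.1)) Tm.zero :=
    PT.map (f := fun (_ : α) (q : ℕ × TN × TN × TN) => Fm.eq (vv (IsoPt.nS q.2.1)) Tm.zero)
      (by fun_prop) (by fun_prop)
  have h3 : PT fun a => (IsoPt.parNames (p a)).map fun nm =>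
      Fm.eq (vv (IsoPt.nS (.var nm))) (.mul (vv nT) (vv (IsoPt.nP nm))) :=
    PT.map (f := fun _ nm => Fm.eq (vv (IsoPt.nS (.var nm))) (.mul (vv nT) (vv (IsoPt.nP nm))))
      (by fun_prop) (by fun_prop)
  have h4 : PT fun a => (IsoPt.allIns (p a)).map IsoPt.insS :=
    PT.map (f := fun _ q => IsoPt.insS q) (by fun_prop) (by fun_prop)
  fun_prop

@[fun_prop] lemma PT.Phi {p : α → Par} (hp : PT p) : PT fun a => Phi (p a) := by
  unfold IsoPt.Phi
  have h1 : PT fun a => (p a).cs.flatMap fun i => IsoPt.phiB (p a) i :=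
    PT.flatMap (f := fun a i => IsoPt.phiB (p a) i) (by fun_prop) (by fun_prop)
  have h2 : PT fun q : α × ℕ => (IsoPt.dirs (p q.1)).flatMap fun d =>
      IsoPt.phiD (p q.1) q.2 d :=
    PT.flatMap (f := fun (q : α × ℕ) d => IsoPt.phiD (p q.1) q.2 d) (by fun_prop) (by fun_prop)
  have h3 : PT fun a => (p a).cs.flatMap fun i => (IsoPt.dirs (p a)).flatMap fun d =>
      IsoPt.phiD (p a) i d :=
    PT.flatMap (f := fun a i => (IsoPt.dirs (p a)).flatMap fun d => IsoPt.phiD (p a) i d) h2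
      (by fun_prop)
  have h4 : PT fun a => (p a).cs.map (IsoPt.phiE (p a)) :=
    PT.map (f := fun a i => IsoPt.phiE (p a) i) (by fun_prop) (by fun_prop)
  have h5 : PT fun a => (p a).ns.map (IsoPt.phiS (p a)) :=
    PT.map (f := fun a i => IsoPt.phiS (p a) i) (by fun_prop) (by fun_prop)
  have h6 : PT fun q : α × ℕ => (p q.1).cs.map fun i' => IsoPt.phiN (p q.1) q.2 i' :=
    PT.map (f := fun (q : α × ℕ) i' => IsoPt.phiN (p q.1) q.2 i') (by fun_prop) (by fun_prop)
  have h7 : PT fun a => (p a).cs.flatMap fun i => (p a).cs.map fun i' =>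
      IsoPt.phiN (p a) i i' :=
    PT.flatMap (f := fun a i => (p a).cs.map fun i' => IsoPt.phiN (p a) i i') h6 (by fun_prop)
  have h8 : PT fun a => (p a).cs.map fun i => vv (IsoPt.nL i) :=
    PT.map (f := fun _ i => vv (IsoPt.nL i)) (by fun_prop) (by fun_prop)
  fun_prop

end

end Pool.Agent.IsoPt
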