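import Pool.Agent.Lib.IsoPt.Defs

/-!
# Calculus lemmas for chunk C : derivatives of polynomials along lines, compact convex hulls
-/

set_option autoImplicit false

namespace Pool.Agent.IsoPt

open MvPolynomial

/-- Derivative of a polynomial along a line. -/
theorem hasDerivAt_line {σ : Type*} [Fintype σ] (p : MvPolynomial σ ℝ) (a w : σ → ℝ) (t : ℝ) :
    HasDerivAt (fun t : ℝ => aeval (fun i => a i + t * w i) p)
      (∑ i, w i * aeval (fun i => a i + t * w i) (pderiv i p)) t := by
  classical
  induction p using MvPolynomial.induction_on with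
  | C r =>
    simp only [algHom_C, pderiv_C, map_zero, mul_zero, Finset.sum_const_zero]
    exact hasDerivAt_const _ _
  | add p q hp hq =>
    simp only [map_add, mul_add, Finset.sum_add_distrib]
    exact hp.add hq
  | mul_X p j hp =>
    have h1 : HasDerivAt (fun t : ℝ => a j + t * w j) (w j) t := by
      simpa using ((hasDerivAt_id t).mul_const (w j)).const_add (a j)
    have h2 := hp.mul h1
    simp only [map_mul, aeval_X]
    have e : (∑ i, w i * (aeval fun i => a i + t * w i) ((pderiv i) (p * X j))) =
        (∑ i, w i * (aeval fun i => a i + t * w i) ((pderiv i) p)) * (a j + t * w j) +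
          (aeval fun i => a i + t * w i) p * w j := by
      have e1 : ∀ i, w i * (aeval fun i => a i + t * w i) ((pderiv i) (p * X j)) =
          w i * (aeval fun i => a i + t * w i) ((pderiv i) p) * (a j + t * w j) +
            (aeval fun i => a i + t * w i) p * (if i = j then w j else 0) := by
        intro i
        rw [pderiv_mul, map_add, map_mul, map_mul, aeval_X, pderiv_X]
        by_cases h : i = j
        · subst h
          simp
          ring
        · rw [Pi.single_apply, if_neg (fun h' => h h'.symm)]
          simp [h]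
          ring
      rw [Finset.sum_congr rfl fun i _ => e1 i, Finset.sum_add_distrib, ← Finset.sum_mul,
        ← Finset.mul_sum, Finset.sum_ite_eq']
      simp
    rw [e]
    exact h2

theorem continuous_evR {n m : ℕ} (f : MvPolynomial (Fin n ⊕ Fin m) ℝ) :
    Continuous fun p : (Fin n → ℝ) × (Fin m → ℝ) => ev f p.1 p.2 := by
  unfold ev
  have h : Continuous fun p : (Fin n → ℝ) × (Fin m → ℝ) => (Sum.elim p.1 p.2 : Fin n ⊕ Fin m → ℝ) := by
    refine continuous_pi fun i => ?_
    rcases i with i | i
    · exact (continuous_apply i).comp continuous_fst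
    · exact (continuous_apply i).comp continuous_snd
  have h2 : Continuous fun v : Fin n ⊕ Fin m → ℝ => aeval v f := by
    have : (fun v : Fin n ⊕ Fin m → ℝ => aeval v f) = fun v => eval v f := by
      funext v
      rw [aeval_eq_eval]
    rw [this]
    exact MvPolynomial.continuous_eval f
  exact h2.comp h

/-- Derivative in the direction `w` of the `x` variables. -/
theorem hasDerivAt_ev_left {n m : ℕ} (f : MvPolynomial (Fin n ⊕ Fin m) ℝ) (x w : Fin n → ℝ)
    (y : Fin m → ℝ) (t : ℝ) :
    HasDerivAt (fun t : ℝ => ev f (x + t • w) y)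
      (∑ l, w l * ev (pderiv (Sum.inl l) f) (x + t • w) y) t := by
  have h := hasDerivAt_line f (Sum.elim x y) (Sum.elim w (0 : Fin m → ℝ)) t
  have e : ∀ t : ℝ, (fun i => (Sum.elim x y : Fin n ⊕ Fin m → ℝ) i +
      t * (Sum.elim w (0 : Fin m → ℝ)) i) =
      (Sum.elim (x + t • w) y) := by
    intro t
    funext i
    rcases i with i | i <;> simp
  simp only [e, Fintype.sum_sum_type, Sum.elim_inl, Sum.elim_inr, Pi.zero_apply, zero_mul,
    Finset.sum_const_zero, add_zero] at h
  exact h

/-- Partial derivative in a `y` variable. -/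
theorem hasDerivAt_ev_right {n m : ℕ} (f : MvPolynomial (Fin n ⊕ Fin m) ℝ) (x : Fin n → ℝ)
    (y : Fin m → ℝ) (w : Fin m → ℝ) (t : ℝ) :
    HasDerivAt (fun t : ℝ => ev f x (y + t • w))
      (∑ l, w l * ev (pderiv (Sum.inr l) f) x (y + t • w)) t := by
  have h := hasDerivAt_line f (Sum.elim x y) (Sum.elim (0 : Fin n → ℝ) w) t
  have e : ∀ t : ℝ, (fun i => (Sum.elim x y : Fin n ⊕ Fin m → ℝ) i +
      t * (Sum.elim (0 : Fin n → ℝ) w) i) = (Sum.elim x (y + t • w)) := by
    intro t
    funext i
    rcases i with i | i <;> simp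
  simp only [e, Fintype.sum_sum_type, Sum.elim_inl, Sum.elim_inr, Pi.zero_apply, zero_mul,
    Finset.sum_const_zero, zero_add] at h
  exact h

/-- Caratheodory with a fixed index set. -/
theorem mem_convexHull_fin {d : ℕ} {s : Set (Fin d → ℝ)} {x : Fin d → ℝ}
    (hx : x ∈ convexHull ℝ s) :
    ∃ (ι : Type) (_ : Fintype ι) (z : ι → Fin d → ℝ) (w : ι → ℝ) (_ : ι ↪ Fin (d + 1)),
      Set.range z ⊆ s ∧ Function.Injective z ∧ (∀ i, 0 < w i) ∧ ∑ i, w i = 1 ∧
        ∑ i, w i • z i = x := by
  obtain ⟨ι, hι, z, w, h1, h2, h3, h4, h5⟩ := eq_pos_convex_span_of_mem_convexHull hx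
  have hcard : Fintype.card ι ≤ Fintype.card (Fin (d + 1)) := by
    rw [Fintype.card_fin]
    refine h2.card_le_finrank_succ.trans ?_
    have := Submodule.finrank_le (vectorSpan ℝ (Set.range z))
    rw [Module.finrank_fin_fun] at this
    omega
  obtain ⟨e⟩ := Function.Embedding.nonempty_of_card_le hcard
  exact ⟨ι, hι, z, w, e, h1, h2.injective, h3, h4, h5⟩

/-- The convex hull of a compact set is compact. -/
theorem isCompact_convexHull_fin {d : ℕ} {s : Set (Fin d → ℝ)} (hs : IsCompact s) :
    IsCompact (convexHull ℝ s) := by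
  rcases s.eq_empty_or_nonempty with rfl | ⟨s0, hs0⟩
  · simp
  have key : convexHull ℝ s = (fun p : (Fin (d + 1) → ℝ) × (Fin (d + 1) → Fin d → ℝ) =>
      ∑ i, p.1 i • p.2 i) '' (stdSimplex ℝ (Fin (d + 1)) ×ˢ Set.pi Set.univ (fun _ => s)) := by
    apply Set.Subset.antisymm
    · intro x hx
      obtain ⟨ι, hι, z, w, e, h1, h2, h3, h4, h5⟩ := mem_convexHull_fin hx
      refine ⟨(Function.extend e w 0, Function.extend e z (fun _ => s0)), ⟨⟨?_, ?_⟩, ?_⟩, ?_⟩
      · intro i
        by_cases hi : ∃ j, e j = i
        · obtain ⟨j, rfl⟩ := hi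
          simp only [e.injective.extend_apply]
          exact (h3 j).le
        · simp only [Function.extend_apply' _ _ _ hi, Pi.zero_apply]
          exact le_rfl
      · rw [← h4]
        symm
        refine Fintype.sum_of_injective e e.injective _ _ ?_ ?_
        · intro i hi
          exact Function.extend_apply' _ _ _ hi
        · intro i
          exact (e.injective.extend_apply _ _ _).symm
      · intro i _
        by_cases hi : ∃ j, e j = i
        · obtain ⟨j, rfl⟩ := hi
          simp only [e.injective.extend_apply]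
          exact h1 ⟨j, rfl⟩
        · simp only [Function.extend_apply' _ _ _ hi]
          exact hs0
      · rw [← h5]
        symm
        refine Fintype.sum_of_injective e e.injective _ _ ?_ ?_
        · intro i hi
          simp only [Function.extend_apply' _ _ _ hi, Pi.zero_apply, zero_smul]
        · intro i
          simp only [e.injective.extend_apply]
    · rintro _ ⟨p, ⟨⟨hp1, hp2⟩, hp3⟩, rfl⟩
      exact (convex_convexHull ℝ s).sum_mem (fun i _ => hp1 i) hp2
        (fun i _ => subset_convexHull ℝ s (hp3 i (Set.mem_univ i)))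
  rw [key]
  refine ((isCompact_stdSimplex ℝ (Fin (d + 1))).prod (isCompact_univ_pi fun _ => hs)).image ?_
  refine continuous_finsetSum _ fun i _ => ?_
  exact ((continuous_apply i).comp continuous_fst).smul ((continuous_apply i).comp continuous_snd)

end Pool.Agent.IsoPt
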