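import Pool.Agent.Lib.IsoPt.Pert

/-!
# Charts for the Lagrange system

For a number `k` of points and a linear form `uf N`, a solution of the system is coded, together with
the parameters that are not solved for, by one vector `z : PIdx n m → ℝ`.
-/

set_option autoImplicit false

namespace Pool.Agent.IsoPt

open MvPolynomial

variable {n m : ℕ}

section

variable (k : ℕ) (hk : k ≤ n + 1) (N : Fin (numForms n m))

/-- the `x` coordinates of a code -/
def xz (z : PIdx n m → ℝ) : Fin n → ℝ := fun l => z (Sum.inr l)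

/-- the `y` coordinates of a code -/
def yz (z : PIdx n m → ℝ) (i : Fin k) (j : Fin m) : ℝ :=
  z (Sum.inl (N, ⟨i, by have := i.2; omega⟩, if (j : ℕ) = 0 then none else some j))

/-- the value coordinate of a code -/
def vz (z : PIdx n m → ℝ) : ℝ := z (Sum.inl (N, ⟨k, by omega⟩, none))

/-- the free multiplier coordinates of a code -/
noncomputable def lz0 (z : PIdx n m → ℝ) (i : Fin k) : ℝ :=
  if (i : ℕ) = 0 then 0 else z (Sum.inl (N, ⟨k + i, by have := i.2; omega⟩, none))

/-- the multiplier coordinates of a code -/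
noncomputable def lz (z : PIdx n m → ℝ) (i : Fin k) : ℝ :=
  (if (i : ℕ) = 0 then 1 - ∑ i', lz0 k hk N z i' else 0) + lz0 k hk N z i

theorem sum_lz (hk0 : 0 < k) (z : PIdx n m → ℝ) : ∑ i, lz k hk N z i = 1 := by
  unfold lz
  rw [Finset.sum_add_distrib]
  have : ∑ i : Fin k, (if (i : ℕ) = 0 then 1 - ∑ i', lz0 k hk N z i' else 0) =
      1 - ∑ i', lz0 k hk N z i' := by
    rw [Finset.sum_eq_single (⟨0, hk0⟩ : Fin k)]
    · simp
    · intro i _ hi
      rw [if_neg]
      intro h
      exact hi (Fin.ext h)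
    · intro h
      exact absurd (Finset.mem_univ _) h
  rw [this]
  ring

/-- Index type of the equations. -/
abbrev EIdx (n m k : ℕ) : Type := Fin k ⊕ (Fin k × Fin m) ⊕ Fin n

/-- The left hand sides of the equations, as functionals of the polynomial. -/
noncomputable def EE (z : PIdx n m → ℝ) (κ : EIdx n m k) (g : MvPolynomial (Fin n ⊕ Fin m) ℝ) : ℝ :=
  match κ with
  | Sum.inl i => ev g (xz z) (yz k hk N z i)
  | Sum.inr (Sum.inl (i, j)) => ev (pderiv (Sum.inr j) g) (xz z) (yz k hk N z i)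
  | Sum.inr (Sum.inr l) =>
      ∑ i, lz k hk N z i * ev (pderiv (Sum.inl l) g) (xz z) (yz k hk N z i)

/-- The right hand sides of the equations. -/
noncomputable def TT (z : PIdx n m → ℝ) (κ : EIdx n m k) : ℝ :=
  match κ with
  | Sum.inl _ => vz k hk N z
  | Sum.inr _ => 0

/-- Which equation is attached to a parameter. -/
def kind (hm : 0 < m) (p : PIdx n m) : Option (EIdx n m k) :=
  match p with
  | Sum.inr l => some (Sum.inr (Sum.inr l))
  | Sum.inl (N', r, none) =>
      if N' = N then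
        (if h : (r : ℕ) < k then some (Sum.inl ⟨r, h⟩)
        else if h2 : (r : ℕ) - k < k then some (Sum.inr (Sum.inl (⟨(r : ℕ) - k, h2⟩, ⟨0, hm⟩)))
        else none)
      else none
  | Sum.inl (N', r, some j) =>
      if h : N' = N ∧ (r : ℕ) < k ∧ (j : ℕ) ≠ 0 then some (Sum.inr (Sum.inl (⟨r, h.2.1⟩, j)))
      else none

/-- The matrix of the linear system. -/
noncomputable def MM (hm : 0 < m) (η : ℝ) (z : PIdx n m → ℝ) : Matrix (PIdx n m) (PIdx n m) ℝ :=
  fun p p' => match kind k N hm p with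
    | none => if p = p' then 1 else 0
    | some κ => η * EE k hk N z κ (phi n m p')

/-- The right hand side of the linear system. -/
noncomputable def rr (hm : 0 < m) (f0 : MvPolynomial (Fin n ⊕ Fin m) ℝ) (z : PIdx n m → ℝ) :
    PIdx n m → ℝ :=
  fun p => match kind k N hm p with
    | none => z p
    | some κ => TT k hk N z κ - EE k hk N z κ f0

theorem polyLE_yz (i : Fin k) (j : Fin m) : PolyLE 1 (fun z : PIdx n m → ℝ => yz k hk N z i j) :=
  PolyLE.coord _

theorem polyLE_lz0 (i : Fin k) : PolyLE 1 (fun z : PIdx n m → ℝ => lz0 k hk N z i) := by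
  unfold lz0
  by_cases h : (i : ℕ) = 0
  · simp only [h, if_true]
    exact PolyLE.const 1 0
  · simp only [h, if_false]
    exact PolyLE.coord _

theorem polyLE_lz (i : Fin k) : PolyLE 1 (fun z : PIdx n m → ℝ => lz k hk N z i) := by
  unfold lz
  refine PolyLE.add ?_ (polyLE_lz0 k hk N i)
  by_cases h : (i : ℕ) = 0
  · simp only [h, if_true]
    exact (PolyLE.const 1 1).sub (PolyLE.sum _ _ fun i' _ => polyLE_lz0 k hk N i')
  · simp only [h, if_false]
    exact PolyLE.const 1 0

theorem polyLE_ev (g : MvPolynomial (Fin n ⊕ Fin m) ℝ) (i : Fin k) :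
    PolyLE g.totalDegree (fun z : PIdx n m → ℝ => ev g (xz z) (yz k hk N z i)) := by
  have := PolyLE.aeval g (fun (s : Fin n ⊕ Fin m) (z : PIdx n m → ℝ) =>
    Sum.elim (xz z) (yz k hk N z i) s) (by
      rintro (l | j)
      · exact PolyLE.coord _
      · exact polyLE_yz k hk N i j)
  exact this

theorem polyLE_EE (κ : EIdx n m k) (g : MvPolynomial (Fin n ⊕ Fin m) ℝ) :
    PolyLE (g.totalDegree + 1) (fun z : PIdx n m → ℝ => EE k hk N z κ g) := by
  rcases κ with i | ⟨i, j⟩ | l
  · exact (polyLE_ev k hk N g i).mono (Nat.le_succ _)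
  · exact (polyLE_ev k hk N _ i).mono ((totalDegree_pderiv_le' _ _).trans (Nat.le_succ _))
  · refine PolyLE.sum _ _ fun i _ => ?_
    refine ((polyLE_lz k hk N i).mul (polyLE_ev k hk N _ i)).mono ?_
    rw [add_comm]
    exact Nat.add_le_add_right (totalDegree_pderiv_le' _ _) 1

theorem polyLE_MM (hm : 0 < m) (η : ℝ) (p p' : PIdx n m) :
    PolyLE (2 * n + 3) (fun z : PIdx n m → ℝ => MM k hk N hm η z p p') := by
  unfold MM
  rcases kind k N hm p with _ | κ
  · exact PolyLE.const _ _
  · refine PolyLE.const_mul _ ((polyLE_EE k hk N κ _).mono ?_)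
    have := totalDegree_phi p'
    omega

theorem polyLE_rr (hm : 0 < m) (f0 : MvPolynomial (Fin n ⊕ Fin m) ℝ) (p : PIdx n m) :
    PolyLE (f0.totalDegree + 1) (fun z : PIdx n m → ℝ => rr k hk N hm f0 z p) := by
  unfold rr
  rcases kind k N hm p with _ | κ
  · exact (PolyLE.coord _).mono (Nat.le_add_left _ _)
  · refine PolyLE.sub ?_ (polyLE_EE k hk N κ _)
    rcases κ with i | κ
    · exact (PolyLE.coord _).mono (Nat.le_add_left _ _)
    · exact PolyLE.const _ _

theorem EE_add (z : PIdx n m → ℝ) (κ : EIdx n m k) (f g : MvPolynomial (Fin n ⊕ Fin m) ℝ) :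
    EE k hk N z κ (f + g) = EE k hk N z κ f + EE k hk N z κ g := by
  rcases κ with i | ⟨i, j⟩ | l
  · simp only [EE, ev, map_add]
  · simp only [EE, ev, map_add]
  · simp only [EE, ev, map_add, mul_add, Finset.sum_add_distrib]

theorem EE_C_mul (z : PIdx n m → ℝ) (κ : EIdx n m k) (c : ℝ)
    (g : MvPolynomial (Fin n ⊕ Fin m) ℝ) :
    EE k hk N z κ (C c * g) = c * EE k hk N z κ g := by
  rcases κ with i | ⟨i, j⟩ | l
  · simp only [EE, ev, map_mul, aeval_C, Algebra.algebraMap_self, RingHom.id_apply]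
  · simp only [EE, ev, pderiv_C_mul, map_mul, aeval_C, Algebra.algebraMap_self, RingHom.id_apply]
  · simp only [EE, ev, pderiv_C_mul, map_mul, aeval_C, Algebra.algebraMap_self, RingHom.id_apply,
      Finset.mul_sum]
    refine Finset.sum_congr rfl fun i _ => ?_
    ring

theorem EE_sum {κ' : Type*} (s : Finset κ') (z : PIdx n m → ℝ) (κ : EIdx n m k)
    (G : κ' → MvPolynomial (Fin n ⊕ Fin m) ℝ) :
    EE k hk N z κ (∑ a ∈ s, G a) = ∑ a ∈ s, EE k hk N z κ (G a) := by
  classical
  induction s using Finset.induction_on with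
  | empty =>
    have := EE_C_mul k hk N z κ 0 0
    simpa using this
  | insert a s ha ih => rw [Finset.sum_insert ha, Finset.sum_insert ha, EE_add, ih]

theorem EE_pert (z : PIdx n m → ℝ) (κ : EIdx n m k) (θ : PIdx n m → ℝ) :
    EE k hk N z κ (pert n m θ) = ∑ p, θ p * EE k hk N z κ (phi n m p) := by
  rw [pert_eq, EE_sum]
  exact Finset.sum_congr rfl fun p _ => EE_C_mul k hk N z κ _ _

open Matrix in
theorem MM_mulVec (hm : 0 < m) (η : ℝ) (z θ : PIdx n m → ℝ) (p : PIdx n m) :
    (MM k hk N hm η z *ᵥ θ) p = match kind k N hm p with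
      | none => θ p
      | some κ => η * EE k hk N z κ (pert n m θ) := by
  unfold MM
  rw [mulVec, dotProduct]
  rcases hkind : kind k N hm p with _ | κ
  · simp
  · simp only
    rw [EE_pert, Finset.mul_sum]
    refine Finset.sum_congr rfl fun p' _ => ?_
    ring

open Matrix in
/-- The linear system in the parameters. -/
theorem MM_mulVec_eq_iff (hm : 0 < m) (η : ℝ) (f0 : MvPolynomial (Fin n ⊕ Fin m) ℝ)
    (z θ : PIdx n m → ℝ) (h1 : ∀ p, kind k N hm p = none → θ p = z p)
    (h2 : ∀ κ, EE k hk N z κ (f0 + C η * pert n m θ) = TT k hk N z κ) :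
    MM k hk N hm η z *ᵥ θ = rr k hk N hm f0 z := by
  funext p
  rw [MM_mulVec]
  unfold rr
  rcases hkind : kind k N hm p with _ | κ
  · exact h1 p hkind
  · have := h2 κ
    rw [EE_add, EE_C_mul] at this
    simp only
    linarith

end

end Pool.Agent.IsoPt
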