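import Pool.Agent.Lib.IsoPt.FoldPT

/-!
# Combinators for building terms and formulas, with their values and polynomial time bounds
-/

set_option autoImplicit false

namespace Pool.Agent.IsoPt

open Pool.Agent.PolyTime

section

variable {V : Type}

/-- sum of a list of terms -/
def sumT (l : List (Tm V)) : Tm V := l.foldr Tm.add Tm.zero

/-- `a₀ + q (a₁ + q (a₂ + ...))` -/
def horner (q : Tm V) (l : List (Tm V)) : Tm V := l.foldr (fun a acc => Tm.add a (Tm.mul q acc)) Tm.zero

/-- power of a term with a unary exponent -/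
def powT (q : Tm V) (u : List Unit) : Tm V := u.foldr (fun _ acc => Tm.mul q acc) Tm.one

/-- the numeral of a natural number, through its binary digits -/
def numT (N : ℕ) : Tm V :=
  horner (Tm.add Tm.one Tm.one) (N.bits.map fun b => bif b then Tm.one else Tm.zero)

/-- conjunction of a list of formulas -/
def conj (l : List (Fm V)) : Fm V := l.foldr Fm.and (Fm.eq Tm.zero Tm.zero)

/-- square -/
def sqT (t : Tm V) : Tm V := Tm.mul t t

@[simp] lemma sumT_nil : sumT ([] : List (Tm V)) = Tm.zero := rfl
@[simp] lemma sumT_cons (a : Tm V) (l : List (Tm V)) : sumT (a :: l) = Tm.add a (sumT l) := rfl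
@[simp] lemma horner_nil (q : Tm V) : horner q [] = Tm.zero := rfl
@[simp] lemma horner_cons (q a : Tm V) (l : List (Tm V)) :
    horner q (a :: l) = Tm.add a (Tm.mul q (horner q l)) := rfl
@[simp] lemma powT_nil (q : Tm V) : powT q [] = Tm.one := rfl
@[simp] lemma powT_cons (q : Tm V) (a : Unit) (l : List Unit) :
    powT q (a :: l) = Tm.mul q (powT q l) := rfl
@[simp] lemma conj_nil : conj ([] : List (Fm V)) = Fm.eq Tm.zero Tm.zero := rfl
@[simp] lemma conj_cons (a : Fm V) (l : List (Fm V)) : conj (a :: l) = Fm.and a (conj l) := rfl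

lemma post_sumT (l : List (Tm V)) :
    (sumT l).post = l.flatMap Tm.post ++ (Sum.inr 0 :: l.map fun _ => Sum.inr 2) := by
  induction l with
  | nil => rfl
  | cons a l ih =>
    have h : ∀ l : List (Tm V), (l.map fun _ => (Sum.inr 2 : V ⊕ ℕ)) ++ [Sum.inr 2] =
        Sum.inr 2 :: l.map fun _ => Sum.inr 2 := by
      intro l; induction l with
      | nil => rfl
      | cons b l ih => simp only [List.map_cons, List.cons_append, ih]
    simp only [sumT_cons, Tm.post, ih, List.flatMap_cons, List.map_cons, List.append_assoc,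
      List.cons_append]
    rw [h]

lemma post_horner (q : Tm V) (l : List (Tm V)) :
    (horner q l).post = l.flatMap (fun a => a.post ++ q.post) ++
      (Sum.inr 0 :: l.flatMap fun _ => [Sum.inr 3, Sum.inr 2]) := by
  induction l with
  | nil => rfl
  | cons a l ih =>
    have h : ∀ l : List (Tm V), (l.flatMap fun _ => [(Sum.inr 3 : V ⊕ ℕ), Sum.inr 2]) ++
        [Sum.inr 3, Sum.inr 2] =
        Sum.inr 3 :: Sum.inr 2 :: l.flatMap fun _ => [Sum.inr 3, Sum.inr 2] := by
      intro l; induction l with
      | nil => rfl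
      | cons b l ih => simp at ih; simp [ih]
    simp [Tm.post, ih, h]

lemma post_powT (q : Tm V) (l : List Unit) :
    (powT q l).post = l.flatMap (fun _ => q.post) ++
      (Sum.inr 1 :: l.map fun _ => Sum.inr 3) := by
  induction l with
  | nil => rfl
  | cons a l ih =>
    have h : ∀ l : List Unit, (l.map fun _ => (Sum.inr 3 : V ⊕ ℕ)) ++ [Sum.inr 3] =
        Sum.inr 3 :: l.map fun _ => Sum.inr 3 := by
      intro l; induction l with
      | nil => rfl
      | cons b l ih => simp at ih; simp [ih]
    simp only [powT_cons, Tm.post, ih, List.flatMap_cons, List.map_cons, List.append_assoc,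
      List.cons_append]
    rw [h]

lemma post_conj (l : List (Fm V)) :
    (conj l).post = l.flatMap Fm.post ++
      (Sum.inr 0 :: Sum.inr 0 :: Sum.inr 4 :: l.map fun _ => Sum.inr 7) := by
  induction l with
  | nil => rfl
  | cons a l ih =>
    have h : ∀ l : List (Fm V), (l.map fun _ => (Sum.inr 7 : V ⊕ ℕ)) ++ [Sum.inr 7] =
        Sum.inr 7 :: l.map fun _ => Sum.inr 7 := by
      intro l; induction l with
      | nil => rfl
      | cons b l ih => simp only [List.map_cons, List.cons_append, ih]
    simp only [conj_cons, Fm.post, ih, List.flatMap_cons, List.map_cons, List.append_assoc,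
      List.cons_append]
    rw [h]

section eval

variable {R : Type*} [CommRing R] (v : V → R)

lemma eval_sumT (l : List (Tm V)) : (sumT l).eval v = (l.map fun t => t.eval v).sum := by
  induction l with
  | nil => rfl
  | cons a l ih => simp [Tm.eval, ih]

lemma eval_powT (q : Tm V) (l : List Unit) : (powT q l).eval v = q.eval v ^ l.length := by
  induction l with
  | nil => simp [Tm.eval]
  | cons a l ih => simp [Tm.eval, ih, pow_succ, mul_comm]

lemma eval_horner (q : Tm V) (l : List (Tm V)) : (horner q l).eval v =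
    ∑ i : Fin l.length, q.eval v ^ (i : ℕ) * (l.get i).eval v := by
  induction l with
  | nil => simp [Tm.eval]
  | cons a l ih =>
    rw [horner_cons, Tm.eval, Tm.eval, ih]
    simp only [List.length_cons]
    rw [Fin.sum_univ_succ]
    simp [pow_succ, Finset.mul_sum, mul_comm, mul_assoc]

lemma eval_numT_aux (l : List Bool) : (horner (Tm.add Tm.one Tm.one)
    (l.map fun b => bif b then (Tm.one : Tm V) else Tm.zero)).eval v = (val l : R) := by
  induction l with
  | nil => simp [Tm.eval]
  | cons b l ih =>
    rw [List.map_cons, horner_cons, Tm.eval, Tm.eval, ih, val_cons]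
    cases b <;> simp [Tm.eval] <;> ring

lemma eval_numT (N : ℕ) : (numT N : Tm V).eval v = (N : R) := by
  rw [numT, eval_numT_aux, val_bits]

lemma eval_sqT (t : Tm V) : (sqT t).eval v = t.eval v ^ 2 := by
  simp [sqT, Tm.eval, sq]

end eval

lemma holds_conj (v : V → ℝ) (l : List (Fm V)) : (conj l).holds v ↔ ∀ φ ∈ l, φ.holds v := by
  induction l with
  | nil => simp [Fm.holds]
  | cons a l ih => simp [Fm.holds, ih]

lemma vars_sumT (l : List (Tm V)) : (sumT l).vars = l.flatMap Tm.vars := by
  induction l with
  | nil => rfl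
  | cons a l ih => simp [Tm.vars, ih]

lemma mem_vars_horner (q : Tm V) (l : List (Tm V)) {x : V} (h : x ∈ (horner q l).vars) :
    x ∈ q.vars ∨ ∃ a ∈ l, x ∈ a.vars := by
  induction l with
  | nil => simp [Tm.vars] at h
  | cons a l ih =>
    simp only [horner_cons, Tm.vars, List.mem_append] at h
    rcases h with h | h | h
    · exact Or.inr ⟨a, by simp, h⟩
    · exact Or.inl h
    · rcases ih h with h | ⟨b, hb, h⟩
      · exact Or.inl h
      · exact Or.inr ⟨b, by simp [hb], h⟩

lemma vars_numT (N : ℕ) : (numT N : Tm V).vars = [] := by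
  rw [List.eq_nil_iff_forall_not_mem]
  intro x hx
  rcases mem_vars_horner _ _ hx with h | ⟨a, ha, h⟩
  · simp [Tm.vars] at h
  · obtain ⟨b, -, rfl⟩ := List.mem_map.1 ha
    cases b <;> simp [Tm.vars] at h

lemma mem_vars_powT (q : Tm V) (l : List Unit) {x : V} (h : x ∈ (powT q l).vars) : x ∈ q.vars := by
  induction l with
  | nil => simp [Tm.vars] at h
  | cons a l ih =>
    simp only [powT_cons, Tm.vars, List.mem_append] at h
    exact h.elim id ih

lemma vars_conj (l : List (Fm V)) : (conj l).vars = l.flatMap Fm.vars := by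
  induction l with
  | nil => rfl
  | cons a l ih => simp [Fm.vars, ih]

end

section PTlemmas

variable {α V : Type} [Enc α] [Enc V]

@[fun_prop] lemma PT.tmFlat {l : α → List (Tm V)} (hl : PT l) :
    PT fun a => (l a).flatMap Tm.post :=
  PT.flatMap (f := fun _ t => Tm.post t) (by fun_prop) hl

@[fun_prop] lemma PT.fmFlat {l : α → List (Fm V)} (hl : PT l) :
    PT fun a => (l a).flatMap Fm.post :=
  PT.flatMap (f := fun _ t => Fm.post t) (by fun_prop) hl

@[fun_prop] lemma PT.sumT {l : α → List (Tm V)} (hl : PT l) : PT fun a => sumT (l a) := by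
  apply PT.ofTmPost
  simp only [post_sumT]
  have h : PT fun a => (l a).map fun _ => (Sum.inr 2 : V ⊕ ℕ) :=
    PT.map (f := fun _ _ => Sum.inr 2) (by fun_prop) hl
  fun_prop

lemma PT.horner {q : α → Tm V} {l : α → List (Tm V)} (hq : PT q) (hl : PT l) :
    PT fun a => horner (q a) (l a) := by
  apply PT.ofTmPost
  simp only [post_horner]
  have h : PT fun a => (l a).flatMap fun _ => [(Sum.inr 3 : V ⊕ ℕ), Sum.inr 2] :=
    PT.flatMap (f := fun _ _ => [Sum.inr 3, Sum.inr 2]) (by fun_prop) hl
  have h' : PT fun a => (l a).flatMap fun t => t.post ++ (q a).post :=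
    PT.flatMap (f := fun a t => t.post ++ (q a).post)
      (PT.append (by fun_prop) (PT.tmPost (hq.comp PT.fst'))) hl
  fun_prop

lemma PT.powT {q : α → Tm V} {l : α → List Unit} (hq : PT q) (hl : PT l) :
    PT fun a => powT (q a) (l a) := by
  apply PT.ofTmPost
  simp only [post_powT]
  have h : PT fun a => (l a).map fun _ => (Sum.inr 3 : V ⊕ ℕ) :=
    PT.map (f := fun _ _ => Sum.inr 3) (by fun_prop) hl
  have h' : PT fun a => (l a).flatMap fun _ => (q a).post :=
    PT.flatMap (f := fun a _ => (q a).post) (PT.tmPost (hq.comp PT.fst')) hl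
  fun_prop

@[fun_prop] lemma PT.numT {N : α → ℕ} (hN : PT N) : PT fun a => (numT (N a) : Tm V) := by
  unfold IsoPt.numT
  refine PT.horner (PT.const _) (PT.map (f := fun _ b => bif b then Tm.one else Tm.zero) ?_
    (by fun_prop))
  exact PT.bif (by fun_prop) (PT.const _) (PT.const _)

@[fun_prop] lemma PT.conj {l : α → List (Fm V)} (hl : PT l) : PT fun a => conj (l a) := by
  apply PT.ofFmPost
  simp only [post_conj]
  have h : PT fun a => (l a).map fun _ => (Sum.inr 7 : V ⊕ ℕ) :=
    PT.map (f := fun _ _ => Sum.inr 7) (by fun_prop) hl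
  fun_prop

@[fun_prop] lemma PT.sqT {l : α → Tm V} (hl : PT l) : PT fun a => sqT (l a) := PT.tmMul hl hl

/-- variables of a formula -/
@[fun_prop] lemma PT.fmVars {φ : α → Fm V} (hφ : PT φ) : PT fun a => (φ a).vars := by
  simp only [Fm.vars_eq]
  have h : ∀ l : List (V ⊕ ℕ), l.filterMap Sum.getLeft? =
      l.flatMap fun t : V ⊕ ℕ => match t with | Sum.inl v => [v] | Sum.inr _ => [] := by
    intro l
    induction l with
    | nil => rfl
    | cons a l ih =>
      rcases a with v | k
      · simp [ih]
      · rw [List.flatMap_cons, ← ih, List.filterMap_cons]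
        rfl
  simp only [h]
  refine PT.flatMap (f := fun (_ : α) (t : V ⊕ ℕ) => match t with
    | Sum.inl v => [v] | Sum.inr _ => []) ?_ (by fun_prop)
  refine PT.congr (PT.sumCases (o := fun p : α × (V ⊕ ℕ) => p.2) (f := fun _ v => [v])
    (g := fun _ _ => ([] : List V)) (by fun_prop) (by fun_prop) (PT.const _)) fun p => ?_
  rcases p with ⟨a, v | k⟩ <;> rfl

end PTlemmas

end Pool.Agent.IsoPt
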