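import Pool.Agent.Lib.IsoPt.Terms

/-!
# The decision problems
-/

set_option autoImplicit false

namespace Pool.Agent.IsoPt

/-- Instances of ISOLATED-POINT-EXISTENCE: a quantifier free formula in the variables
`x_0, ..., x_(N-1)`. -/
structure Inst where
  N : ℕ
  φ : Fm (Fin N)

/-- The semialgebraic set defined by an instance. -/
def Inst.set (I : Inst) : Set (EuclideanSpace ℝ (Fin I.N)) := {z | I.φ.holds fun i => z i}

/-- The semialgebraic set has an isolated point. -/
def Inst.yes (I : Inst) : Prop := ∃ x ∈ I.set, ∃ ε > 0, Metric.ball x ε ∩ I.set = {x}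

/-- Sentences `∃ x ∈ ℝ^k, ∀ y ∈ ℝ^m, ψ (x, y)` with `ψ` quantifier free. -/
structure Sent where
  k : ℕ
  m : ℕ
  ψ : Fm (Fin k ⊕ Fin m)

/-- The sentence is true. -/
def Sent.yes (s : Sent) : Prop :=
  ∃ x : Fin s.k → ℝ, ∀ y : Fin s.m → ℝ, s.ψ.holds (Sum.elim x y)

end Pool.Agent.IsoPt
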