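import Pool.Agent.Lib.IsoPt.Iso
import Pool.Agent.Lib.IsoPt.Problem

/-!
# Renaming the variables of a formula to `x_0, ..., x_(N-1)`
-/

set_option autoImplicit false

namespace Pool.Agent.IsoPt

/-- Rename the variables. -/
def compact {V : Type} [DecidableEq V] (Φ : Fm V) : Inst :=
  ⟨Φ.vars.dedup.length - 1 + 1,
    Φ.map fun v => Fin.ofNat (Φ.vars.dedup.length - 1 + 1) (Φ.vars.dedup.idxOf v)⟩

lemma compact_yes {V : Type} [DecidableEq V] (Φ : Fm V) (hne : Φ.vars ≠ []) :
    (compact Φ).yes ↔ ∃ ρ : V → ℝ, IsoSol Φ ρ := by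
  set names := Φ.vars.dedup with hnames
  have hmem : ∀ v, v ∈ names ↔ v ∈ Φ.vars := fun v => List.mem_dedup
  have hlen : names.length - 1 + 1 = names.length := by
    have : names ≠ [] := by
      obtain ⟨v, hv⟩ := List.exists_mem_of_ne_nil _ hne
      exact List.ne_nil_of_mem ((hmem v).2 hv)
    have := List.length_pos_iff.2 this
    omega
  set N := names.length - 1 + 1 with hN
  have hnodup : names.Nodup := List.nodup_dedup _
  let f : V → Fin N := fun v => Fin.ofNat N (names.idxOf v)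
  let nm : Fin N → V := fun i => names[(i : ℕ)]'(hlen ▸ i.2)
  have hnm : ∀ i, nm i ∈ Φ.vars := fun i => (hmem _).1 (List.getElem_mem _)
  have hfn : ∀ i, f (nm i) = i := by
    intro i
    apply Fin.ext
    simp only [f, nm, Fin.val_ofNat]
    rw [hnodup.idxOf_getElem, Nat.mod_eq_of_lt i.2]
  have hnf : ∀ v ∈ Φ.vars, nm (f v) = v := by
    intro v hv
    have hi : names.idxOf v < names.length := List.idxOf_lt_length_iff.2 ((hmem v).2 hv)
    have hi' : names.idxOf v < N := hlen ▸ hi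
    simp only [f, nm, Fin.val_ofNat]
    have : names.idxOf v % N = names.idxOf v := Nat.mod_eq_of_lt hi'
    simp only [this]
    exact List.getElem_idxOf hi
  have hset : ∀ z : EuclideanSpace ℝ (Fin N), z ∈ (compact Φ).set ↔ Φ.holds (fun v => z (f v)) := by
    intro z
    exact Fm.holds_map _ _ _
  have hset' : ∀ ρ : V → ℝ, (WithLp.toLp 2 fun i => ρ (nm i) : EuclideanSpace ℝ (Fin N)) ∈
      (compact Φ).set ↔ Φ.holds ρ := by
    intro ρ
    rw [hset]
    exact Fm.holds_congr fun v hv => by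
      show ρ (nm (f v)) = ρ v
      rw [hnf v hv]
  have hcoord : ∀ (z w : EuclideanSpace ℝ (Fin N)) (i : Fin N), |z i - w i| ≤ dist z w := by
    intro z w i
    rw [dist_eq_norm]
    exact PiLp.norm_apply_le (z - w) i
  have hdist : ∀ (z : EuclideanSpace ℝ (Fin N)) (ε : ℝ), 0 < ε → ∃ δ > 0,
      ∀ w : EuclideanSpace ℝ (Fin N), (∀ i, |w i - z i| < δ) → dist w z < ε := by
    intro z ε hε
    have hcont : Continuous fun f : Fin N → ℝ => (WithLp.toLp 2 f : EuclideanSpace ℝ (Fin N)) :=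
      PiLp.continuous_toLp 2 _
    obtain ⟨δ, hδ, h⟩ := Metric.continuous_iff.1 hcont (fun i => z i) ε hε
    refine ⟨δ, hδ, fun w hw => ?_⟩
    have := h (fun i => w i) ((dist_pi_lt_iff hδ).2 hw)
    exact this
  constructor
  · rintro ⟨z, hz, ε, hε, hball⟩
    refine ⟨fun v => z (f v), (hset z).1 hz, ?_⟩
    obtain ⟨δ, hδ, hd⟩ := hdist z ε hε
    refine ⟨δ, hδ, fun ρ' hρ' hclose v hv => ?_⟩
    have h1 : (WithLp.toLp 2 fun i => ρ' (nm i) : EuclideanSpace ℝ (Fin N)) ∈
        Metric.ball z ε ∩ (compact Φ).set := by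
      refine ⟨hd _ fun i => ?_, (hset' ρ').2 hρ'⟩
      have := hclose (nm i) (hnm i)
      simp only [hfn] at this
      exact this
    rw [hball] at h1
    have h2 : (WithLp.toLp 2 fun i => ρ' (nm i) : EuclideanSpace ℝ (Fin N)) = z := h1
    rw [← h2]
    show ρ' v = ρ' (nm (f v))
    rw [hnf v hv]
  · rintro ⟨ρ, hρ, ε, hε, hiso⟩
    refine ⟨WithLp.toLp 2 fun i => ρ (nm i), (hset' ρ).2 hρ, ε, hε, ?_⟩
    apply Set.eq_singleton_iff_unique_mem.2
    refine ⟨⟨Metric.mem_ball_self hε, (hset' ρ).2 hρ⟩, ?_⟩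
    rintro w ⟨hw, hws⟩
    have h1 := hiso (fun v => w (f v)) ((hset w).1 hws) (fun v hv => by
      have h2 := hcoord w (WithLp.toLp 2 fun i => ρ (nm i)) (f v)
      have h3 : (WithLp.toLp 2 fun i => ρ (nm i) : EuclideanSpace ℝ (Fin N)) (f v) = ρ v := by
        show ρ (nm (f v)) = ρ v
        rw [hnf v hv]
      rw [h3] at h2
      exact lt_of_le_of_lt h2 hw)
    ext i
    have h4 := h1 (nm i) (hnm i)
    exact (congrArg (fun k => w k) (hfn i)).symm.trans h4

end Pool.Agent.IsoPt
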