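import Pool.Agent.Lib.IsoPt.Normal

/-!
# The solutions of the formula `Phi`
-/

set_option autoImplicit false

namespace Pool.Agent.IsoPt

open Pool.Agent.PolyTime MvPolynomial

lemma Tm.eval_hom {V : Type} {R S : Type*} [CommRing R] [CommRing S] (f : R →+* S) (v : V → R)
    (t : Tm V) : f (t.eval v) = t.eval (fun i => f (v i)) := by
  induction t with
  | var v => rfl
  | zero => simp [Tm.eval]
  | one => simp [Tm.eval]
  | add a b iha ihb => simp [Tm.eval, iha, ihb]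
  | mul a b iha ihb => simp [Tm.eval, iha, ihb]

section ev

variable {n m : ℕ}

lemma ev_add (f g : MvPolynomial (Fin n ⊕ Fin m) ℝ) (x : Fin n → ℝ) (y : Fin m → ℝ) :
    ev (f + g) x y = ev f x y + ev g x y := by simp [ev]
lemma ev_mul (f g : MvPolynomial (Fin n ⊕ Fin m) ℝ) (x : Fin n → ℝ) (y : Fin m → ℝ) :
    ev (f * g) x y = ev f x y * ev g x y := by simp [ev]
@[simp] lemma ev_zero (x : Fin n → ℝ) (y : Fin m → ℝ) :
    ev (0 : MvPolynomial (Fin n ⊕ Fin m) ℝ) x y = 0 := by simp [ev]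
@[simp] lemma ev_one (x : Fin n → ℝ) (y : Fin m → ℝ) :
    ev (1 : MvPolynomial (Fin n ⊕ Fin m) ℝ) x y = 1 := by simp [ev]
@[simp] lemma ev_C (a : ℝ) (x : Fin n → ℝ) (y : Fin m → ℝ) :
    ev (C a : MvPolynomial (Fin n ⊕ Fin m) ℝ) x y = a := by simp [ev]
@[simp] lemma ev_inl (l : Fin n) (x : Fin n → ℝ) (y : Fin m → ℝ) :
    ev (X (Sum.inl l) : MvPolynomial (Fin n ⊕ Fin m) ℝ) x y = x l := by simp [ev]
@[simp] lemma ev_inr (j : Fin m) (x : Fin n → ℝ) (y : Fin m → ℝ) :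
    ev (X (Sum.inr j) : MvPolynomial (Fin n ⊕ Fin m) ℝ) x y = y j := by simp [ev]

end ev

/-- The inputs as polynomials. -/
noncomputable def uP (n m : ℕ) (β : Nm → ℝ) : Nm → MvPolynomial (Fin n ⊕ Fin m) ℝ
  | [0, l] => if h : l < n then X (Sum.inl ⟨l, h⟩) else 0
  | [1, j] => if h : j < m then X (Sum.inr ⟨j, h⟩) else 0
  | [3] => C (1 / 2)
  | [4] => -1
  | nm => C (β nm)

/-- Partial derivative in the direction given by a name. -/
noncomputable def dP (n m : ℕ) : Nm → MvPolynomial (Fin n ⊕ Fin m) ℝ →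
    MvPolynomial (Fin n ⊕ Fin m) ℝ
  | [0, l], f => if h : l < n then pderiv (Sum.inl ⟨l, h⟩) f else 0
  | [1, j], f => if h : j < m then pderiv (Sum.inr ⟨j, h⟩) f else 0
  | _, _ => 0

/-- The polynomial represented by a term. -/
noncomputable def pol (n m : ℕ) (β : Nm → ℝ) (e : TN) : MvPolynomial (Fin n ⊕ Fin m) ℝ :=
  e.eval (cl m (uP n m β))

section pol

variable {n m : ℕ} (β : Nm → ℝ)

lemma pol_zero : pol n m β .zero = 0 := rfl
lemma pol_one : pol n m β .one = 1 := rfl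
lemma pol_add (a b : TN) : pol n m β (.add a b) = pol n m β a + pol n m β b := rfl
lemma pol_mul (a b : TN) : pol n m β (.mul a b) = pol n m β a * pol n m β b := rfl
lemma pol_X (l : Fin n) : pol n m β (.var [0, (l : ℕ)]) = X (Sum.inl l) := by
  show uP n m β [0, (l : ℕ)] = _
  simp [uP]
lemma pol_Y (j : Fin m) : pol n m β (.var [1, (j : ℕ)]) = X (Sum.inr j) := by
  show uP n m β [1, (j : ℕ)] = _
  simp [uP]
lemma pol_3 : pol n m β (.var [3]) = C (1 / 2) := rfl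
lemma pol_4 : pol n m β (.var [4]) = -1 := rfl
lemma pol_20 (N r j b : ℕ) : pol n m β (.var [2, 0, N, r, j, b]) = C (β [2, 0, N, r, j, b]) := rfl
lemma pol_21 (l b : ℕ) : pol n m β (.var [2, 1, l, b]) = C (β [2, 1, l, b]) := rfl
lemma pol_bit {p : Par} {nm : Nm} (h : nm ∈ bitNames p) : pol n m β (.var nm) = C (β nm) := by
  simp only [bitNames, List.mem_append, List.mem_flatMap, List.mem_map] at h
  rcases h with ⟨N, -, r, -, j, -, b, -, rfl⟩ | ⟨l, -, b, -, rfl⟩ <;> rfl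

lemma pol_asg {p : Par} {nb T : ℕ} (hp : p.Ok n m nb T) {nm : Nm} {e : TN} (h : (nm, e) ∈ asg p) :
    pol n m β (.var nm) = pol n m β e := cl_asg hp (uP n m β) (nm, e) h

lemma bit_ne {p : Par} {nm : Nm} (h : nm ∈ bitNames p) (t l : ℕ) : nm ≠ [t, l] := by
  simp only [bitNames, List.mem_append, List.mem_flatMap, List.mem_map] at h
  rcases h with ⟨N, -, r, -, j, -, b, -, rfl⟩ | ⟨l, -, b, -, rfl⟩ <;> simp

lemma dP_add (d : Nm) (f g : MvPolynomial (Fin n ⊕ Fin m) ℝ) :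
    dP n m d (f + g) = dP n m d f + dP n m d g := by
  unfold dP
  split
  · split_ifs <;> simp
  · split_ifs <;> simp
  · simp

lemma dP_mul (d : Nm) (f g : MvPolynomial (Fin n ⊕ Fin m) ℝ) :
    dP n m d (f * g) = dP n m d f * g + f * dP n m d g := by
  unfold dP
  split
  · split_ifs
    · rw [Derivation.leibniz]; simp; ring
    · simp
  · split_ifs
    · rw [Derivation.leibniz]; simp; ring
    · simp
  · simp

lemma dP_C (d : Nm) (a : ℝ) : dP n m d (C a) = 0 := by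
  unfold dP
  split
  · split_ifs <;> simp
  · split_ifs <;> simp
  · rfl

lemma dP_zero (d : Nm) : dP n m d 0 = 0 := by simpa using dP_C (n := n) (m := m) d 0
lemma dP_one (d : Nm) : dP n m d 1 = 0 := by simpa using dP_C (n := n) (m := m) d 1
lemma dP_neg_one (d : Nm) : dP n m d (-1) = 0 := by simpa using dP_C (n := n) (m := m) d (-1)

end pol

/-- Derivatives of the inputs. -/
lemma dP_input {p : Par} {n m nb T : ℕ} (hp : p.Ok n m nb T) (β : Nm → ℝ) {d : Nm}
    (hd : d ∈ dirs p) {nm : Nm} (hnm : nm ∈ inNames p) :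
    dP n m d (pol n m β (.var nm)) = if nm = d then 1 else 0 := by
  simp only [dirs, hp.hns, hp.hms, List.mem_append, List.mem_map, List.mem_range] at hd
  simp only [inNames, parNames, hp.hns, hp.hms, List.mem_append, List.mem_map, List.mem_range,
    List.mem_cons] at hnm
  rcases hnm with ⟨j, hj, rfl⟩ | rfl | rfl | ⟨l, hl, rfl⟩ | hb
  · rw [pol_Y β ⟨j, hj⟩]
    rcases hd with ⟨l, hl, rfl⟩ | ⟨j', hj', rfl⟩
    · simp [dP, hl, pderiv_X]
    · simp only [dP, hj', dif_pos, pderiv_X, Pi.single_apply, Sum.inr.injEq, Fin.mk.injEq]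
      by_cases h : j = j'
      · simp [h]
      · simp [h]
  · rw [pol_3, dP_C]
    rcases hd with ⟨l, hl, rfl⟩ | ⟨j', hj', rfl⟩ <;> simp
  · rw [pol_4, dP_neg_one]
    rcases hd with ⟨l, hl, rfl⟩ | ⟨j', hj', rfl⟩ <;> simp
  · rw [pol_X β ⟨l, hl⟩]
    rcases hd with ⟨l', hl', rfl⟩ | ⟨j', hj', rfl⟩
    · simp only [dP, hl', dif_pos, pderiv_X, Pi.single_apply, Sum.inl.injEq, Fin.mk.injEq]
      by_cases h : l = l'
      · simp [h]
      · simp [h]
    · simp [dP, hj', pderiv_X]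
  · rw [pol_bit β hb, dP_C]
    have := bit_ne hb
    rcases hd with ⟨l, hl, rfl⟩ | ⟨j', hj', rfl⟩ <;> simp [this]

/-- The standard solutions. -/
noncomputable def rho (n m : ℕ) (β : Nm → ℝ) (x : Fin n → ℝ) (y : Fin (n + 1) → Fin m → ℝ)
    (lam : Fin (n + 1) → ℝ) (v t : ℝ) (y' : Fin m → ℝ) : FN → ℝ
  | (10, [i], e) => if h : i < n + 1 then ev (pol n m β e) x (y ⟨i, h⟩) else 0
  | (11, i :: d, e) => if h : i < n + 1 then ev (dP n m d (pol n m β e)) x (y ⟨i, h⟩) else 0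
  | (12, _, e) => ev (pol n m β e) x 0
  | (13, _, e) => t * ev (pol n m β e) x y'
  | (14, _, _) => t
  | (15, [i], _) => if h : i < n + 1 then lam ⟨i, h⟩ else 0
  | (16, _, _) => v
  | _ => 0

section rho

variable {n m : ℕ} (β : Nm → ℝ) (x : Fin n → ℝ) (y : Fin (n + 1) → Fin m → ℝ)
    (lam : Fin (n + 1) → ℝ) (v t : ℝ) (y' : Fin m → ℝ)

lemma rho_V (i : Fin (n + 1)) (e : TN) :
    rho n m β x y lam v t y' (nV i e) = ev (pol n m β e) x (y i) := by
  show (if h : (i : ℕ) < n + 1 then ev (pol n m β e) x (y ⟨i, h⟩) else 0) = _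
  rw [dif_pos i.2]
lemma rho_D (i : Fin (n + 1)) (d : Nm) (e : TN) :
    rho n m β x y lam v t y' (nD i d e) = ev (dP n m d (pol n m β e)) x (y i) := by
  show (if h : (i : ℕ) < n + 1 then ev (dP n m d (pol n m β e)) x (y ⟨i, h⟩) else 0) = _
  rw [dif_pos i.2]
lemma rho_P (nm : Nm) :
    rho n m β x y lam v t y' (nP nm) = ev (pol n m β (.var nm)) x 0 := rfl
lemma rho_S (e : TN) :
    rho n m β x y lam v t y' (nS e) = t * ev (pol n m β e) x y' := rfl
lemma rho_T : rho n m β x y lam v t y' nT = t := rfl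
lemma rho_L (i : Fin (n + 1)) : rho n m β x y lam v t y' (nL i) = lam i := by
  show (if h : (i : ℕ) < n + 1 then lam ⟨i, h⟩ else 0) = _
  rw [dif_pos i.2]
lemma rho_v : rho n m β x y lam v t y' nv = v := rfl

/-- parameters do not depend on `y` -/
lemma ev_par {p : Par} {nb T : ℕ} (hp : p.Ok n m nb T) {nm : Nm} (h : nm ∈ parNames p)
    (y₁ y₂ : Fin m → ℝ) : ev (pol n m β (.var nm)) x y₁ = ev (pol n m β (.var nm)) x y₂ := by
  simp only [parNames, hp.hns, List.mem_append, List.mem_map, List.mem_range,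
    List.mem_cons] at h
  rcases h with rfl | rfl | ⟨l, hl, rfl⟩ | hb
  · rw [pol_3, ev_C, ev_C]
  · have : (-1 : MvPolynomial (Fin n ⊕ Fin m) ℝ) = C (-1) := by simp
    rw [pol_4, this, ev_C, ev_C]
  · rw [pol_X β ⟨l, hl⟩, ev_inl, ev_inl]
  · rw [pol_bit β hb, ev_C, ev_C]

end rho

lemma holds_phi (p : Par) (ρ : FN → ℝ) : (Phi p).holds ρ ↔
    (∀ φ ∈ phiA p, φ.holds ρ) ∧ (∀ i ∈ p.cs, ∀ φ ∈ phiB p i, φ.holds ρ) ∧
    (∀ i ∈ p.cs, ∀ d ∈ dirs p, ∀ φ ∈ phiD p i d, φ.holds ρ) ∧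
    (∀ i ∈ p.cs, (phiE p i).holds ρ) ∧ (∀ l ∈ p.ns, (phiS p l).holds ρ) ∧
    (∀ i ∈ p.cs, ∀ i' ∈ p.cs, (phiN p i i').holds ρ) ∧
    (Fm.eq (sumT (p.cs.map fun i => vv (nL i))) .one).holds ρ ∧ (phiC p).holds ρ := by
  simp only [Phi, holds_conj, List.mem_append, or_imp, forall_and, List.mem_flatMap,
    forall_exists_index, and_imp, List.mem_map, List.mem_cons, List.not_mem_nil, false_imp_iff,
    forall_eq, and_true]
  constructor
  · rintro ⟨h1, h2, h3, h4, h5, h6, h7, h8⟩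
    exact ⟨h1, fun i hi φ hφ => h2 _ i hi hφ, fun i hi d hd φ hφ => h3 _ i hi d hd hφ,
      fun i hi => h4 _ i hi rfl, fun l hl => h5 _ l hl rfl, fun i hi i' hi' => h6 _ i hi i' hi' rfl,
      h7, h8⟩
  · rintro ⟨h1, h2, h3, h4, h5, h6, h7, h8⟩
    exact ⟨h1, fun φ i hi hφ => h2 i hi _ hφ, fun φ i hi d hd hφ => h3 i hi d hd _ hφ,
      fun φ i hi e => e ▸ h4 i hi, fun φ l hl e => e ▸ h5 l hl,
      fun φ i hi i' hi' e => e ▸ h6 i hi i' hi', h7, h8⟩

/-- What the instructions look like. -/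
lemma allIns_cases {p : Par} {q : ℕ × TN × TN × TN} (h : q ∈ allIns p) :
    (q.1 = 0 ∧ q.2.1 = .zero) ∨ (q.1 = 1 ∧ q.2.1 = .one) ∨
    (q.1 = 2 ∧ q.2.1 = .add q.2.2.1 q.2.2.2) ∨ (q.1 = 3 ∧ q.2.1 = .mul q.2.2.1 q.2.2.2) ∨
    (q.1 = 4 ∧ ∃ nm, q.2.1 = .var nm ∧ q.2.2.1 = q.2.2.2 ∧ (nm, q.2.2.1) ∈ asg p) := by
  have hT : ∀ e : TN, q ∈ insT e → (q.1 = 0 ∧ q.2.1 = .zero) ∨ (q.1 = 1 ∧ q.2.1 = .one) ∨
      (q.1 = 2 ∧ q.2.1 = .add q.2.2.1 q.2.2.2) ∨ (q.1 = 3 ∧ q.2.1 = .mul q.2.2.1 q.2.2.2) := by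
    intro e
    induction e with
    | var v => intro h; simp at h
    | zero => intro h; simp only [insT_zero, List.mem_singleton] at h; subst h; simp
    | one => intro h; simp only [insT_one, List.mem_singleton] at h; subst h; simp
    | add a b iha ihb =>
      intro h
      simp only [insT_add, List.mem_cons, List.mem_append] at h
      rcases h with rfl | h | h
      · simp
      · exact iha h
      · exact ihb h
    | mul a b iha ihb =>
      intro h
      simp only [insT_mul, List.mem_cons, List.mem_append] at h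
      rcases h with rfl | h | h
      · simp
      · exact iha h
      · exact ihb h
  simp only [allIns, List.mem_append, List.mem_flatMap, List.mem_singleton] at h
  rcases h with ⟨⟨nm, e⟩, hne, h | rfl⟩ | h
  · rcases hT _ h with h | h | h | h
    · exact Or.inl h
    · exact Or.inr (Or.inl h)
    · exact Or.inr (Or.inr (Or.inl h))
    · exact Or.inr (Or.inr (Or.inr (Or.inl h)))
  · exact Or.inr (Or.inr (Or.inr (Or.inr ⟨rfl, nm, rfl, rfl, hne⟩)))
  · rcases hT _ h with h | h | h | h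
    · exact Or.inl h
    · exact Or.inr (Or.inl h)
    · exact Or.inr (Or.inr (Or.inl h))
    · exact Or.inr (Or.inr (Or.inr (Or.inl h)))

lemma holds_phiC (p : Par) (ρ : FN → ℝ) : (phiC p).holds ρ ↔
    (ρ nT = 0 ∧ (∀ nm ∈ inNames p, ρ (nS (.var nm)) = 0) ∧ ∀ q ∈ allIns p, ρ (nS q.2.1) = 0) ∨
    (0 < ρ nT ∧ ¬ 0 < ρ (nS (fT p)) ∧
      (∀ nm ∈ parNames p, ρ (nS (.var nm)) = ρ nT * ρ (nP nm)) ∧
      ∀ q ∈ allIns p, (insS q).holds ρ) := by
  simp only [phiC, Fm.holds, holds_conj]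
  refine or_congr ?_ ?_
  · rw [List.forall_mem_cons, List.forall_mem_append]
    simp only [List.forall_mem_map, Fm.holds, Tm.eval]
  · rw [List.forall_mem_cons, List.forall_mem_cons, List.forall_mem_append]
    simp only [List.forall_mem_map, Fm.holds, Tm.eval]

/-- The standard solutions satisfy the formula. -/
theorem phi_rho {p : Par} {n m nb T : ℕ} (hp : p.Ok n m nb T) (β : Nm → ℝ)
    (hβ : ∀ nm ∈ bitNames p, β nm * β nm = β nm) (x : Fin n → ℝ) (y : Fin (n + 1) → Fin m → ℝ)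
    (lam : Fin (n + 1) → ℝ) (v t : ℝ) (y' : Fin m → ℝ)
    (hL : LagSol (pol n m β (fT p)) x y lam v) (ht : 0 ≤ t)
    (hty : 0 < t → ev (pol n m β (fT p)) x y' ≤ 0) :
    (Phi p).holds (rho n m β x y lam v t y') := by
  rw [holds_phi]
  have hcs : ∀ i ∈ p.cs, ∃ i' : Fin (n + 1), i = i' := by
    intro i hi
    rw [hp.hcs, List.mem_range] at hi
    exact ⟨⟨i, hi⟩, rfl⟩
  refine ⟨?_, ?_, ?_, ?_, ?_, ?_, ?_, ?_⟩
  · intro φ hφ
    simp only [phiA, List.mem_cons, List.mem_map] at hφ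
    rcases hφ with rfl | rfl | ⟨nm, hnm, rfl⟩
    · simp only [Fm.holds, Tm.eval, rho_P, pol_3, ev_C]; norm_num
    · have : (-1 : MvPolynomial (Fin n ⊕ Fin m) ℝ) = C (-1) := by simp
      simp only [Fm.holds, Tm.eval, rho_P, pol_4, this, ev_C]; norm_num
    · simp only [Fm.holds, Tm.eval, rho_P, pol_bit β hnm, ev_C]; exact hβ nm hnm
  · intro i hi φ hφ
    obtain ⟨i, rfl⟩ := hcs i hi
    simp only [phiB, List.mem_append, List.mem_map] at hφ
    rcases hφ with ⟨nm, hnm, rfl⟩ | ⟨q, hq, rfl⟩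
    · simp only [Fm.holds, Tm.eval, rho_P, rho_V]; exact ev_par β x hp hnm _ _
    · simp only [insV, Fm.holds]
      rcases allIns_cases hq with ⟨h1, h2⟩ | ⟨h1, h2⟩ | ⟨h1, h2⟩ | ⟨h1, h2⟩ | ⟨h1, nm, h2, h3, h4⟩
      · simp [h1, h2, Tm.eval, rho_V, pol_zero]
      · simp [h1, h2, Tm.eval, rho_V, pol_one]
      · simp [h1, h2, Tm.eval, rho_V, pol_add, ev_add]
      · simp [h1, h2, Tm.eval, rho_V, pol_mul, ev_mul]
      · simp [h1, h2, Tm.eval, rho_V, pol_asg β hp h4]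
  · intro i hi d hd φ hφ
    obtain ⟨i, rfl⟩ := hcs i hi
    simp only [phiD, List.mem_append, List.mem_map] at hφ
    rcases hφ with ⟨nm, hnm, rfl⟩ | ⟨q, hq, rfl⟩
    · simp only [Fm.holds, Tm.eval, rho_D, dP_input hp β hd hnm]
      split_ifs <;> simp [Tm.eval]
    · simp only [insD, Fm.holds]
      rcases allIns_cases hq with ⟨h1, h2⟩ | ⟨h1, h2⟩ | ⟨h1, h2⟩ | ⟨h1, h2⟩ | ⟨h1, nm, h2, h3, h4⟩
      · simp [h1, h2, Tm.eval, rho_D, pol_zero, dP_zero]
      · simp [h1, h2, Tm.eval, rho_D, pol_one, dP_one]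
      · simp [h1, h2, Tm.eval, rho_D, pol_add, dP_add, ev_add]
      · simp [h1, h2, Tm.eval, rho_D, rho_V, pol_mul, dP_mul, ev_add, ev_mul]
      · simp [h1, h2, Tm.eval, rho_D, pol_asg β hp h4]
  · intro i hi
    obtain ⟨i, rfl⟩ := hcs i hi
    simp only [phiE, Fm.holds, holds_conj, List.mem_cons, List.mem_map, forall_eq_or_imp,
      forall_exists_index, and_imp, forall_apply_eq_imp_iff₂, Tm.eval, rho_L, rho_V, rho_D, rho_v]
    rcases hL.act i with ⟨h1, h2⟩ | ⟨h1, h2, h3⟩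
    · refine Or.inl ⟨h1, fun j hj => ?_⟩
      rw [hp.hms, List.mem_range] at hj
      rw [vY, pol_Y β ⟨j, hj⟩, ev_inr, h2]; rfl
    · refine Or.inr ⟨h1, h2, fun j hj => ?_⟩
      rw [hp.hms, List.mem_range] at hj
      have := h3 ⟨j, hj⟩
      simpa [dP, hj] using this
  · intro l hl
    rw [hp.hns, List.mem_range] at hl
    simp only [phiS, Fm.holds, eval_sumT, List.map_map, hp.hcs, Function.comp_def, Tm.eval,
      sum_map_range, rho_L, rho_D]
    have := hL.st ⟨l, hl⟩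
    simpa [dP, hl] using this
  · intro i hi i' hi'
    obtain ⟨i, rfl⟩ := hcs i hi
    obtain ⟨i', rfl⟩ := hcs i' hi'
    unfold phiN
    split_ifs with h
    · simp [Fm.holds]
    · have hne : i ≠ i' := fun h' => h (by rw [h'])
      simp only [Fm.holds, holds_conj, List.mem_cons, List.mem_map, forall_eq_or_imp,
        forall_exists_index, and_imp, forall_apply_eq_imp_iff₂, Tm.eval, rho_L, rho_V, not_and]
      intro h1 h2 h3
      refine hL.dist i i' hne h1 h2 ?_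
      funext j
      have := h3 j (by rw [hp.hms]; exact List.mem_range.2 j.2)
      simpa [vY, pol_Y] using this
  · simp only [Fm.holds, eval_sumT, List.map_map, hp.hcs, Function.comp_def, Tm.eval,
      sum_map_range, rho_L]
    exact hL.sum1
  · rw [holds_phiC]
    simp only [rho_T, rho_S, rho_P]
    rcases ht.eq_or_lt with h0 | h0
    · refine Or.inl ⟨h0.symm, fun nm _ => ?_, fun q _ => ?_⟩
      · rw [← h0, zero_mul]
      · rw [← h0, zero_mul]
    · refine Or.inr ⟨h0, ?_, fun nm hnm => ?_, fun q hq => ?_⟩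
      · have := mul_nonpos_of_nonneg_of_nonpos ht (hty h0)
        exact not_lt.2 this
      · rw [ev_par β x hp hnm]
      · simp only [insS]
        rcases allIns_cases hq with ⟨h1, h2⟩ | ⟨h1, h2⟩ | ⟨h1, h2⟩ | ⟨h1, h2⟩ | ⟨h1, nm, h2, h3, h4⟩
        · simp [h1, h2, Fm.holds, Tm.eval, rho_S, pol_zero]
        · simp [h1, h2, Fm.holds, Tm.eval, rho_S, rho_T, pol_one]
        · simp [h1, h2, Fm.holds, Tm.eval, rho_S, pol_add, ev_add, mul_add]
        · simp [h1, h2, Fm.holds, Tm.eval, rho_S, rho_T, pol_mul, ev_mul]; ring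
        · simp [h1, h2, Fm.holds, Tm.eval, rho_S, pol_asg β hp h4]

end Pool.Agent.IsoPt
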