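import Mathlib

/-!
# Shared definitions for the isolated point project (MP_47d501_lc)
-/

set_option autoImplicit false

namespace Pool.Agent.IsoPt

open MvPolynomial

/-- Sum of the absolute values (norms) of the coefficients of a polynomial. -/
noncomputable def norm1 {σ K : Type*} [NormedCommRing K] (p : MvPolynomial σ K) : ℝ :=
  ∑ m ∈ p.support, ‖p.coeff m‖

/-- Value at the pair of points `(y, b)` of a polynomial in the variables `σ ⊕ τ`. -/
noncomputable def ev {σ τ K : Type*} [CommRing K] [Algebra K ℝ] (P : MvPolynomial (σ ⊕ τ) K)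
    (y : σ → ℝ) (b : τ → ℝ) : ℝ := aeval (Sum.elim y b) P

/-- The polynomial `P + X_z * ∑ j, X_j ^ (2 q)`. -/
noncomputable def fermat {σ τ K : Type*} [Fintype σ] [CommRing K] (z : τ) (q : ℕ)
    (P : MvPolynomial (σ ⊕ τ) K) : MvPolynomial (σ ⊕ τ) K :=
  P + X (Sum.inr z) * ∑ j : σ, X (Sum.inl j) ^ (2 * q)

/-- Degree bound of the elimination lemma. -/
def elimDeg (ν q d : ℕ) : ℕ := (2 * q) ^ ν * ((ν * (2 * q) + 2 * q + 1) * (d + 1))

/-- Norm bound of the elimination lemma. -/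
noncomputable def elimNorm (ν q : ℕ) (C : ℝ) : ℝ :=
  ((2 * q : ℝ) ^ ν * (C + ν + 1) * ((2 * q : ℝ) * (C + 1)) ^ (ν * (2 * q) + 2 * q)) ^ ((2 * q) ^ ν)

/-- Exponent of the effective Lojasiewicz inequality. -/
def lojExp (m d : ℕ) : ℕ := 2 * elimDeg m (d + 3) (d + 4)

/-- Degree of the first elimination polynomial of the two-block theorem. -/
def dchi (m q : ℕ) : ℕ := 2 * elimDeg m q (2 * q)

/-- Degree bound of the two-block theorem. -/
def twoDeg (n m q : ℕ) : ℕ := elimDeg n (dchi m q) (dchi m q)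

/-- Norm bound of the two-block theorem. -/
noncomputable def twoNorm (n m q κ : ℕ) (H W : ℝ) : ℝ :=
  elimNorm n (dchi m q)
    (elimNorm m q (H * (1 + m) ^ κ + n) * (1 + W) ^ elimDeg m q (2 * q))

/-- A solution of the multi-point Lagrange system of the polynomial `f (x, y)`: at most `n + 1`
active points `y i` (those with `lam i ≠ 0`), which are critical points of `f (x, ·)` with the same
value `v`, are pairwise distinct, and for which the combination of the gradients in `x` with the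
multipliers `lam i` of sum `1` vanishes. -/
structure LagSol {n m : ℕ} (f : MvPolynomial (Fin n ⊕ Fin m) ℝ) (x : Fin n → ℝ)
    (y : Fin (n + 1) → Fin m → ℝ) (lam : Fin (n + 1) → ℝ) (v : ℝ) : Prop where
  act : ∀ i, (lam i = 0 ∧ y i = 0) ∨
    (lam i ≠ 0 ∧ ev f x (y i) = v ∧ ∀ j, ev (pderiv (Sum.inr j) f) x (y i) = 0)
  st : ∀ l, ∑ i, lam i * ev (pderiv (Sum.inl l) f) x (y i) = 0
  sum1 : ∑ i, lam i = 1
  dist : ∀ i i', i ≠ i' → lam i ≠ 0 → lam i' ≠ 0 → y i ≠ y i'

/-- The linear form `∑ j, N ^ j * y_j`. -/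
noncomputable def linForm (n m N : ℕ) : MvPolynomial (Fin n ⊕ Fin m) ℝ :=
  ∑ j : Fin m, C ((N : ℝ) ^ (j : ℕ)) * X (Sum.inr j)

/-- Number of linear forms used in the perturbation. -/
def numForms (n m : ℕ) : ℕ := m * (n + 1) ^ 2 + 1

/-- Index type of the parameters of the perturbation. -/
abbrev PIdx (n m : ℕ) : Type := (Fin (numForms n m) × Fin (2 * (n + 1)) × Option (Fin m)) ⊕ Fin n

/-- The perturbation with parameters `θ`. -/
noncomputable def pert (n m : ℕ) (θ : PIdx n m → ℝ) : MvPolynomial (Fin n ⊕ Fin m) ℝ :=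
  (∑ N : Fin (numForms n m), ∑ r : Fin (2 * (n + 1)),
    linForm n m N ^ (r : ℕ) * (C (θ (Sum.inl (N, r, none))) +
      ∑ j : Fin m, C (θ (Sum.inl (N, r, some j))) * X (Sum.inr j)))
  + ∑ l : Fin n, C (θ (Sum.inr l)) * X (Sum.inl l)

/-- The game polynomial function
`(g (x,y) (1 + |y|²)^κ + ζ ∑ y_j^(2q)) / t - t ∑ x_l^(2p) - W`. -/
noncomputable def game {n m : ℕ} (g : MvPolynomial (Fin n ⊕ Fin m) ℤ) (κ p q : ℕ) (W t ζ : ℝ)
    (x : Fin n → ℝ) (y : Fin m → ℝ) : ℝ :=
  (ev g x y * (1 + ∑ j, y j ^ 2) ^ κ + ζ * ∑ j, y j ^ (2 * q)) / t - t * ∑ l, x l ^ (2 * p) - W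

end Pool.Agent.IsoPt
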