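import Pool.Agent.Lib.IsoPt.Defs

/-!
# Coefficient norms and degrees of substituted polynomials (used in chunk A)
-/

set_option autoImplicit false

namespace Pool.Agent.IsoPt

namespace TB

open MvPolynomial

section norm

variable {σ τ K : Type*} [NormedCommRing K]

lemma norm1_nonneg (p : MvPolynomial σ K) : 0 ≤ norm1 p := Finset.sum_nonneg fun _ _ => norm_nonneg _

lemma norm1_eq_sum {p : MvPolynomial σ K} {s : Finset (σ →₀ ℕ)} (h : p.support ⊆ s) :
    norm1 p = ∑ m ∈ s, ‖p.coeff m‖ := by
  unfold norm1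
  refine Finset.sum_subset h fun m _ hm => ?_
  rw [MvPolynomial.notMem_support_iff.1 hm, norm_zero]

lemma norm1_add_le (p q : MvPolynomial σ K) : norm1 (p + q) ≤ norm1 p + norm1 q := by
  classical
  have h1 : (p + q).support ⊆ p.support ∪ q.support := MvPolynomial.support_add
  rw [norm1_eq_sum h1, norm1_eq_sum (Finset.subset_union_left (s₂ := q.support)),
    norm1_eq_sum (Finset.subset_union_right (s₁ := p.support)), ← Finset.sum_add_distrib]
  refine Finset.sum_le_sum fun m _ => ?_
  rw [coeff_add]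
  exact norm_add_le _ _

lemma norm1_zero : norm1 (0 : MvPolynomial σ K) = 0 := by simp [norm1]

lemma norm1_neg (p : MvPolynomial σ K) : norm1 (-p) = norm1 p := by
  unfold norm1
  rw [MvPolynomial.support_neg]
  refine Finset.sum_congr rfl fun m _ => ?_
  rw [coeff_neg, norm_neg]

lemma norm1_sum_le {ι : Type*} (s : Finset ι) (f : ι → MvPolynomial σ K) :
    norm1 (∑ i ∈ s, f i) ≤ ∑ i ∈ s, norm1 (f i) := by
  classical
  induction s using Finset.induction_on with
  | empty => simp [norm1_zero]
  | insert a s ha ih =>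
    rw [Finset.sum_insert ha, Finset.sum_insert ha]
    exact (norm1_add_le _ _).trans (by linarith)

lemma norm1_monomial (m : σ →₀ ℕ) (c : K) : norm1 (monomial m c) = ‖c‖ := by
  classical
  rw [norm1_eq_sum (s := {m}) (support_monomial_subset)]
  simp

lemma norm1_monomial_mul_le (m : σ →₀ ℕ) (c : K) (q : MvPolynomial σ K) :
    norm1 (monomial m c * q) ≤ ‖c‖ * norm1 q := by
  classical
  have h : monomial m c * q = ∑ k ∈ q.support, monomial (m + k) (c * q.coeff k) := by
    conv_lhs => rw [q.as_sum]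
    rw [Finset.mul_sum]
    refine Finset.sum_congr rfl fun k _ => ?_
    rw [monomial_mul]
  rw [h]
  refine (norm1_sum_le _ _).trans ?_
  unfold norm1
  rw [Finset.mul_sum]
  refine Finset.sum_le_sum fun k _ => ?_
  have := norm1_monomial (m + k) (c * q.coeff k)
  unfold norm1 at this
  rw [this]
  exact norm_mul_le _ _

lemma norm1_mul_le (p q : MvPolynomial σ K) : norm1 (p * q) ≤ norm1 p * norm1 q := by
  have h : p * q = ∑ m ∈ p.support, monomial m (p.coeff m) * q := by
    conv_lhs => rw [p.as_sum]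
    rw [Finset.sum_mul]
  rw [h]
  refine (norm1_sum_le _ _).trans ?_
  conv_rhs => rw [norm1]
  rw [Finset.sum_mul]
  exact Finset.sum_le_sum fun m _ => norm1_monomial_mul_le _ _ _

lemma norm1_C (c : K) : norm1 (C c : MvPolynomial σ K) = ‖c‖ := norm1_monomial 0 c

variable [NormOneClass K]

lemma norm1_one_le : norm1 (1 : MvPolynomial σ K) ≤ 1 := by
  have := norm1_C (σ := σ) (1 : K)
  rw [map_one, norm_one] at this
  exact this.le

lemma norm1_X (i : σ) : norm1 (X i : MvPolynomial σ K) = 1 := by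
  have := norm1_monomial (K := K) (Finsupp.single i 1) 1
  rw [norm_one] at this
  exact this

lemma norm1_pow_le (p : MvPolynomial σ K) (k : ℕ) : norm1 (p ^ k) ≤ norm1 p ^ k := by
  induction k with
  | zero => simpa using norm1_one_le
  | succ k ih =>
    rw [pow_succ, pow_succ]
    exact (norm1_mul_le _ _).trans (mul_le_mul_of_nonneg_right ih (norm1_nonneg _))

lemma norm1_prod_le {ι : Type*} (s : Finset ι) (f : ι → MvPolynomial σ K) :
    norm1 (∏ i ∈ s, f i) ≤ ∏ i ∈ s, norm1 (f i) := by
  classical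
  induction s using Finset.induction_on with
  | empty => simpa using norm1_one_le
  | insert a s ha ih =>
    rw [Finset.prod_insert ha, Finset.prod_insert ha]
    exact (norm1_mul_le _ _).trans (mul_le_mul_of_nonneg_left ih (norm1_nonneg _))

lemma norm1_rename_le (f : σ → τ) (p : MvPolynomial σ K) : norm1 (rename f p) ≤ norm1 p := by
  have h : rename f p = ∑ m ∈ p.support, monomial (m.mapDomain f) (p.coeff m) := by
    conv_lhs => rw [p.as_sum]
    rw [map_sum]
    refine Finset.sum_congr rfl fun k _ => ?_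
    rw [rename_monomial]
  rw [h]
  refine (norm1_sum_le _ _).trans ?_
  conv_rhs => rw [norm1]
  exact Finset.sum_le_sum fun m _ => (norm1_monomial _ _).le

lemma norm1_bind₁_le (φ : σ → MvPolynomial τ K) (p : MvPolynomial σ K) {B : ℝ} (hB : 1 ≤ B)
    (hφ : ∀ i, norm1 (φ i) ≤ B) : norm1 (bind₁ φ p) ≤ norm1 p * B ^ p.totalDegree := by
  have h : bind₁ φ p = ∑ m ∈ p.support, C (p.coeff m) * ∏ i ∈ m.support, φ i ^ m i := by
    rw [bind₁, aeval_def, eval₂_eq]
    rfl
  rw [h]
  refine (norm1_sum_le _ _).trans ?_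
  conv_rhs => rw [norm1]
  rw [Finset.sum_mul]
  refine Finset.sum_le_sum fun m hm => ?_
  refine (norm1_mul_le _ _).trans ?_
  rw [norm1_C]
  refine mul_le_mul_of_nonneg_left ?_ (norm_nonneg _)
  refine (norm1_prod_le _ _).trans ?_
  have h1 : ∏ i ∈ m.support, norm1 (φ i ^ m i) ≤ ∏ i ∈ m.support, B ^ m i :=
    Finset.prod_le_prod (fun i _ => norm1_nonneg _) fun i _ =>
      (norm1_pow_le _ _).trans (pow_le_pow_left₀ (norm1_nonneg _) (hφ i) _)
  refine h1.trans ?_
  rw [Finset.prod_pow_eq_pow_sum]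
  exact pow_le_pow_right₀ hB (le_totalDegree hm)

end norm

section degree

variable {σ τ K : Type*} [CommRing K]

lemma totalDegree_bind₁_le (φ : σ → MvPolynomial τ K) (p : MvPolynomial σ K) {D : ℕ}
    (hφ : ∀ i, (φ i).totalDegree ≤ D) : (bind₁ φ p).totalDegree ≤ D * p.totalDegree := by
  have h : bind₁ φ p = ∑ m ∈ p.support, C (p.coeff m) * ∏ i ∈ m.support, φ i ^ m i := by
    rw [bind₁, aeval_def, eval₂_eq]
    rfl
  rw [h]
  refine totalDegree_finsetSum_le fun m hm => ?_
  refine (totalDegree_mul _ _).trans ?_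
  rw [totalDegree_C, zero_add]
  refine (totalDegree_finsetProd _ _).trans ?_
  have h1 : ∑ i ∈ m.support, (φ i ^ m i).totalDegree ≤ ∑ i ∈ m.support, m i * D :=
    Finset.sum_le_sum fun i _ => (totalDegree_pow _ _).trans (Nat.mul_le_mul_left _ (hφ i))
  refine h1.trans ?_
  rw [← Finset.sum_mul, mul_comm]
  exact Nat.mul_le_mul_left _ (le_totalDegree hm)

end degree

end TB

end Pool.Agent.IsoPt
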