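import Pool.Agent.Lib.IsoPt.Defs
import Pool.Agent.Lib.IsoPt.TBNorm

/-!
# Chunk E : effective elimination of a block of variables

Put `ν = card σ`, `D = 2 q - 1`, `c = 2 q X_z` and
`box = {β : σ → ℕ | ∀ j, β j < D}`.  At a critical point `y` (for parameters `b`) of
`fermat z q P = P + X_z ∑ X_j^(2q)` one has `c(b) y_j^D = - (∂_j P)(y,b)`.
By induction on `k`: for every exponent `α` with `|α| ≤ k` there are `r β : MvPolynomial τ K`
(`β ∈ box`) with `∑ β, norm1 (r β) ≤ C₀^k` (`C₀ = 2 q (C + 1)`),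
`totalDegree (r β) ≤ k * (d + 1)`, and `c(b)^k y^α = ∑ β, (r β)(b) y^β` at all critical points.
Taking `k = ν * 2q + 2q`, `c^k * (P⁺ y^α) = ∑ β M α β y^β` for `α ∈ box`, so the vector
`(y^β)_β` (whose entry at `β = 0` is `1`) is in the kernel of `M(b) - s c(b)^k` where `s` is the
value `P⁺(y,b)`.  Put `N = det (M - s c^k)`.
-/

set_option autoImplicit false

namespace Pool.Agent.IsoPt

open MvPolynomial

namespace Elim

open TB

section red

variable {σ τ K : Type} [Fintype σ] [DecidableEq σ] [Fintype τ] [NormedCommRing K] [NormOneClass K] [Algebra K ℝ]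

/-- Value of a monomial. -/
def mon (y : σ → ℝ) (α : σ → ℕ) : ℝ := ∏ j, y j ^ α j

variable (K) in
/-- At the points of `Crit`, the function `F` is a combination of the monomials of the box with
coefficients of norm at most `E` and degree at most `e`. -/
def Red (Crit : (σ → ℝ) → (τ → ℝ) → Prop) (D : ℕ) (E : ℝ) (e : ℕ)
    (F : (σ → ℝ) → (τ → ℝ) → ℝ) : Prop :=
  ∃ r : (σ → Fin D) → MvPolynomial τ K, ∑ β, norm1 (r β) ≤ E ∧ (∀ β, (r β).totalDegree ≤ e) ∧
    ∀ y b, Crit y b → F y b = ∑ β, aeval b (r β) * mon y (fun j => (β j : ℕ))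

variable {Crit : (σ → ℝ) → (τ → ℝ) → Prop} {D : ℕ}

omit [Fintype τ] [NormOneClass K] in
theorem Red.mono {E E' : ℝ} {e e' : ℕ} {F : (σ → ℝ) → (τ → ℝ) → ℝ} (h : Red K Crit D E e F)
    (hE : E ≤ E') (he : e ≤ e') : Red K Crit D E' e' F := by
  obtain ⟨r, h1, h2, h3⟩ := h
  exact ⟨r, h1.trans hE, fun β => (h2 β).trans he, h3⟩

omit [Fintype τ] [NormOneClass K] in
theorem Red.congr {E : ℝ} {e : ℕ} {F F' : (σ → ℝ) → (τ → ℝ) → ℝ} (h : Red K Crit D E e F)
    (hF : ∀ y b, Crit y b → F' y b = F y b) : Red K Crit D E e F' := by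
  obtain ⟨r, h1, h2, h3⟩ := h
  exact ⟨r, h1, h2, fun y b hc => (hF y b hc).trans (h3 y b hc)⟩

omit [NormOneClass K] in
theorem red_sum {ι : Type*} (I : Finset ι) (c : ι → K) (δ : ι → τ →₀ ℕ)
    (F : ι → (σ → ℝ) → (τ → ℝ) → ℝ) {E : ℝ} {e e' : ℕ}
    (hF : ∀ i ∈ I, Red K Crit D E e (F i)) (hδ : ∀ i ∈ I, ((δ i).sum fun _ => id) ≤ e') :
    Red K Crit D ((∑ i ∈ I, ‖c i‖) * E) (e' + e)
      (fun y b => ∑ i ∈ I, algebraMap K ℝ (c i) * (∏ t, b t ^ δ i t) * F i y b) := by
  classical
  choose! r hr1 hr2 hr3 using hF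
  refine ⟨fun β => ∑ i ∈ I, monomial (δ i) (c i) * r i β, ?_, ?_, ?_⟩
  · calc ∑ β, norm1 (∑ i ∈ I, monomial (δ i) (c i) * r i β)
        ≤ ∑ β, ∑ i ∈ I, ‖c i‖ * norm1 (r i β) := by
          refine Finset.sum_le_sum fun β _ => ?_
          refine (norm1_sum_le _ _).trans ?_
          exact Finset.sum_le_sum fun i _ => norm1_monomial_mul_le _ _ _
      _ = ∑ i ∈ I, ‖c i‖ * ∑ β, norm1 (r i β) := by
          rw [Finset.sum_comm]
          refine Finset.sum_congr rfl fun i _ => ?_
          rw [Finset.mul_sum]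
      _ ≤ ∑ i ∈ I, ‖c i‖ * E := by
          refine Finset.sum_le_sum fun i hi => ?_
          exact mul_le_mul_of_nonneg_left (hr1 i hi) (norm_nonneg _)
      _ = (∑ i ∈ I, ‖c i‖) * E := by rw [Finset.sum_mul]
  · intro β
    refine totalDegree_finsetSum_le fun i hi => ?_
    refine (totalDegree_mul _ _).trans ?_
    exact add_le_add ((totalDegree_monomial_le _ _).trans (hδ i hi)) (hr2 i hi β)
  · intro y b hc
    have h1 : ∀ β, aeval b (∑ i ∈ I, monomial (δ i) (c i) * r i β) =
        ∑ i ∈ I, algebraMap K ℝ (c i) * (∏ t, b t ^ δ i t) * aeval b (r i β) := by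
      intro β
      rw [map_sum]
      refine Finset.sum_congr rfl fun i _ => ?_
      rw [map_mul, aeval_monomial, Finsupp.prod_fintype _ _ (fun t => pow_zero _)]
    calc ∑ i ∈ I, algebraMap K ℝ (c i) * (∏ t, b t ^ δ i t) * F i y b
        = ∑ i ∈ I, ∑ β, algebraMap K ℝ (c i) * (∏ t, b t ^ δ i t) * (aeval b (r i β) *
            mon y (fun j => (β j : ℕ))) := by
          refine Finset.sum_congr rfl fun i hi => ?_
          rw [hr3 i hi y b hc, Finset.mul_sum]
      _ = ∑ β, aeval b (∑ i ∈ I, monomial (δ i) (c i) * r i β) *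
            mon y (fun j => (β j : ℕ)) := by
          rw [Finset.sum_comm]
          refine Finset.sum_congr rfl fun β _ => ?_
          rw [h1, Finset.sum_mul]
          refine Finset.sum_congr rfl fun i _ => ?_
          ring

omit [Algebra K ℝ] in
theorem norm_two_mul (q : ℕ) : ‖((2 * q : ℕ) : K)‖ ≤ 2 * q := by
  have h := Nat.norm_cast_le (α := K) (2 * q)
  rw [norm_one, mul_one] at h
  push_cast at h ⊢
  exact h

/-- The polynomial `(2 q X_z) ^ k`. -/
noncomputable def cpoly (z : τ) (q k : ℕ) : MvPolynomial τ K := (C ((2 * q : ℕ) : K) * X z) ^ k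

omit [Fintype τ] [Algebra K ℝ] in
theorem norm1_cpoly (z : τ) (q k : ℕ) : norm1 (cpoly (K := K) z q k) ≤ (2 * q : ℝ) ^ k := by
  refine (norm1_pow_le _ _).trans (pow_le_pow_left₀ (norm1_nonneg _) ?_ _)
  refine (norm1_mul_le _ _).trans ?_
  rw [norm1_C, norm1_X, mul_one]
  exact norm_two_mul q

omit [Fintype τ] [Algebra K ℝ] [NormOneClass K] in
theorem totalDegree_cpoly (z : τ) (q k : ℕ) : (cpoly (K := K) z q k).totalDegree ≤ k := by
  refine (totalDegree_pow _ _).trans ?_
  have h1 : (C ((2 * q : ℕ) : K) * X z : MvPolynomial τ K).totalDegree ≤ 1 := by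
    refine (totalDegree_mul _ _).trans ?_
    rw [totalDegree_C, zero_add]
    by_cases hK : Nontrivial K
    · exact (totalDegree_X z).le
    · rw [not_nontrivial_iff_subsingleton] at hK
      have : (X z : MvPolynomial τ K) = 0 := Subsingleton.elim _ _
      rw [this]; simp
  calc k * _ ≤ k * 1 := Nat.mul_le_mul_left _ h1
    _ = k := mul_one k

omit [Fintype τ] [NormOneClass K] in
theorem aeval_cpoly (z : τ) (q k : ℕ) (b : τ → ℝ) :
    aeval b (cpoly (K := K) z q k) = ((2 * q : ℝ) * b z) ^ k := by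
  rw [cpoly, map_pow, map_mul, aeval_C, aeval_X, map_natCast]
  push_cast
  rfl

omit [Fintype τ] in
theorem red_box (z : τ) (q k : ℕ) (α : σ → ℕ) (hα : ∀ j, α j < D) :
    Red K Crit D ((2 * q : ℝ) ^ k) k
      (fun y b => ((2 * q : ℝ) * b z) ^ k * mon y α) := by
  classical
  set β₀ : σ → Fin D := fun j => ⟨α j, hα j⟩ with hβ₀
  set u : MvPolynomial τ K := cpoly z q k with hu
  have hn : norm1 u ≤ (2 * q : ℝ) ^ k := norm1_cpoly z q k
  have hd : u.totalDegree ≤ k := totalDegree_cpoly z q k
  have hv : ∀ b : τ → ℝ, aeval b u = ((2 * q : ℝ) * b z) ^ k := aeval_cpoly z q k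
  refine ⟨fun β => if β = β₀ then u else 0, ?_, ?_, ?_⟩
  · have : ∀ β : σ → Fin D, norm1 (if β = β₀ then u else 0) = if β = β₀ then norm1 u else 0 := by
      intro β
      split_ifs
      · rfl
      · exact norm1_zero
    rw [Finset.sum_congr rfl fun β _ => this β]
    simpa using hn
  · intro β
    dsimp only
    split_ifs
    · exact hd
    · simp
  · intro y b _
    have : ∀ β : σ → Fin D, aeval b (if β = β₀ then u else 0) * mon y (fun j => (β j : ℕ)) =
        if β = β₀ then ((2 * q : ℝ) * b z) ^ k * mon y α else 0 := by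
      intro β
      split_ifs with h
      · rw [hv, h]
      · rw [map_zero, zero_mul]
    rw [Finset.sum_congr rfl fun β _ => this β]
    simp

end red

section main

variable {σ τ K : Type} [Fintype σ] [Fintype τ] [NormedCommRing K] [NormOneClass K] [Algebra K ℝ]

/-- The part of an exponent on the right variables. -/
noncomputable def rpart (m : σ ⊕ τ →₀ ℕ) : τ →₀ ℕ := Finsupp.equivFunOnFinite.symm (fun t => m (Sum.inr t))

omit [Fintype σ] in
theorem rpart_apply (m : σ ⊕ τ →₀ ℕ) (t : τ) : rpart m t = m (Sum.inr t) := rfl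

theorem sum_parts (m : σ ⊕ τ →₀ ℕ) :
    ∑ j, m (Sum.inl j) + ((rpart m).sum fun _ => id) = m.sum fun _ e => e := by
  rw [Finsupp.sum_fintype _ _ (fun _ => rfl), Finsupp.sum_fintype _ _ (fun _ => rfl),
    Fintype.sum_sum_type]
  rfl

omit [NormOneClass K] in
theorem ev_eq_sum (P : MvPolynomial (σ ⊕ τ) K) (y : σ → ℝ) (b : τ → ℝ) :
    ev P y b = ∑ m ∈ P.support, algebraMap K ℝ (P.coeff m) * (∏ t, b t ^ rpart m t) *
      mon y (fun j => m (Sum.inl j)) := by
  unfold ev mon
  rw [aeval_def, eval₂_eq']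
  refine Finset.sum_congr rfl fun m _ => ?_
  rw [Fintype.prod_sum_type]
  simp only [Sum.elim_inl, Sum.elim_inr, rpart_apply]
  ring

omit [Fintype τ] [NormOneClass K] in
theorem ev_pderiv_fermat (z : τ) (q : ℕ) (P : MvPolynomial (σ ⊕ τ) K) (j : σ) (y : σ → ℝ)
    (b : τ → ℝ) : ev (pderiv (Sum.inl j) (fermat z q P)) y b =
      ev (pderiv (Sum.inl j) P) y b + (2 * q : ℝ) * b z * y j ^ (2 * q - 1) := by
  classical
  unfold ev fermat
  rw [map_add, map_add]
  congr 1
  rw [Derivation.leibniz, map_sum]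
  have h1 : ∀ i : σ, pderiv (Sum.inl j) ((X (Sum.inl i) : MvPolynomial (σ ⊕ τ) K) ^ (2 * q)) =
      if i = j then ((2 * q : ℕ) : MvPolynomial (σ ⊕ τ) K) * X (Sum.inl j) ^ (2 * q - 1)
        else 0 := by
    intro i
    split_ifs with h
    · subst h
      rw [Derivation.leibniz_pow, pderiv_X_self]
      simp
    · rw [Derivation.leibniz_pow, pderiv_X_of_ne (fun h' => h (Sum.inl_injective h'))]
      simp
  rw [Finset.sum_congr rfl fun i _ => h1 i]
  rw [pderiv_X_of_ne (by simp)]
  simp only [Finset.sum_ite_eq', Finset.mem_univ, if_true, smul_eq_mul, mul_zero, add_zero,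
    map_mul, map_natCast, map_pow, aeval_X, Sum.elim_inl, Sum.elim_inr]
  push_cast
  ring

omit [NormOneClass K] in
theorem ev_pderiv_eq (P : MvPolynomial (σ ⊕ τ) K) (j : σ) (y : σ → ℝ) (b : τ → ℝ) :
    ev (pderiv (Sum.inl j) P) y b = ∑ m ∈ P.support.filter (fun m => m (Sum.inl j) ≠ 0),
      algebraMap K ℝ (P.coeff m * (m (Sum.inl j) : ℕ)) * (∏ t, b t ^ rpart m t) *
      mon y (fun i => (m - Finsupp.single (Sum.inl j) 1 : σ ⊕ τ →₀ ℕ) (Sum.inl i)) := by
  classical
  have h1 : ev (pderiv (Sum.inl j) P) y b = ∑ m ∈ P.support,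
      algebraMap K ℝ (P.coeff m * (m (Sum.inl j) : ℕ)) * (∏ t, b t ^ rpart m t) *
      mon y (fun i => (m - Finsupp.single (Sum.inl j) 1 : σ ⊕ τ →₀ ℕ) (Sum.inl i)) := by
    conv_lhs => rw [P.as_sum]
    rw [map_sum]
    unfold ev
    rw [map_sum]
    refine Finset.sum_congr rfl fun m _ => ?_
    rw [pderiv_monomial, aeval_monomial, Finsupp.prod_fintype _ _ (fun t => pow_zero _),
      Fintype.prod_sum_type]
    have h2 : ∀ t : τ, (m - Finsupp.single (Sum.inl j) 1 : σ ⊕ τ →₀ ℕ) (Sum.inr t) = rpart m t := by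
      intro t
      rw [Finsupp.tsub_apply, Finsupp.single_apply, rpart_apply]
      simp
    simp only [Sum.elim_inl, Sum.elim_inr, h2]
    unfold mon
    ring
  rw [h1]
  symm
  apply Finset.sum_subset (Finset.filter_subset _ _)
  intro m hm hm2
  rw [Finset.mem_filter, not_and] at hm2
  have h3 : m (Sum.inl j) = 0 := by
    by_contra h
    exact hm2 hm h
  rw [h3]
  simp

/-- **Reduction to the box.** -/
theorem red_mon [DecidableEq σ] (z : τ) (q d : ℕ) (C : ℝ) (P : MvPolynomial (σ ⊕ τ) K)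
    (hd : P.totalDegree ≤ d) (hdq : d < 2 * q) (hC : norm1 P ≤ C) (k : ℕ) :
    ∀ α : σ → ℕ, ∑ j, α j ≤ k →
      Red K (fun y b => ∀ j, ev (pderiv (Sum.inl j) (fermat z q P)) y b = 0) (2 * q - 1)
        (((2 * q : ℝ) * (C + 1)) ^ k) (k * (d + 1))
        (fun y b => ((2 * q : ℝ) * b z) ^ k * mon y α) := by
  classical
  have hC0 : 0 ≤ C := (norm1_nonneg P).trans hC
  have hq1 : (1 : ℝ) ≤ 2 * q := by
    have : 1 ≤ 2 * q := by omega
    exact_mod_cast this
  have hbox : ∀ k : ℕ, ∀ α : σ → ℕ, (∀ j, α j < 2 * q - 1) →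
      Red K (fun y b => ∀ j, ev (pderiv (Sum.inl j) (fermat z q P)) y b = 0) (2 * q - 1)
        (((2 * q : ℝ) * (C + 1)) ^ k) (k * (d + 1))
        (fun y b => ((2 * q : ℝ) * b z) ^ k * mon y α) := by
    intro k α hα
    refine (red_box z q k α hα).mono ?_ ?_
    · refine pow_le_pow_left₀ (by positivity) ?_ _
      nlinarith
    · exact Nat.le_mul_of_pos_right _ (Nat.succ_pos d)
  induction k with
  | zero =>
    intro α hα
    apply hbox
    intro j
    have h1 : α j ≤ ∑ j, α j := Finset.single_le_sum (fun i _ => Nat.zero_le _) (Finset.mem_univ j)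
    omega
  | succ k ih =>
    intro α hα
    by_cases hb : ∀ j, α j < 2 * q - 1
    · exact hbox _ α hb
    push Not at hb
    obtain ⟨j, hj⟩ := hb
    set α' : σ → ℕ := Function.update α j (α j - (2 * q - 1)) with hα'
    have hsum : ∑ i, α' i + (2 * q - 1) = ∑ i, α i := by
      rw [← Finset.add_sum_erase _ _ (Finset.mem_univ j),
        ← Finset.add_sum_erase _ α (Finset.mem_univ j)]
      have h1 : ∑ i ∈ Finset.univ.erase j, α' i = ∑ i ∈ Finset.univ.erase j, α i := by
        refine Finset.sum_congr rfl fun i hi => ?_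
        rw [hα', Function.update_of_ne (Finset.ne_of_mem_erase hi)]
      have h2 : α' j = α j - (2 * q - 1) := by rw [hα', Function.update_self]
      rw [h1, h2]
      omega
    have hmon : ∀ y : σ → ℝ, mon y α = y j ^ (2 * q - 1) * mon y α' := by
      intro y
      unfold mon
      rw [← Finset.mul_prod_erase _ _ (Finset.mem_univ j),
        ← Finset.mul_prod_erase _ (fun i => y i ^ α' i) (Finset.mem_univ j)]
      have h1 : ∏ i ∈ Finset.univ.erase j, y i ^ α' i = ∏ i ∈ Finset.univ.erase j, y i ^ α i := by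
        refine Finset.prod_congr rfl fun i hi => ?_
        rw [hα', Function.update_of_ne (Finset.ne_of_mem_erase hi)]
      have h2 : α' j = α j - (2 * q - 1) := by rw [hα', Function.update_self]
      rw [h1, h2, ← mul_assoc, ← pow_add]
      congr 2
      omega
    set I := P.support.filter (fun m => m (Sum.inl j) ≠ 0) with hI
    set G : (σ ⊕ τ →₀ ℕ) → (σ → ℕ) := fun m i => α' i +
      (m - Finsupp.single (Sum.inl j) 1 : σ ⊕ τ →₀ ℕ) (Sum.inl i) with hG
    have hdeg : ∀ m ∈ P.support, ∑ i, m (Sum.inl i) + ((rpart m).sum fun _ => id) ≤ d := by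
      intro m hm
      rw [sum_parts]
      exact (le_totalDegree hm).trans hd
    have hGs : ∀ m ∈ I, ∑ i, G m i ≤ k := by
      intro m hm
      rw [hI, Finset.mem_filter] at hm
      have h1 := hdeg m hm.1
      have h2 : ∑ i, (m - Finsupp.single (Sum.inl j) 1 : σ ⊕ τ →₀ ℕ) (Sum.inl i) + 1 =
          ∑ i, m (Sum.inl i) := by
        rw [← Finset.add_sum_erase _ _ (Finset.mem_univ j),
          ← Finset.add_sum_erase _ (fun i => m (Sum.inl i)) (Finset.mem_univ j)]
        have h3 : ∑ i ∈ Finset.univ.erase j,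
            (m - Finsupp.single (Sum.inl j) 1 : σ ⊕ τ →₀ ℕ) (Sum.inl i) =
            ∑ i ∈ Finset.univ.erase j, m (Sum.inl i) := by
          refine Finset.sum_congr rfl fun i hi => ?_
          have hne : (Sum.inl j : σ ⊕ τ) ≠ Sum.inl i := by
            intro h
            exact (Finset.ne_of_mem_erase hi) (Sum.inl_injective h).symm
          rw [Finsupp.tsub_apply, Finsupp.single_apply, if_neg hne, Nat.sub_zero]
        have h4 : (m - Finsupp.single (Sum.inl j) 1 : σ ⊕ τ →₀ ℕ) (Sum.inl j) =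
            m (Sum.inl j) - 1 := by
          rw [Finsupp.tsub_apply, Finsupp.single_eq_same]
        rw [h3, h4]
        have := hm.2
        omega
      have h5 : ∑ i, G m i = ∑ i, α' i +
          ∑ i, (m - Finsupp.single (Sum.inl j) 1 : σ ⊕ τ →₀ ℕ) (Sum.inl i) := by
        rw [hG, ← Finset.sum_add_distrib]
      omega
    have hred := red_sum (Crit := fun y b => ∀ j, ev (pderiv (Sum.inl j) (fermat z q P)) y b = 0)
      (D := 2 * q - 1) I (fun m => -(P.coeff m * (m (Sum.inl j) : ℕ))) (fun m => rpart m)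
      (fun m y b => ((2 * q : ℝ) * b z) ^ k * mon y (G m)) (e' := d)
      (fun m hm => ih (G m) (hGs m hm))
      (fun m hm => by
        have := hdeg m (Finset.mem_filter.1 hm).1
        omega)
    refine (hred.congr ?_).mono ?_ ?_
    · intro y b hc
      have h1 := hc j
      rw [ev_pderiv_fermat, ev_pderiv_eq] at h1
      have h2 : (2 * q : ℝ) * b z * y j ^ (2 * q - 1) = -∑ m ∈ I,
          algebraMap K ℝ (P.coeff m * (m (Sum.inl j) : ℕ)) * (∏ t, b t ^ rpart m t) *
          mon y (fun i => (m - Finsupp.single (Sum.inl j) 1 : σ ⊕ τ →₀ ℕ) (Sum.inl i)) := by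
        linarith
      have h3 : ((2 * q : ℝ) * b z) ^ (k + 1) * mon y α =
          ((2 * q : ℝ) * b z) ^ k * ((2 * q : ℝ) * b z * y j ^ (2 * q - 1)) * mon y α' := by
        rw [hmon]; ring
      rw [h3, h2, ← Finset.sum_neg_distrib, Finset.mul_sum, Finset.sum_mul]
      refine Finset.sum_congr rfl fun m _ => ?_
      have h4 : mon y (G m) = mon y α' *
          mon y (fun i => (m - Finsupp.single (Sum.inl j) 1 : σ ⊕ τ →₀ ℕ) (Sum.inl i)) := by
        unfold mon
        rw [← Finset.prod_mul_distrib]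
        refine Finset.prod_congr rfl fun i _ => ?_
        rw [hG, pow_add]
      rw [h4, map_neg]
      ring
    · rw [pow_succ, mul_comm]
      refine mul_le_mul_of_nonneg_left ?_ (by positivity)
      have h1 : ∑ m ∈ I, ‖-(P.coeff m * (m (Sum.inl j) : ℕ))‖ ≤ ∑ m ∈ I, ‖P.coeff m‖ * d := by
        refine Finset.sum_le_sum fun m hm => ?_
        rw [norm_neg]
        refine (norm_mul_le _ _).trans ?_
        refine mul_le_mul_of_nonneg_left ?_ (norm_nonneg _)
        have h2 := Nat.norm_cast_le (α := K) (m (Sum.inl j))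
        rw [norm_one, mul_one] at h2
        refine h2.trans ?_
        have h3 := hdeg m (Finset.mem_filter.1 hm).1
        have h4 : m (Sum.inl j) ≤ ∑ i, m (Sum.inl i) :=
          Finset.single_le_sum (f := fun i => m (Sum.inl i)) (fun i _ => Nat.zero_le _)
            (Finset.mem_univ j)
        have h5 : m (Sum.inl j) ≤ d := by omega
        exact_mod_cast h5
      refine h1.trans ?_
      rw [← Finset.sum_mul]
      have h2 : ∑ m ∈ I, ‖P.coeff m‖ ≤ norm1 P := by
        unfold norm1
        exact Finset.sum_le_sum_of_subset_of_nonneg (Finset.filter_subset _ _)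
          (fun _ _ _ => norm_nonneg _)
      have h3 : (d : ℝ) ≤ 2 * q := by
        have : d ≤ 2 * q := hdq.le
        exact_mod_cast this
      have h4 : (∑ m ∈ I, ‖P.coeff m‖) * (d : ℝ) ≤ C * (2 * q) :=
        mul_le_mul (h2.trans hC) h3 (Nat.cast_nonneg _) hC0
      nlinarith
    · rw [Nat.succ_mul]
      omega

omit [Fintype τ] [NormOneClass K] in
theorem Red.add [DecidableEq σ] {Crit : (σ → ℝ) → (τ → ℝ) → Prop} {D : ℕ} {E E' : ℝ} {e : ℕ}
    {F F' : (σ → ℝ) → (τ → ℝ) → ℝ} (h : Red K Crit D E e F) (h' : Red K Crit D E' e F') :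
    Red K Crit D (E + E') e (fun y b => F y b + F' y b) := by
  obtain ⟨r, h1, h2, h3⟩ := h
  obtain ⟨r', h1', h2', h3'⟩ := h'
  refine ⟨fun β => r β + r' β, ?_, ?_, ?_⟩
  · refine (Finset.sum_le_sum fun β _ => norm1_add_le _ _).trans ?_
    rw [Finset.sum_add_distrib]
    exact add_le_add h1 h1'
  · intro β
    exact (totalDegree_add _ _).trans (max_le (h2 β) (h2' β))
  · intro y b hc
    dsimp only
    rw [h3 y b hc, h3' y b hc, ← Finset.sum_add_distrib]
    refine Finset.sum_congr rfl fun β _ => ?_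
    rw [map_add]
    ring

/-- The product of the value with a monomial of the box. -/
theorem red_val [DecidableEq σ] (z : τ) (q d : ℕ) (C : ℝ) (P : MvPolynomial (σ ⊕ τ) K)
    (hd : P.totalDegree ≤ d) (hdq : d < 2 * q) (hC : norm1 P ≤ C) (α : σ → Fin (2 * q - 1)) :
    Red K (fun y b => ∀ j, ev (pderiv (Sum.inl j) (fermat z q P)) y b = 0) (2 * q - 1)
      ((C + Fintype.card σ) * ((2 * q : ℝ) * (C + 1)) ^ (Fintype.card σ * (2 * q) + 2 * q))
      ((Fintype.card σ * (2 * q) + 2 * q + 1) * (d + 1))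
      (fun y b => ((2 * q : ℝ) * b z) ^ (Fintype.card σ * (2 * q) + 2 * q) *
        ev (fermat z q P) y b * mon y (fun j => (α j : ℕ))) := by
  classical
  have hC0 : 0 ≤ C := (norm1_nonneg P).trans hC
  set k := Fintype.card σ * (2 * q) + 2 * q with hk
  have hα : ∑ j, (α j : ℕ) ≤ Fintype.card σ * (2 * q) := by
    refine (Finset.sum_le_card_nsmul _ _ (2 * q) fun j _ => ?_).trans ?_
    · have := (α j).2
      omega
    · rw [smul_eq_mul]; rfl
  have hpar : ∀ m ∈ P.support, ∑ i, m (Sum.inl i) + ((rpart m).sum fun _ => id) ≤ d := by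
    intro m hm
    rw [sum_parts]
    exact (le_totalDegree hm).trans hd
  have h1 := red_sum (Crit := fun y b => ∀ j, ev (pderiv (Sum.inl j) (fermat z q P)) y b = 0)
    (D := 2 * q - 1) P.support (fun m => P.coeff m) (fun m => rpart m)
    (fun m y b => ((2 * q : ℝ) * b z) ^ k * mon y (fun i => (α i : ℕ) + m (Sum.inl i))) (e' := d)
    (fun m hm => red_mon z q d C P hd hdq hC k _ (by
      have := hpar m hm
      rw [Finset.sum_add_distrib]
      omega))
    (fun m hm => by
      have := hpar m hm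
      omega)
  have h2 := red_sum (Crit := fun y b => ∀ j, ev (pderiv (Sum.inl j) (fermat z q P)) y b = 0)
    (D := 2 * q - 1) (Finset.univ : Finset σ) (fun _ => (1 : K)) (fun _ => Finsupp.single z 1)
    (fun j y b => ((2 * q : ℝ) * b z) ^ k * mon y (fun i => (α i : ℕ) + if i = j then 2 * q else 0))
    (e' := 1)
    (fun j _ => red_mon z q d C P hd hdq hC k _ (by
      rw [Finset.sum_add_distrib, Finset.sum_ite_eq' Finset.univ j]
      simp only [Finset.mem_univ, if_true]
      omega))
    (fun j _ => by rw [Finsupp.sum_single_index] <;> simp)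
  have hd1 : d + k * (d + 1) ≤ (k + 1) * (d + 1) := by rw [Nat.succ_mul]; omega
  have hd2 : 1 + k * (d + 1) ≤ (k + 1) * (d + 1) := by rw [Nat.succ_mul]; omega
  refine (((h1.mono le_rfl hd1).add (h2.mono le_rfl hd2)).congr ?_).mono ?_ le_rfl
  · intro y b _
    have e1 : ev (fermat z q P) y b = ev P y b + b z * ∑ j, y j ^ (2 * q) := by
      simp [ev, fermat]
    have hz : ∏ t, b t ^ (Finsupp.single z 1 : τ →₀ ℕ) t = b z := by
      rw [Finset.prod_eq_single z]
      · simp
      · intro t _ ht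
        rw [Finsupp.single_eq_of_ne ht, pow_zero]
      · intro h; exact absurd (Finset.mem_univ z) h
    have hm1 : ∀ m : σ ⊕ τ →₀ ℕ, mon y (fun i => (α i : ℕ) + m (Sum.inl i)) =
        mon y (fun i => (α i : ℕ)) * mon y (fun i => m (Sum.inl i)) := by
      intro m
      unfold mon
      rw [← Finset.prod_mul_distrib]
      exact Finset.prod_congr rfl fun i _ => pow_add _ _ _
    have hm2 : ∀ j : σ, mon y (fun i => (α i : ℕ) + if i = j then 2 * q else 0) =
        mon y (fun i => (α i : ℕ)) * y j ^ (2 * q) := by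
      intro j
      unfold mon
      rw [← Finset.mul_prod_erase _ _ (Finset.mem_univ j),
        ← Finset.mul_prod_erase _ (fun i => y i ^ (α i : ℕ)) (Finset.mem_univ j)]
      have h1 : ∏ i ∈ Finset.univ.erase j, y i ^ ((α i : ℕ) + if i = j then 2 * q else 0) =
          ∏ i ∈ Finset.univ.erase j, y i ^ (α i : ℕ) := by
        refine Finset.prod_congr rfl fun i hi => ?_
        rw [if_neg (Finset.ne_of_mem_erase hi), add_zero]
      rw [h1]
      dsimp only
      rw [if_pos rfl, pow_add]
      ring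
    rw [e1, ev_eq_sum]
    rw [mul_add, add_mul, Finset.mul_sum, Finset.sum_mul, Finset.mul_sum, Finset.mul_sum,
      Finset.sum_mul]
    congr 1
    · refine Finset.sum_congr rfl fun m _ => ?_
      rw [hm1]
      ring
    · refine Finset.sum_congr rfl fun j _ => ?_
      rw [hm2, hz, map_one]
      ring
  · have h3 : ∑ _j : σ, ‖(1 : K)‖ = Fintype.card σ := by simp
    rw [h3, ← add_mul]
    refine mul_le_mul_of_nonneg_right ?_ (by positivity)
    exact add_le_add hC le_rfl

omit [Fintype σ] [Fintype τ] [Algebra K ℝ] in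
theorem norm1_det_le {n ι : Type*} [Fintype n] [DecidableEq n] (A : Matrix n n (MvPolynomial ι K))
    {E : ℝ} (hA : ∀ i j, norm1 (A i j) ≤ E) :
    norm1 A.det ≤ (Fintype.card n * E) ^ Fintype.card n := by
  rw [Matrix.det_apply]
  refine (norm1_sum_le _ _).trans ?_
  have h1 : ∀ π : Equiv.Perm n, norm1 (Equiv.Perm.sign π • ∏ i, A (π i) i) ≤
      E ^ Fintype.card n := by
    intro π
    have h2 : norm1 (Equiv.Perm.sign π • ∏ i, A (π i) i) = norm1 (∏ i, A (π i) i) := by
      rcases Int.units_eq_one_or (Equiv.Perm.sign π) with h | h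
      · rw [h, one_smul]
      · rw [h, Units.neg_smul, one_smul, norm1_neg]
    rw [h2]
    refine (norm1_prod_le _ _).trans ?_
    refine (Finset.prod_le_prod (fun i _ => norm1_nonneg _) fun i _ => hA (π i) i).trans ?_
    rw [Finset.prod_const]
    rfl
  refine (Finset.sum_le_card_nsmul _ _ _ fun π _ => h1 π).trans ?_
  rw [Finset.card_univ, Fintype.card_perm, nsmul_eq_mul, mul_pow]
  by_cases hn : Fintype.card n = 0
  · rw [hn]; simp
  have hE : 0 ≤ E := by
    have : 0 < Fintype.card n := Nat.pos_of_ne_zero hn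
    obtain ⟨i⟩ := Fintype.card_pos_iff.1 this
    exact (norm1_nonneg _).trans (hA i i)
  refine mul_le_mul_of_nonneg_right ?_ (by positivity)
  exact_mod_cast Nat.factorial_le_pow _

omit [Fintype σ] [Fintype τ] [Algebra K ℝ] [NormOneClass K] in
theorem totalDegree_det_le {n ι : Type*} [Fintype n] [DecidableEq n]
    (A : Matrix n n (MvPolynomial ι K)) {e : ℕ} (hA : ∀ i j, (A i j).totalDegree ≤ e) :
    A.det.totalDegree ≤ Fintype.card n * e := by
  rw [Matrix.det_apply]
  refine totalDegree_finsetSum_le fun π _ => ?_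
  have h2 : (Equiv.Perm.sign π • ∏ i, A (π i) i).totalDegree = (∏ i, A (π i) i).totalDegree := by
    rcases Int.units_eq_one_or (Equiv.Perm.sign π) with h | h
    · rw [h, one_smul]
    · rw [h, Units.neg_smul, one_smul, totalDegree_neg]
  rw [h2]
  refine (totalDegree_finsetProd _ _).trans ?_
  refine (Finset.sum_le_card_nsmul _ _ e fun i _ => hA (π i) i).trans ?_
  rw [smul_eq_mul]
  rfl

end main

end Elim

open Elim TB in
/-- **Elimination.** `N (s, b)` vanishes when `s` is a critical value of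
`y ↦ P (y, b) + b_z ∑ y_j^(2q)`. -/
theorem elimination {σ τ K : Type} [Fintype σ] [Fintype τ] [NormedCommRing K] [NormOneClass K]
    [Algebra K ℝ] (z : τ) (q d : ℕ) (C : ℝ) (P : MvPolynomial (σ ⊕ τ) K)
    (hd : P.totalDegree ≤ d) (hdq : d < 2 * q) (hC : norm1 P ≤ C) :
    ∃ N : MvPolynomial (Option τ) K,
      N.totalDegree ≤ elimDeg (Fintype.card σ) q d ∧
      norm1 N ≤ elimNorm (Fintype.card σ) q C ∧
      (∀ b : τ → ℝ, b z ≠ 0 → ∀ y : σ → ℝ,
        (∀ j, ev (pderiv (Sum.inl j) (fermat z q P)) y b = 0) →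
        aeval (fun o : Option τ => o.elim (ev (fermat z q P) y b) b) N = (0 : ℝ)) ∧
      (∀ b : τ → ℝ, b z ≠ 0 →
        {s : ℝ | aeval (fun o : Option τ => o.elim s b) N = (0 : ℝ)}.Finite) := by
  classical
  have hC0 : 0 ≤ C := (norm1_nonneg P).trans hC
  have hq : 0 < q := by omega
  have hq1 : (1 : ℝ) ≤ 2 * q := by
    have : 1 ≤ 2 * q := by omega
    exact_mod_cast this
  set ν := Fintype.card σ with hν
  set k := ν * (2 * q) + 2 * q with hk
  choose M hM1 hM2 hM3 using fun α => red_val z q d C P hd hdq hC α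
  rw [← hν] at hM1 hM2 hM3
  rw [← hk] at hM1 hM2 hM3
  set A : Matrix (σ → Fin (2 * q - 1)) (σ → Fin (2 * q - 1)) (MvPolynomial (Option τ) K) :=
    Matrix.of fun α β => rename some (M α β) -
      (if α = β then X none * rename some (cpoly z q k) else 0) with hA
  have hcard : Fintype.card (σ → Fin (2 * q - 1)) = (2 * q - 1) ^ ν := by
    rw [Fintype.card_fun, Fintype.card_fin]
  have hcard' : Fintype.card (σ → Fin (2 * q - 1)) ≤ (2 * q) ^ ν := by
    rw [hcard]
    exact Nat.pow_le_pow_left (by omega) _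
  -- evaluation of the matrix
  have hev : ∀ (b : τ → ℝ) (s : ℝ) (α β : σ → Fin (2 * q - 1)),
      aeval (fun o : Option τ => o.elim s b) (A α β) =
        aeval b (M α β) - (if α = β then s * ((2 * q : ℝ) * b z) ^ k else 0) := by
    intro b s α β
    have h1 : ∀ Q : MvPolynomial τ K, aeval (fun o : Option τ => o.elim s b) (rename some Q) =
        aeval b Q := by
      intro Q
      rw [aeval_rename]
      rfl
    rw [hA, Matrix.of_apply, map_sub, h1]
    congr 1
    split_ifs
    · rw [map_mul, h1, aeval_X, aeval_cpoly]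
      rfl
    · rw [map_zero]
  have hdet : ∀ (b : τ → ℝ) (s : ℝ), aeval (fun o : Option τ => o.elim s b) A.det =
      (Matrix.of fun α β => aeval b (M α β) -
        (if α = β then s * ((2 * q : ℝ) * b z) ^ k else 0) :
        Matrix (σ → Fin (2 * q - 1)) (σ → Fin (2 * q - 1)) ℝ).det := by
    intro b s
    rw [AlgHom.map_det]
    congr 1
    ext α β
    rw [AlgHom.mapMatrix_apply, Matrix.map_apply, hev, Matrix.of_apply]
  refine ⟨A.det, ?_, ?_, ?_, ?_⟩
  · refine (totalDegree_det_le A (e := (k + 1) * (d + 1)) ?_).trans ?_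
    · intro α β
      rw [hA, Matrix.of_apply]
      refine (totalDegree_sub _ _).trans (max_le ?_ ?_)
      · exact (totalDegree_rename_le _ _).trans (hM2 α β)
      · split_ifs
        · refine (totalDegree_mul _ _).trans ?_
          have h1 : (X none : MvPolynomial (Option τ) K).totalDegree ≤ 1 := by
            by_cases hK : Nontrivial K
            · exact (totalDegree_X none).le
            · rw [not_nontrivial_iff_subsingleton] at hK
              have : (X none : MvPolynomial (Option τ) K) = 0 := Subsingleton.elim _ _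
              rw [this]; simp
          have h2 : (rename some (cpoly z q k) : MvPolynomial (Option τ) K).totalDegree ≤ k :=
            (totalDegree_rename_le _ _).trans (totalDegree_cpoly z q k)
          calc _ ≤ 1 + k := add_le_add h1 h2
            _ = k + 1 := add_comm _ _
            _ ≤ (k + 1) * (d + 1) := Nat.le_mul_of_pos_right _ (Nat.succ_pos d)
        · simp
    · unfold elimDeg
      exact Nat.mul_le_mul_right _ hcard'
  · set E : ℝ := (C + ν + 1) * ((2 * q : ℝ) * (C + 1)) ^ k with hE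
    have hpow1 : (1 : ℝ) ≤ ((2 * q : ℝ) * (C + 1)) ^ k := one_le_pow₀ (by nlinarith)
    have hν0 : (0 : ℝ) ≤ ν := Nat.cast_nonneg _
    have hE1 : 1 ≤ E := by rw [hE]; nlinarith
    refine (norm1_det_le A (E := E) ?_).trans ?_
    · intro α β
      rw [hA, Matrix.of_apply, sub_eq_add_neg]
      refine (norm1_add_le _ _).trans ?_
      rw [norm1_neg]
      have h1 : norm1 (rename some (M α β) : MvPolynomial (Option τ) K) ≤
          (C + ν) * ((2 * q : ℝ) * (C + 1)) ^ k := by
        refine (norm1_rename_le _ _).trans ?_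
        refine le_trans ?_ (hM1 α)
        exact Finset.single_le_sum (f := fun β => norm1 (M α β)) (fun β _ => norm1_nonneg _)
          (Finset.mem_univ β)
      have h2 : norm1 (if α = β then X none * rename some (cpoly z q k) else 0 :
          MvPolynomial (Option τ) K) ≤ ((2 * q : ℝ) * (C + 1)) ^ k := by
        split_ifs
        · refine (norm1_mul_le _ _).trans ?_
          rw [norm1_X, one_mul]
          refine (norm1_rename_le _ _).trans ((norm1_cpoly z q k).trans ?_)
          refine pow_le_pow_left₀ (by positivity) ?_ _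
          nlinarith
        · rw [norm1_zero]; positivity
      rw [hE]
      linarith
    · unfold elimNorm
      have hc : (Fintype.card (σ → Fin (2 * q - 1)) : ℝ) ≤ (2 * q : ℝ) ^ ν := by
        exact_mod_cast hcard'
      have h1 : (Fintype.card (σ → Fin (2 * q - 1)) : ℝ) * E ≤ (2 * q : ℝ) ^ ν * E :=
        mul_le_mul_of_nonneg_right hc (by linarith)
      have h2 : (1 : ℝ) ≤ (2 * q : ℝ) ^ ν * E := by
        have : (1 : ℝ) ≤ (2 * q : ℝ) ^ ν := one_le_pow₀ hq1
        nlinarith
      calc ((Fintype.card (σ → Fin (2 * q - 1)) : ℝ) * E) ^ Fintype.card (σ → Fin (2 * q - 1))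
          ≤ ((2 * q : ℝ) ^ ν * E) ^ Fintype.card (σ → Fin (2 * q - 1)) :=
            pow_le_pow_left₀ (by positivity) h1 _
        _ ≤ ((2 * q : ℝ) ^ ν * E) ^ ((2 * q) ^ ν) := pow_le_pow_right₀ h2 hcard'
        _ = _ := by rw [hE, ← mul_assoc]
  · intro b _ y hc
    rw [hdet]
    rw [← Matrix.exists_mulVec_eq_zero_iff]
    refine ⟨fun β => mon y (fun j => (β j : ℕ)), ?_, ?_⟩
    · intro h
      by_cases hD : 0 < 2 * q - 1
      · have h1 := congrFun h (fun _ => ⟨0, hD⟩)
        simp [mon] at h1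
      · omega
    · ext α
      rw [Matrix.mulVec, Pi.zero_apply]
      have h1 := hM3 α y b hc
      simp only [dotProduct, Matrix.of_apply, sub_mul, Finset.sum_sub_distrib, ite_mul, zero_mul,
        Finset.sum_ite_eq, Finset.mem_univ, if_true]
      rw [← h1]
      ring
  · intro b hb
    set c : ℝ := ((2 * q : ℝ) * b z) ^ k with hc
    have hc0 : c ≠ 0 := by
      rw [hc]
      refine pow_ne_zero _ (mul_ne_zero ?_ hb)
      linarith
    set B : Matrix (σ → Fin (2 * q - 1)) (σ → Fin (2 * q - 1)) ℝ :=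
      Matrix.of fun α β => c⁻¹ * aeval b (M α β) with hB
    refine (B.charpoly.roots.toFinset.finite_toSet).subset ?_
    intro s hs
    rw [Set.mem_ofPred_eq, hdet] at hs
    have h1 : (Matrix.of fun α β => aeval b (M α β) - (if α = β then s * c else 0) :
        Matrix (σ → Fin (2 * q - 1)) (σ → Fin (2 * q - 1)) ℝ) =
        (-c) • (Matrix.scalar _ s - B) := by
      ext α β
      rw [Matrix.smul_apply, Matrix.sub_apply, Matrix.of_apply, hB, Matrix.of_apply,
        Matrix.scalar_apply, Matrix.diagonal_apply, smul_eq_mul]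
      split_ifs
      · field_simp
        ring
      · field_simp
        ring
    rw [h1, Matrix.det_smul, ← Matrix.eval_charpoly] at hs
    have h2 := (mul_eq_zero.1 hs).resolve_left (pow_ne_zero _ (neg_ne_zero.2 hc0))
    rw [Finset.mem_coe, Multiset.mem_toFinset, Polynomial.mem_roots (Matrix.charpoly_monic B).ne_zero]
    exact h2

end Pool.Agent.IsoPt
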