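import Pool.Agent.Lib.IsoPt.Defs

/-!
# Chunk X : extreme coefficients
-/

set_option autoImplicit false
set_option linter.unusedSectionVars false

namespace Pool.Agent.IsoPt

open MvPolynomial Filter Topology

section Extreme

variable {τ K : Type} [Fintype τ] [NormedCommRing K] [Algebra K ℝ]

/-- The exponent vector with exponents `l`, `j` at `none`, `some none` and `u` elsewhere. -/
noncomputable def lexExp (l j : ℕ) (u : τ →₀ ℕ) : Option (Option τ) →₀ ℕ :=
  (u.optionElim j).optionElim l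

lemma lexExp_none (l j : ℕ) (u : τ →₀ ℕ) : lexExp l j u none = l :=
  Finsupp.optionElim_apply_none _ _

lemma lexExp_some_none (l j : ℕ) (u : τ →₀ ℕ) : lexExp l j u (some none) = j := by
  rw [lexExp, Finsupp.optionElim_apply_some, Finsupp.optionElim_apply_none]

lemma lexExp_some_some (l j : ℕ) (u : τ →₀ ℕ) (i : τ) : lexExp l j u (some (some i)) = u i := by
  rw [lexExp, Finsupp.optionElim_apply_some, Finsupp.optionElim_apply_some]

lemma lexExp_eq_iff (l j : ℕ) (u : τ →₀ ℕ) (m : Option (Option τ) →₀ ℕ)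
    (h : m none = l ∧ m (some none) = j) : m.some.some = u ↔ m = lexExp l j u := by
  constructor
  · rintro rfl
    ext a
    rcases a with _ | _ | i
    · rw [lexExp_none, h.1]
    · rw [lexExp_some_none, h.2]
    · rw [lexExp_some_some]; rfl
  · rintro rfl
    ext i
    rw [Finsupp.some_apply, Finsupp.some_apply, lexExp_some_some]

/-- The part of `Q` with exponents `l`, `j` in the two special variables. -/
noncomputable def lexPart (Q : MvPolynomial (Option (Option τ)) K) (l j : ℕ) :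
    MvPolynomial τ K :=
  ∑ m ∈ Q.support with (m none = l ∧ m (some none) = j), monomial m.some.some (Q.coeff m)

lemma coeff_lexPart (Q : MvPolynomial (Option (Option τ)) K) (l j : ℕ) (u : τ →₀ ℕ) :
    (lexPart Q l j).coeff u = Q.coeff (lexExp l j u) := by
  classical
  rw [lexPart, coeff_sum]
  have h : ∀ m ∈ Q.support.filter (fun m => m none = l ∧ m (some none) = j),
      coeff u (monomial m.some.some (Q.coeff m)) =
        if m = lexExp l j u then Q.coeff m else 0 := by
    intro m hm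
    rw [coeff_monomial]
    have := lexExp_eq_iff l j u m (Finset.mem_filter.mp hm).2
    by_cases h' : m.some.some = u
    · rw [if_pos h', if_pos (this.mp h')]
    · rw [if_neg h', if_neg (fun h'' => h' (this.mpr h''))]
  rw [Finset.sum_congr rfl h, Finset.sum_ite_eq']
  split_ifs with h'
  · rfl
  · have : lexExp l j u ∉ Q.support := fun h'' =>
      h' (Finset.mem_filter.mpr ⟨h'', lexExp_none l j u, lexExp_some_none l j u⟩)
    exact (notMem_support_iff.mp this).symm

lemma lexExp_injective (l j : ℕ) : Function.Injective (lexExp (τ := τ) l j) := by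
  intro u v h
  ext i
  rw [← lexExp_some_some l j u i, h, lexExp_some_some]

lemma norm1_lexPart_le (Q : MvPolynomial (Option (Option τ)) K) (l j : ℕ) :
    norm1 (lexPart Q l j) ≤ norm1 Q := by
  classical
  unfold norm1
  rw [← Finset.sum_image (f := fun m => ‖Q.coeff m‖) (s := (lexPart Q l j).support)
    (g := lexExp l j) (fun u _ v _ h => lexExp_injective l j h) |>.trans
    (Finset.sum_congr rfl fun u _ => by rw [coeff_lexPart])]
  refine Finset.sum_le_sum_of_subset_of_nonneg ?_ (fun _ _ _ => norm_nonneg _)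
  intro m hm
  obtain ⟨u, hu, rfl⟩ := Finset.mem_image.mp hm
  rw [mem_support_iff, coeff_lexPart] at hu
  exact mem_support_iff.mpr hu

lemma totalDegree_lexPart_le (Q : MvPolynomial (Option (Option τ)) K) (l j : ℕ) :
    (lexPart Q l j).totalDegree ≤ Q.totalDegree := by
  refine Finset.sup_le fun u hu => ?_
  rw [mem_support_iff, coeff_lexPart] at hu
  refine le_trans ?_ (le_totalDegree (mem_support_iff.mpr hu))
  rw [Finsupp.sum_fintype _ _ (fun _ => rfl), Finsupp.sum_fintype _ _ (fun _ => rfl),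
    Fintype.sum_option, Fintype.sum_option]
  simp only [lexExp_some_some]
  omega

lemma aeval_elim_eq (Q : MvPolynomial (Option (Option τ)) K) (ζ ω : ℝ) (b : τ → ℝ) :
    aeval (fun o : Option (Option τ) => o.elim ζ (fun o' => o'.elim ω b)) Q =
      ∑ m ∈ Q.support, algebraMap K ℝ (Q.coeff m) * (ζ ^ (m none) * (ω ^ (m (some none)) *
        ∏ i, b i ^ (m (some (some i))))) := by
  rw [aeval_def, eval₂_eq']
  simp only [Fintype.prod_option, Option.elim_none, Option.elim_some]

lemma aeval_lexPart (Q : MvPolynomial (Option (Option τ)) K) (l j : ℕ) (b : τ → ℝ) :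
    aeval b (lexPart Q l j) =
      ∑ m ∈ Q.support with (m none = l ∧ m (some none) = j),
        algebraMap K ℝ (Q.coeff m) * ∏ i, b i ^ (m (some (some i))) := by
  rw [lexPart, map_sum]
  refine Finset.sum_congr rfl fun m _ => ?_
  rw [aeval_monomial, Finsupp.prod_fintype _ _ (fun _ => pow_zero _)]
  rfl

end Extreme

/-- **Extreme coefficient lemma.** The variables are `none` (very small, `ζ`), `some none`
(small, `ω`) and `some (some i)` (the others, `b`).  `ρ` is the coefficient of the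
lexicographically smallest monomial `ζ^l ω^j` occurring in `Q`. -/
theorem extreme_coeff {τ K : Type} [Fintype τ] [NormedCommRing K] [Algebra K ℝ]
    (Q : MvPolynomial (Option (Option τ)) K) (hQ : Q ≠ 0) :
    ∃ ρ : MvPolynomial τ K, ρ ≠ 0 ∧ ρ.totalDegree ≤ Q.totalDegree ∧ norm1 ρ ≤ norm1 Q ∧
      ∀ (ζ ω : ℕ → ℝ) (b : ℕ → τ → ℝ) (b' : τ → ℝ), Tendsto b atTop (𝓝 b') →
        Tendsto ω atTop (𝓝 0) → (∀ i, ω i ≠ 0) → (∀ i, ζ i ≠ 0) → (∀ i, |ζ i| ≤ |ω i| ^ i) →
        (∀ i, aeval (fun o : Option (Option τ) =>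
          o.elim (ζ i) (fun o' => o'.elim (ω i) (b i))) Q = (0 : ℝ)) →
        aeval b' ρ = (0 : ℝ) := by
  classical
  obtain ⟨m₀, hm₀, hmin⟩ := Finset.exists_min_image Q.support
    (fun m => toLex (m none, m (some none))) (support_nonempty.mpr hQ)
  set l := m₀ none with hl
  set j := m₀ (some none) with hj
  refine ⟨lexPart Q l j, ?_, totalDegree_lexPart_le Q l j, norm1_lexPart_le Q l j, ?_⟩
  · intro h
    have h1 := coeff_lexPart Q l j m₀.some.some
    rw [h, coeff_zero, ← (lexExp_eq_iff l j _ m₀ ⟨rfl, rfl⟩).mp rfl] at h1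
    exact mem_support_iff.mp hm₀ h1.symm
  · intro ζ ω b b' hb hω hω0 hζ0 hζω hzero
    -- the limit of `ρ (b i)`
    have hlim : Tendsto (fun i => aeval (b i) (lexPart Q l j) : ℕ → ℝ) atTop
        (𝓝 (aeval b' (lexPart Q l j))) := by
      simp only [aeval_lexPart]
      refine tendsto_finsetSum _ fun m _ => Tendsto.const_mul _ ?_
      refine tendsto_finsetProd _ fun i _ => ?_
      exact ((tendsto_pi_nhds.mp hb) i).pow _
    -- the remainder
    set rest : ℕ → ℝ := fun i => ∑ m ∈ Q.support with ¬(m none = l ∧ m (some none) = j),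
      |algebraMap K ℝ (Q.coeff m)| * (|ω i| * |∏ k, b i k ^ (m (some (some k)))|) with hrest
    have hrest0 : Tendsto rest atTop (𝓝 0) := by
      have h0 : (0 : ℝ) = ∑ m ∈ Q.support with ¬(m none = l ∧ m (some none) = j),
          |algebraMap K ℝ (Q.coeff m)| * (|(0 : ℝ)| * |∏ k, b' k ^ (m (some (some k)))|) := by
        simp
      rw [h0]
      refine tendsto_finsetSum _ fun m _ => Tendsto.const_mul _ ?_
      refine (hω.abs).mul (Tendsto.abs ?_)
      refine tendsto_finsetProd _ fun i _ => ?_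
      exact ((tendsto_pi_nhds.mp hb) i).pow _
    have hsmall : ∀ᶠ i in atTop, |ω i| ≤ 1 := by
      have := hω.abs
      rw [abs_zero] at this
      exact (this.eventually (ge_mem_nhds zero_lt_one))
    have hbound : ∀ᶠ i in atTop, |aeval (b i) (lexPart Q l j)| ≤ rest i := by
      filter_upwards [hsmall, eventually_ge_atTop (j + 1)] with i hi hij
      have hpos : 0 < |ω i| := abs_pos.mpr (hω0 i)
      have hζpos : 0 < |ζ i| := abs_pos.mpr (hζ0 i)
      have hζ1 : |ζ i| ≤ 1 := (hζω i).trans (pow_le_one₀ hpos.le hi)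
      have hdiv : ζ i ^ l * ω i ^ j * aeval (b i) (lexPart Q l j) =
          -∑ m ∈ Q.support with ¬(m none = l ∧ m (some none) = j),
            algebraMap K ℝ (Q.coeff m) * (ζ i ^ (m none) * (ω i ^ (m (some none)) *
              ∏ k, b i k ^ (m (some (some k))))) := by
        have h1 := hzero i
        rw [aeval_elim_eq, ← Finset.sum_filter_add_sum_filter_not Q.support
          (fun m => m none = l ∧ m (some none) = j)] at h1
        rw [eq_neg_iff_add_eq_zero, ← h1, aeval_lexPart, Finset.mul_sum]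
        congr 1
        refine Finset.sum_congr rfl fun m hm => ?_
        obtain ⟨h2, h3⟩ := (Finset.mem_filter.mp hm).2
        rw [h2, h3]
        ring
      have hterm : ∀ m ∈ Q.support.filter (fun m => ¬(m none = l ∧ m (some none) = j)),
          |ζ i| ^ (m none) * |ω i| ^ (m (some none)) ≤ |ζ i| ^ l * |ω i| ^ j * |ω i| := by
        intro m hm
        obtain ⟨hms, hne⟩ := Finset.mem_filter.mp hm
        have hle := hmin m hms
        rw [Prod.Lex.toLex_le_toLex] at hle
        rcases hle with hlt | ⟨heq, hle2⟩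
        · have hlt' : l + 1 ≤ m none := hlt
          have e1 : |ζ i| ^ (m none) ≤ |ζ i| ^ (l + 1) :=
            pow_le_pow_of_le_one hζpos.le hζ1 hlt'
          have e2 : |ω i| ^ (m (some none)) ≤ 1 := pow_le_one₀ hpos.le hi
          have e3 : |ζ i| ≤ |ω i| ^ (j + 1) :=
            (hζω i).trans (pow_le_pow_of_le_one hpos.le hi hij)
          calc |ζ i| ^ (m none) * |ω i| ^ (m (some none)) ≤ |ζ i| ^ (l + 1) * 1 :=
                mul_le_mul e1 e2 (by positivity) (by positivity)
            _ = |ζ i| ^ l * |ζ i| := by rw [mul_one, pow_succ]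
            _ ≤ |ζ i| ^ l * |ω i| ^ (j + 1) := by gcongr
            _ = _ := by rw [pow_succ, mul_assoc]
        · have heq' : m none = l := heq.symm
          have hne2 : m (some none) ≠ j := fun h => hne ⟨heq', h⟩
          have hlt : j + 1 ≤ m (some none) := by
            have : j ≤ m (some none) := hle2
            omega
          rw [heq']
          calc |ζ i| ^ l * |ω i| ^ (m (some none)) ≤ |ζ i| ^ l * |ω i| ^ (j + 1) := by
                gcongr ?_ * ?_
                exact pow_le_pow_of_le_one hpos.le hi hlt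
            _ = _ := by rw [pow_succ, mul_assoc]
      have hAbs : |ζ i| ^ l * |ω i| ^ j * |aeval (b i) (lexPart Q l j)| ≤
          |ζ i| ^ l * |ω i| ^ j * rest i := by
        rw [← abs_pow, ← abs_pow, ← abs_mul, ← abs_mul, hdiv, abs_neg, hrest]
        refine (Finset.abs_sum_le_sum_abs _ _).trans ?_
        rw [Finset.mul_sum]
        refine Finset.sum_le_sum fun m hm => ?_
        rw [abs_mul, abs_mul, abs_mul, abs_pow, abs_pow]
        have h4 := hterm m hm
        rw [abs_mul, abs_pow, abs_pow]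
        calc |algebraMap K ℝ (Q.coeff m)| * (|ζ i| ^ (m none) * (|ω i| ^ (m (some none)) *
              |∏ k, b i k ^ (m (some (some k)))|))
            = |algebraMap K ℝ (Q.coeff m)| * |∏ k, b i k ^ (m (some (some k)))| *
              (|ζ i| ^ (m none) * |ω i| ^ (m (some none))) := by ring
          _ ≤ |algebraMap K ℝ (Q.coeff m)| * |∏ k, b i k ^ (m (some (some k)))| *
              (|ζ i| ^ l * |ω i| ^ j * |ω i|) := by gcongr
          _ = _ := by ring
      exact le_of_mul_le_mul_left hAbs (by positivity)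
    have habs : Tendsto (fun i => |aeval (b i) (lexPart Q l j)| : ℕ → ℝ) atTop (𝓝 0) :=
      squeeze_zero' (Eventually.of_forall fun _ => abs_nonneg _) hbound hrest0
    have := tendsto_nhds_unique habs hlim.abs
    exact abs_eq_zero.mp this.symm

/-- The univariate polynomial collecting the monomials of `ρ` with exponents `i`, `j` at `1`, `2`. -/
noncomputable def tPart (ρ : MvPolynomial (Fin 3) ℤ) (i j : ℕ) : Polynomial ℤ :=
  ∑ m ∈ ρ.support with (m 2 = j ∧ m 1 = i), Polynomial.monomial (m 0) (ρ.coeff m)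

lemma fin3_ext {m m' : Fin 3 →₀ ℕ} (h0 : m 0 = m' 0) (h1 : m 1 = m' 1) (h2 : m 2 = m' 2) :
    m = m' := by
  ext k
  fin_cases k
  · exact h0
  · exact h1
  · exact h2

lemma tPart_ne_zero (ρ : MvPolynomial (Fin 3) ℤ) {m₀ : Fin 3 →₀ ℕ} (h : m₀ ∈ ρ.support) :
    tPart ρ (m₀ 1) (m₀ 2) ≠ 0 := by
  classical
  intro h0
  have h1 := congrArg (fun p => Polynomial.coeff p (m₀ 0)) h0
  simp only [tPart, Polynomial.finsetSum_coeff, Polynomial.coeff_monomial,
    Polynomial.coeff_zero] at h1
  rw [Finset.sum_eq_single m₀] at h1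
  · rw [if_pos rfl] at h1
    exact mem_support_iff.mp h h1
  · intro m hm hne
    rw [if_neg]
    intro h2
    obtain ⟨-, h3, h4⟩ := Finset.mem_filter.mp hm
    exact hne (fin3_ext h2 h4 h3)
  · intro h2
    exact absurd (Finset.mem_filter.mpr ⟨h, rfl, rfl⟩) h2

lemma le_totalDegree_fin3 (ρ : MvPolynomial (Fin 3) ℤ) {m : Fin 3 →₀ ℕ} (h : m ∈ ρ.support) :
    m 0 + m 1 + m 2 ≤ ρ.totalDegree := by
  have := le_totalDegree h
  rwa [Finsupp.sum_fintype _ _ (fun _ => rfl), Fin.sum_univ_three] at this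

lemma natDegree_tPart_le (ρ : MvPolynomial (Fin 3) ℤ) (i j : ℕ) :
    (tPart ρ i j).natDegree ≤ ρ.totalDegree := by
  refine Polynomial.natDegree_sum_le_of_forall_le _ _ fun m hm => ?_
  refine (Polynomial.natDegree_monomial_le _).trans ?_
  have := le_totalDegree_fin3 ρ (Finset.mem_filter.mp hm).1
  omega

lemma aeval_fin3 (ρ : MvPolynomial (Fin 3) ℤ) (T t ζ : ℝ) :
    aeval ![T, t, ζ] ρ =
      ∑ m ∈ ρ.support, ((ρ.coeff m : ℤ) : ℝ) * (T ^ (m 0) * t ^ (m 1) * ζ ^ (m 2)) := by
  rw [aeval_def, eval₂_eq']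
  refine Finset.sum_congr rfl fun m _ => ?_
  rw [Fin.prod_univ_three]
  simp

/-- **Quantitative nonvanishing.** Variables `0 = T`, `1 = t`, `2 = ζ`. Outside of at most `D`
integers `T`, a nonzero integer polynomial does not vanish for small `t` and much smaller `ζ`. -/
theorem nonvanish (ρ : MvPolynomial (Fin 3) ℤ) (hρ : ρ ≠ 0) (D : ℕ) (hD : ρ.totalDegree ≤ D)
    (H : ℝ) (hH : norm1 ρ ≤ H) :
    ∃ S : Finset ℤ, S.card ≤ D ∧ ∀ T : ℤ, T ∉ S → ∀ W : ℝ, 1 ≤ W → |(T : ℝ)| ≤ W →
      ∀ t ζ : ℝ, 0 < t → t * (4 * H * W ^ D) ≤ 1 → 0 < ζ → ζ ≤ t ^ (D + 1) →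
        aeval ![(T : ℝ), t, ζ] ρ ≠ (0 : ℝ) := by
  classical
  obtain ⟨m₀, hm₀, hmin⟩ := Finset.exists_min_image ρ.support
    (fun m => toLex (m 2, m 1)) (support_nonempty.mpr hρ)
  set p := tPart ρ (m₀ 1) (m₀ 2) with hp
  have hp0 : p ≠ 0 := tPart_ne_zero ρ hm₀
  refine ⟨p.roots.toFinset, ?_, ?_⟩
  · refine (Multiset.toFinset_card_le _).trans ((Polynomial.card_roots' p).trans ?_)
    exact (natDegree_tPart_le ρ _ _).trans hD
  · intro T hT W hW hTW t ζ ht htH hζ hζt
    have hpT : p.eval T ≠ 0 := by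
      intro h
      exact hT (Multiset.mem_toFinset.mpr ((Polynomial.mem_roots hp0).mpr h))
    have hpT1 : (1 : ℝ) ≤ |((p.eval T : ℤ) : ℝ)| := by
      rw [← Int.cast_abs]
      exact_mod_cast Int.one_le_abs hpT
    -- `1 ≤ H`
    have hH1 : 1 ≤ H := by
      refine le_trans ?_ hH
      have h1 : (1 : ℝ) ≤ ‖ρ.coeff m₀‖ := by
        rw [Int.norm_eq_abs]
        rw [← Int.cast_abs]
        exact_mod_cast Int.one_le_abs (mem_support_iff.mp hm₀)
      exact h1.trans (Finset.single_le_sum (f := fun m => ‖ρ.coeff m‖)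
        (fun _ _ => norm_nonneg _) hm₀)
    have hWD : 1 ≤ W ^ D := one_le_pow₀ hW
    have htH' : t * (H * W ^ D) ≤ 1 / 4 := by
      have : t * (4 * H * W ^ D) = 4 * (t * (H * W ^ D)) := by ring
      rw [this] at htH
      linarith
    have ht1 : t ≤ 1 := by
      have : t * 1 ≤ t * (H * W ^ D) := by
        gcongr
        exact one_le_mul_of_one_le_of_one_le hH1 hWD
      linarith
    have hζ1 : ζ ≤ 1 := hζt.trans (pow_le_one₀ ht.le ht1)
    set i₀ := m₀ 1 with hi₀
    set j₀ := m₀ 2 with hj₀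
    have hi₀D : i₀ ≤ D := by
      have := le_totalDegree_fin3 ρ hm₀
      omega
    have hsplit : aeval ![(T : ℝ), t, ζ] ρ = t ^ i₀ * ζ ^ j₀ * ((p.eval T : ℤ) : ℝ) +
        ∑ m ∈ ρ.support with ¬(m 2 = j₀ ∧ m 1 = i₀),
          ((ρ.coeff m : ℤ) : ℝ) * ((T : ℝ) ^ (m 0) * t ^ (m 1) * ζ ^ (m 2)) := by
      rw [aeval_fin3, ← Finset.sum_filter_add_sum_filter_not ρ.support
          (fun m => m 2 = j₀ ∧ m 1 = i₀)]
      congr 1
      rw [hp, tPart, Polynomial.eval_finsetSum, Int.cast_sum, Finset.mul_sum]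
      refine Finset.sum_congr rfl fun m hm => ?_
      obtain ⟨-, h2, h1⟩ := Finset.mem_filter.mp hm
      rw [Polynomial.eval_monomial, h1, h2]
      push_cast
      ring
    have hrest : |∑ m ∈ ρ.support with ¬(m 2 = j₀ ∧ m 1 = i₀),
          ((ρ.coeff m : ℤ) : ℝ) * ((T : ℝ) ^ (m 0) * t ^ (m 1) * ζ ^ (m 2))| ≤
        t ^ i₀ * ζ ^ j₀ * (1 / 4) := by
      refine (Finset.abs_sum_le_sum_abs _ _).trans ?_
      have hterm : ∀ m ∈ ρ.support.filter (fun m => ¬(m 2 = j₀ ∧ m 1 = i₀)),
          |((ρ.coeff m : ℤ) : ℝ) * ((T : ℝ) ^ (m 0) * t ^ (m 1) * ζ ^ (m 2))| ≤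
            ‖ρ.coeff m‖ * (W ^ D * (t * (t ^ i₀ * ζ ^ j₀))) := by
        intro m hm
        obtain ⟨hms, hne⟩ := Finset.mem_filter.mp hm
        have hdeg := le_totalDegree_fin3 ρ hms
        have h0 : |(T : ℝ)| ^ (m 0) ≤ W ^ D :=
          (pow_le_pow_left₀ (abs_nonneg _) hTW _).trans (pow_le_pow_right₀ hW (by omega))
        have h12 : t ^ (m 1) * ζ ^ (m 2) ≤ t * (t ^ i₀ * ζ ^ j₀) := by
          have hle := hmin m hms
          rw [Prod.Lex.toLex_le_toLex] at hle
          rcases hle with hlt | ⟨heq, hle2⟩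
          · have hlt' : j₀ + 1 ≤ m 2 := hlt
            calc t ^ (m 1) * ζ ^ (m 2) ≤ 1 * ζ ^ (j₀ + 1) := by
                  gcongr ?_ * ?_
                  · exact pow_le_one₀ ht.le ht1
                  · exact pow_le_pow_of_le_one hζ.le hζ1 hlt'
              _ = ζ * ζ ^ j₀ := by rw [one_mul, pow_succ]; ring
              _ ≤ t ^ (D + 1) * ζ ^ j₀ := by gcongr
              _ ≤ t ^ (i₀ + 1) * ζ ^ j₀ := by
                  gcongr ?_ * _
                  exact pow_le_pow_of_le_one ht.le ht1 (by omega)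
              _ = _ := by ring
          · have heq' : m 2 = j₀ := heq.symm
            have hne2 : m 1 ≠ i₀ := fun h => hne ⟨heq', h⟩
            have hlt : i₀ + 1 ≤ m 1 := by
              have : i₀ ≤ m 1 := hle2
              omega
            rw [heq']
            calc t ^ (m 1) * ζ ^ j₀ ≤ t ^ (i₀ + 1) * ζ ^ j₀ := by
                  gcongr ?_ * _
                  exact pow_le_pow_of_le_one ht.le ht1 hlt
              _ = _ := by ring
        rw [abs_mul, abs_mul, abs_mul, abs_pow, abs_of_nonneg (pow_nonneg ht.le _),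
          abs_of_nonneg (pow_nonneg hζ.le _), Int.norm_eq_abs, mul_assoc (|(T : ℝ)| ^ (m 0))]
        gcongr
      refine (Finset.sum_le_sum hterm).trans ?_
      rw [← Finset.sum_mul]
      have hsum : ∑ m ∈ ρ.support with ¬(m 2 = j₀ ∧ m 1 = i₀), ‖ρ.coeff m‖ ≤ H :=
        (Finset.sum_le_sum_of_subset_of_nonneg (Finset.filter_subset _ _)
          (fun _ _ _ => norm_nonneg _)).trans hH
      calc (∑ m ∈ ρ.support with ¬(m 2 = j₀ ∧ m 1 = i₀), ‖ρ.coeff m‖) *
            (W ^ D * (t * (t ^ i₀ * ζ ^ j₀)))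
          ≤ H * (W ^ D * (t * (t ^ i₀ * ζ ^ j₀))) := by gcongr
        _ = t ^ i₀ * ζ ^ j₀ * (t * (H * W ^ D)) := by ring
        _ ≤ _ := by gcongr
    intro h0
    rw [hsplit] at h0
    have hpos : 0 < t ^ i₀ * ζ ^ j₀ := by positivity
    have h1 : t ^ i₀ * ζ ^ j₀ * |((p.eval T : ℤ) : ℝ)| ≤ t ^ i₀ * ζ ^ j₀ * (1 / 4) := by
      rw [← abs_of_pos hpos, ← abs_mul, abs_of_pos hpos]
      rw [eq_neg_of_add_eq_zero_left h0, abs_neg]
      exact hrest
    have h2 := le_of_mul_le_mul_left h1 hpos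
    linarith

end Pool.Agent.IsoPt
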