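import Pool.Agent.Lib.IsoPt.Build
import Pool.Agent.Lib.PolyTime.Subsets

/-!
# Polynomial time bounds for the recursions on terms and formulas
-/

set_option autoImplicit false

namespace Pool.Agent.IsoPt

open Pool.Agent.PolyTime

instance {V : Type} [Enc V] [EncInj V] : EncInj (Tm V) := ⟨fun s t h => by
  have h1 : s.post = t.post := EncInj.inj h
  have h2 : ∀ e : Tm V, e.post.foldl (Ex.stp Ex.var Ex.op0 Ex.op1 Ex.op2) [] = [e.toEx] := by
    intro e
    rw [← Tm.post_toEx, Ex.foldl_stp _ _ _ _ _ e.ok_toEx]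
    congr 1
    generalize e.toEx = x
    induction x with
    | var v => rfl
    | op0 k => rfl
    | op1 k a ih => simp [Ex.fold, ih]
    | op2 k a b iha ihb => simp [Ex.fold, iha, ihb]
  have h3 : s.toEx = t.toEx := by
    have h4 := h2 s
    rw [h1, h2 t] at h4
    exact (List.cons.inj h4).1.symm
  have h5 : ∀ e : Tm V, (flatE e.toEx).1 = e := by
    intro e
    induction e with
    | var v => rfl
    | zero => rfl
    | one => rfl
    | add a b iha ihb => simp [Tm.toEx, flatE, iha, ihb]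
    | mul a b iha ihb => simp [Tm.toEx, flatE, iha, ihb]
  rw [← h5 s, h3, h5]⟩

section size

variable {V : Type} [Enc V]

lemma sz_tm (t : Tm V) : sz t = sz t.post := rfl
lemma sz_ex (t : Ex V) : sz t = sz t.post := rfl

lemma sz_tok (k : ℕ) : sz ([Sum.inr k] : List (V ⊕ ℕ)) = sz k + 6 := by
  simp

lemma sz_0 : sz (0 : ℕ) = 1 := rfl
lemma sz_1 : sz (1 : ℕ) = 5 := by
  rw [sz_nat]; simp
lemma sz_2 : sz (2 : ℕ) = 7 := by
  rw [sz_nat]
  have : Nat.bits 2 = [false, true] := by decide
  rw [this]; rfl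
lemma sz_3 : sz (3 : ℕ) = 9 := by
  rw [sz_nat]
  have : Nat.bits 3 = [true, true] := by decide
  rw [this]; rfl

lemma sz_zero : sz (Tm.zero : Tm V) = 7 := by
  rw [sz_tm, Tm.post, sz_tok, sz_0]
lemma sz_one : sz (Tm.one : Tm V) = 11 := by
  rw [sz_tm, Tm.post, sz_tok, sz_1]
lemma sz_add (a b : Tm V) : sz (Tm.add a b) + 2 = sz a + sz b + 13 := by
  have h1 := sz_append (a.post ++ b.post) [Sum.inr 2]
  have h2 := sz_append a.post b.post
  rw [sz_tok, sz_2] at h1
  rw [sz_tm, sz_tm, sz_tm, Tm.post]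
  omega
lemma sz_mul (a b : Tm V) : sz (Tm.mul a b) + 2 = sz a + sz b + 15 := by
  have h1 := sz_append (a.post ++ b.post) [Sum.inr 3]
  have h2 := sz_append a.post b.post
  rw [sz_tok, sz_3] at h1
  rw [sz_tm, sz_tm, sz_tm, Tm.post]
  omega
lemma sz_exvar (v : V) : sz (Ex.var v) = sz v + 4 := by
  rw [sz_ex, Ex.post]; simp
lemma sz_tmvar (v : V) : sz (Tm.var v) = sz v + 4 := by
  rw [sz_tm, Tm.post]; simp
lemma sz_op0 (k : ℕ) : sz (Ex.op0 k : Ex V) = sz k + 6 := by
  rw [sz_ex, Ex.post, sz_tok]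
lemma sz_op1 (k : ℕ) (a : Ex V) : sz (Ex.op1 k a) + 1 = sz a + (sz k + 6) := by
  have h1 := sz_append a.post [Sum.inr k]
  rw [sz_tok] at h1
  rw [sz_ex, sz_ex, Ex.post]
  omega
lemma sz_op2 (k : ℕ) (a b : Ex V) : sz (Ex.op2 k a b) + 2 = sz a + sz b + (sz k + 6) := by
  have h1 := sz_append (a.post ++ b.post) [Sum.inr k]
  have h2 := sz_append a.post b.post
  rw [sz_tok] at h1
  rw [sz_ex, sz_ex, sz_ex, Ex.post]
  omega

lemma flatE_sz1 (t : Ex V) : sz (flatE t).1 ≤ 3 * sz t := by
  induction t with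
  | var v => simp only [flatE, sz_tmvar, sz_exvar]; omega
  | op0 k =>
    simp only [flatE, sz_op0]
    split_ifs
    · rw [sz_zero]; have := one_le_sz k; omega
    · rw [sz_one]; have := one_le_sz k; omega
  | op1 k a ih =>
    have h1 := sz_op1 k a
    have h2 := one_le_sz k
    have h3 := one_le_sz a
    simp only [flatE, sz_zero]
    omega
  | op2 k a b iha ihb =>
    have h1 := sz_op2 k a b
    have h2 := one_le_sz k
    have h3 := one_le_sz a
    have h4 := one_le_sz b
    simp only [flatE]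
    split_ifs
    · have := sz_add (flatE a).1 (flatE b).1; omega
    · have := sz_mul (flatE a).1 (flatE b).1; omega
    · rw [sz_zero]; omega

lemma flatE_sz2 (t : Ex V) : sz (flatE t).2 ≤ 20 * sz t ^ 2 := by
  induction t with
  | var v => simp only [flatE, sz_nil]; have := one_le_sz (Ex.var v); nlinarith
  | op0 k =>
    simp only [flatE, sz_op0, sz_cons, sz_nil, sz_pair, sz_zero]
    have := one_le_sz k
    nlinarith
  | op1 k a ih =>
    have h1 := sz_op1 k a
    have h2 := one_le_sz k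
    have h3 := one_le_sz a
    simp only [flatE]
    have h4 : sz a ≤ sz (Ex.op1 k a) := by omega
    have h5 : sz a ^ 2 ≤ sz (Ex.op1 k a) ^ 2 := Nat.pow_le_pow_left h4 2
    omega
  | op2 k a b iha ihb =>
    have h1 := sz_op2 k a b
    have h2 := one_le_sz k
    have h3 := one_le_sz a
    have h4 := one_le_sz b
    have h5 := flatE_sz1 a
    have h6 := flatE_sz1 b
    have h7 := sz_append (flatE a).2 (flatE b).2
    simp only [flatE, sz_cons, sz_pair]
    have h8 : sz (Ex.op2 k a b) = sz a + sz b + sz k + 4 := by omega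
    rw [h8]
    have h9 : sz k + (sz (flatE a).1 + sz (flatE b).1 + 1) + 1 + sz ((flatE a).2 ++ (flatE b).2) + 1 ≤
        sz k + 3 * sz a + 3 * sz b + 2 + 20 * sz a ^ 2 + 20 * sz b ^ 2 := by omega
    nlinarith

end size

/-- The fold form of `flatE`. -/
lemma flatE_eq_fold {V : Type} (t : Ex V) : flatE t = t.fold
    (fun v => (Tm.var v, ([] : List (ℕ × Tm V × Tm V))))
    (fun k => (if k = 0 then .zero else .one, [(k, .zero, .zero)]))
    (fun _ a => (.zero, a.2))
    (fun k a b => (if k = 2 then .add a.1 b.1 else if k = 3 then .mul a.1 b.1 else .zero,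
      (k, a.1, b.1) :: (a.2 ++ b.2))) := by
  induction t with
  | var v => rfl
  | op0 k => rfl
  | op1 k a ih => simp only [flatE, Ex.fold, ih]
  | op2 k a b iha ihb => simp only [flatE, Ex.fold, iha, ihb]

section PTl

variable {α V : Type} [Enc α] [Enc V]

lemma PT.flatE {g : α → Ex V} (hg : PT g) (hok : ∀ a, (g a).ok) : PT fun a => flatE (g a) := by
  simp only [flatE_eq_fold]
  refine PT.exFold (σ := Tm V × List (ℕ × Tm V × Tm V)) g hg hok
    (fun _ v => (Tm.var v, []))
    (fun _ k => (if k = 0 then .zero else .one, [(k, .zero, .zero)]))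
    (fun _ _ a => (.zero, a.2))
    (fun _ k a b => (if k = 2 then .add a.1 b.1 else if k = 3 then .mul a.1 b.1 else .zero,
      (k, a.1, b.1) :: (a.2 ++ b.2))) ?_ ?_ ?_ ?_ ?_
  · fun_prop
  · refine PT.pair (PT.ite (by fun_prop) (by fun_prop) (by fun_prop)) (by fun_prop)
  · fun_prop
  · refine PT.pair (PT.ite (by fun_prop) (by fun_prop) (PT.ite (by fun_prop) (by fun_prop)
      (by fun_prop))) (by fun_prop)
  · refine ⟨24, 2, fun a t => ?_⟩
    rw [← flatE_eq_fold, sz_prod]
    have h1 := flatE_sz1 t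
    have h2 := flatE_sz2 t
    have h3 := one_le_sz t
    have h4 : sz t ^ 2 ≤ (sz a + sz t) ^ 2 := Nat.pow_le_pow_left (by omega) 2
    nlinarith

end PTl

end Pool.Agent.IsoPt
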