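import Pool.Agent.Lib.IsoPt.Terms
import Pool.Agent.Lib.PolyTime.Final
import Pool.Agent.Lib.PolyTime.More

/-!
# Polynomial time recursion on terms and formulas
-/

set_option autoImplicit false

namespace Pool.Agent.IsoPt

open Pool.Agent.PolyTime

/-- Generic expression trees. -/
inductive Ex (V : Type) : Type
  | var (v : V) : Ex V
  | op0 (k : ℕ) : Ex V
  | op1 (k : ℕ) (a : Ex V) : Ex V
  | op2 (k : ℕ) (a b : Ex V) : Ex V

namespace Ex

variable {V σ : Type}

/-- Reverse Polish listing. -/
def post : Ex V → List (V ⊕ ℕ)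
  | var v => [Sum.inl v]
  | op0 k => [Sum.inr k]
  | op1 k a => post a ++ [Sum.inr k]
  | op2 k a b => post a ++ post b ++ [Sum.inr k]

/-- Fold. -/
def fold (av : V → σ) (a0 : ℕ → σ) (a1 : ℕ → σ → σ) (a2 : ℕ → σ → σ → σ) : Ex V → σ
  | var v => av v
  | op0 k => a0 k
  | op1 k a => a1 k (fold av a0 a1 a2 a)
  | op2 k a b => a2 k (fold av a0 a1 a2 a) (fold av a0 a1 a2 b)

/-- The symbols are used with their arities. -/
def ok : Ex V → Prop
  | var _ => True
  | op0 k => k < 2
  | op1 k a => k = 6 ∧ ok a
  | op2 k a b => 2 ≤ k ∧ k ≠ 6 ∧ ok a ∧ ok b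

/-- One step of the stack machine. -/
def stp (av : V → σ) (a0 : ℕ → σ) (a1 : ℕ → σ → σ) (a2 : ℕ → σ → σ → σ) (st : List σ)
    (tok : V ⊕ ℕ) : List σ :=
  match tok with
  | Sum.inl v => av v :: st
  | Sum.inr k =>
    if k < 2 then a0 k :: st
    else if k = 6 then
      (match st with
        | [] => []
        | a :: r => a1 k a :: r)
    else
      (match st with
        | [] => []
        | b :: r =>
          match r with
          | [] => []
          | a :: r' => a2 k a b :: r')

lemma foldl_stp (av : V → σ) (a0 : ℕ → σ) (a1 : ℕ → σ → σ) (a2 : ℕ → σ → σ → σ) (e : Ex V)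
    (he : e.ok) : ∀ st : List σ,
    e.post.foldl (stp av a0 a1 a2) st = e.fold av a0 a1 a2 :: st := by
  induction e with
  | var v => intro st; rfl
  | op0 k => intro st; simp only [ok] at he; simp [post, stp, he, fold]
  | op1 k a ih =>
    intro st
    obtain ⟨rfl, ha⟩ := he
    simp [post, ih ha, stp, fold]
  | op2 k a b iha ihb =>
    intro st
    obtain ⟨h2, h6, ha, hb⟩ := he
    have h2' : ¬ k < 2 := by omega
    simp [post, iha ha, ihb hb, stp, fold, h2', h6]

lemma foldl_map (av : V → σ) (a0 : ℕ → σ) (a1 : ℕ → σ → σ) (a2 : ℕ → σ → σ → σ)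
    (l : List (V ⊕ ℕ)) : ∀ T : List (Ex V),
    l.foldl (stp av a0 a1 a2) (T.map (fold av a0 a1 a2)) =
      (l.foldl (stp var op0 op1 op2) T).map (fold av a0 a1 a2) := by
  induction l with
  | nil => intro T; rfl
  | cons tok l ih =>
    intro T
    rw [List.foldl_cons, List.foldl_cons, ← ih]
    congr 1
    rcases tok with v | k
    · rfl
    · simp only [stp]
      by_cases h : k < 2
      · simp [h, fold]
      · rw [if_neg h, if_neg h]
        by_cases h6 : k = 6
        · rw [if_pos h6, if_pos h6]
          cases T with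
          | nil => rfl
          | cons a r => simp [fold]
        · rw [if_neg h6, if_neg h6]
          cases T with
          | nil => rfl
          | cons b r =>
            cases r with
            | nil => rfl
            | cons a r' => simp [fold]

lemma sublist_foldl (l : List (V ⊕ ℕ)) :
    ((l.foldl (stp var op0 op1 op2) []).reverse.flatMap post).Sublist l := by
  induction l using List.reverseRecOn with
  | nil => simp
  | append_singleton l tok ih =>
    rw [List.foldl_append, List.foldl_cons, List.foldl_nil]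
    generalize List.foldl (stp var op0 op1 op2) [] l = T at ih ⊢
    rcases tok with v | k
    · simp only [stp, List.reverse_cons, List.flatMap_append]
      exact ih.append (List.Sublist.refl _)
    · simp only [stp]
      split_ifs with h h6
      · simp only [List.reverse_cons, List.flatMap_append]
        exact ih.append (List.Sublist.refl _)
      · cases T with
        | nil => simp
        | cons a r =>
          simp only [List.reverse_cons, List.flatMap_append, List.flatMap_cons, List.flatMap_nil,
            List.append_nil, post] at ih ⊢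
          rw [← List.append_assoc]
          exact ih.append (List.Sublist.refl _)
      · cases T with
        | nil => simp
        | cons b r =>
          cases r with
          | nil => simp
          | cons a r' =>
            simp only [List.reverse_cons, List.flatMap_append, List.flatMap_cons, List.flatMap_nil,
              List.append_nil, post] at ih ⊢
            rw [← List.append_assoc, ← List.append_assoc]
            exact ih.append (List.Sublist.refl _)

end Ex

instance {V : Type} [Enc V] : Enc (Ex V) := ⟨fun t => enc t.post⟩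
instance {V : Type} [Enc V] : Enc (Tm V) := ⟨fun t => enc t.post⟩
instance {V : Type} [Enc V] : Enc (Fm V) := ⟨fun t => enc t.post⟩

section

variable {α V σ : Type} [Enc α] [Enc V] [Enc σ]

lemma PT.stp (av : α → V → σ) (a0 : α → ℕ → σ) (a1 : α → ℕ → σ → σ) (a2 : α → ℕ → σ → σ → σ)
    (hv : PT fun p : α × V => av p.1 p.2) (h0 : PT fun p : α × ℕ => a0 p.1 p.2)
    (h1 : PT fun p : α × ℕ × σ => a1 p.1 p.2.1 p.2.2)
    (h2 : PT fun p : α × ℕ × σ × σ => a2 p.1 p.2.1 p.2.2.1 p.2.2.2) :
    PT fun p : α × List σ × (V ⊕ ℕ) => Ex.stp (av p.1) (a0 p.1) (a1 p.1) (a2 p.1) p.2.1 p.2.2 := by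
  refine PT.congr (PT.sumCases (o := fun p : α × List σ × (V ⊕ ℕ) => p.2.2)
    (f := fun p v => av p.1 v :: p.2.1)
    (g := fun p k => if k < 2 then a0 p.1 k :: p.2.1
      else if k = 6 then (match p.2.1 with | [] => [] | a :: r => a1 p.1 k a :: r)
      else (match p.2.1 with
        | [] => []
        | b :: r => match r with
          | [] => []
          | a :: r' => a2 p.1 k a b :: r')) (by fun_prop) ?_ ?_) fun p => ?_
  · exact PT.cons (hv.comp (f := fun p : (α × List σ × (V ⊕ ℕ)) × V => (p.1.1, p.2))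
      (by fun_prop)) (by fun_prop)
  · refine PT.ite (by fun_prop) ?_ (PT.ite (by fun_prop) ?_ ?_)
    · exact PT.cons (h0.comp (f := fun p : (α × List σ × (V ⊕ ℕ)) × ℕ => (p.1.1, p.2))
        (by fun_prop)) (by fun_prop)
    · refine PT.congr (PT.listCases (l := fun p : (α × List σ × (V ⊕ ℕ)) × ℕ => p.1.2.1)
        (f := fun _ => ([] : List σ)) (g := fun p a r => a1 p.1.1 p.2 a :: r) (by fun_prop)
        (PT.const _) ?_) fun p => ?_
      · exact PT.cons (h1.comp
          (f := fun p : ((α × List σ × (V ⊕ ℕ)) × ℕ) × σ × List σ => (p.1.1.1, p.1.2, p.2.1))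
          (by fun_prop)) (by fun_prop)
      · rcases p.1.2.1 with _ | ⟨a, r⟩ <;> rfl
    · refine PT.congr (PT.listCases (l := fun p : (α × List σ × (V ⊕ ℕ)) × ℕ => p.1.2.1)
        (f := fun _ => ([] : List σ)) (g := fun p b r => match r with
          | [] => ([] : List σ)
          | a :: r' => a2 p.1.1 p.2 a b :: r') (by fun_prop) (PT.const _) ?_) fun p => ?_
      · refine PT.congr (PT.listCases
          (l := fun p : ((α × List σ × (V ⊕ ℕ)) × ℕ) × σ × List σ => p.2.2)
          (f := fun _ => ([] : List σ)) (g := fun p a r' => a2 p.1.1.1 p.1.2 a p.2.1 :: r')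
          (by fun_prop) (PT.const _) ?_) fun p => ?_
        · exact PT.cons (h2.comp
            (f := fun p : (((α × List σ × (V ⊕ ℕ)) × ℕ) × σ × List σ) × σ × List σ =>
              (p.1.1.1.1, p.1.1.2, p.2.1, p.1.2.1)) (by fun_prop)) (by fun_prop)
        · rcases p.2.2 with _ | ⟨a, r⟩ <;> rfl
      · rcases p.1.2.1 with _ | ⟨b, r⟩
        · rfl
        · rcases r with _ | ⟨a, r'⟩ <;> rfl
  · rcases p with ⟨a, st, v | k⟩
    · rfl
    · rfl

/-- **Recursion on expression trees in polynomial time.** -/
theorem PT.exFold (g : α → Ex V) (hg : PT g) (hok : ∀ a, (g a).ok)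
    (av : α → V → σ) (a0 : α → ℕ → σ) (a1 : α → ℕ → σ → σ) (a2 : α → ℕ → σ → σ → σ)
    (hv : PT fun p : α × V => av p.1 p.2) (h0 : PT fun p : α × ℕ => a0 p.1 p.2)
    (h1 : PT fun p : α × ℕ × σ => a1 p.1 p.2.1 p.2.2)
    (h2 : PT fun p : α × ℕ × σ × σ => a2 p.1 p.2.1 p.2.2.1 p.2.2.2)
    (hb : ∃ c k : ℕ, ∀ a (t : Ex V), sz (t.fold (av a) (a0 a) (a1 a) (a2 a)) ≤
      c * (sz a + sz t) ^ k) :
    PT fun a => (g a).fold (av a) (a0 a) (a1 a) (a2 a) := by
  obtain ⟨c, k, hb⟩ := hb
  have hgp : PT fun a => (g a).post := hg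
  have key := PT.foldl (g := fun a st tok => Ex.stp (av a) (a0 a) (a1 a) (a2 a) st tok)
    (s := fun _ => ([] : List σ)) (l := fun a => (g a).post)
    (PT.stp av a0 a1 a2 hv h0 h1 h2) (PT.const _) hgp
    (B := fun a => (sz (g a)) * (c * (sz a + sz (g a)) ^ k + 1) + 1)
    (((PT.bdd hg).mul (((PBd.const c).mul (((PBd.sz).add (PT.bdd hg)).pow k)).add
      (PBd.const 1))).add (PBd.const 1)) (by
      intro a l1 l2 h12
      have h3 := Ex.foldl_map (av a) (a0 a) (a1 a) (a2 a) l1 []
      rw [List.map_nil] at h3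
      rw [h3]
      set T := l1.foldl (Ex.stp Ex.var Ex.op0 Ex.op1 Ex.op2) [] with hT
      have hsub := Ex.sublist_foldl l1
      rw [← hT] at hsub
      have hl1 : sz l1 ≤ sz (g a) := by
        have h4 := sz_append l1 l2
        have h5 : sz (g a) = sz (l1 ++ l2) := by rw [← h12]; rfl
        have := one_le_sz l2
        omega
      have hmem : ∀ t ∈ T, sz t ≤ sz (g a) := by
        intro t ht
        refine le_trans ?_ hl1
        refine le_trans (sz_sublist_le ?_) (sz_sublist_le hsub)
        have h6 : t ∈ T.reverse := List.mem_reverse.2 ht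
        exact (List.sublist_flatten_of_mem (List.mem_map_of_mem h6))
      have hlen : T.length ≤ sz (g a) := by
        have h7 : T.length ≤ (T.reverse.flatMap Ex.post).length := by
          rw [List.length_flatMap]
          have h8 : ∀ L : List (Ex V), L.length ≤ (L.map fun t => t.post.length).sum := by
            intro L
            induction L with
            | nil => simp
            | cons t L ih =>
              rw [List.length_cons, List.map_cons, List.sum_cons]
              have : 1 ≤ t.post.length := by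
                cases t <;> simp only [Ex.post, List.length_append, List.length_cons,
                  List.length_nil] <;> omega
              omega
          have := h8 T.reverse
          rwa [List.length_reverse] at this
        have h9 := hsub.length_le
        have h10 := length_lt_sz l1
        omega
      refine (sz_list_le (B := c * (sz a + sz (g a)) ^ k) ?_).trans ?_
      · intro s hs
        obtain ⟨t, ht, rfl⟩ := List.mem_map.1 hs
        refine (hb a t).trans ?_
        have := hmem t ht
        gcongr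
      · rw [List.length_map]
        gcongr)
  have h2 := PT.headD key (h0.comp (f := fun a : α => (a, 0)) (by fun_prop))
  refine h2.congr fun a => ?_
  rw [Ex.foldl_stp _ _ _ _ _ (hok a)]
  rfl

end

/-- Embedding of terms. -/
def Tm.toEx {V : Type} : Tm V → Ex V
  | .var v => .var v
  | .zero => .op0 0
  | .one => .op0 1
  | .add s t => .op2 2 (toEx s) (toEx t)
  | .mul s t => .op2 3 (toEx s) (toEx t)

/-- Embedding of formulas. -/
def Fm.toEx {V : Type} : Fm V → Ex V
  | .eq s t => .op2 4 s.toEx t.toEx
  | .lt s t => .op2 5 s.toEx t.toEx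
  | .not φ => .op1 6 (toEx φ)
  | .and φ ψ => .op2 7 (toEx φ) (toEx ψ)
  | .or φ ψ => .op2 8 (toEx φ) (toEx ψ)

lemma Tm.post_toEx {V : Type} (t : Tm V) : t.toEx.post = t.post := by
  induction t with
  | var v => rfl
  | zero => rfl
  | one => rfl
  | add s t ihs iht => simp [Tm.toEx, Tm.post, Ex.post, ihs, iht]
  | mul s t ihs iht => simp [Tm.toEx, Tm.post, Ex.post, ihs, iht]

lemma Fm.post_toEx {V : Type} (φ : Fm V) : φ.toEx.post = φ.post := by
  induction φ with
  | eq s t => simp [Fm.toEx, Fm.post, Ex.post, Tm.post_toEx]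
  | lt s t => simp [Fm.toEx, Fm.post, Ex.post, Tm.post_toEx]
  | not φ ih => simp [Fm.toEx, Fm.post, Ex.post, ih]
  | and φ ψ ih1 ih2 => simp [Fm.toEx, Fm.post, Ex.post, ih1, ih2]
  | or φ ψ ih1 ih2 => simp [Fm.toEx, Fm.post, Ex.post, ih1, ih2]

lemma Tm.ok_toEx {V : Type} (t : Tm V) : t.toEx.ok := by
  induction t with
  | var v => trivial
  | zero => simp [Tm.toEx, Ex.ok]
  | one => simp [Tm.toEx, Ex.ok]
  | add s t ihs iht => simp [Tm.toEx, Ex.ok, ihs, iht]
  | mul s t ihs iht => simp [Tm.toEx, Ex.ok, ihs, iht]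

lemma Fm.ok_toEx {V : Type} (φ : Fm V) : φ.toEx.ok := by
  induction φ with
  | eq s t => simp [Fm.toEx, Ex.ok, Tm.ok_toEx]
  | lt s t => simp [Fm.toEx, Ex.ok, Tm.ok_toEx]
  | not φ ih => simp [Fm.toEx, Ex.ok, ih]
  | and φ ψ ih1 ih2 => simp [Fm.toEx, Ex.ok, ih1, ih2]
  | or φ ψ ih1 ih2 => simp [Fm.toEx, Ex.ok, ih1, ih2]

section ops

variable {α V W : Type} [Enc α] [Enc V] [Enc W]

lemma PT.tmToEx {f : α → Tm V} (hf : PT f) : PT fun a => (f a).toEx := by
  have h : PT fun a => (f a).post := hf
  refine FP.congr h fun a => ?_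
  show enc (f a).post = enc (f a).toEx.post
  rw [Tm.post_toEx]

lemma PT.fmToEx {f : α → Fm V} (hf : PT f) : PT fun a => (f a).toEx := by
  have h : PT fun a => (f a).post := hf
  refine FP.congr h fun a => ?_
  show enc (f a).post = enc (f a).toEx.post
  rw [Fm.post_toEx]

/-- a function with values in terms is in `PT` if its listing is -/
lemma PT.ofTmPost {f : α → Tm V} (hf : PT fun a => (f a).post) : PT f := hf
lemma PT.ofFmPost {f : α → Fm V} (hf : PT fun a => (f a).post) : PT f := hf

@[fun_prop] lemma PT.tmPost {f : α → Tm V} (hf : PT f) : PT fun a => (f a).post := hf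
@[fun_prop] lemma PT.fmPost {f : α → Fm V} (hf : PT f) : PT fun a => (f a).post := hf

@[fun_prop] lemma PT.tmVar {f : α → V} (hf : PT f) : PT fun a => Tm.var (f a) := by
  apply PT.ofTmPost
  simp only [Tm.post]
  fun_prop

@[fun_prop] lemma PT.tmAdd {f g : α → Tm V} (hf : PT f) (hg : PT g) :
    PT fun a => Tm.add (f a) (g a) := by
  apply PT.ofTmPost
  simp only [Tm.post]
  fun_prop

@[fun_prop] lemma PT.tmMul {f g : α → Tm V} (hf : PT f) (hg : PT g) :
    PT fun a => Tm.mul (f a) (g a) := by
  apply PT.ofTmPost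
  simp only [Tm.post]
  fun_prop

@[fun_prop] lemma PT.fmEq {f g : α → Tm V} (hf : PT f) (hg : PT g) :
    PT fun a => Fm.eq (f a) (g a) := by
  apply PT.ofFmPost
  simp only [Fm.post]
  fun_prop

@[fun_prop] lemma PT.fmLt {f g : α → Tm V} (hf : PT f) (hg : PT g) :
    PT fun a => Fm.lt (f a) (g a) := by
  apply PT.ofFmPost
  simp only [Fm.post]
  fun_prop

@[fun_prop] lemma PT.fmNot {f : α → Fm V} (hf : PT f) :
    PT fun a => Fm.not (f a) := by
  apply PT.ofFmPost
  simp only [Fm.post]
  fun_prop

@[fun_prop] lemma PT.fmAnd {f g : α → Fm V} (hf : PT f) (hg : PT g) :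
    PT fun a => Fm.and (f a) (g a) := by
  apply PT.ofFmPost
  simp only [Fm.post]
  fun_prop

@[fun_prop] lemma PT.fmOr {f g : α → Fm V} (hf : PT f) (hg : PT g) :
    PT fun a => Fm.or (f a) (g a) := by
  apply PT.ofFmPost
  simp only [Fm.post]
  fun_prop

/-- renaming of the variables of a term -/
lemma PT.tmMap {f : α → V → W} {t : α → Tm V} (hf : PT fun p : α × V => f p.1 p.2) (ht : PT t) :
    PT fun a => (t a).map (f a) := by
  apply PT.ofTmPost
  simp only [Tm.post_map]
  refine PT.map (f := fun a tok => Sum.map (f a) id tok) ?_ (by fun_prop)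
  refine PT.congr (PT.sumCases (δ := W ⊕ ℕ) (o := fun p : α × (V ⊕ ℕ) => p.2)
    (f := fun p v => Sum.inl (f p.1 v)) (g := fun p k => Sum.inr k) (by fun_prop) ?_
    (by fun_prop)) fun p => ?_
  · exact PT.inl (hf.comp (f := fun p : (α × (V ⊕ ℕ)) × V => (p.1.1, p.2)) (by fun_prop))
  · rcases p with ⟨a, v | k⟩ <;> rfl

/-- renaming of the variables of a formula -/
lemma PT.fmMap {f : α → V → W} {t : α → Fm V} (hf : PT fun p : α × V => f p.1 p.2) (ht : PT t) :
    PT fun a => (t a).map (f a) := by
  apply PT.ofFmPost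
  simp only [Fm.post_map]
  refine PT.map (f := fun a tok => Sum.map (f a) id tok) ?_ (by fun_prop)
  refine PT.congr (PT.sumCases (δ := W ⊕ ℕ) (o := fun p : α × (V ⊕ ℕ) => p.2)
    (f := fun p v => Sum.inl (f p.1 v)) (g := fun p k => Sum.inr k) (by fun_prop) ?_
    (by fun_prop)) fun p => ?_
  · exact PT.inl (hf.comp (f := fun p : (α × (V ⊕ ℕ)) × V => (p.1.1, p.2)) (by fun_prop))
  · rcases p with ⟨a, v | k⟩ <;> rfl

end ops

end Pool.Agent.IsoPt
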