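import Pool.Agent.Lib.IsoPt.Nondeg

/-!
# Chunk B : for a suitable perturbation the Lagrange system is finite

Proof sketch.  `K = n + 1`.  For a solution with active set `I` (`k = |I|`), some linear form
`u_N`, `N < numForms n m`, takes distinct values at the `k` distinct points `y i`, `i ∈ I`
(`∏_{i < i'} ∑_j N^j (y i j - y i' j)` is a nonzero polynomial in `N` of degree
`≤ m * K^2`).  In the chart `(I, N)` the equations of `LagSol` for `f0 + η * pert θ` are linear in
the parameters `θ (N, r, none)`, `r < 2k`; `θ (N, r, some j)`, `r < k`, `j ≠ 0`; `θ (inr l)`, and the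
square matrix `𝓜 (ξ)` of this linear system (polynomial in the unknowns
`ξ = (x, y i (i ∈ I), lam i (i ∈ I, one eliminated), v)`) is invertible (Hermite interpolation in
`u_N`). So the solution set `{(θ, ξ)}` in the chart is parametrised by
`z = (ξ, remaining parameters)`, in number `P = card (PIdx n m)`, through rational functions of
degree `≤ d₁`. Hence each coordinate `w` of `ξ` satisfies `Q (θ, w) = 0` for a nonzero polynomial `Q`
of degree `< b` in each of the `P + 1` variables as soon as `b > ((P + 1) * d₁) ^ P` (dimension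
count).  If `θ` is not a zero of (some nonzero coefficient in `w` of) any of these `Q`, the
set of solutions is finite; a grid of side `s` larger than the sum of the degrees contains such
a `θ`.
-/

set_option autoImplicit false

namespace Pool.Agent.IsoPt

open MvPolynomial

/-- Grid size needed in the finiteness theorem. -/
def gridSize (n m δ : ℕ) : ℕ :=
  ((n + 1) * (numForms n m * Fintype.card (PIdx n m))) *
    (((Fintype.card (PIdx n m) + 1) * (Fintype.card (PIdx n m) * (δ + 2 * n + 3) + 1)) ^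
      Fintype.card (PIdx n m) + 1)

variable {n m : ℕ}

/-- A linear form separating at most `n + 1` points. -/
theorem exists_sep (hm : 0 < m) {k : ℕ} (hk : k ≤ n + 1) (y : Fin k → Fin m → ℝ)
    (hy : Function.Injective y) :
    ∃ N : Fin (numForms n m), Function.Injective fun i : Fin k => uf N (y i) := by
  classical
  let D : Fin k × Fin k → Polynomial ℝ := fun q =>
    ∑ j : Fin m, Polynomial.C (y q.1 j - y q.2 j) * Polynomial.X ^ (j : ℕ)
  let S : Finset (Fin k × Fin k) := Finset.univ.filter fun q => q.1 ≠ q.2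
  have hD : ∀ q ∈ S, D q ≠ 0 := by
    intro q hq h
    apply (Finset.mem_filter.1 hq).2
    apply hy
    funext j
    have h1 := congrArg (fun f : Polynomial ℝ => f.coeff (j : ℕ)) h
    simp only [D, Polynomial.finsetSum_coeff, Polynomial.coeff_C_mul, Polynomial.coeff_X_pow,
      Polynomial.coeff_zero, mul_ite, mul_one, mul_zero] at h1
    rw [Finset.sum_eq_single j] at h1
    · simp only [if_true] at h1
      linarith
    · intro e _ hne
      rw [if_neg fun h' => hne (Fin.ext h'.symm)]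
    · intro h'
      exact absurd (Finset.mem_univ _) h'
  have hDdeg : ∀ q, (D q).natDegree ≤ m - 1 := by
    intro q
    refine Polynomial.natDegree_sum_le_of_forall_le _ _ fun j _ => ?_
    refine (Polynomial.natDegree_C_mul_X_pow_le _ _).trans ?_
    have := j.2
    omega
  set Q : Polynomial ℝ := ∏ q ∈ S, D q with hQ
  have hQ0 : Q ≠ 0 := Finset.prod_ne_zero_iff.2 hD
  have hQdeg : Q.natDegree < numForms n m := by
    refine lt_of_le_of_lt (Polynomial.natDegree_prod_le _ _) ?_
    refine lt_of_le_of_lt (Finset.sum_le_card_nsmul _ _ (m - 1) fun q _ => hDdeg q) ?_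
    have h1 : S.card ≤ (n + 1) ^ 2 := by
      refine (Finset.card_filter_le _ _).trans ?_
      rw [Finset.card_univ, Fintype.card_prod, Fintype.card_fin, sq]
      exact Nat.mul_le_mul hk hk
    rw [smul_eq_mul, numForms]
    have h2 : S.card * (m - 1) ≤ (n + 1) ^ 2 * m := Nat.mul_le_mul h1 (Nat.sub_le _ _)
    rw [mul_comm m]
    omega
  by_contra hcon
  push Not at hcon
  apply hQ0
  refine Polynomial.eq_zero_of_natDegree_lt_card_of_eval_eq_zero Q
    (f := fun N : Fin (numForms n m) => ((N : ℕ) : ℝ)) ?_ ?_ (by rw [Fintype.card_fin]; exact hQdeg)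
  · intro N N' h
    exact Fin.ext (Nat.cast_injective h)
  · intro N
    have h1 := hcon N
    rw [Function.Injective] at h1
    push Not at h1
    obtain ⟨i, i', h2, h3⟩ := h1
    rw [hQ, Polynomial.eval_prod]
    refine Finset.prod_eq_zero (i := (i, i')) (Finset.mem_filter.2 ⟨Finset.mem_univ _, h3⟩) ?_
    simp only [D, Polynomial.eval_finsetSum, Polynomial.eval_mul, Polynomial.eval_C,
      Polynomial.eval_pow, Polynomial.eval_X]
    simp only [uf] at h2
    have h4 : ∑ j : Fin m, (y i j - y i' j) * ((N : ℕ) : ℝ) ^ (j : ℕ) =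
        ∑ j : Fin m, ((N : ℕ) : ℝ) ^ (j : ℕ) * y i j -
          ∑ j : Fin m, ((N : ℕ) : ℝ) ^ (j : ℕ) * y i' j := by
      rw [← Finset.sum_sub_distrib]
      refine Finset.sum_congr rfl fun j _ => ?_
      ring
    rw [h4, h2, sub_self]

/-- The reduced system with exactly `k` distinct points. -/
structure RedSol {k : ℕ} (f : MvPolynomial (Fin n ⊕ Fin m) ℝ) (x : Fin n → ℝ)
    (y : Fin k → Fin m → ℝ) (lam : Fin k → ℝ) (v : ℝ) : Prop where
  val : ∀ i, ev f x (y i) = v
  der : ∀ i j, ev (pderiv (Sum.inr j) f) x (y i) = 0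
  st : ∀ l, ∑ i, lam i * ev (pderiv (Sum.inl l) f) x (y i) = 0
  sum1 : ∑ i, lam i = 1

section

variable (k : ℕ) (hk : k ≤ n + 1) (N : Fin (numForms n m))

/-- The code of a solution and of the parameters. -/
noncomputable def code (hm : 0 < m) (θ : PIdx n m → ℝ) (x : Fin n → ℝ) (y : Fin k → Fin m → ℝ)
    (lam : Fin k → ℝ) (v : ℝ) : PIdx n m → ℝ := fun p =>
  match p with
  | Sum.inr l => x l
  | Sum.inl (N', r, none) =>
      if N' = N then
        (if h : (r : ℕ) < k then y ⟨r, h⟩ ⟨0, hm⟩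
        else if (r : ℕ) = k then v
        else if h2 : (r : ℕ) - k < k then lam ⟨(r : ℕ) - k, h2⟩
        else θ (Sum.inl (N', r, none)))
      else θ (Sum.inl (N', r, none))
  | Sum.inl (N', r, some j) =>
      if h : N' = N ∧ (r : ℕ) < k ∧ (j : ℕ) ≠ 0 then y ⟨r, h.2.1⟩ j
      else θ (Sum.inl (N', r, some j))

variable {k}

theorem xz_code (hm : 0 < m) (θ : PIdx n m → ℝ) (x : Fin n → ℝ) (y : Fin k → Fin m → ℝ)
    (lam : Fin k → ℝ) (v : ℝ) : xz (code k N hm θ x y lam v) = x := rfl

theorem yz_code (hm : 0 < m) (θ : PIdx n m → ℝ) (x : Fin n → ℝ) (y : Fin k → Fin m → ℝ)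
    (lam : Fin k → ℝ) (v : ℝ) (i : Fin k) : yz k hk N (code k N hm θ x y lam v) i = y i := by
  funext j
  unfold yz
  by_cases hj : (j : ℕ) = 0
  · have : j = ⟨0, hm⟩ := Fin.ext hj
    subst this
    simp [code, i.2]
  · simp [code, i.2, hj]

theorem vz_code (hm : 0 < m) (θ : PIdx n m → ℝ) (x : Fin n → ℝ) (y : Fin k → Fin m → ℝ)
    (lam : Fin k → ℝ) (v : ℝ) : vz k hk N (code k N hm θ x y lam v) = v := by
  simp [vz, code]

theorem lz_code (hm : 0 < m) (hk0 : 0 < k) (θ : PIdx n m → ℝ) (x : Fin n → ℝ)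
    (y : Fin k → Fin m → ℝ) (lam : Fin k → ℝ) (v : ℝ) (hlam : ∑ i, lam i = 1) :
    lz k hk N (code k N hm θ x y lam v) = lam := by
  have h0 : ∀ i : Fin k, lz0 k hk N (code k N hm θ x y lam v) i =
      if (i : ℕ) = 0 then 0 else lam i := by
    intro i
    unfold lz0
    by_cases hi : (i : ℕ) = 0
    · simp [hi]
    · simp [hi, code, i.2]
  have h1 : ∑ i, lz0 k hk N (code k N hm θ x y lam v) i = 1 - lam ⟨0, hk0⟩ := by
    rw [← hlam, Finset.sum_congr rfl fun i _ => h0 i, eq_sub_iff_add_eq]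
    have h2 : lam ⟨0, hk0⟩ = ∑ i : Fin k, (if (i : ℕ) = 0 then lam i else 0) := by
      rw [Finset.sum_eq_single (⟨0, hk0⟩ : Fin k)]
      · simp
      · intro i _ hi
        rw [if_neg]
        intro h
        exact hi (Fin.ext h)
      · intro h
        exact absurd (Finset.mem_univ _) h
    rw [h2, ← Finset.sum_add_distrib]
    refine Finset.sum_congr rfl fun i _ => ?_
    by_cases hi : (i : ℕ) = 0 <;> simp [hi]
  funext i
  unfold lz
  rw [h1, h0]
  by_cases hi : (i : ℕ) = 0
  · have : i = ⟨0, hk0⟩ := Fin.ext hi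
    subst this
    simp
  · simp [hi]

theorem code_none (hm : 0 < m) (hk0 : 0 < k) (θ : PIdx n m → ℝ) (x : Fin n → ℝ)
    (y : Fin k → Fin m → ℝ) (lam : Fin k → ℝ) (v : ℝ) (p : PIdx n m)
    (hp : kind k N hm p = none) : θ p = code k N hm θ x y lam v p := by
  rcases p with ⟨N', r, o⟩ | l
  · rcases o with _ | j
    · by_cases hN : N' = N
      · subst hN
        by_cases h1 : (r : ℕ) < k
        · simp [kind, h1] at hp
        · by_cases h2 : (r : ℕ) - k < k
          · simp [kind, h1, h2] at hp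
          · have h3 : ¬ (r : ℕ) = k := by omega
            simp [code, h1, h2, h3]
      · simp [code, hN]
    · by_cases h : N' = N ∧ (r : ℕ) < k ∧ (j : ℕ) ≠ 0
      · simp [kind, h] at hp
      · simp only [code, h, dif_neg, not_false_eq_true]
  · simp [kind] at hp

open Matrix in
theorem redSol_chart (hm : 0 < m) (hk0 : 0 < k) (η : ℝ) (hη : η ≠ 0)
    (f0 : MvPolynomial (Fin n ⊕ Fin m) ℝ) (θ : PIdx n m → ℝ) (x : Fin n → ℝ)
    (y : Fin k → Fin m → ℝ) (lam : Fin k → ℝ) (v : ℝ)
    (h : RedSol (f0 + C η * pert n m θ) x y lam v)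
    (hinj : Function.Injective fun i : Fin k => uf N (y i)) :
    (MM k hk N hm η (code k N hm θ x y lam v)).det ≠ 0 ∧
      MM k hk N hm η (code k N hm θ x y lam v) *ᵥ θ =
        rr k hk N hm f0 (code k N hm θ x y lam v) := by
  constructor
  · apply MM_det_ne_zero k hk N hm hk0 η hη
    simp only [yz_code]
    exact hinj
  · apply MM_mulVec_eq_iff
    · intro p hp
      exact code_none N hm hk0 θ x y lam v p hp
    · intro κ
      rcases κ with i | ⟨i, j⟩ | l
      · simp only [EE, TT, xz_code, yz_code, vz_code]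
        exact h.val i
      · simp only [EE, TT, xz_code, yz_code]
        exact h.der i j
      · simp only [EE, TT, xz_code, yz_code, lz_code hk N hm hk0 θ x y lam v h.sum1]
        exact h.st l

end

/-- **Finiteness of the perturbed Lagrange system.** -/
theorem exists_finite (hm : 0 < m) (δ : ℕ) (f0 : MvPolynomial (Fin n ⊕ Fin m) ℝ)
    (hδ : f0.totalDegree ≤ δ) (η : ℝ) (hη : η ≠ 0) (s : ℕ) (hs : gridSize n m δ ≤ s) :
    ∃ θ : PIdx n m → ℕ, (∀ i, θ i ≤ s) ∧
      {S : (Fin n → ℝ) × (Fin (n + 1) → Fin m → ℝ) × (Fin (n + 1) → ℝ) × ℝ |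
        LagSol (f0 + C η * pert n m (fun i => (θ i : ℝ))) S.1 S.2.1 S.2.2.1 S.2.2.2}.Finite := by
  classical
  set P := Fintype.card (PIdx n m) with hP
  set b : ℕ := ((P + 1) * (P * (δ + 2 * n + 3) + 1)) ^ P + 1 with hb
  -- the generic conditions in all charts
  have hchart : ∀ (k' : Fin (n + 1)) (N : Fin (numForms n m)), ∃ c : PIdx n m → MvPolynomial (PIdx n m) ℝ,
      (∀ p, c p ≠ 0) ∧ (∀ p i, (c p).degreeOf i < b) ∧
      ∀ θ : PIdx n m → ℝ, (∀ p, eval θ (c p) ≠ 0) →
        {z : PIdx n m → ℝ | (MM ((k' : ℕ) + 1) k'.2 N hm η z).det ≠ 0 ∧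
          (MM ((k' : ℕ) + 1) k'.2 N hm η z).mulVec θ = rr ((k' : ℕ) + 1) k'.2 N hm f0 z}.Finite := by
    intro k' N
    refine linFinite (δ + 2 * n + 3) b (by rw [hb]; exact Nat.lt_succ_self _) _ _ ?_ ?_
    · intro p p'
      exact (polyLE_MM _ _ N hm η p p').mono (by omega)
    · intro p
      exact (polyLE_rr _ _ N hm f0 p).mono (by omega)
  choose c hc1 hc2 hc3 using hchart
  obtain ⟨θ, hθ1, hθ2⟩ := goodGrid (ι := PIdx n m)
    (T := Fin (n + 1) × Fin (numForms n m) × PIdx n m) b s (by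
      refine le_trans (le_of_eq ?_) hs
      rw [Fintype.card_prod, Fintype.card_prod, Fintype.card_fin, Fintype.card_fin, gridSize])
    (fun a => c a.1 a.2.1 a.2.2) (fun a => hc1 _ _ _) (fun a i => hc2 _ _ _ i)
  refine ⟨θ, hθ1, ?_⟩
  set θr : PIdx n m → ℝ := fun i => (θ i : ℝ) with hθr
  have hfin : ∀ (k' : Fin (n + 1)) (N : Fin (numForms n m)),
      {z : PIdx n m → ℝ | (MM ((k' : ℕ) + 1) k'.2 N hm η z).det ≠ 0 ∧
          (MM ((k' : ℕ) + 1) k'.2 N hm η z).mulVec θr = rr ((k' : ℕ) + 1) k'.2 N hm f0 z}.Finite :=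
    fun k' N => hc3 k' N θr fun p => hθ2 (k', N, p)
  -- the covering by finitely many finite sets
  let Φ : (k' : Fin (n + 1)) → Fin (numForms n m) → (Fin ((k' : ℕ) + 1) → Fin (n + 1)) →
      (PIdx n m → ℝ) → (Fin n → ℝ) × (Fin (n + 1) → Fin m → ℝ) × (Fin (n + 1) → ℝ) × ℝ :=
    fun k' N e z => (xz z, Function.extend e (yz ((k' : ℕ) + 1) k'.2 N z) 0,
      Function.extend e (lz ((k' : ℕ) + 1) k'.2 N z) 0, vz ((k' : ℕ) + 1) k'.2 N z)
  have hcov : {S : (Fin n → ℝ) × (Fin (n + 1) → Fin m → ℝ) × (Fin (n + 1) → ℝ) × ℝ |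
      LagSol (f0 + C η * pert n m θr) S.1 S.2.1 S.2.2.1 S.2.2.2} ⊆
      ⋃ k' : Fin (n + 1), ⋃ N : Fin (numForms n m), ⋃ e : Fin ((k' : ℕ) + 1) → Fin (n + 1),
        Φ k' N e '' {z : PIdx n m → ℝ | (MM ((k' : ℕ) + 1) k'.2 N hm η z).det ≠ 0 ∧
          (MM ((k' : ℕ) + 1) k'.2 N hm η z).mulVec θr = rr ((k' : ℕ) + 1) k'.2 N hm f0 z} := by
    rintro ⟨x, y, lam, v⟩ hS
    simp only [Set.mem_ofPred_eq] at hS
    let I : Finset (Fin (n + 1)) := Finset.univ.filter fun i => lam i ≠ 0
    have hI : I.Nonempty := by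
      by_contra h
      rw [Finset.not_nonempty_iff_eq_empty] at h
      have h1 : ∀ i, lam i = 0 := by
        intro i
        by_contra hi
        have : i ∈ I := Finset.mem_filter.2 ⟨Finset.mem_univ _, hi⟩
        rw [h] at this
        exact absurd this (Finset.notMem_empty _)
      have h2 := hS.sum1
      simp [h1] at h2
    have hIc : 0 < I.card := hI.card_pos
    have hIc2 : I.card ≤ n + 1 := by
      refine (Finset.card_le_univ _).trans ?_
      rw [Fintype.card_fin]
    obtain ⟨k1, hk1⟩ : ∃ k1, I.card = k1 + 1 := ⟨I.card - 1, by omega⟩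
    let k' : Fin (n + 1) := ⟨k1, by omega⟩
    let e : Fin ((k' : ℕ) + 1) → Fin (n + 1) := I.orderEmbOfFin hk1
    have he : Function.Injective e := (I.orderEmbOfFin hk1).injective
    have hrange : ∀ i, lam i ≠ 0 ↔ ∃ j, e j = i := by
      intro i
      have h1 := Finset.range_orderEmbOfFin I hk1
      have h2 : i ∈ (I : Set (Fin (n + 1))) ↔ lam i ≠ 0 := by
        simp [I]
      rw [← h2, ← h1]
      rfl
    have hact : ∀ j, ev (f0 + C η * pert n m θr) x (y (e j)) = v ∧
        ∀ l, ev (pderiv (Sum.inr l) (f0 + C η * pert n m θr)) x (y (e j)) = 0 := by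
      intro j
      rcases hS.act (e j) with h | h
      · exact absurd h.1 ((hrange _).2 ⟨j, rfl⟩)
      · exact h.2
    have hinact : ∀ i, (¬ ∃ j, e j = i) → lam i = 0 ∧ y i = 0 := by
      intro i hi
      rcases hS.act i with h | h
      · exact h
      · exact absurd ((hrange i).1 h.1) hi
    have hsumext : ∀ F : Fin (n + 1) → ℝ, (∀ i, (¬ ∃ j, e j = i) → F i = 0) →
        ∑ j, F (e j) = ∑ i, F i := by
      intro F hF
      exact Fintype.sum_of_injective e he _ _ (fun i hi => hF i hi) fun i => rfl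
    have hred : RedSol (f0 + C η * pert n m θr) x (y ∘ e) (lam ∘ e) v := by
      refine ⟨fun j => (hact j).1, fun j l => (hact j).2 l, fun l => ?_, ?_⟩
      · rw [← hS.st l]
        refine hsumext (fun i => lam i * ev (pderiv (Sum.inl l) (f0 + C η * pert n m θr)) x (y i)) ?_
        intro i hi
        simp only [(hinact i hi).1, zero_mul]
      · rw [← hS.sum1]
        exact hsumext lam fun i hi => (hinact i hi).1
    have hyinj : Function.Injective (y ∘ e) := by
      intro j j' h
      by_contra hne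
      exact hS.dist (e j) (e j') (fun h' => hne (he h')) ((hrange _).2 ⟨j, rfl⟩)
        ((hrange _).2 ⟨j', rfl⟩) h
    obtain ⟨N, hN⟩ := exists_sep hm (k := (k' : ℕ) + 1) k'.2 (y ∘ e) hyinj
    refine Set.mem_iUnion.2 ⟨k', Set.mem_iUnion.2 ⟨N, Set.mem_iUnion.2 ⟨e, ?_⟩⟩⟩
    refine ⟨code ((k' : ℕ) + 1) N hm θr x (y ∘ e) (lam ∘ e) v,
      redSol_chart (k := (k' : ℕ) + 1) k'.2 N hm (Nat.succ_pos _) η hη f0 θr x (y ∘ e) (lam ∘ e) v
        hred hN, ?_⟩
    simp only [Φ]
    have e1 : yz ((k' : ℕ) + 1) k'.2 N (code ((k' : ℕ) + 1) N hm θr x (y ∘ e) (lam ∘ e) v) = y ∘ e := by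
      funext i
      exact yz_code _ N hm θr x _ _ v i
    rw [e1, lz_code (k := (k' : ℕ) + 1) k'.2 N hm (Nat.succ_pos _) θr x (y ∘ e) (lam ∘ e) v hred.sum1,
      vz_code, xz_code]
    have e2 : Function.extend e (y ∘ e) 0 = y := by
      funext i
      by_cases hi : ∃ j, e j = i
      · obtain ⟨j, rfl⟩ := hi
        rw [he.extend_apply]
        rfl
      · rw [Function.extend_apply' _ _ _ hi, (hinact i hi).2]
        rfl
    have e3 : Function.extend e (lam ∘ e) 0 = lam := by
      funext i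
      by_cases hi : ∃ j, e j = i
      · obtain ⟨j, rfl⟩ := hi
        rw [he.extend_apply]
        rfl
      · rw [Function.extend_apply' _ _ _ hi, (hinact i hi).1]
        rfl
    rw [e2, e3]
  refine Set.Finite.subset ?_ hcov
  refine Set.finite_iUnion fun k' => Set.finite_iUnion fun N => Set.finite_iUnion fun e => ?_
  exact (hfin k' N).image _

end Pool.Agent.IsoPt
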