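import Pool.Agent.Lib.IsoPt.Generic

/-!
# Growth rates: polynomial, simply exponential, doubly exponential; choice of the parameters
-/

set_option autoImplicit false

namespace Pool.Agent.IsoPt

section

variable {ι : Type*} (L : ι → ℕ)

/-- polynomially bounded -/
def PolyB (X : ι → ℕ) : Prop := ∃ p : Polynomial ℕ, ∀ i, X i ≤ p.eval (L i)

/-- exponentially bounded -/
def ExpB (X : ι → ℝ) : Prop := ∃ p : Polynomial ℕ, ∀ i, X i ≤ 2 ^ (p.eval (L i))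

/-- doubly exponentially bounded -/
def DExpB (X : ι → ℝ) : Prop := ∃ p : Polynomial ℕ, ∀ i, X i ≤ 2 ^ (2 ^ (p.eval (L i)))

variable {L}

lemma PolyB.const (c : ℕ) : PolyB L fun _ => c := ⟨Polynomial.C c, fun i => by simp⟩
lemma PolyB.self : PolyB L L := ⟨Polynomial.X, fun i => by simp⟩
lemma PolyB.mono {X Y : ι → ℕ} (h : PolyB L Y) (hXY : ∀ i, X i ≤ Y i) : PolyB L X := by
  obtain ⟨p, hp⟩ := h
  exact ⟨p, fun i => (hXY i).trans (hp i)⟩
lemma PolyB.add {X Y : ι → ℕ} (hX : PolyB L X) (hY : PolyB L Y) : PolyB L fun i => X i + Y i := by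
  obtain ⟨p, hp⟩ := hX
  obtain ⟨q, hq⟩ := hY
  exact ⟨p + q, fun i => by rw [Polynomial.eval_add]; exact Nat.add_le_add (hp i) (hq i)⟩
lemma PolyB.mul {X Y : ι → ℕ} (hX : PolyB L X) (hY : PolyB L Y) : PolyB L fun i => X i * Y i := by
  obtain ⟨p, hp⟩ := hX
  obtain ⟨q, hq⟩ := hY
  exact ⟨p * q, fun i => by rw [Polynomial.eval_mul]; exact Nat.mul_le_mul (hp i) (hq i)⟩
lemma PolyB.pow {X : ι → ℕ} (hX : PolyB L X) (c : ℕ) : PolyB L fun i => X i ^ c := by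
  obtain ⟨p, hp⟩ := hX
  exact ⟨p ^ c, fun i => by rw [Polynomial.eval_pow]; exact Nat.pow_le_pow_left (hp i) c⟩
lemma PolyB.poly (p : Polynomial ℕ) : PolyB L fun i => p.eval (L i) := ⟨p, fun _ => le_rfl⟩

lemma PolyB.exp {X : ι → ℕ} (hX : PolyB L X) : ExpB L fun i => (X i : ℝ) := by
  obtain ⟨p, hp⟩ := hX
  refine ⟨p, fun i => ?_⟩
  have h1 : X i ≤ 2 ^ (p.eval (L i)) := (hp i).trans Nat.lt_two_pow_self.le
  beta_reduce
  exact_mod_cast h1

lemma ExpB.mono {X Y : ι → ℝ} (h : ExpB L Y) (hXY : ∀ i, X i ≤ Y i) : ExpB L X := by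
  obtain ⟨p, hp⟩ := h
  exact ⟨p, fun i => (hXY i).trans (hp i)⟩

lemma ExpB.const (c : ℝ) : ExpB L fun _ => c := by
  obtain ⟨k, hk⟩ := pow_unbounded_of_one_lt c (one_lt_two)
  exact ⟨Polynomial.C k, fun i => by simpa using hk.le⟩

lemma two_pow_add_le (a b : ℕ) : (2 : ℝ) ^ a + 2 ^ b ≤ 2 ^ (a + b + 1) := by
  have h1 : (2 : ℝ) ^ a ≤ 2 ^ (a + b) := pow_le_pow_right₀ one_le_two (by omega)
  have h2 : (2 : ℝ) ^ b ≤ 2 ^ (a + b) := pow_le_pow_right₀ one_le_two (by omega)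
  rw [pow_succ]
  linarith

lemma ExpB.add {X Y : ι → ℝ} (hX : ExpB L X) (hY : ExpB L Y) : ExpB L fun i => X i + Y i := by
  obtain ⟨p, hp⟩ := hX
  obtain ⟨q, hq⟩ := hY
  refine ⟨p + q + 1, fun i => ?_⟩
  have := two_pow_add_le (p.eval (L i)) (q.eval (L i))
  simp only [Polynomial.eval_add, Polynomial.eval_one]
  linarith [hp i, hq i]

lemma ExpB.mul {X Y : ι → ℝ} (hX : ExpB L X) (hY : ExpB L Y) (hY0 : ∀ i, 0 ≤ Y i) :
    ExpB L fun i => X i * Y i := by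
  obtain ⟨p, hp⟩ := hX
  obtain ⟨q, hq⟩ := hY
  refine ⟨p + q, fun i => ?_⟩
  simp only [Polynomial.eval_add, pow_add]
  exact mul_le_mul (hp i) (hq i) (hY0 i) (by positivity)

lemma ExpB.pow {X : ι → ℝ} {c : ι → ℕ} (hX : ExpB L X) (hc : PolyB L c) (hX0 : ∀ i, 0 ≤ X i) :
    ExpB L fun i => X i ^ c i := by
  obtain ⟨p, hp⟩ := hX
  obtain ⟨q, hq⟩ := hc
  refine ⟨p * q, fun i => ?_⟩
  simp only [Polynomial.eval_mul, pow_mul]
  calc X i ^ c i ≤ (2 ^ (p.eval (L i))) ^ c i := pow_le_pow_left₀ (hX0 i) (hp i) _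
    _ ≤ (2 ^ (p.eval (L i))) ^ (q.eval (L i)) := pow_le_pow_right₀ (one_le_pow₀ one_le_two) (hq i)

lemma ExpB.two_pow {c : ι → ℕ} (hc : PolyB L c) : ExpB L fun i => 2 ^ c i := by
  obtain ⟨q, hq⟩ := hc
  exact ⟨q, fun i => pow_le_pow_right₀ one_le_two (hq i)⟩

lemma ExpB.dexp {X : ι → ℝ} (hX : ExpB L X) : DExpB L X := by
  obtain ⟨p, hp⟩ := hX
  refine ⟨p, fun i => (hp i).trans ?_⟩
  exact pow_le_pow_right₀ one_le_two Nat.lt_two_pow_self.le

lemma DExpB.mono {X Y : ι → ℝ} (h : DExpB L Y) (hXY : ∀ i, X i ≤ Y i) : DExpB L X := by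
  obtain ⟨p, hp⟩ := h
  exact ⟨p, fun i => (hXY i).trans (hp i)⟩

lemma DExpB.add {X Y : ι → ℝ} (hX : DExpB L X) (hY : DExpB L Y) : DExpB L fun i => X i + Y i := by
  obtain ⟨p, hp⟩ := hX
  obtain ⟨q, hq⟩ := hY
  refine ⟨p + q + 2, fun i => ?_⟩
  have h1 := two_pow_add_le (2 ^ p.eval (L i)) (2 ^ q.eval (L i))
  have h2 : 2 ^ p.eval (L i) + 2 ^ q.eval (L i) + 1 ≤ 2 ^ (p.eval (L i) + q.eval (L i) + 2) := by
    have h3 : 2 ^ p.eval (L i) ≤ 2 ^ (p.eval (L i) + q.eval (L i)) :=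
      Nat.pow_le_pow_right (by norm_num) (by omega)
    have h4 : 2 ^ q.eval (L i) ≤ 2 ^ (p.eval (L i) + q.eval (L i)) :=
      Nat.pow_le_pow_right (by norm_num) (by omega)
    have h5 : 1 ≤ 2 ^ (p.eval (L i) + q.eval (L i)) := Nat.one_le_two_pow
    have h6 : 2 ^ (p.eval (L i) + q.eval (L i) + 2) = 4 * 2 ^ (p.eval (L i) + q.eval (L i)) := by
      rw [pow_add]; ring
    omega
  simp only [Polynomial.eval_add]
  have h7 : (Polynomial.eval (L i) (2 : Polynomial ℕ)) = 2 := by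
    simp
  rw [h7]
  calc X i + Y i ≤ 2 ^ 2 ^ p.eval (L i) + 2 ^ 2 ^ q.eval (L i) := add_le_add (hp i) (hq i)
    _ ≤ _ := h1
    _ ≤ _ := pow_le_pow_right₀ one_le_two h2

lemma DExpB.mul {X Y : ι → ℝ} (hX : DExpB L X) (hY : DExpB L Y) (hY0 : ∀ i, 0 ≤ Y i) :
    DExpB L fun i => X i * Y i := by
  obtain ⟨p, hp⟩ := hX
  obtain ⟨q, hq⟩ := hY
  refine ⟨p + q + 2, fun i => ?_⟩
  have h2 : 2 ^ p.eval (L i) + 2 ^ q.eval (L i) ≤ 2 ^ (p.eval (L i) + q.eval (L i) + 2) := by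
    have h3 : 2 ^ p.eval (L i) ≤ 2 ^ (p.eval (L i) + q.eval (L i)) :=
      Nat.pow_le_pow_right (by norm_num) (by omega)
    have h4 : 2 ^ q.eval (L i) ≤ 2 ^ (p.eval (L i) + q.eval (L i)) :=
      Nat.pow_le_pow_right (by norm_num) (by omega)
    have h6 : 2 ^ (p.eval (L i) + q.eval (L i) + 2) = 4 * 2 ^ (p.eval (L i) + q.eval (L i)) := by
      rw [pow_add]; ring
    omega
  simp only [Polynomial.eval_add]
  have h7 : (Polynomial.eval (L i) (2 : Polynomial ℕ)) = 2 := by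
    simp
  rw [h7]
  calc X i * Y i ≤ 2 ^ 2 ^ p.eval (L i) * 2 ^ 2 ^ q.eval (L i) :=
        mul_le_mul (hp i) (hq i) (hY0 i) (by positivity)
    _ = 2 ^ (2 ^ p.eval (L i) + 2 ^ q.eval (L i)) := by rw [pow_add]
    _ ≤ _ := pow_le_pow_right₀ one_le_two h2

lemma DExpB.pow {X : ι → ℝ} {c : ι → ℕ} (hX : DExpB L X) (hc : ExpB L fun i => (c i : ℝ))
    (hX0 : ∀ i, 0 ≤ X i) : DExpB L fun i => X i ^ c i := by
  obtain ⟨p, hp⟩ := hX
  obtain ⟨q, hq⟩ := hc
  refine ⟨p + q, fun i => ?_⟩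
  have hq' : c i ≤ 2 ^ q.eval (L i) := by
    have h := hq i
    beta_reduce at h
    exact_mod_cast h
  simp only [Polynomial.eval_add]
  rw [pow_add 2, pow_mul]
  calc X i ^ c i ≤ (2 ^ 2 ^ (p.eval (L i))) ^ c i := pow_le_pow_left₀ (hX0 i) (hp i) _
    _ ≤ (2 ^ 2 ^ (p.eval (L i))) ^ (2 ^ q.eval (L i)) :=
      pow_le_pow_right₀ (one_le_pow₀ one_le_two) hq'

lemma DExpB.two_pow {c : ι → ℕ} (hc : ExpB L fun i => (c i : ℝ)) : DExpB L fun i => 2 ^ c i := by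
  obtain ⟨q, hq⟩ := hc
  refine ⟨q, fun i => pow_le_pow_right₀ one_le_two ?_⟩
  have h := hq i
  beta_reduce at h
  exact_mod_cast h

lemma elimDeg_exp {ν q d : ι → ℕ} (hν : PolyB L ν) (hq : ExpB L fun i => (q i : ℝ))
    (hd : ExpB L fun i => (d i : ℝ)) : ExpB L fun i => (elimDeg (ν i) (q i) (d i) : ℝ) := by
  have h2q : ExpB L fun i => (2 : ℝ) * q i := (ExpB.const 2).mul hq fun i => by positivity
  have h1 : ExpB L fun i => (2 * q i : ℝ) ^ ν i *
      (((ν i : ℝ) * (2 * q i) + 2 * q i + 1) * (d i + 1)) :=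
    (h2q.pow hν fun i => by positivity).mul
      ((((hν.exp.mul h2q fun i => by positivity).add h2q).add (ExpB.const 1)).mul
        (hd.add (ExpB.const 1)) fun i => by positivity) fun i => by positivity
  refine h1.mono fun i => ?_
  simp only [elimDeg]
  push_cast
  exact le_rfl

lemma elimNorm_nonneg_aux (ν q : ℕ) {C : ℝ} (hC : 0 ≤ C) : 0 ≤ elimNorm ν q C := by
  unfold elimNorm; positivity

lemma elimNorm_dexp {ν q : ι → ℕ} {C : ι → ℝ} (hν : PolyB L ν) (hq : ExpB L fun i => (q i : ℝ))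
    (hC : DExpB L C) (hC0 : ∀ i, 0 ≤ C i) : DExpB L fun i => elimNorm (ν i) (q i) (C i) := by
  have h2q : ExpB L fun i => (2 : ℝ) * q i := (ExpB.const 2).mul hq fun i => by positivity
  have h1 : ExpB L fun i => (2 * q i : ℝ) ^ ν i := h2q.pow hν fun i => by positivity
  have h2 : ExpB L fun i => ((ν i * (2 * q i) + 2 * q i : ℕ) : ℝ) := by
    refine ((hν.exp.mul h2q fun i => by positivity).add h2q).mono fun i => ?_
    push_cast
    exact le_rfl
  have h3 : ExpB L fun i => (((2 * q i) ^ ν i : ℕ) : ℝ) := by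
    refine h1.mono fun i => ?_
    push_cast
    exact le_rfl
  have h4 : DExpB L fun i => (2 * q i : ℝ) ^ ν i * (C i + ν i + 1) :=
    h1.dexp.mul ((hC.add hν.exp.dexp).add (ExpB.const 1).dexp) fun i => by
      have := hC0 i; positivity
  have h5 : DExpB L fun i => ((2 * q i : ℝ) * (C i + 1)) ^ (ν i * (2 * q i) + 2 * q i) :=
    (h2q.dexp.mul (hC.add (ExpB.const 1).dexp) fun i => by have := hC0 i; positivity).pow h2
      fun i => by have := hC0 i; positivity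
  exact (h4.mul h5 fun i => by have := hC0 i; positivity).pow h3 fun i => by
    have := hC0 i; positivity

end

/-- Bound for the perturbation. -/
noncomputable def pertBound (n m nb : ℕ) : ℝ :=
  2 ^ nb * ((numForms n m : ℝ) * (2 * (n + 1)) *
    ((numForms n m : ℝ) ^ m * (m + 1)) ^ (2 * (n + 1)) * (m + 1) + n + 1)

/-- The numerical conditions on the parameters. -/
structure GoodPar (n m L k a1 a2 a4 a5 nb : ℕ) : Prop where
  hk : 1 ≤ k
  hloj : lojExp m L ≤ 2 ^ k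
  hL : L < 2 ^ k
  hW : 2 * twoDeg n m (2 ^ (k + 1)) + 4 ≤ 2 ^ (2 ^ a4)
  ht : (2 * (1 / 2) ^ (2 ^ a1)) * (4 * twoNorm n m (2 ^ (k + 1)) (2 ^ k) (2 ^ L)
    ((2 ^ (2 ^ a4) : ℕ) : ℝ) * ((2 ^ (2 ^ a4) : ℕ) : ℝ) ^ twoDeg n m (2 ^ (k + 1))) ≤ (1 : ℝ)
  hz : 2 * (1 / 2) ^ (2 ^ a2) ≤ ((1 / 2 : ℝ) ^ (2 ^ a1) / 2) ^ twoDeg n m (2 ^ (k + 1))
  hzt : a1 ≤ a2
  hgrid : gridSize n m (2 ^ (k + 3)) + 1 ≤ 2 ^ nb
  hM : (1 / 2) ^ (2 ^ a5) * pertBound n m nb ≤ (1 / 2 : ℝ) ^ (2 ^ a2) / 2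

/-- Parameters of polynomial size exist. -/
theorem exists_goodPar : ∃ K A1 A2 A4 A5 NB : Polynomial ℕ, ∀ n m L : ℕ, n ≤ L → m ≤ L →
    GoodPar n m L (K.eval L) (A1.eval L) (A2.eval L) (A4.eval L) (A5.eval L) (NB.eval L) := by
  let ι := {q : ℕ × ℕ × ℕ // q.1 ≤ q.2.2 ∧ q.2.1 ≤ q.2.2}
  let n : ι → ℕ := fun i => i.1.1
  let m : ι → ℕ := fun i => i.1.2.1
  let L : ι → ℕ := fun i => i.1.2.2
  have hn : PolyB L n := PolyB.self.mono fun i => i.2.1
  have hm : PolyB L m := PolyB.self.mono fun i => i.2.2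
  have hL : PolyB L L := PolyB.self
  -- k
  have h1 : ExpB L fun i => (lojExp (m i) (L i) : ℝ) := by
    have h2 := elimDeg_exp (L := L) hm (hL.add (PolyB.const 3)).exp (hL.add (PolyB.const 4)).exp
    refine ((ExpB.const 2).mul h2 fun i => by positivity).mono fun i => ?_
    simp only [lojExp]
    push_cast
    exact le_rfl
  obtain ⟨K0, hK0⟩ := h1
  let K : Polynomial ℕ := K0 + Polynomial.X + 1
  have hK : ∀ i, K.eval (L i) = K0.eval (L i) + L i + 1 := fun i => by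
    simp [K]
  have hkB : PolyB L fun i => K.eval (L i) := PolyB.poly K
  have hk1 : ExpB L fun i => (((2 ^ K.eval (L i) : ℕ)) : ℝ) := by
    refine (ExpB.two_pow hkB).mono fun i => ?_
    push_cast; exact le_rfl
  have hk2 : ExpB L fun i => (((2 ^ (K.eval (L i) + 1) : ℕ)) : ℝ) := by
    refine (ExpB.two_pow (hkB.add (PolyB.const 1))).mono fun i => ?_
    push_cast; exact le_rfl
  have hk3 : ExpB L fun i => (((2 * 2 ^ (K.eval (L i) + 1) : ℕ)) : ℝ) := by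
    refine ((ExpB.const 2).mul hk2 fun i => by positivity).mono fun i => ?_
    push_cast; exact le_rfl
  have hdchi : ExpB L fun i => (dchi (m i) (2 ^ (K.eval (L i) + 1)) : ℝ) := by
    refine ((ExpB.const 2).mul (elimDeg_exp hm hk2 hk3) fun i => by positivity).mono fun i => ?_
    simp only [dchi]
    push_cast
    exact le_rfl
  have hD : ExpB L fun i => (twoDeg (n i) (m i) (2 ^ (K.eval (L i) + 1)) : ℝ) :=
    elimDeg_exp hn hdchi hdchi
  -- a4
  obtain ⟨A4, hA4⟩ : ExpB L fun i => ((2 * twoDeg (n i) (m i) (2 ^ (K.eval (L i) + 1)) + 4 : ℕ) : ℝ) := by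
    refine (((ExpB.const 2).mul hD fun i => by positivity).add (ExpB.const 4)).mono fun i => ?_
    push_cast
    exact le_rfl
  have hWexp : DExpB L fun i => (((2 ^ 2 ^ A4.eval (L i) : ℕ)) : ℝ) := by
    refine (⟨A4, fun i => ?_⟩ : DExpB L _)
    push_cast
    exact le_rfl
  -- a1
  have hN : DExpB L fun i => 2 * (4 * twoNorm (n i) (m i) (2 ^ (K.eval (L i) + 1)) (2 ^ (K.eval (L i)))
      (2 ^ (L i)) ((2 ^ (2 ^ A4.eval (L i)) : ℕ) : ℝ) *
      ((2 ^ (2 ^ A4.eval (L i)) : ℕ) : ℝ) ^ twoDeg (n i) (m i) (2 ^ (K.eval (L i) + 1))) := by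
    have hm1 : ExpB L fun i => (1 + m i : ℝ) := (ExpB.const 1).add hm.exp
    have c1 : DExpB L fun i => (2 : ℝ) ^ (L i) * (1 + m i : ℝ) ^ (2 ^ (K.eval (L i))) + n i :=
      ((ExpB.two_pow hL).dexp.mul (hm1.dexp.pow hk1 fun i => by positivity)
        fun i => by positivity).add hn.exp.dexp
    have c2 : DExpB L fun i => elimNorm (m i) (2 ^ (K.eval (L i) + 1))
        ((2 : ℝ) ^ (L i) * (1 + m i : ℝ) ^ (2 ^ (K.eval (L i))) + n i) :=
      elimNorm_dexp hm hk2 c1 fun i => by positivity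
    have c3 : DExpB L fun i => (1 + (((2 ^ 2 ^ A4.eval (L i) : ℕ)) : ℝ)) ^
        elimDeg (m i) (2 ^ (K.eval (L i) + 1)) (2 * 2 ^ (K.eval (L i) + 1)) :=
      ((ExpB.const 1).dexp.add hWexp).pow (elimDeg_exp hm hk2 hk3) fun i => by positivity
    have c4 := elimNorm_dexp hn hdchi (c2.mul c3 fun i => by positivity) (fun i =>
      mul_nonneg (elimNorm_nonneg_aux _ _ (by positivity)) (by positivity))
    have c5 := (ExpB.const 4).dexp.mul c4 (fun i => elimNorm_nonneg_aux _ _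
      (mul_nonneg (elimNorm_nonneg_aux _ _ (by positivity)) (by positivity)))
    have c6 := c5.mul (hWexp.pow hD fun i => by positivity) fun i => by positivity
    refine ((ExpB.const 2).dexp.mul c6 fun i => ?_).mono fun i => le_rfl
    have := elimNorm_nonneg_aux (n i) (dchi (m i) (2 ^ (K.eval (L i) + 1)))
      (C := elimNorm (m i) (2 ^ (K.eval (L i) + 1))
        ((2 : ℝ) ^ (L i) * (1 + m i : ℝ) ^ (2 ^ (K.eval (L i))) + n i) *
        (1 + (((2 ^ 2 ^ A4.eval (L i) : ℕ)) : ℝ)) ^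
        elimDeg (m i) (2 ^ (K.eval (L i) + 1)) (2 * 2 ^ (K.eval (L i) + 1)))
      (mul_nonneg (elimNorm_nonneg_aux _ _ (by positivity)) (by positivity))
    positivity
  obtain ⟨A1, hA1⟩ := hN
  -- a2
  have hz : ExpB L fun i => ((1 + (2 ^ (A1.eval (L i)) + 1) *
      twoDeg (n i) (m i) (2 ^ (K.eval (L i) + 1)) : ℕ) : ℝ) := by
    refine ((ExpB.const 1).add (((ExpB.two_pow (PolyB.poly A1)).add (ExpB.const 1)).mul hD
      fun i => by positivity)).mono fun i => ?_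
    push_cast
    exact le_rfl
  obtain ⟨A2', hA2'⟩ := hz
  let A2 : Polynomial ℕ := A2' + A1
  have hA2 : ∀ i, A2.eval (L i) = A2'.eval (L i) + A1.eval (L i) := fun i => by simp [A2]
  -- nb
  have hNF : PolyB L fun i => numForms (n i) (m i) :=
    (hm.mul ((hn.add (PolyB.const 1)).pow 2)).add (PolyB.const 1)
  have hcard : PolyB L fun i => Fintype.card (PIdx (n i) (m i)) := by
    refine (((hNF.mul ((PolyB.const 2).mul (hn.add (PolyB.const 1)))).mul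
      (hm.add (PolyB.const 1))).add hn).mono fun i => ?_
    simp only [PIdx, Fintype.card_sum, Fintype.card_prod, Fintype.card_fin, Fintype.card_option]
    apply le_of_eq
    ring
  obtain ⟨NB, hNB⟩ : ExpB L fun i => ((gridSize (n i) (m i) (2 ^ (K.eval (L i) + 3)) + 1 : ℕ) : ℝ) := by
    have d3 : ExpB L fun i => (2 : ℝ) ^ (K.eval (L i) + 3) + 2 * n i + 3 :=
      ((ExpB.two_pow (hkB.add (PolyB.const 3))).add
        ((ExpB.const 2).mul hn.exp fun i => by positivity)).add (ExpB.const 3)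
    have d4 : ExpB L fun i => ((Fintype.card (PIdx (n i) (m i)) + 1 : ℕ) : ℝ) :=
      (hcard.add (PolyB.const 1)).exp
    have d5 : ExpB L fun i => (((n i + 1) * (numForms (n i) (m i) *
        Fintype.card (PIdx (n i) (m i))) : ℕ) : ℝ) :=
      ((hn.add (PolyB.const 1)).mul (hNF.mul hcard)).exp
    have d6 := ((d4.mul ((hcard.exp.mul d3 fun i => by positivity).add (ExpB.const 1))
      fun i => by positivity).pow hcard fun i => by positivity).add (ExpB.const 1)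
    have d7 := (d5.mul d6 fun i => by positivity).add (ExpB.const 1)
    refine d7.mono fun i => ?_
    simp only [gridSize]
    push_cast
    exact le_rfl
  -- a5
  have hM : ExpB L fun i => pertBound (n i) (m i) (NB.eval (L i)) := by
    have e1 := ExpB.two_pow (PolyB.poly (L := L) NB)
    have hn1 : PolyB L fun i => 2 * (n i + 1) := (PolyB.const 2).mul (hn.add (PolyB.const 1))
    have hm1 : ExpB L fun i => (m i + 1 : ℝ) := hm.exp.add (ExpB.const 1)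
    have e2 : ExpB L fun i => (numForms (n i) (m i) : ℝ) ^ m i * (m i + 1) :=
      (hNF.exp.pow hm fun i => by positivity).mul hm1 fun i => by positivity
    have e3 : ExpB L fun i => ((2 : ℝ) * (n i + 1)) :=
      (ExpB.const 2).mul (hn.exp.add (ExpB.const 1)) fun i => by positivity
    exact e1.mul (((((hNF.exp.mul e3 fun i => by positivity).mul (e2.pow hn1
      fun i => by positivity) fun i => by positivity).mul hm1 fun i => by positivity).add
      hn.exp).add (ExpB.const 1)) fun i => by positivity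
  obtain ⟨A5', hA5'⟩ := hM
  obtain ⟨A5, hA5⟩ : ExpB L fun i => ((A5'.eval (L i) + 2 ^ (A2.eval (L i)) + 1 : ℕ) : ℝ) := by
    refine (((PolyB.poly A5').exp.add (ExpB.two_pow (PolyB.poly A2))).add
      (ExpB.const 1)).mono fun i => ?_
    push_cast
    exact le_rfl
  refine ⟨K, A1, A2, A4, A5, NB, fun n₀ m₀ L₀ hn₀ hm₀ => ?_⟩
  set i : ι := ⟨(n₀, m₀, L₀), hn₀, hm₀⟩ with hi
  have hKi := hK i
  have hL2 : L₀ < 2 ^ L₀ := Nat.lt_two_pow_self
  have hpos1 : 0 ≤ twoNorm n₀ m₀ (2 ^ (K.eval L₀ + 1)) (2 ^ (K.eval L₀))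
      (2 ^ L₀) ((2 ^ (2 ^ A4.eval L₀) : ℕ) : ℝ) :=
    elimNorm_nonneg_aux _ _ (mul_nonneg (elimNorm_nonneg_aux _ _ (by positivity)) (by positivity))
  constructor
  · show 1 ≤ K.eval (L i)
    rw [hKi]; omega
  · have h := hK0 i
    beta_reduce at h
    have h2 : lojExp m₀ L₀ ≤ 2 ^ K0.eval L₀ := by exact_mod_cast h
    refine h2.trans (Nat.pow_le_pow_right (by norm_num) ?_)
    show _ ≤ K.eval (L i)
    rw [hKi]
    show K0.eval L₀ ≤ K0.eval L₀ + L₀ + 1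
    omega
  · refine lt_of_lt_of_le hL2 (Nat.pow_le_pow_right (by norm_num) ?_)
    show _ ≤ K.eval (L i)
    rw [hKi]
    show L₀ ≤ K0.eval L₀ + L₀ + 1
    omega
  · have h := hA4 i
    beta_reduce at h
    have h2 : 2 * twoDeg n₀ m₀ (2 ^ (K.eval L₀ + 1)) + 4 ≤ 2 ^ A4.eval L₀ := by exact_mod_cast h
    exact h2.trans (Nat.pow_le_pow_right (by norm_num) Nat.lt_two_pow_self.le)
  · have h := hA1 i
    beta_reduce at h
    have h3 : (0 : ℝ) < (1 / 2) ^ 2 ^ A1.eval L₀ := by positivity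
    calc _ = (1 / 2 : ℝ) ^ 2 ^ A1.eval L₀ * (2 * (4 * twoNorm n₀ m₀ (2 ^ (K.eval L₀ + 1))
          (2 ^ (K.eval L₀)) (2 ^ L₀) ((2 ^ (2 ^ A4.eval L₀) : ℕ) : ℝ) *
          ((2 ^ (2 ^ A4.eval L₀) : ℕ) : ℝ) ^ twoDeg n₀ m₀ (2 ^ (K.eval L₀ + 1)))) := by ring
      _ ≤ (1 / 2 : ℝ) ^ 2 ^ A1.eval L₀ * 2 ^ 2 ^ A1.eval L₀ := mul_le_mul_of_nonneg_left h h3.le
      _ = 1 := by rw [← mul_pow]; norm_num
  · have h := hA2' i
    beta_reduce at h
    have h2 : 1 + (2 ^ (A1.eval L₀) + 1) * twoDeg n₀ m₀ (2 ^ (K.eval L₀ + 1)) ≤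
        2 ^ A2'.eval L₀ := by exact_mod_cast h
    have h3 : 2 ^ A2'.eval L₀ ≤ 2 ^ A2.eval L₀ := by
      refine Nat.pow_le_pow_right (by norm_num) ?_
      show _ ≤ A2.eval (L i)
      rw [hA2]
      exact Nat.le_add_right _ _
    have h4 : ((1 / 2 : ℝ) ^ 2 ^ A1.eval L₀ / 2) = (1 / 2) ^ (2 ^ A1.eval L₀ + 1) := by
      rw [pow_succ]; ring
    rw [h4, ← pow_mul]
    have h5 : (1 / 2 : ℝ) ^ (2 ^ A2.eval L₀) ≤
        (1 / 2) ^ (1 + (2 ^ (A1.eval L₀) + 1) * twoDeg n₀ m₀ (2 ^ (K.eval L₀ + 1))) :=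
      pow_le_pow_of_le_one (by norm_num) (by norm_num) (h2.trans h3)
    rw [pow_add] at h5
    linarith
  · show A1.eval (L i) ≤ A2.eval (L i)
    rw [hA2]; omega
  · have h := hNB i
    beta_reduce at h
    exact_mod_cast h
  · have h := hA5' i
    have h' := hA5 i
    beta_reduce at h h'
    have h2 : A5'.eval L₀ + 2 ^ (A2.eval L₀) + 1 ≤ 2 ^ A5.eval L₀ := by exact_mod_cast h'
    have h5 : (1 / 2 : ℝ) ^ (2 ^ A5.eval L₀) ≤ (1 / 2) ^ (A5'.eval L₀ + 2 ^ (A2.eval L₀) + 1) :=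
      pow_le_pow_of_le_one (by norm_num) (by norm_num) h2
    calc (1 / 2 : ℝ) ^ (2 ^ A5.eval L₀) * pertBound n₀ m₀ (NB.eval L₀)
        ≤ (1 / 2) ^ (A5'.eval L₀ + 2 ^ (A2.eval L₀) + 1) * 2 ^ A5'.eval L₀ :=
          mul_le_mul h5 h (by unfold pertBound; positivity) (by positivity)
      _ = ((1 / 2) ^ A5'.eval L₀ * 2 ^ A5'.eval L₀) * (1 / 2) ^ (2 ^ (A2.eval L₀)) * (1 / 2) := by
          rw [pow_add, pow_add]; ring
      _ = (1 / 2 : ℝ) ^ (2 ^ A2.eval L₀) / 2 := by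
          rw [← mul_pow]; norm_num; ring

end Pool.Agent.IsoPt
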