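import Pool.Agent.Lib.IsoPt.Sols

/-!
# Isolated solutions of the formula `Phi`
-/

set_option autoImplicit false

namespace Pool.Agent.IsoPt

open Pool.Agent.PolyTime MvPolynomial

/-- `ρ` is an isolated solution of the formula, up to the values at the names that do not occur. -/
def IsoSol {V : Type} (Φ : Fm V) (ρ : V → ℝ) : Prop :=
  Φ.holds ρ ∧ ∃ ε : ℝ, 0 < ε ∧ ∀ ρ' : V → ℝ, Φ.holds ρ' → (∀ v ∈ Φ.vars, |ρ' v - ρ v| < ε) →
    ∀ v ∈ Φ.vars, ρ' v = ρ v

section rho

variable {n m : ℕ} (β : Nm → ℝ) (x : Fin n → ℝ) (y : Fin (n + 1) → Fin m → ℝ)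
    (lam : Fin (n + 1) → ℝ) (v : ℝ)

lemma rho_affine (t : ℝ) (y' : Fin m → ℝ) (nm : FN) : rho n m β x y lam v t y' nm =
    rho n m β x y lam v 0 y' nm +
      t * (rho n m β x y lam v 1 y' nm - rho n m β x y lam v 0 y' nm) := by
  unfold rho
  split <;> simp

lemma rho_zero (y' y'' : Fin m → ℝ) (nm : FN) : rho n m β x y lam v 0 y' nm =
    rho n m β x y lam v 0 y'' nm := by
  unfold rho
  split <;> simp

end rho

section mem

variable {p : Par} {n m nb T : ℕ} (hp : p.Ok n m nb T)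

lemma mem_phi_of {p : Par} {φ : Fm FN} {nm : FN} (h : nm ∈ φ.vars)
    (hφ : φ ∈ (phiA p ++ ((p.cs.flatMap fun i => phiB p i) ++
    ((p.cs.flatMap fun i => (dirs p).flatMap fun d => phiD p i d) ++
    (p.cs.map (phiE p) ++ (p.ns.map (phiS p) ++
    ((p.cs.flatMap fun i => p.cs.map fun i' => phiN p i i') ++
    [.eq (sumT (p.cs.map fun i => vv (nL i))) .one, phiC p]))))))) : nm ∈ (Phi p).vars := by
  rw [Phi, vars_conj, List.mem_flatMap]
  exact ⟨φ, hφ, h⟩

lemma mem_nT {p : Par} : nT ∈ (Phi p).vars := by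
  refine mem_phi_of (φ := phiC p) ?_ (by simp only [List.mem_append, List.mem_cons]; tauto)
  rw [phiC, Fm.vars, List.mem_append, vars_conj, List.mem_flatMap]
  exact Or.inl ⟨_, List.mem_cons_self .., by simp [Fm.vars, Tm.vars]⟩

lemma mem_nP_bit {p : Par} {nm : Nm} (h : nm ∈ bitNames p) : nP nm ∈ (Phi p).vars := by
  refine mem_phi_of (φ := .eq (.mul (vv (nP nm)) (vv (nP nm))) (vv (nP nm)))
    (by simp [Fm.vars, Tm.vars]) ?_
  simp only [List.mem_append, phiA, List.mem_cons, List.mem_map]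
  exact Or.inl (Or.inr (Or.inr ⟨nm, h, rfl⟩))

include hp

lemma mem_nL (i : Fin (n + 1)) : nL i ∈ (Phi p).vars := by
  refine mem_phi_of (φ := phiE p i) ?_ ?_
  · rw [phiE, Fm.vars, List.mem_append, vars_conj, List.mem_flatMap]
    exact Or.inl ⟨_, List.mem_cons_self .., by simp [Fm.vars, Tm.vars]⟩
  · simp only [List.mem_append, List.mem_map]
    exact Or.inr (Or.inr (Or.inr (Or.inl ⟨i, by rw [hp.hcs]; exact List.mem_range.2 i.2, rfl⟩)))

lemma mem_nv : nv ∈ (Phi p).vars := by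
  refine mem_phi_of (φ := phiE p (0 : ℕ)) ?_ ?_
  · rw [phiE, Fm.vars, List.mem_append, vars_conj, vars_conj, List.mem_flatMap, List.mem_flatMap]
    exact Or.inr ⟨_, List.mem_cons_of_mem _ (List.mem_cons_self ..), by simp [Fm.vars, Tm.vars]⟩
  · simp only [List.mem_append, List.mem_map]
    exact Or.inr (Or.inr (Or.inr (Or.inl ⟨0, by rw [hp.hcs]; simp, rfl⟩)))

lemma mem_nV (i : Fin (n + 1)) (j : Fin m) : nV i (vY j) ∈ (Phi p).vars := by
  refine mem_phi_of (φ := phiE p i) ?_ ?_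
  · rw [phiE, Fm.vars, List.mem_append, vars_conj, List.mem_flatMap]
    refine Or.inl ⟨.eq (vv (nV i (vY j))) .zero, ?_, by simp [Fm.vars, Tm.vars]⟩
    refine List.mem_cons_of_mem _ (List.mem_map.2 ⟨j, ?_, rfl⟩)
    rw [hp.hms]; exact List.mem_range.2 j.2
  · simp only [List.mem_append, List.mem_map]
    exact Or.inr (Or.inr (Or.inr (Or.inl ⟨i, by rw [hp.hcs]; exact List.mem_range.2 i.2, rfl⟩)))

lemma mem_nX (l : Fin n) : nP [0, (l : ℕ)] ∈ (Phi p).vars := by
  refine mem_phi_of (φ := .eq (vv (nV 0 (.var [0, (l : ℕ)]))) (vv (nP [0, (l : ℕ)])))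
    (by simp [Fm.vars, Tm.vars]) ?_
  simp only [List.mem_append, List.mem_flatMap]
  refine Or.inr (Or.inl ⟨0, by rw [hp.hcs]; simp, ?_⟩)
  rw [phiB, List.mem_append, List.mem_map]
  refine Or.inl ⟨[0, (l : ℕ)], mem_par_X ?_, rfl⟩
  rw [hp.hns]; exact List.mem_range.2 l.2

end mem

/-- From an isolated solution we get a point where the polynomial is positive for all `y`. -/
theorem iso_of {p : Par} {n m nb T : ℕ} (hp : p.Ok n m nb T) {ρ : FN → ℝ}
    (h : IsoSol (Phi p) ρ) :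
    ∃ β : Nm → ℝ, (∀ nm ∈ bitNames p, β nm * β nm = β nm) ∧
      ∃ x : Fin n → ℝ, ∀ y : Fin m → ℝ, 0 < ev (pol n m β (fT p)) x y := by
  obtain ⟨hρ, ε, hε, hiso⟩ := h
  obtain ⟨β, x, y, lam, v, t, y', hβ, -, hL, ht, hty, hvars⟩ := phi_sol hp ρ hρ
  refine ⟨β, hβ, x, fun y₁ => ?_⟩
  by_contra hneg
  rw [not_lt] at hneg
  obtain ⟨y₂, hy2, hvars2⟩ : ∃ y₂ : Fin m → ℝ, ev (pol n m β (fT p)) x y₂ ≤ 0 ∧
      ∀ nm ∈ (Phi p).vars, ρ nm = rho n m β x y lam v t y₂ nm := by
    rcases ht.eq_or_lt with h0 | h0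
    · refine ⟨y₁, hneg, fun nm hnm => ?_⟩
      rw [hvars nm hnm, ← h0]
      exact rho_zero β x y lam v _ _ nm
    · exact ⟨y', hty h0, hvars⟩
  have hsol : ∀ δ : ℝ, 0 < δ → (Phi p).holds (rho n m β x y lam v (t + δ) y₂) := by
    intro δ hδ
    exact phi_rho hp β hβ x y lam v (t + δ) y₂ hL (by linarith) fun _ => hy2
  obtain ⟨kap, hkap⟩ : ∃ kap : FN → ℝ, kap = fun nm =>
    rho n m β x y lam v 1 y₂ nm - rho n m β x y lam v 0 y₂ nm := ⟨_, rfl⟩
  have haff : ∀ s nm, rho n m β x y lam v s y₂ nm = rho n m β x y lam v 0 y₂ nm + s * kap nm := by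
    intro s nm
    rw [hkap]; exact rho_affine β x y lam v s y₂ nm
  obtain ⟨K, hK0, hK⟩ : ∃ K : ℝ, 0 < K ∧ ∀ nm ∈ (Phi p).vars, |kap nm| < K := by
    have : ∀ l : List FN, ∃ K : ℝ, 0 < K ∧ ∀ nm ∈ l, |kap nm| < K := by
      intro l
      induction l with
      | nil => exact ⟨1, one_pos, by simp⟩
      | cons a l ih =>
        obtain ⟨K, hK0, hK⟩ := ih
        refine ⟨K + |kap a|, by positivity, fun nm hnm => ?_⟩
        rcases List.mem_cons.1 hnm with rfl | hnm
        · linarith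
        · have := hK nm hnm
          have := abs_nonneg (kap a)
          linarith
    exact this _
  have hδ : 0 < ε / K := div_pos hε hK0
  have hclose : ∀ nm ∈ (Phi p).vars, |rho n m β x y lam v (t + ε / K) y₂ nm - ρ nm| < ε := by
    intro nm hnm
    rw [hvars2 nm hnm, haff (t + ε / K), haff t]
    have h1 : rho n m β x y lam v 0 y₂ nm + (t + ε / K) * kap nm -
        (rho n m β x y lam v 0 y₂ nm + t * kap nm) = ε / K * kap nm := by ring
    rw [h1, abs_mul, abs_of_pos hδ]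
    calc ε / K * |kap nm| < ε / K * K := mul_lt_mul_of_pos_left (hK nm hnm) hδ
      _ = ε := div_mul_cancel₀ _ hK0.ne'
  have := hiso _ (hsol _ hδ) hclose nT mem_nT
  rw [hvars2 _ mem_nT, rho_T, rho_T] at this
  linarith

/-- An isolated solution from a solution of the Lagrange system where the polynomial is
positive. -/
theorem iso_to {p : Par} {n m nb T : ℕ} (hp : p.Ok n m nb T) (β : Nm → ℝ)
    (hβ : ∀ nm ∈ bitNames p, β nm * β nm = β nm) (hβ0 : ∀ nm, nm ∉ bitNames p → β nm = 0)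
    (hfin : {S : (Fin n → ℝ) × (Fin (n + 1) → Fin m → ℝ) × (Fin (n + 1) → ℝ) × ℝ |
        LagSol (pol n m β (fT p)) S.1 S.2.1 S.2.2.1 S.2.2.2}.Finite)
    (x : Fin n → ℝ) (y : Fin (n + 1) → Fin m → ℝ) (lam : Fin (n + 1) → ℝ) (v : ℝ)
    (hL : LagSol (pol n m β (fT p)) x y lam v)
    (hpos : ∀ y' : Fin m → ℝ, 0 < ev (pol n m β (fT p)) x y') :
    ∃ ρ, IsoSol (Phi p) ρ := by
  refine ⟨rho n m β x y lam v 0 0, phi_rho hp β hβ x y lam v 0 0 hL le_rfl
    (fun h => absurd h (lt_irrefl _)), ?_⟩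
  set F := {S : (Fin n → ℝ) × (Fin (n + 1) → Fin m → ℝ) × (Fin (n + 1) → ℝ) × ℝ |
        LagSol (pol n m β (fT p)) S.1 S.2.1 S.2.2.1 S.2.2.2} with hF
  have hcl : IsClosed (F \ {(x, y, lam, v)}) := (hfin.subset Set.diff_subset).isClosed
  have hmem : (x, y, lam, v) ∈ (F \ {(x, y, lam, v)})ᶜ := by simp
  obtain ⟨ε, hε, hball⟩ := Metric.isOpen_iff.1 hcl.isOpen_compl _ hmem
  refine ⟨min ε (1 / 2), by positivity, fun ρ' hρ' hclose => ?_⟩
  obtain ⟨β', x', y', lam', v', t', y'', hβ', hβ0', hL', ht', hty', hvars⟩ := phi_sol hp ρ' hρ'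
  have hββ : β' = β := by
    funext nm
    by_cases hnm : nm ∈ bitNames p
    · have h1 := hclose _ (mem_nP_bit hnm)
      rw [hvars _ (mem_nP_bit hnm), rho_P, rho_P, pol_bit β' hnm, pol_bit β hnm, ev_C, ev_C] at h1
      have h2 := lt_of_lt_of_le h1 (min_le_right _ _)
      have h3 : β' nm = 0 ∨ β' nm = 1 := by
        have := hβ' nm hnm
        have : β' nm * (β' nm - 1) = 0 := by linarith
        rcases mul_eq_zero.1 this with h | h
        · exact Or.inl h
        · exact Or.inr (by linarith)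
      have h4 : β nm = 0 ∨ β nm = 1 := by
        have := hβ nm hnm
        have : β nm * (β nm - 1) = 0 := by linarith
        rcases mul_eq_zero.1 this with h | h
        · exact Or.inl h
        · exact Or.inr (by linarith)
      rcases h3 with h3 | h3 <;> rcases h4 with h4 | h4 <;> rw [h3, h4] at h2 ⊢ <;>
        norm_num at h2
    · rw [hβ0' nm hnm, hβ0 nm hnm]
  subst hββ
  have hsol : (x', y', lam', v') ∈ F := hL'
  have hdist : dist (x', y', lam', v') (x, y, lam, v) < ε := by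
    have hε' : ∀ {r : ℝ}, r < min ε (1 / 2) → r < ε := fun h => lt_of_lt_of_le h (min_le_left _ _)
    rw [Prod.dist_eq, max_lt_iff, Prod.dist_eq, max_lt_iff, Prod.dist_eq, max_lt_iff]
    refine ⟨?_, ?_, ?_, ?_⟩
    · rw [dist_pi_lt_iff hε]
      intro l
      have h1 := hclose _ (mem_nX hp l)
      rw [hvars _ (mem_nX hp l), rho_P, rho_P, pol_X, ev_inl, ev_inl] at h1
      exact hε' h1
    · rw [dist_pi_lt_iff hε]
      intro i
      rw [dist_pi_lt_iff hε]
      intro j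
      have h1 := hclose _ (mem_nV hp i j)
      rw [hvars _ (mem_nV hp i j), rho_V, rho_V, vY, pol_Y, ev_inr, ev_inr] at h1
      exact hε' h1
    · rw [dist_pi_lt_iff hε]
      intro i
      have h1 := hclose _ (mem_nL hp i)
      rw [hvars _ (mem_nL hp i), rho_L, rho_L] at h1
      exact hε' h1
    · have h1 := hclose _ (mem_nv hp)
      rw [hvars _ (mem_nv hp), rho_v, rho_v] at h1
      exact hε' h1
  have heq : (x', y', lam', v') = (x, y, lam, v) := by
    by_contra hne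
    exact hball hdist ⟨hsol, hne⟩
  obtain ⟨rfl, rfl, rfl, rfl⟩ : x' = x ∧ y' = y ∧ lam' = lam ∧ v' = v := by
    simpa [Prod.mk.injEq] using heq
  have ht0 : t' = 0 := by
    rcases ht'.eq_or_lt with h | h
    · exact h.symm
    · exact absurd (hty' h) (not_le.2 (hpos y''))
  intro nm hnm
  rw [hvars nm hnm, ht0]
  exact rho_zero β' x' y' lam' v' _ _ nm

end Pool.Agent.IsoPt
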