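import Pool.Agent.Lib.IsoPt.Calc

/-!
# Chunk C : first order conditions at a max-min point

Proof sketch. `F x = min_y f (x, y)` (exists by `hy`). `F` is upper semicontinuous and attains its
positive maximum at some `x*` (by `hx`). Let `Y* = argmin f (x*, ·)`, compact. If `0` is not in the
(compact) convex hull of `{∇_x f (x*, y) | y ∈ Y*}`, separate: there is `w` with
`∇_x f (x*, y) · w > 0` on `Y*`, and then `F (x* + s w) > F x*` for small `s > 0` (take minimisers
`y_s`, a limit point of them is in `Y*`, mean value theorem), contradiction.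
Caratheodory: `0` is a convex combination with positive weights of an
affinely independent family of at most `n + 1` gradients, hence distinct points.
-/

set_option autoImplicit false

namespace Pool.Agent.IsoPt

open MvPolynomial Filter Topology

attribute [local irreducible] ev

/-- Existence of the minimum over `y`. -/
theorem exists_min_y {n m : ℕ} (f : MvPolynomial (Fin n ⊕ Fin m) ℝ)
    (hy : ∀ R B : ℝ, ∃ r : ℝ, ∀ x y, ‖x‖ ≤ R → ev f x y ≤ B → ‖y‖ ≤ r) (x : Fin n → ℝ) :
    ∃ y, ∀ y', ev f x y ≤ ev f x y' := by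
  obtain ⟨r, hr⟩ := hy ‖x‖ (ev f x 0)
  have hc : Continuous fun y => ev f x y :=
    (continuous_evR f).comp (continuous_const.prodMk continuous_id)
  have hr0 : 0 ≤ r := by
    have := hr x 0 le_rfl le_rfl
    simpa using this
  obtain ⟨y, hy1, hy2⟩ := (isCompact_closedBall (0 : Fin m → ℝ) r).exists_isMinOn
    ⟨0, Metric.mem_closedBall_self hr0⟩ hc.continuousOn
  refine ⟨y, fun y' => ?_⟩
  by_cases h : ev f x y' ≤ ev f x 0
  · exact hy2 (by rw [Metric.mem_closedBall, dist_zero_right]; exact hr x y' le_rfl h)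
  · exact (hy2 (Metric.mem_closedBall_self hr0)).trans (not_le.1 h).le

/-- **First order conditions at a max-min point.** -/
theorem exists_lagSol {n m : ℕ} (f : MvPolynomial (Fin n ⊕ Fin m) ℝ)
    (hy : ∀ R B : ℝ, ∃ r : ℝ, ∀ x y, ‖x‖ ≤ R → ev f x y ≤ B → ‖y‖ ≤ r)
    (hx : ∃ R : ℝ, ∀ x, (∀ y, 0 < ev f x y) → ‖x‖ ≤ R)
    (hpos : ∃ x, ∀ y, 0 < ev f x y) :
    ∃ (x : Fin n → ℝ) (y : Fin (n + 1) → Fin m → ℝ) (lam : Fin (n + 1) → ℝ) (v : ℝ),
      LagSol f x y lam v ∧ ∀ y', 0 < ev f x y' := by
  classical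
  choose Y hY using exists_min_y f hy
  let F : (Fin n → ℝ) → ℝ := fun x => ev f x (Y x)
  have hFle : ∀ x y, F x ≤ ev f x y := fun x y => hY x y
  obtain ⟨R, hR⟩ := hx
  obtain ⟨x0, hx0⟩ := hpos
  have hcl : ∀ y, Continuous fun x => ev f x y := fun y =>
    (continuous_evR f).comp (continuous_id.prodMk continuous_const)
  have hcr : ∀ x, Continuous fun y => ev f x y := fun x =>
    (continuous_evR f).comp (continuous_const.prodMk continuous_id)
  -- upper semicontinuity
  have husc : UpperSemicontinuousOn F (Metric.closedBall 0 R) := by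
    intro x _ b hb
    have h1 : ∀ᶠ x' in 𝓝[Metric.closedBall 0 R] x, ev f x' (Y x) < b :=
      ((hcl (Y x)).continuousAt.eventually (gt_mem_nhds hb)).filter_mono nhdsWithin_le_nhds
    filter_upwards [h1] with x' hx'
    exact (hFle x' (Y x)).trans_lt hx'
  obtain ⟨xs, hxs, hmax⟩ := husc.exists_isMaxOn
    ⟨x0, by rw [Metric.mem_closedBall, dist_zero_right]; exact hR x0 hx0⟩
    (isCompact_closedBall (0 : Fin n → ℝ) R)
  have hF0 : 0 < F xs := lt_of_lt_of_le (hx0 (Y x0))
    (hmax (by rw [Metric.mem_closedBall, dist_zero_right]; exact hR x0 hx0))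
  have hgmax : ∀ x, F x ≤ F xs := by
    intro x
    by_cases h : 0 < F x
    · apply hmax
      rw [Metric.mem_closedBall, dist_zero_right]
      exact hR x fun y => h.trans_le (hFle x y)
    · exact (not_lt.1 h).trans hF0.le
  -- the active set
  set v : ℝ := F xs with hv
  let Ys : Set (Fin m → ℝ) := {y | ev f xs y ≤ v}
  have hYs : ∀ y ∈ Ys, ev f xs y = v := fun y hyy => le_antisymm hyy (hFle xs y)
  have hYsc : IsCompact Ys := by
    obtain ⟨r, hr⟩ := hy ‖xs‖ v
    refine (isCompact_closedBall (0 : Fin m → ℝ) r).of_isClosed_subset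
      (isClosed_le (hcr xs) continuous_const) ?_
    intro y hyy
    rw [Metric.mem_closedBall, dist_zero_right]
    exact hr xs y le_rfl hyy
  let gr : (Fin m → ℝ) → Fin n → ℝ := fun y l => ev (pderiv (Sum.inl l) f) xs y
  have hgrc : Continuous gr := continuous_pi fun l =>
    (continuous_evR _).comp (continuous_const.prodMk continuous_id)
  have hG : IsCompact (convexHull ℝ (gr '' Ys)) := isCompact_convexHull_fin (hYsc.image hgrc)
  -- zero is in the convex hull of the gradients
  have hzero : (0 : Fin n → ℝ) ∈ convexHull ℝ (gr '' Ys) := by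
    by_contra hnot
    obtain ⟨φ, u, hu0, hu⟩ := geometric_hahn_banach_point_closed (convex_convexHull ℝ _)
      hG.isClosed hnot
    rw [map_zero] at hu0
    let w : Fin n → ℝ := fun l => φ (Pi.single l 1)
    have hφ : ∀ g : Fin n → ℝ, φ g = ∑ l, w l * g l := by
      intro g
      conv_lhs => rw [← Finset.univ_sum_single g]
      rw [map_sum]
      refine Finset.sum_congr rfl fun l _ => ?_
      have : (Pi.single l (g l) : Fin n → ℝ) = g l • (Pi.single l (1:ℝ) : Fin n → ℝ) := by
        rw [← Pi.single_smul, smul_eq_mul, mul_one]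
      rw [this, map_smul, smul_eq_mul, mul_comm]
    have hpos' : ∀ y ∈ Ys, u < ∑ l, w l * ev (pderiv (Sum.inl l) f) xs y := by
      intro y hyy
      rw [← hφ (gr y)]
      exact hu _ (subset_convexHull ℝ _ ⟨y, hyy, rfl⟩)
    -- the sequence of minimisers
    let sq : ℕ → ℝ := fun k => 1 / ((k : ℝ) + 1)
    have hsq0 : ∀ k, 0 < sq k := fun k => by positivity
    have hsq1 : ∀ k, sq k ≤ 1 := fun k => by
      rw [div_le_one (by positivity)]
      have : (0:ℝ) ≤ k := Nat.cast_nonneg k
      linarith
    have hsqt : Tendsto sq atTop (𝓝 0) := tendsto_one_div_add_atTop_nhds_zero_nat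
    let yk : ℕ → Fin m → ℝ := fun k => Y (xs + sq k • w)
    have hyk : ∀ k, ev f (xs + sq k • w) (yk k) ≤ v := fun k => hgmax _
    obtain ⟨r, hr⟩ := hy (‖xs‖ + ‖w‖) v
    have hykb : ∀ k, yk k ∈ Metric.closedBall (0 : Fin m → ℝ) r := by
      intro k
      rw [Metric.mem_closedBall, dist_zero_right]
      refine hr _ _ ?_ (hyk k)
      refine (norm_add_le _ _).trans ?_
      rw [norm_smul, Real.norm_eq_abs, abs_of_pos (hsq0 k)]
      have : sq k * ‖w‖ ≤ 1 * ‖w‖ := mul_le_mul_of_nonneg_right (hsq1 k) (norm_nonneg _)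
      linarith
    obtain ⟨yl, _, ψ, hψ, hlim⟩ := (isCompact_closedBall (0 : Fin m → ℝ) r).tendsto_subseq hykb
    -- mean value points
    have hmv : ∀ k, ∃ τ, τ ∈ Set.Ioo 0 (sq k) ∧
        ∑ l, w l * ev (pderiv (Sum.inl l) f) (xs + τ • w) (yk k) ≤ 0 := by
      intro k
      obtain ⟨τ, hτ, hτ2⟩ := exists_hasDerivAt_eq_slope
        (fun t : ℝ => ev f (xs + t • w) (yk k))
        (fun t => ∑ l, w l * ev (pderiv (Sum.inl l) f) (xs + t • w) (yk k)) (hsq0 k)
        (fun t _ => (hasDerivAt_ev_left f xs w (yk k) t).continuousAt.continuousWithinAt)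
        (fun t _ => hasDerivAt_ev_left f xs w (yk k) t)
      refine ⟨τ, hτ, ?_⟩
      rw [hτ2]
      apply div_nonpos_of_nonpos_of_nonneg
      · have h1 := hyk k
        have h2 : v ≤ ev f (xs + (0:ℝ) • w) (yk k) := by
          rw [zero_smul, add_zero]
          exact hFle xs _
        linarith
      · rw [sub_zero]; exact (hsq0 k).le
    choose τ hτ1 hτ2 using hmv
    have hτt : Tendsto τ atTop (𝓝 0) :=
      squeeze_zero (fun k => (hτ1 k).1.le) (fun k => (hτ1 k).2.le) hsqt
    have hψt : Tendsto ψ atTop atTop := hψ.tendsto_atTop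
    -- the limit point is active
    have hylY : yl ∈ Ys := by
      have h1 : Tendsto (fun k => ev f (xs + sq (ψ k) • w) (yk (ψ k))) atTop
          (𝓝 (ev f (xs + (0:ℝ) • w) yl)) := by
        have := ((continuous_evR f).tendsto (xs + (0:ℝ) • w, yl)).comp
          ((tendsto_const_nhds.add ((hsqt.comp hψt).smul_const w)).prodMk_nhds hlim)
        exact this
      rw [zero_smul, add_zero] at h1
      exact le_of_tendsto' h1 fun k => hyk _
    have h2 : Tendsto (fun k => ∑ l, w l * ev (pderiv (Sum.inl l) f) (xs + τ (ψ k) • w) (yk (ψ k)))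
        atTop (𝓝 (∑ l, w l * ev (pderiv (Sum.inl l) f) (xs + (0:ℝ) • w) yl)) := by
      refine tendsto_finsetSum _ fun l _ => ?_
      refine Tendsto.const_mul _ ?_
      exact ((continuous_evR (pderiv (Sum.inl l) f)).tendsto (xs + (0:ℝ) • w, yl)).comp
        ((tendsto_const_nhds.add ((hτt.comp hψt).smul_const w)).prodMk_nhds hlim)
    rw [zero_smul, add_zero] at h2
    have h3 := le_of_tendsto' h2 fun k => hτ2 (ψ k)
    have h4 := hpos' yl hylY
    linarith
  -- Caratheodory
  obtain ⟨ι, hι, z, w, e, h1, h2, h3, h4, h5⟩ := mem_convexHull_fin hzero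
  have hz : ∀ i, ∃ y ∈ Ys, gr y = z i := fun i => h1 ⟨i, rfl⟩
  choose yy hyy1 hyy2 using hz
  refine ⟨xs, Function.extend e yy 0, Function.extend e w 0, v, ⟨?_, ?_, ?_, ?_⟩, ?_⟩
  · intro i
    by_cases hi : ∃ j, e j = i
    · obtain ⟨j, rfl⟩ := hi
      right
      simp only [e.injective.extend_apply]
      refine ⟨(h3 j).ne', hYs _ (hyy1 j), fun l => ?_⟩
      -- derivative at a minimum
      have hd := hasDerivAt_ev_right f xs (yy j) (Pi.single l 1) 0
      have hmin : IsLocalMin (fun t : ℝ => ev f xs (yy j + t • (Pi.single l 1 : Fin m → ℝ))) 0 := by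
        refine Filter.Eventually.of_forall fun t => ?_
        simp only [zero_smul, add_zero]
        rw [hYs _ (hyy1 j)]
        exact hFle xs _
      have h0 := hmin.hasDerivAt_eq_zero hd
      simpa [Pi.single_apply] using h0
    · left
      simp only [Function.extend_apply' _ _ _ hi, Pi.zero_apply, and_self]
  · intro l
    have h6 : ∑ i, w i * ev (pderiv (Sum.inl l) f) xs (yy i) = 0 := by
      have := congrFun h5 l
      simp only [Finset.sum_apply, Pi.smul_apply, smul_eq_mul, Pi.zero_apply] at this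
      rw [← this]
      refine Finset.sum_congr rfl fun i _ => ?_
      rw [← hyy2 i]
    rw [← h6]
    symm
    refine Fintype.sum_of_injective e e.injective _ _ ?_ ?_
    · intro i hi
      simp only [Function.extend_apply' _ _ _ hi, Pi.zero_apply, zero_mul]
    · intro i
      simp only [e.injective.extend_apply]
  · rw [← h4]
    symm
    refine Fintype.sum_of_injective e e.injective _ _ ?_ ?_
    · intro i hi
      exact Function.extend_apply' _ _ _ hi
    · intro i
      exact (e.injective.extend_apply _ _ _).symm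
  · intro i i' hne hi hi'
    by_cases h : ∃ j, e j = i
    · by_cases h' : ∃ j, e j = i'
      · obtain ⟨j, rfl⟩ := h
        obtain ⟨j', rfl⟩ := h'
        simp only [e.injective.extend_apply]
        intro heq
        apply hne
        congr 1
        apply h2
        rw [← hyy2 j, ← hyy2 j', heq]
      · exact absurd (Function.extend_apply' _ _ _ h') hi'
    · exact absurd (Function.extend_apply' _ _ _ h) hi
  · intro y'
    exact hF0.trans_le (hFle xs y')

end Pool.Agent.IsoPt
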