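import Pool.Agent.Lib.IsoPt.PolyFun

/-!
# Linear systems in the parameters have finitely many solutions for generic parameters
-/

set_option autoImplicit false

namespace Pool.Agent.IsoPt

open MvPolynomial

theorem totalDegree_pderiv_le' {σ : Type*} (i : σ) (f : MvPolynomial σ ℝ) :
    (pderiv i f).totalDegree ≤ f.totalDegree := by
  classical
  conv_lhs => rw [f.as_sum, map_sum]
  refine totalDegree_finsetSum_le fun s hs => ?_
  rw [pderiv_monomial]
  refine (totalDegree_monomial_le _ _).trans ?_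
  refine le_trans ?_ (le_totalDegree hs)
  have h : (s - Finsupp.single i 1) ≤ s := tsub_le_self
  exact Finsupp.degree_mono h

/-- Nonzero polynomials of small degrees do not vanish simultaneously at some grid point. -/
theorem goodGrid {ι T : Type*} [Fintype ι] [Fintype T] (b s : ℕ)
    (hs : Fintype.card T * b ≤ s) (c : T → MvPolynomial ι ℝ) (hc : ∀ a, c a ≠ 0)
    (hd : ∀ a i, (c a).degreeOf i < b) :
    ∃ θ : ι → ℕ, (∀ i, θ i ≤ s) ∧ ∀ a, eval (fun i => (θ i : ℝ)) (c a) ≠ 0 := by
  classical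
  set Q : MvPolynomial ι ℝ := ∏ a, c a with hQ
  have hQ0 : Q ≠ 0 := Finset.prod_ne_zero_iff.2 fun a _ => hc a
  let S : Finset ℝ := (Finset.range (s + 1)).image fun k : ℕ => (k : ℝ)
  have hS : S.card = s + 1 := by
    rw [Finset.card_image_of_injective _ Nat.cast_injective, Finset.card_range]
  have hdeg : ∀ i, Q.degreeOf i < S.card := by
    intro i
    rw [hS, Nat.lt_succ_iff]
    refine (degreeOf_prod_le i _ _).trans ?_
    refine (Finset.sum_le_card_nsmul _ _ b fun a _ => (hd a i).le).trans ?_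
    rw [Finset.card_univ, smul_eq_mul]
    exact hs
  by_contra hcon
  push Not at hcon
  apply hQ0
  refine eq_zero_of_eval_zero_at_prod_finset Q (fun _ => S) hdeg fun x hx => ?_
  have h1 : ∀ i, ∃ k : ℕ, k ≤ s ∧ (k : ℝ) = x i := by
    intro i
    obtain ⟨k, hk, hk2⟩ := Finset.mem_image.1 (hx i)
    exact ⟨k, Nat.lt_succ_iff.1 (Finset.mem_range.1 hk), hk2⟩
  choose θ hθ1 hθ2 using h1
  obtain ⟨a, ha⟩ := hcon θ hθ1
  rw [hQ, map_prod]
  refine Finset.prod_eq_zero (Finset.mem_univ a) ?_
  rw [← ha]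
  congr 2
  funext i
  exact (hθ2 i).symm

open Matrix in
/-- Consider systems `M z *ᵥ θ = r z` with polynomial entries, square of size the number of
coordinates of `z`. For `θ` outside the zero sets of finitely many nonzero polynomials of small degree,
the set of solutions `z` with `det (M z) ≠ 0` is finite. -/
theorem linFinite {ι : Type*} [Fintype ι] [DecidableEq ι] (d b : ℕ)
    (hb : ((Fintype.card ι + 1) * (Fintype.card ι * d + 1)) ^ Fintype.card ι < b)
    (M : (ι → ℝ) → Matrix ι ι ℝ) (r : (ι → ℝ) → ι → ℝ)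
    (hM : ∀ i j, PolyLE d (fun z => M z i j)) (hr : ∀ i, PolyLE d (fun z => r z i)) :
    ∃ c : ι → MvPolynomial ι ℝ, (∀ p, c p ≠ 0) ∧ (∀ p i, (c p).degreeOf i < b) ∧
      ∀ θ : ι → ℝ, (∀ p, eval θ (c p) ≠ 0) →
        {z : ι → ℝ | (M z).det ≠ 0 ∧ M z *ᵥ θ = r z}.Finite := by
  have hdet : PolyLE (Fintype.card ι * d) (fun z => (M z).det) := PolyLE.det M hM
  have key : ∀ p : ι, ∃ c : MvPolynomial ι ℝ, c ≠ 0 ∧ (∀ i, c.degreeOf i < b) ∧
      ∀ θ : ι → ℝ, eval θ c ≠ 0 → ∃ F : Set ℝ, F.Finite ∧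
        ∀ z : ι → ℝ, (M z).det ≠ 0 → M z *ᵥ θ = r z → z p ∈ F := by
    intro p
    obtain ⟨c, ⟨e0, he0⟩, hdeg, hrel⟩ := dimCount (Fintype.card ι * d + 1) b (by omega) hb
      (fun i z => (M z).cramer (r z) i) (fun z => (M z).det * z p) (fun z => (M z).det)
      (fun i => (PolyLE.cramer M r hM hr i).mono (Nat.le_succ _))
      (hdet.mul (PolyLE.coord p)) (hdet.mono (Nat.le_succ _))
    refine ⟨c e0, he0, hdeg e0, fun θ hθ => ?_⟩
    let q : Polynomial ℝ := ∑ e : Fin b, Polynomial.C (eval θ (c e)) * Polynomial.X ^ (e : ℕ)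
    have hq : q ≠ 0 := by
      intro h
      apply hθ
      have h1 := congrArg (fun f : Polynomial ℝ => f.coeff (e0 : ℕ)) h
      simp only [q, Polynomial.finsetSum_coeff, Polynomial.coeff_C_mul, Polynomial.coeff_X_pow,
        Polynomial.coeff_zero, mul_ite, mul_one, mul_zero] at h1
      rw [Finset.sum_eq_single e0] at h1
      · simpa using h1
      · intro e _ hne
        rw [if_neg fun h' => hne (Fin.ext h'.symm)]
      · intro h'
        exact absurd (Finset.mem_univ _) h'
    refine ⟨{w | q.eval w = 0}, ?_, fun z hz hz2 => ?_⟩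
    · have : {w | q.eval w = 0} ⊆ (q.roots.toFinset : Set ℝ) := by
        intro w hw
        simp only [Finset.mem_coe, Multiset.mem_toFinset]
        exact (Polynomial.mem_roots hq).2 hw
      exact (q.roots.toFinset.finite_toSet).subset this
    · have h1 := hrel z hz
      have h2 : (fun i => (M z).cramer (r z) i / (M z).det) = θ := by
        funext i
        rw [← hz2, cramer_eq_adjugate_mulVec, mulVec_mulVec, adjugate_mul, smul_mulVec,
          one_mulVec, Pi.smul_apply, smul_eq_mul, mul_div_cancel_left₀ _ hz]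
      rw [h2, mul_div_cancel_left₀ _ hz] at h1
      change q.eval (z p) = 0
      rw [Polynomial.eval_finsetSum, ← h1]
      refine Finset.sum_congr rfl fun e _ => ?_
      simp
  choose c hc1 hc2 hc3 using key
  refine ⟨c, hc1, hc2, fun θ hθ => ?_⟩
  choose F hF1 hF2 using fun p => hc3 p θ (hθ p)
  refine (Set.Finite.pi' hF1).subset ?_
  rintro z ⟨hz1, hz2⟩ p
  exact hF2 p z hz1 hz2

end Pool.Agent.IsoPt
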