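import Pool.Agent.Lib.IsoPt.Elim
import Pool.Agent.Lib.IsoPt.Extreme

/-!
# Chunk L : effective Lojasiewicz inequality at infinity

Proof sketch. For `R > 0` let `μ R = min {G y | ∑ y_j^2 = R^2}`. Apply `elimination` (with `K = ℝ`,
`σ = Fin m`, `q = d + 3`, parameters `ω, R, ζ`) to `P = ω G(y) + (∑ y_j^2 - R^2)^2`; its critical
value at the global minimum, divided by `ω`, tends to `μ R` when `ω → 0`, `ζ ≪ ω`.
With `Q (ζ, ω; v, R) = N (ω v; ω, R, ζ)` and `extreme_coeff` get `ρ (v, R) ≠ 0` with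
`ρ (μ R, R) = 0` for all `R > 0`.  Divide `ρ` by the largest power of `v`; then
`|ρ' (0, R)| ≤ μ R * C (1 + R)^N` when `μ R ≤ 1`, and the left side is bounded below for large `R`.
-/

set_option autoImplicit false

namespace Pool.Agent.IsoPt

open MvPolynomial Filter Topology

/-! ### Generalities -/

/-- Total degree of a substitution. -/
lemma totalDegree_aeval_le {σ τ R : Type*} [CommRing R] (f : σ → MvPolynomial τ R) (k : ℕ)
    (hf : ∀ i, (f i).totalDegree ≤ k) (p : MvPolynomial σ R) :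
    (aeval f p).totalDegree ≤ k * p.totalDegree := by
  classical
  rw [aeval_def, eval₂_eq]
  refine totalDegree_finsetSum_le fun m hm => ?_
  refine (totalDegree_mul _ _).trans ?_
  rw [algebraMap_eq, totalDegree_C, zero_add]
  refine (totalDegree_finsetProd _ _).trans ?_
  have h1 : ∀ i ∈ m.support, (f i ^ m i).totalDegree ≤ k * m i := fun i _ =>
    (totalDegree_pow _ _).trans (by rw [mul_comm]; exact Nat.mul_le_mul_right _ (hf i))
  refine (Finset.sum_le_sum h1).trans ?_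
  rw [← Finset.mul_sum]
  exact Nat.mul_le_mul_left _ (le_totalDegree hm)

lemma aeval_eq_eval' {σ : Type*} (y : σ → ℝ) (p : MvPolynomial σ ℝ) :
    (aeval y p : ℝ) = eval y p := by
  rw [← coe_aeval_eq_eval]; rfl

/-- Partial derivatives are derivatives. -/
lemma hasDerivAt_ev {σ τ : Type*} [DecidableEq σ] (p : MvPolynomial (σ ⊕ τ) ℝ) (y : σ → ℝ)
    (b : τ → ℝ) (j : σ) (t : ℝ) :
    HasDerivAt (fun t => ev p (Function.update y j t) b)
      (ev (pderiv (Sum.inl j) p) (Function.update y j t) b) t := by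
  classical
  unfold ev
  induction p using MvPolynomial.induction_on with
  | C a =>
    simp only [aeval_C, pderiv_C, map_zero]
    exact hasDerivAt_const t _
  | add p q hp hq =>
    simp only [map_add]
    exact hp.add hq
  | mul_X p i hp =>
    have hX : HasDerivAt (fun t => aeval (Sum.elim (Function.update y j t) b)
        (X i : MvPolynomial (σ ⊕ τ) ℝ))
        (aeval (Sum.elim (Function.update y j t) b) (pderiv (Sum.inl j)
          (X i : MvPolynomial (σ ⊕ τ) ℝ))) t := by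
      rcases i with i | i
      · by_cases hij : i = j
        · subst hij
          simp only [aeval_X, Sum.elim_inl, Function.update_self, pderiv_X_self, map_one]
          exact hasDerivAt_id t
        · have h1 : pderiv (Sum.inl j) (X (Sum.inl i) : MvPolynomial (σ ⊕ τ) ℝ) = 0 :=
            pderiv_X_of_ne (fun h => hij (Sum.inl_injective h))
          rw [h1]
          simp only [aeval_X, Sum.elim_inl, Function.update_of_ne hij, map_zero]
          exact hasDerivAt_const t _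
      · have h1 : pderiv (Sum.inl j) (X (Sum.inr i) : MvPolynomial (σ ⊕ τ) ℝ) = 0 :=
          pderiv_X_of_ne (by simp)
        rw [h1]
        simp only [aeval_X, Sum.elim_inr, map_zero]
        exact hasDerivAt_const t _
    have h := hp.mul hX
    simp only [map_mul, Derivation.leibniz, smul_eq_mul, map_add] at h ⊢
    refine HasDerivAt.congr_deriv h ?_
    ring

lemma ev_pderiv_eq_zero_of_min {σ τ : Type*} (p : MvPolynomial (σ ⊕ τ) ℝ) (y : σ → ℝ)
    (b : τ → ℝ) (hmin : ∀ y', ev p y b ≤ ev p y' b) (j : σ) :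
    ev (pderiv (Sum.inl j) p) y b = 0 := by
  classical
  have h := hasDerivAt_ev p y b j (y j)
  rw [Function.update_eq_self] at h
  refine IsLocalMin.hasDerivAt_eq_zero (Eventually.of_forall fun t => ?_) h
  rw [Function.update_eq_self]
  exact hmin _

lemma continuous_ev {σ τ : Type*} [Fintype σ] [Fintype τ] (p : MvPolynomial (σ ⊕ τ) ℝ)
    (b : τ → ℝ) : Continuous fun y : σ → ℝ => ev p y b := by
  unfold ev
  have h : (fun y : σ → ℝ => aeval (Sum.elim y b) p) =
      fun y : σ → ℝ => eval (Sum.elim y b) p := by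
    funext y
    exact aeval_eq_eval' _ _
  rw [h]
  refine (MvPolynomial.continuous_eval p).comp ?_
  refine continuous_pi fun i => ?_
  rcases i with i | i
  · exact continuous_apply i
  · exact continuous_const

/-- A univariate real polynomial which is nonzero is bounded below at infinity. -/
lemma exists_lower_bound (p : Polynomial ℝ) (hp : p ≠ 0) :
    ∃ c R₀ : ℝ, 0 < c ∧ ∀ R, R₀ ≤ R → c ≤ |p.eval R| := by
  by_cases hdeg : 0 < p.degree
  · have h := Polynomial.abs_tendsto_atTop p hdeg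
    obtain ⟨R₀, hR₀⟩ := eventually_atTop.mp (h.eventually_ge_atTop 1)
    exact ⟨1, R₀, one_pos, hR₀⟩
  · have hC := Polynomial.eq_C_of_degree_le_zero (not_lt.mp hdeg)
    refine ⟨|p.coeff 0|, 0, ?_, fun R _ => ?_⟩
    · rw [abs_pos]
      intro h0
      rw [h0, Polynomial.C_0] at hC
      exact hp hC
    · rw [hC]
      simp

/-- The univariate polynomial in `R` multiplying `v ^ a`. -/
noncomputable def vPart (ρ : MvPolynomial (Fin 2) ℝ) (a : ℕ) : Polynomial ℝ :=
  ∑ m ∈ ρ.support with (m 0 = a), Polynomial.monomial (m 1) (ρ.coeff m)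

lemma vPart_ne_zero (ρ : MvPolynomial (Fin 2) ℝ) {m₀ : Fin 2 →₀ ℕ} (h : m₀ ∈ ρ.support) :
    vPart ρ (m₀ 0) ≠ 0 := by
  classical
  intro h0
  have h1 := congrArg (fun p => Polynomial.coeff p (m₀ 1)) h0
  simp only [vPart, Polynomial.finsetSum_coeff, Polynomial.coeff_monomial,
    Polynomial.coeff_zero] at h1
  rw [Finset.sum_eq_single m₀] at h1
  · rw [if_pos rfl] at h1
    exact mem_support_iff.mp h h1
  · intro m hm hne
    rw [if_neg]
    intro h2
    apply hne
    ext k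
    fin_cases k
    · exact (Finset.mem_filter.mp hm).2
    · exact h2
  · intro h2
    exact (h2 (Finset.mem_filter.mpr ⟨h, rfl⟩)).elim

lemma aeval_fin2 (ρ : MvPolynomial (Fin 2) ℝ) (v R : ℝ) :
    aeval ![v, R] ρ = ∑ m ∈ ρ.support, ρ.coeff m * (v ^ (m 0) * R ^ (m 1)) := by
  rw [aeval_def, eval₂_eq']
  refine Finset.sum_congr rfl fun m _ => ?_
  rw [Fin.prod_univ_two]
  simp

/-- Lower bound for positive zeros `v` of a polynomial `ρ (v, R)` for large `R`. -/
lemma zero_lower_bound (ρ : MvPolynomial (Fin 2) ℝ) (hρ : ρ ≠ 0) :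
    ∃ c R₀ : ℝ, 0 < c ∧ ∀ R, R₀ ≤ R → 1 ≤ R → ∀ v, 0 < v → v ≤ 1 → aeval ![v, R] ρ = (0 : ℝ) →
      c ≤ v * R ^ ρ.totalDegree := by
  classical
  obtain ⟨m₀, hm₀, hmin⟩ := Finset.exists_min_image ρ.support
    (fun m => m 0) (support_nonempty.mpr hρ)
  obtain ⟨c, R₀, hc, hR₀⟩ := exists_lower_bound _ (vPart_ne_zero ρ hm₀)
  have hnpos : 0 < norm1 ρ := by
    refine lt_of_lt_of_le (norm_pos_iff.mpr (mem_support_iff.mp hm₀)) ?_
    exact Finset.single_le_sum (f := fun m => ‖ρ.coeff m‖) (fun _ _ => norm_nonneg _) hm₀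
  refine ⟨c / norm1 ρ, R₀, by positivity, fun R hR hR1 v hv hv1 h0 => ?_⟩
  have hcR := hR₀ R hR
  rw [aeval_fin2, ← Finset.sum_filter_add_sum_filter_not ρ.support (fun m => m 0 = m₀ 0)] at h0
  have h1 : ∑ m ∈ ρ.support with (m 0 = m₀ 0), ρ.coeff m * (v ^ (m 0) * R ^ (m 1)) =
      v ^ (m₀ 0) * (vPart ρ (m₀ 0)).eval R := by
    rw [vPart, Polynomial.eval_finsetSum, Finset.mul_sum]
    refine Finset.sum_congr rfl fun m hm => ?_
    rw [Polynomial.eval_monomial, (Finset.mem_filter.mp hm).2]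
    ring
  rw [h1] at h0
  have h2 : |∑ m ∈ ρ.support with ¬(m 0 = m₀ 0), ρ.coeff m * (v ^ (m 0) * R ^ (m 1))| ≤
      v ^ (m₀ 0) * (norm1 ρ * (v * R ^ ρ.totalDegree)) := by
    refine (Finset.abs_sum_le_sum_abs _ _).trans ?_
    have hterm : ∀ m ∈ ρ.support.filter (fun m => ¬(m 0 = m₀ 0)),
        |ρ.coeff m * (v ^ (m 0) * R ^ (m 1))| ≤
          ‖ρ.coeff m‖ * (v ^ (m₀ 0) * (v * R ^ ρ.totalDegree)) := by
      intro m hm
      obtain ⟨hms, hne⟩ := Finset.mem_filter.mp hm
      have hlt : m₀ 0 + 1 ≤ m 0 := by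
        have := hmin m hms
        omega
      have hdeg : m 1 ≤ ρ.totalDegree := by
        have := le_totalDegree hms
        rw [Finsupp.sum_fintype _ _ (fun _ => rfl), Fin.sum_univ_two] at this
        omega
      rw [abs_mul, abs_mul, abs_of_nonneg (pow_nonneg hv.le _),
        abs_of_nonneg (pow_nonneg (zero_le_one.trans hR1) _), Real.norm_eq_abs]
      have e1 : v ^ (m 0) ≤ v ^ (m₀ 0) * v := by
        rw [← pow_succ]
        exact pow_le_pow_of_le_one hv.le hv1 hlt
      have e2 : R ^ (m 1) ≤ R ^ ρ.totalDegree := pow_le_pow_right₀ hR1 hdeg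
      calc |ρ.coeff m| * (v ^ (m 0) * R ^ (m 1))
          ≤ |ρ.coeff m| * ((v ^ (m₀ 0) * v) * R ^ ρ.totalDegree) := by gcongr
        _ = _ := by ring
    refine (Finset.sum_le_sum hterm).trans ?_
    rw [← Finset.sum_mul]
    have hsum : ∑ m ∈ ρ.support with ¬(m 0 = m₀ 0), ‖ρ.coeff m‖ ≤ norm1 ρ :=
      Finset.sum_le_sum_of_subset_of_nonneg (Finset.filter_subset _ _)
        (fun _ _ _ => norm_nonneg _)
    have hR0 : 0 ≤ R := zero_le_one.trans hR1
    calc (∑ m ∈ ρ.support with ¬(m 0 = m₀ 0), ‖ρ.coeff m‖) *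
          (v ^ (m₀ 0) * (v * R ^ ρ.totalDegree))
        ≤ norm1 ρ * (v ^ (m₀ 0) * (v * R ^ ρ.totalDegree)) := by gcongr
      _ = _ := by ring
  rw [← abs_neg, ← eq_neg_of_add_eq_zero_left h0, abs_mul, abs_of_pos (pow_pos hv _)] at h2
  have h3 := le_of_mul_le_mul_left h2 (pow_pos hv _)
  rw [div_le_iff₀ hnpos]
  calc c ≤ |(vPart ρ (m₀ 0)).eval R| := hcR
    _ ≤ _ := h3
    _ = _ := by ring

/-! ### The auxiliary polynomial -/

section Aux

variable {m : ℕ}

/-- `ω G(y) + (∑ y_j^2 - R^2)^2`, parameters `0 = ω`, `1 = R`, `2 = ζ`. -/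
noncomputable def auxP (G : MvPolynomial (Fin m) ℝ) : MvPolynomial (Fin m ⊕ Fin 3) ℝ :=
  X (Sum.inr 0) * rename Sum.inl G +
    (∑ j : Fin m, X (Sum.inl j) ^ 2 - X (Sum.inr 1) ^ 2) ^ 2

lemma totalDegree_auxP_le (G : MvPolynomial (Fin m) ℝ) (d : ℕ) (hd : G.totalDegree ≤ d) :
    (auxP G).totalDegree ≤ d + 4 := by
  unfold auxP
  refine (totalDegree_add _ _).trans (max_le ?_ ?_)
  · refine (totalDegree_mul _ _).trans ?_
    have := totalDegree_rename_le (R := ℝ) (Sum.inl : Fin m → Fin m ⊕ Fin 3) G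
    rw [totalDegree_X]
    omega
  · refine (totalDegree_pow _ _).trans ?_
    have h : (∑ j : Fin m, X (Sum.inl j) ^ 2 - X (Sum.inr 1) ^ 2 :
        MvPolynomial (Fin m ⊕ Fin 3) ℝ).totalDegree ≤ 2 := by
      refine (totalDegree_sub _ _).trans (max_le ?_ ?_)
      · refine totalDegree_finsetSum_le fun j _ => ?_
        rw [totalDegree_X_pow]
      · rw [totalDegree_X_pow]
    omega

lemma ev_fermat_auxP (G : MvPolynomial (Fin m) ℝ) (q : ℕ) (y : Fin m → ℝ) (ω R ζ : ℝ) :
    ev (fermat (2 : Fin 3) q (auxP G)) y ![ω, R, ζ] =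
      ω * eval y G + (∑ j, y j ^ 2 - R ^ 2) ^ 2 + ζ * ∑ j, y j ^ (2 * q) := by
  unfold ev fermat auxP
  simp only [map_add, map_mul, map_pow, map_sub, map_sum, aeval_X, Sum.elim_inl, Sum.elim_inr,
    aeval_rename]
  have h : (aeval (Sum.elim y ![ω, R, ζ] ∘ (Sum.inl : Fin m → Fin m ⊕ Fin 3)) G : ℝ) =
      eval y G := by
    rw [Sum.elim_comp_inl, aeval_eq_eval']
  rw [h]
  simp

/-- Substitution `s = ω v`; variables `none = ζ`, `some none = ω`, `some (some 0) = v`,
`some (some 1) = R`. -/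
noncomputable def auxSub : Option (Fin 3) → MvPolynomial (Option (Option (Fin 2))) ℝ
  | none => X (some none) * X (some (some 0))
  | some i => ![X (some none), X (some (some 1)), X none] i

lemma totalDegree_auxSub (o : Option (Fin 3)) : (auxSub o).totalDegree ≤ 2 := by
  rcases o with _ | i
  · refine (totalDegree_mul _ _).trans ?_
    simp only [totalDegree_X]
    norm_num
  · fin_cases i
    · exact (totalDegree_X (R := ℝ) _).le.trans (by norm_num)
    · exact (totalDegree_X (R := ℝ) _).le.trans (by norm_num)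
    · exact (totalDegree_X (R := ℝ) _).le.trans (by norm_num)

lemma aeval_auxSub (N : MvPolynomial (Option (Fin 3)) ℝ) (ζ ω v R : ℝ) :
    aeval (fun o : Option (Option (Fin 2)) => o.elim ζ (fun o' => o'.elim ω ![v, R]))
      (aeval auxSub N) =
      (aeval (fun o : Option (Fin 3) => o.elim (ω * v) ![ω, R, ζ]) N : ℝ) := by
  rw [← AlgHom.comp_apply, comp_aeval]
  congr 1
  congr 1
  funext o
  rcases o with _ | i
  · simp [auxSub]
  · fin_cases i <;> simp [auxSub]

/-- Coercive minimisation. -/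
lemma exists_global_min [NeZero m] (G : MvPolynomial (Fin m) ℝ) (hG : ∀ y, 0 < eval y G) (q : ℕ)
    (hq : 0 < q) (ω R ζ : ℝ) (hω : 0 < ω) (hζ : 0 < ζ) :
    ∃ y, ∀ y', ev (fermat (2 : Fin 3) q (auxP G)) y ![ω, R, ζ] ≤
      ev (fermat (2 : Fin 3) q (auxP G)) y' ![ω, R, ζ] := by
  refine (continuous_ev _ _).exists_forall_le ?_
  have h1 : Tendsto (fun y : Fin m → ℝ => ζ * ‖y‖ ^ (2 * q)) (cocompact _) atTop := by
    refine Tendsto.const_mul_atTop hζ ?_
    exact (tendsto_pow_atTop (by omega)).comp (tendsto_norm_cocompact_atTop)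
  refine tendsto_atTop_mono (fun y => ?_) h1
  rw [ev_fermat_auxP]
  have h2 : ‖y‖ ^ (2 * q) ≤ ∑ j, y j ^ (2 * q) := by
    obtain ⟨j, hj⟩ : ∃ j, ‖y‖ = ‖y j‖ := by
      obtain ⟨j, -, hj⟩ := Finset.exists_mem_eq_sup' (Finset.univ_nonempty (α := Fin m))
        (fun j => ‖y j‖)
      refine ⟨j, ?_⟩
      rw [← hj]
      apply le_antisymm
      · rw [pi_norm_le_iff_of_nonneg]
        · intro i
          exact Finset.le_sup' (fun j => ‖y j‖) (Finset.mem_univ i)
        · exact (norm_nonneg (y 0)).trans (Finset.le_sup' (fun j => ‖y j‖) (Finset.mem_univ 0))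
      · refine Finset.sup'_le _ _ fun i _ => norm_le_pi_norm y i
    rw [hj]
    have h3 : ‖y j‖ ^ (2 * q) = y j ^ (2 * q) := by
      rw [pow_mul, pow_mul, Real.norm_eq_abs, sq_abs]
    rw [h3]
    refine Finset.single_le_sum (f := fun j => y j ^ (2 * q)) (fun i _ => ?_) (Finset.mem_univ j)
    exact (even_two_mul q).pow_nonneg _
  have h4 := hG y
  have h5 : 0 ≤ (∑ j, y j ^ 2 - R ^ 2) ^ 2 := sq_nonneg _
  have h6 : 0 ≤ ω * eval y G := by positivity
  have h7 := mul_le_mul_of_nonneg_left h2 hζ.le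
  linarith

/-- The minimum of `G` on the sphere of radius `R` is a zero of the extreme coefficient. -/
lemma zero_of_sphere_min [NeZero m] (G : MvPolynomial (Fin m) ℝ) (hG : ∀ y, 0 < eval y G)
    (q : ℕ) (hq : 0 < q)
    (N : MvPolynomial (Option (Fin 3)) ℝ)
    (hN : ∀ b : Fin 3 → ℝ, b 2 ≠ 0 → ∀ y : Fin m → ℝ,
        (∀ j, ev (pderiv (Sum.inl j) (fermat (2 : Fin 3) q (auxP G))) y b = 0) →
        aeval (fun o : Option (Fin 3) => o.elim (ev (fermat (2 : Fin 3) q (auxP G)) y b) b) N =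
          (0 : ℝ))
    (ρ : MvPolynomial (Fin 2) ℝ)
    (hρ : ∀ (ζ ω : ℕ → ℝ) (b : ℕ → Fin 2 → ℝ) (b' : Fin 2 → ℝ), Tendsto b atTop (𝓝 b') →
        Tendsto ω atTop (𝓝 0) → (∀ i, ω i ≠ 0) → (∀ i, ζ i ≠ 0) → (∀ i, |ζ i| ≤ |ω i| ^ i) →
        (∀ i, aeval (fun o : Option (Option (Fin 2)) =>
          o.elim (ζ i) (fun o' => o'.elim (ω i) (b i))) (aeval auxSub N) = (0 : ℝ)) →
        aeval b' ρ = (0 : ℝ))
    (R : ℝ) (y₀ : Fin m → ℝ) (hy₀ : ∑ j, y₀ j ^ 2 = R ^ 2)
    (hmin : ∀ y : Fin m → ℝ, ∑ j, y j ^ 2 = R ^ 2 → eval y₀ G ≤ eval y G) :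
    aeval ![eval y₀ G, R] ρ = (0 : ℝ) := by
  -- parameters
  set ω : ℕ → ℝ := fun i => 1 / ((i : ℝ) + 2) with hω
  have hω0 : ∀ i, 0 < ω i := fun i => by simp only [hω]; positivity
  have hω1 : ∀ i, ω i ≤ 1 := fun i => by
    simp only [hω]
    rw [div_le_one (by positivity)]
    have : (0 : ℝ) ≤ i := Nat.cast_nonneg i
    linarith
  have hωlim : Tendsto ω atTop (𝓝 0) := by
    have h := tendsto_one_div_add_atTop_nhds_zero_nat (𝕜 := ℝ)
    refine squeeze_zero (fun i => (hω0 i).le) (fun i => ?_) h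
    simp only [hω]
    apply one_div_le_one_div_of_le <;> [positivity; linarith]
  set ζ : ℕ → ℝ := fun i => ω i ^ (i + 2) with hζ
  have hζ0 : ∀ i, 0 < ζ i := fun i => pow_pos (hω0 i) _
  -- minimisers
  choose y hy using fun i => exists_global_min G hG q hq (ω i) R (ζ i) (hω0 i) (hζ0 i)
  set s : ℕ → ℝ := fun i => ev (fermat (2 : Fin 3) q (auxP G)) (y i) ![ω i, R, ζ i] with hs
  have hsN : ∀ i, aeval (fun o : Option (Fin 3) => o.elim (s i) ![ω i, R, ζ i]) N = (0 : ℝ) :=
    fun i => hN ![ω i, R, ζ i] (by simpa using (hζ0 i).ne') (y i)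
      (fun j => ev_pderiv_eq_zero_of_min _ _ _ (hy i) j)
  set μ := eval y₀ G with hμ
  set v : ℕ → ℝ := fun i => s i / ω i with hv
  -- upper bound
  set K := ∑ j, y₀ j ^ (2 * q) with hK
  have hK0 : 0 ≤ K := Finset.sum_nonneg fun j _ => (even_two_mul q).pow_nonneg _
  have hζω : ∀ i, ζ i / ω i ≤ ω i := by
    intro i
    rw [div_le_iff₀ (hω0 i)]
    simp only [hζ]
    rw [← pow_two]
    exact pow_le_pow_of_le_one (hω0 i).le (hω1 i) (by omega)
  have hup : ∀ i, v i ≤ μ + ω i * K := by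
    intro i
    have h1 := hy i y₀
    rw [ev_fermat_auxP _ _ y₀, hy₀, sub_self] at h1
    have h2 : s i ≤ ω i * μ + ζ i * K := by
      simp only [hs]
      nlinarith
    simp only [hv]
    rw [div_le_iff₀ (hω0 i)]
    have h3 : ζ i ≤ ω i * ω i := by
      have := hζω i
      rwa [div_le_iff₀ (hω0 i)] at this
    nlinarith [mul_le_mul_of_nonneg_right h3 hK0]
  have hpow : ∀ i, 0 ≤ ζ i * ∑ j, y i j ^ (2 * q) := fun i =>
    mul_nonneg (hζ0 i).le (Finset.sum_nonneg fun j _ => (even_two_mul q).pow_nonneg _)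
  have hlow : ∀ i, eval (y i) G ≤ v i := by
    intro i
    simp only [hv, hs]
    rw [le_div_iff₀ (hω0 i), ev_fermat_auxP]
    have := sq_nonneg (∑ j, y i j ^ 2 - R ^ 2)
    have := hpow i
    linarith
  have hdist : ∀ i, (∑ j, y i j ^ 2 - R ^ 2) ^ 2 ≤ ω i * (μ + K) := by
    intro i
    have h1 : s i ≤ ω i * (μ + ω i * K) := by
      have := hup i
      simp only [hv] at this
      rw [div_le_iff₀ (hω0 i)] at this
      linarith
    have h2 : (∑ j, y i j ^ 2 - R ^ 2) ^ 2 ≤ s i := by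
      simp only [hs]
      rw [ev_fermat_auxP]
      have := mul_pos (hω0 i) (hG (y i))
      have := hpow i
      linarith
    refine h2.trans (h1.trans ?_)
    have : ω i * K ≤ 1 * K := mul_le_mul_of_nonneg_right (hω1 i) hK0
    have h4 : μ + ω i * K ≤ μ + K := by linarith
    exact mul_le_mul_of_nonneg_left h4 (hω0 i).le
  have hμpos : 0 < μ := hG y₀
  -- compactness
  have hbdd : ∀ i, y i ∈ Metric.closedBall (0 : Fin m → ℝ) (R ^ 2 + (μ + K) + 2) := by
    intro i
    rw [mem_closedBall_zero_iff, pi_norm_le_iff_of_nonneg (by positivity)]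
    intro j
    have h1 : y i j ^ 2 ≤ ∑ j, y i j ^ 2 :=
      Finset.single_le_sum (f := fun j => y i j ^ 2) (fun _ _ => sq_nonneg _) (Finset.mem_univ j)
    have h2 := hdist i
    have h3 : ω i * (μ + K) ≤ μ + K := by
      have := mul_le_mul_of_nonneg_right (hω1 i) (by positivity : 0 ≤ μ + K)
      linarith
    have h5 : ∑ j, y i j ^ 2 - R ^ 2 ≤ (μ + K) + 1 := by
      by_contra hcon
      push Not at hcon
      nlinarith [hμpos]
    have h6 : y i j ^ 2 ≤ R ^ 2 + (μ + K) + 1 := by linarith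
    rw [Real.norm_eq_abs]
    refine abs_le_of_sq_le_sq ?_ (by positivity)
    have h7 : (0 : ℝ) ≤ R ^ 2 + (μ + K) := by positivity
    nlinarith
  obtain ⟨yl, -, φ, hφ, hφlim⟩ := (isCompact_closedBall _ _).tendsto_subseq hbdd
  have hωφ : Tendsto (fun k => ω (φ k)) atTop (𝓝 0) := hωlim.comp hφ.tendsto_atTop
  have hsum : Continuous fun z : Fin m → ℝ => ∑ j, z j ^ 2 :=
    continuous_finsetSum _ fun j _ => (continuous_apply j).pow 2
  have hyl : ∑ j, yl j ^ 2 = R ^ 2 := by
    have h1 : Tendsto (fun k => (∑ j, y (φ k) j ^ 2 - R ^ 2) ^ 2) atTop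
        (𝓝 ((∑ j, yl j ^ 2 - R ^ 2) ^ 2)) :=
      (((hsum.tendsto yl).comp hφlim).sub_const _).pow 2
    have h2 : Tendsto (fun k => (∑ j, y (φ k) j ^ 2 - R ^ 2) ^ 2) atTop (𝓝 0) := by
      refine squeeze_zero (fun _ => sq_nonneg _) (fun k => hdist (φ k)) ?_
      simpa using hωφ.mul_const (μ + K)
    have h3 := tendsto_nhds_unique h1 h2
    have h4 := pow_eq_zero_iff (two_ne_zero) |>.mp h3
    linarith
  have hGl : Tendsto (fun k => eval (y (φ k)) G) atTop (𝓝 (eval yl G)) :=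
    ((MvPolynomial.continuous_eval G).tendsto yl).comp hφlim
  have hupl : Tendsto (fun k => μ + ω (φ k) * K) atTop (𝓝 μ) := by
    simpa using (hωφ.mul_const K).const_add μ
  have hle : eval yl G ≤ μ :=
    le_of_tendsto_of_tendsto' hGl hupl fun k => (hlow _).trans (hup _)
  have heq : eval yl G = μ := le_antisymm hle (hmin yl hyl)
  rw [heq] at hGl
  have hvlim : Tendsto (fun k => v (φ k)) atTop (𝓝 μ) :=
    tendsto_of_tendsto_of_tendsto_of_le_of_le hGl hupl (fun k => hlow _) (fun k => hup _)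
  -- conclusion
  refine hρ (fun k => ζ (φ k)) (fun k => ω (φ k)) (fun k => ![v (φ k), R]) ![μ, R] ?_ hωφ
    (fun k => (hω0 _).ne') (fun k => (hζ0 _).ne') (fun k => ?_) (fun k => ?_)
  · rw [tendsto_pi_nhds]
    intro i
    fin_cases i
    · exact hvlim
    · exact tendsto_const_nhds
  · rw [abs_of_pos (hζ0 _), abs_of_pos (hω0 _)]
    simp only [hζ]
    exact pow_le_pow_of_le_one (hω0 _).le (hω1 _) (by have := hφ.id_le k; simp at this; omega)
  · rw [aeval_auxSub]
    have h1 : ω (φ k) * v (φ k) = s (φ k) := by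
      simp only [hv]
      rw [mul_div_cancel₀ _ (hω0 _).ne']
    rw [h1]
    exact hsN (φ k)

end Aux

/-- **Effective Lojasiewicz inequality.** -/
theorem lojasiewicz {m : ℕ} (G : MvPolynomial (Fin m) ℝ) (d : ℕ) (hd : G.totalDegree ≤ d)
    (hG : ∀ y, 0 < eval y G) (κ : ℕ) (hκ : lojExp m d ≤ κ) :
    ∃ c : ℝ, 0 < c ∧ ∀ y : Fin m → ℝ, c ≤ eval y G * (1 + ∑ j, y j ^ 2) ^ κ := by
  rcases Nat.eq_zero_or_pos m with rfl | hm
  · refine ⟨eval 0 G, hG 0, fun y => ?_⟩
    rw [Subsingleton.elim y 0]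
    simp
  have : NeZero m := ⟨hm.ne'⟩
  obtain ⟨N, hNdeg, -, hN, hNfin⟩ := elimination (2 : Fin 3) (d + 3) (d + 4) (norm1 (auxP G))
    (auxP G) (totalDegree_auxP_le G d hd) (by omega) le_rfl
  rw [Fintype.card_fin] at hNdeg
  set Q : MvPolynomial (Option (Option (Fin 2))) ℝ := aeval auxSub N with hQ
  have hQ0 : Q ≠ 0 := by
    intro h0
    have hfin := hNfin ![1, 1, 1] (by simp)
    have huniv : {s : ℝ | aeval (fun o : Option (Fin 3) => o.elim s ![1, 1, 1]) N = (0 : ℝ)} =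
        Set.univ := by
      ext s
      simp only [Set.mem_ofPred_eq, Set.mem_univ, iff_true]
      have h1 := aeval_auxSub N 1 1 s 1
      rw [← hQ, h0, map_zero, one_mul] at h1
      exact h1.symm
    rw [huniv] at hfin
    exact Set.infinite_univ hfin
  obtain ⟨ρ, hρ0, hρdeg, -, hρ⟩ := extreme_coeff Q hQ0
  have hQdeg : Q.totalDegree ≤ lojExp m d :=
    (totalDegree_aeval_le auxSub 2 totalDegree_auxSub N).trans
      (Nat.mul_le_mul_left _ hNdeg)
  have hD : ρ.totalDegree ≤ κ := hρdeg.trans (hQdeg.trans hκ)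
  obtain ⟨c, R₀, hc, hlb⟩ := zero_lower_bound ρ hρ0
  set R₁ := max R₀ 1 with hR₁
  -- the ball
  have hsum : Continuous fun z : Fin m → ℝ => ∑ j, z j ^ 2 :=
    continuous_finsetSum _ fun j _ => (continuous_apply j).pow 2
  have hcompact : ∀ R : ℝ, IsCompact {y : Fin m → ℝ | ∑ j, y j ^ 2 ≤ R ^ 2} := by
    intro R
    refine Metric.isCompact_of_isClosed_isBounded (isClosed_le hsum continuous_const) ?_
    refine (Metric.isBounded_closedBall (x := (0 : Fin m → ℝ)) (r := |R|)).subset ?_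
    intro y hy
    rw [mem_closedBall_zero_iff, pi_norm_le_iff_of_nonneg (abs_nonneg _)]
    intro j
    rw [Real.norm_eq_abs]
    apply sq_le_sq.mp
    exact (Finset.single_le_sum (f := fun j => y j ^ 2) (fun _ _ => sq_nonneg _)
      (Finset.mem_univ j)).trans hy
  have hcompact' : ∀ R : ℝ, IsCompact {y : Fin m → ℝ | ∑ j, y j ^ 2 = R ^ 2} := by
    intro R
    refine (hcompact R).of_isClosed_subset (isClosed_eq hsum continuous_const) ?_
    intro y hy
    exact le_of_eq hy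
  obtain ⟨yb, -, hyb⟩ := (hcompact R₁).exists_isMinOn ⟨0, by simp [sq_nonneg]⟩
    (MvPolynomial.continuous_eval G).continuousOn
  refine ⟨min (eval yb G) (min 1 c), lt_min (hG yb) (lt_min one_pos hc), fun y => ?_⟩
  have hGy := hG y
  set r := ∑ j, y j ^ 2 with hr
  have hr0 : 0 ≤ r := Finset.sum_nonneg fun _ _ => sq_nonneg _
  have hone : 1 ≤ (1 + r) ^ κ := one_le_pow₀ (by linarith)
  by_cases hcase : r ≤ R₁ ^ 2
  · refine (min_le_left _ _).trans ?_
    have h1 : eval yb G ≤ eval y G := hyb hcase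
    calc eval yb G ≤ eval y G := h1
      _ ≤ _ := le_mul_of_one_le_right hGy.le hone
  · push Not at hcase
    set R := Real.sqrt r with hRdef
    have hR2 : R ^ 2 = r := Real.sq_sqrt hr0
    have hR1 : R₁ ≤ R := by
      apply Real.le_sqrt_of_sq_le hcase.le
    have hRone : 1 ≤ R := (le_max_right _ _).trans hR1
    -- minimiser on the sphere
    obtain ⟨y₀, hy₀, hy₀min⟩ := (hcompact' R).exists_isMinOn ⟨y, hR2.symm⟩
      (MvPolynomial.continuous_eval G).continuousOn
    have hzero := zero_of_sphere_min G hG (d + 3) (by omega) N hN ρ hρ R y₀ hy₀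
      (fun z hz => hy₀min hz)
    have h1 : eval y₀ G ≤ eval y G := hy₀min hR2.symm
    refine (min_le_right _ _).trans ?_
    by_cases hle : eval y₀ G ≤ 1
    · refine (min_le_right _ _).trans ?_
      have h2 := hlb R ((le_max_left _ _).trans hR1) hRone (eval y₀ G) (hG y₀) hle hzero
      refine h2.trans ?_
      have h3 : R ^ ρ.totalDegree ≤ (1 + r) ^ κ := by
        calc R ^ ρ.totalDegree ≤ R ^ κ := pow_le_pow_right₀ hRone hD
          _ ≤ (1 + r) ^ κ := by
              have : R ≤ 1 + r := by nlinarith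
              gcongr
      have h4 := hG y₀
      gcongr
    · push Not at hle
      refine (min_le_left _ _).trans ?_
      calc (1 : ℝ) ≤ eval y G * 1 := by linarith
        _ ≤ _ := by gcongr

end Pool.Agent.IsoPt
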