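import Pool.Agent.Lib.IsoPt.Poly
import Pool.Agent.Lib.IsoPt.Compact

/-!
# Correctness of the reduction
-/

set_option autoImplicit false

namespace Pool.Agent.IsoPt

open Pool.Agent.PolyTime MvPolynomial

/-- The polynomials bounding the parameters. -/
structure Bds where
  K : Polynomial ℕ
  A1 : Polynomial ℕ
  A2 : Polynomial ℕ
  A4 : Polynomial ℕ
  A5 : Polynomial ℕ
  NB : Polynomial ℕ

/-- The bounds are good. -/
def Bds.Good (B : Bds) : Prop := ∀ n m L : ℕ, n ≤ L → m ≤ L →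
    GoodPar n m L (B.K.eval L) (B.A1.eval L) (B.A2.eval L) (B.A4.eval L) (B.A5.eval L) (B.NB.eval L)

lemma exists_bds : ∃ B : Bds, B.Good := by
  obtain ⟨K, A1, A2, A4, A5, NB, h⟩ := exists_goodPar
  exact ⟨⟨K, A1, A2, A4, A5, NB⟩, h⟩

/-- Length of the chains. -/
noncomputable def Bds.T (B : Bds) : Polynomial ℕ := B.K + 2 + B.A1 + B.A2 + B.A4 + B.A5

/-- number of `y` variables -/
def mOf (m₀ : ℕ) (ψ : Fm Nm) : ℕ := m₀ + (keysOf ψ).length + 1

/-- size parameter -/
def sizeOf' (n m₀ : ℕ) (ψ : Fm Nm) : ℕ := n + mOf m₀ ψ + (gOf m₀ ψ).post.length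

/-- The parameters for a sentence. -/
noncomputable def mkPar (B : Bds) (n m₀ : ℕ) (ψ : Fm Nm) : Par where
  ns := List.range n
  ms := List.range (mOf m₀ ψ)
  cs := List.range (n + 1)
  rs := List.range (2 * (n + 1))
  fs := List.range (numForms n (mOf m₀ ψ))
  bs := List.range (B.NB.eval (sizeOf' n m₀ ψ))
  ts := List.range (B.T.eval (sizeOf' n m₀ ψ))
  m := mOf m₀ ψ
  k := B.K.eval (sizeOf' n m₀ ψ)
  a1 := B.A1.eval (sizeOf' n m₀ ψ)
  a2 := B.A2.eval (sizeOf' n m₀ ψ)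
  a4 := B.A4.eval (sizeOf' n m₀ ψ)
  a5 := B.A5.eval (sizeOf' n m₀ ψ)
  g := gOf m₀ ψ

lemma mkPar_ok (B : Bds) {n m₀ : ℕ} (ψ : Fm (Fin n ⊕ Fin m₀)) :
    (mkPar B n m₀ (ψ.map nmF)).Ok n (mOf m₀ (ψ.map nmF))
      (B.NB.eval (sizeOf' n m₀ (ψ.map nmF))) (B.T.eval (sizeOf' n m₀ (ψ.map nmF))) := by
  have hT : ∀ x, B.T.eval x = B.K.eval x + 2 + B.A1.eval x + B.A2.eval x + B.A4.eval x +
      B.A5.eval x := by
    intro x
    simp [Bds.T]
  constructor
  · rfl
  · rfl
  · rfl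
  · rfl
  · rfl
  · rfl
  · rfl
  · rfl
  · show B.K.eval _ + 2 ≤ _
    rw [hT]; omega
  · show B.A1.eval _ ≤ _
    rw [hT]; omega
  · show B.A2.eval _ ≤ _
    rw [hT]; omega
  · show B.A4.eval _ ≤ _
    rw [hT]; omega
  · show B.A5.eval _ ≤ _
    rw [hT]; omega
  · intro v hv
    have hv' : v ∈ (pN m₀ (keysOf (ψ.map nmF)) (ψ.map nmF)).vars := hv
    rcases vars_pn m₀ _ _ v (Or.inr hv') with h | h | ⟨k, a, b, h, rfl⟩
    · exact Or.inl h
    · rw [vars_map, List.mem_map] at h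
      obtain ⟨i, -, rfl⟩ := h
      rcases i with l | j
      · exact Or.inr (Or.inl ⟨l, l.2, rfl⟩)
      · refine Or.inr (Or.inr ⟨j, ?_, rfl⟩)
        have := j.2
        unfold mOf
        omega
    · refine Or.inr (Or.inr ⟨_, ?_, rfl⟩)
      have := List.idxOf_lt_length_iff.2 h
      unfold mOf
      omega

/-- The sentence is true iff the polynomial is positive for some `x` and all `y`. -/
lemma yes_iff_pos (B : Bds) {n m₀ : ℕ} (ψ : Fm (Fin n ⊕ Fin m₀)) :
    (∃ x : Fin n → ℝ, ∀ y : Fin m₀ → ℝ, ψ.holds (Sum.elim x y)) ↔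
      ∃ x : Fin n → ℝ, ∀ y : Fin (mOf m₀ (ψ.map nmF)) → ℝ,
        0 < ev ((mkPar B n m₀ (ψ.map nmF)).g.eval (uZ n (mOf m₀ (ψ.map nmF)))) x y := by
  set m := mOf m₀ (ψ.map nmF) with hm
  set p := mkPar B n m₀ (ψ.map nmF) with hp
  have hok := mkPar_ok B ψ
  rw [← hp, ← hm] at hok
  let w : (Fin n → ℝ) → (ℕ → ℝ) → Nm → ℝ := fun x y nm => match nm with
    | [0, l] => if h : l < n then x ⟨l, h⟩ else 0
    | [1, j] => y j
    | [4] => -1
    | _ => 0
  have hw : ∀ (x : Fin n → ℝ) (y : ℕ → ℝ), p.g.eval (w x y) =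
      ev (p.g.eval (uZ n m)) x (fun j : Fin m => y j) := by
    intro x y
    have h1 := Tm.eval_hom (aeval (R := ℤ) (Sum.elim x fun j : Fin m => y j)).toRingHom (uZ n m) p.g
    have h3 : ev (p.g.eval (uZ n m)) x (fun j : Fin m => y j) =
      (aeval (R := ℤ) (Sum.elim x fun j : Fin m => y j)).toRingHom (p.g.eval (uZ n m)) := rfl
    rw [h3, h1]
    refine Tm.eval_congr fun v hv => ?_
    rcases hok.hg v hv with rfl | ⟨l, hl, rfl⟩ | ⟨j, hj, rfl⟩
    · simp [uZ, w]
    · simp [uZ, w, hl]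
    · simp [uZ, w, hj]
  have key : ∀ x : Fin n → ℝ, (∀ y : Fin m₀ → ℝ, ψ.holds (Sum.elim x y)) ↔
      ∀ y : Fin m → ℝ, 0 < ev (p.g.eval (uZ n m)) x y := by
    intro x
    rw [normal_form ψ w (fun _ _ => rfl) (fun x y l => by simp [w]) (fun _ _ _ => rfl) x]
    constructor
    · intro h y
      have h1 := h (fun j => if hj : j < m then y ⟨j, hj⟩ else 0)
      have h2 := hw x (fun j => if hj : j < m then y ⟨j, hj⟩ else 0)
      have h3 : (fun j : Fin m => if hj : (j : ℕ) < m then y ⟨j, hj⟩ else 0) = y := by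
        funext j; simp
      rw [h3] at h2
      rw [← h2]
      exact h1
    · intro h y
      have h2 := hw x y
      have h1 := h fun j : Fin m => y j
      rw [← h2] at h1
      exact h1
  exact exists_congr key

/-- Values of the perturbation parameters given by bits. -/
lemma thetaOf_bounds {n m nb : ℕ} (β : Nm → ℝ) (h0 : ∀ nm, 0 ≤ β nm) (h1 : ∀ nm, β nm ≤ 1)
    (i : PIdx n m) : 0 ≤ thetaOf n m nb β i ∧ thetaOf n m nb β i ≤ 2 ^ nb := by
  have key : ∀ f : ℕ → Nm, 0 ≤ ∑ b : Fin nb, (2 : ℝ) ^ (b : ℕ) * β (f b) ∧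
      ∑ b : Fin nb, (2 : ℝ) ^ (b : ℕ) * β (f b) ≤ 2 ^ nb := by
    intro f
    refine ⟨Finset.sum_nonneg fun b _ => mul_nonneg (by positivity) (h0 _), ?_⟩
    calc ∑ b : Fin nb, (2 : ℝ) ^ (b : ℕ) * β (f b) ≤ ∑ b : Fin nb, (2 : ℝ) ^ (b : ℕ) := by
          refine Finset.sum_le_sum fun b _ => ?_
          exact mul_le_of_le_one_right (by positivity) (h1 _)
      _ = ∑ b ∈ Finset.range nb, (2 : ℝ) ^ b := by
          rw [Fin.sum_univ_eq_sum_range fun b => (2 : ℝ) ^ b]
      _ = 2 ^ nb - 1 := by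
          rw [geom_sum_eq (by norm_num)]
          norm_num
      _ ≤ 2 ^ nb := by linarith
  rcases i with ⟨N, r, _ | j⟩ | l
  · exact key fun b => [2, 0, N, r, m, b]
  · exact key fun b => [2, 0, N, r, j, b]
  · exact key fun b => [2, 1, l, b]

/-- Bits for given values of the perturbation parameters. -/
lemma exists_bits {p : Par} {n m nb T : ℕ} (hp : p.Ok n m nb T) (θ : PIdx n m → ℕ)
    (hθ : ∀ i, θ i < 2 ^ nb) :
    ∃ β : Nm → ℝ, (∀ nm ∈ bitNames p, β nm * β nm = β nm) ∧ (∀ nm, nm ∉ bitNames p → β nm = 0) ∧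
      thetaOf n m nb β = fun i => (θ i : ℝ) := by
  classical
  let tN : ℕ → ℕ → ℕ → ℕ := fun N r j => if h : N < numForms n m ∧ r < 2 * (n + 1) then
    θ (Sum.inl (⟨N, h.1⟩, ⟨r, h.2⟩, if hj : j < m then some ⟨j, hj⟩ else none)) else 0
  let tl : ℕ → ℕ := fun l => if h : l < n then θ (Sum.inr ⟨l, h⟩) else 0
  let β0 : Nm → ℝ := fun nm => match nm with
    | [2, 0, N, r, j, b] => (((tN N r j).testBit b).toNat : ℝ)
    | [2, 1, l, b] => (((tl l).testBit b).toNat : ℝ)
    | _ => 0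
  have hβ0 : ∀ nm, β0 nm * β0 nm = β0 nm := by
    intro nm
    simp only [β0]
    split
    · rename_i N r j b
      cases (tN N r j).testBit b <;> simp
    · rename_i l b
      cases (tl l).testBit b <;> simp
    · simp
  refine ⟨fun nm => if nm ∈ bitNames p then β0 nm else 0, fun nm hnm => by
    simp only [if_pos hnm]; exact hβ0 nm, fun nm hnm => by simp only [if_neg hnm], ?_⟩
  have key0 : ∀ (N : Fin (numForms n m)) (r : Fin (2 * (n + 1))) (j : ℕ), j = m ∨ j < m →
      ∑ b : Fin nb, (2 : ℝ) ^ (b : ℕ) *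
        (if [2, 0, (N : ℕ), (r : ℕ), j, (b : ℕ)] ∈ bitNames p then
          β0 [2, 0, (N : ℕ), (r : ℕ), j, (b : ℕ)] else 0) = tN N r j := by
    intro N r j hj
    have h1 : ∀ b : Fin nb, [2, 0, (N : ℕ), (r : ℕ), j, (b : ℕ)] ∈ bitNames p := by
      intro b
      refine mem_bit0 ?_ ?_ ?_ ?_
      · rw [hp.hfs]; exact List.mem_range.2 N.2
      · rw [hp.hrs]; exact List.mem_range.2 r.2
      · rw [hp.hm, hp.hms, List.mem_range]; exact hj
      · rw [hp.hbs]; exact List.mem_range.2 b.2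
    simp only [h1, if_true, β0]
    have h2 : tN N r j < 2 ^ nb := by
      simp only [tN]
      split_ifs
      · exact hθ _
      · exact hθ _
      · positivity
    have h3 := sum_testBit nb _ h2
    exact_mod_cast h3
  have key1 : ∀ (l : Fin n), ∑ b : Fin nb, (2 : ℝ) ^ (b : ℕ) *
        (if [2, 1, (l : ℕ), (b : ℕ)] ∈ bitNames p then β0 [2, 1, (l : ℕ), (b : ℕ)] else 0) =
        tl l := by
    intro l
    have h1 : ∀ b : Fin nb, [2, 1, (l : ℕ), (b : ℕ)] ∈ bitNames p := by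
      intro b
      refine mem_bit1 ?_ ?_
      · rw [hp.hns]; exact List.mem_range.2 l.2
      · rw [hp.hbs]; exact List.mem_range.2 b.2
    simp only [h1, if_true, β0]
    have h2 : tl l < 2 ^ nb := by
      simp only [tl]
      split_ifs
      · exact hθ _
      · positivity
    have h3 := sum_testBit nb _ h2
    exact_mod_cast h3
  funext i
  rcases i with ⟨N, r, _ | j⟩ | l
  · show ∑ b : Fin nb, _ = _
    rw [key0 N r m (Or.inl rfl)]
    simp [tN]
  · show ∑ b : Fin nb, _ = _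
    rw [key0 N r j (Or.inr j.2)]
    simp [tN]
  · show ∑ b : Fin nb, _ = _
    rw [key1 l]
    simp [tl]

/-- **Correctness of the reduction.** -/
theorem reduce_correct {B : Bds} (hB : B.Good) {n m₀ : ℕ} (ψ : Fm (Fin n ⊕ Fin m₀)) :
    (compact (Phi (mkPar B n m₀ (ψ.map nmF)))).yes ↔
      ∃ x : Fin n → ℝ, ∀ y : Fin m₀ → ℝ, ψ.holds (Sum.elim x y) := by
  rw [yes_iff_pos B ψ, compact_yes _ (List.ne_nil_of_mem mem_nT)]
  have hp := mkPar_ok B ψ
  set m := mOf m₀ (ψ.map nmF) with hm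
  set L := sizeOf' n m₀ (ψ.map nmF) with hL
  set p := mkPar B n m₀ (ψ.map nmF) with hpdef
  have hnL : n ≤ L := by rw [hL, sizeOf']; omega
  have hmL : m ≤ L := by rw [hL, sizeOf', ← hm]; omega
  have hgL : p.g.post.length ≤ L := by
    rw [hL, sizeOf']
    show (gOf m₀ (ψ.map nmF)).post.length ≤ _
    omega
  have hgood := hB n m L hnL hmL
  have hsetup : ∀ β : Nm → ℝ, (∀ nm, 0 ≤ β nm) → (∀ nm, β nm ≤ 1) →
      Setup n m L p.k p.a1 p.a2 p.a4 p.a5 (B.NB.eval L) (p.g.eval (uZ n m))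
        (pol n m β (fT p)) (thetaOf n m (B.NB.eval L) β) := by
    intro β h0 h1
    refine ⟨hnL, hgood, ?_, (totalDegree_uZ hp).trans hgL, ?_,
      fun i => (thetaOf_bounds β h0 h1 i).1, fun i => (thetaOf_bounds β h0 h1 i).2, ?_⟩
    · intro x y
      have h1 := Tm.eval_hom (aeval (R := ℤ) (Sum.elim x y)).toRingHom (uZ n m) p.g
      have h3 : ev (p.g.eval (uZ n m)) x y =
        (aeval (R := ℤ) (Sum.elim x y)).toRingHom (p.g.eval (uZ n m)) := rfl
      rw [h3, h1]
      exact (pn_nonneg m₀ (keysOf (ψ.map nmF)) (ψ.map nmF)).2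
    · refine (norm1_uZ hp).trans (pow_le_pow_right₀ one_le_two hgL)
    · intro x y
      rw [ev_fT hp, ev_uZ hp]
  constructor
  · rintro ⟨ρ, hρ⟩
    obtain ⟨β, hβ, x, hx⟩ := iso_of hp hρ
    -- modify `β` outside of the bits
    by_contra hneg
    let β' : Nm → ℝ := fun nm => if nm ∈ bitNames p then β nm else 0
    have hβ' : ∀ nm, 0 ≤ β' nm ∧ β' nm ≤ 1 := by
      intro nm
      simp only [β']
      split_ifs with h
      · have h1 := hβ nm h
        have h2 : β nm * (β nm - 1) = 0 := by linarith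
        rcases mul_eq_zero.1 h2 with h3 | h3
        · rw [h3]; norm_num
        · have : β nm = 1 := by linarith
          rw [this]; norm_num
      · norm_num
    have hth : thetaOf n m (B.NB.eval L) β' = thetaOf n m (B.NB.eval L) β := by
      funext i
      rcases i with ⟨N, r, _ | j⟩ | l
      · refine Finset.sum_congr rfl fun b _ => ?_
        have : [2, 0, (N : ℕ), (r : ℕ), m, (b : ℕ)] ∈ bitNames p := by
          refine mem_bit0 ?_ ?_ ?_ ?_
          · rw [hp.hfs]; exact List.mem_range.2 N.2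
          · rw [hp.hrs]; exact List.mem_range.2 r.2
          · exact Or.inl hp.hm.symm
          · rw [hp.hbs]; exact List.mem_range.2 b.2
        simp only [β', if_pos this]
      · refine Finset.sum_congr rfl fun b _ => ?_
        have : [2, 0, (N : ℕ), (r : ℕ), (j : ℕ), (b : ℕ)] ∈ bitNames p := by
          refine mem_bit0 ?_ ?_ ?_ ?_
          · rw [hp.hfs]; exact List.mem_range.2 N.2
          · rw [hp.hrs]; exact List.mem_range.2 r.2
          · rw [hp.hms, List.mem_range]; exact Or.inr j.2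
          · rw [hp.hbs]; exact List.mem_range.2 b.2
        simp only [β', if_pos this]
      · refine Finset.sum_congr rfl fun b _ => ?_
        have : [2, 1, (l : ℕ), (b : ℕ)] ∈ bitNames p := by
          refine mem_bit1 ?_ ?_
          · rw [hp.hns]; exact List.mem_range.2 l.2
          · rw [hp.hbs]; exact List.mem_range.2 b.2
        simp only [β', if_pos this]
    have hpol : pol n m β' (fT p) = pol n m β (fT p) := by
      rw [pol_fT hp, pol_fT hp, hth]
    obtain ⟨y, hy⟩ := (hsetup β' (fun nm => (hβ' nm).1) fun nm => (hβ' nm).2).neg hneg x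
    rw [hpol] at hy
    exact absurd (hx y) (not_lt.2 hy.le)
  · intro hpos
    have hm0 : 0 < m := by rw [hm, mOf]; omega
    have hη : ((1 / 2 : ℝ) ^ (2 ^ p.a5)) ≠ 0 := by positivity
    obtain ⟨θ, hθ, hfin⟩ := exists_finite hm0 (2 ^ (p.k + 3)) (f0 p n m)
      (totalDegree_f0 hp hgL hgood.hL) _ hη (2 ^ (B.NB.eval L) - 1) (by
        have h : gridSize n m (2 ^ (p.k + 3)) + 1 ≤ 2 ^ B.NB.eval L := hgood.hgrid
        omega)
    obtain ⟨β, hβ1, hβ2, hβ3⟩ := exists_bits hp θ (fun i => by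
      have := hθ i
      have : 0 < 2 ^ B.NB.eval L := by positivity
      omega)
    have hpol : pol n m β (fT p) =
        f0 p n m + C ((1 / 2 : ℝ) ^ (2 ^ p.a5)) * pert n m (fun i => (θ i : ℝ)) := by
      rw [pol_fT hp, hβ3]
    rw [← hpol] at hfin
    have hβ' : ∀ nm, 0 ≤ β nm ∧ β nm ≤ 1 := by
      intro nm
      by_cases h : nm ∈ bitNames p
      · have h1 := hβ1 nm h
        have h2 : β nm * (β nm - 1) = 0 := by linarith
        rcases mul_eq_zero.1 h2 with h3 | h3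
        · rw [h3]; norm_num
        · have : β nm = 1 := by linarith
          rw [this]; norm_num
      · rw [hβ2 nm h]; norm_num
    have S := hsetup β (fun nm => (hβ' nm).1) fun nm => (hβ' nm).2
    obtain ⟨x, y, lam, v, hL, hpos'⟩ := exists_lagSol (pol n m β (fT p)) S.coercY S.coercX
      (S.pos hpos)
    exact iso_to hp β hβ1 hβ2 hfin x y lam v hL hpos'

end Pool.Agent.IsoPt
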