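import Pool.Agent.Lib.IsoPt.BuildPT
import Pool.Agent.Lib.IsoPt.Reduce

/-!
# The reduction is computable in polynomial time
-/

set_option autoImplicit false

namespace Pool.Agent.IsoPt

open Pool.Agent.PolyTime

/-- Encoding of sentences: the numbers of variables in unary, the formula in reverse Polish. -/
instance : Enc Sent := ⟨fun s => enc (List.replicate s.k (), List.replicate s.m (),
  s.ψ.map (Sum.map Fin.val Fin.val))⟩

/-- Encoding of instances: the number of variables in unary, the formula in reverse Polish. -/
instance : Enc Inst := ⟨fun I => enc (List.replicate I.N (), I.φ.map Fin.val)⟩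

section

variable {α : Type} [Enc α]

/-- for a fixed polynomial, a list of the corresponding length (as in `CookLevin`) -/
lemma exists_unary {β : Type} [Enc β] (p : Polynomial ℕ) : ∃ f : List β → List Unit, PT f ∧
    ∀ l, (f l).length = p.eval l.length := by
  induction p using Polynomial.induction_on' with
  | add p q hp hq =>
    obtain ⟨f, hf, hf'⟩ := hp
    obtain ⟨g, hg, hg'⟩ := hq
    refine ⟨fun l => f l ++ g l, by fun_prop, fun l => ?_⟩
    rw [List.length_append, hf', hg', Polynomial.eval_add]
  | monomial n a =>
    induction n with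
    | zero =>
      refine ⟨fun _ => List.replicate a (), PT.const _, fun l => ?_⟩
      rw [List.length_replicate, Polynomial.eval_monomial, pow_zero, mul_one]
    | succ n ih =>
      obtain ⟨f, hf, hf'⟩ := ih
      refine ⟨fun l => l.flatMap fun _ => f l,
        PT.flatMap (f := fun l _ => f l) (by fun_prop) (by fun_prop), fun l => ?_⟩
      rw [List.length_flatMap, List.map_const', List.sum_replicate, hf', smul_eq_mul,
        Polynomial.eval_monomial, Polynomial.eval_monomial]
      ring

lemma PT.polyRange {β : Type} [Enc β] (p : Polynomial ℕ) {l : α → List β} (hl : PT l) :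
    PT fun a => List.range (p.eval (l a).length) := by
  obtain ⟨f, hf, hf'⟩ := exists_unary (β := β) p
  have : PT fun a => List.range (f (l a)).length := by fun_prop
  refine this.congr fun a => ?_
  rw [hf']

lemma PT.polyEval {β : Type} [Enc β] (p : Polynomial ℕ) {l : α → List β} (hl : PT l) :
    PT fun a => p.eval (l a).length := by
  obtain ⟨f, hf, hf'⟩ := exists_unary (β := β) p
  have : PT fun a => (f (l a)).length := by fun_prop
  exact this.congr fun a => hf' _

@[fun_prop] lemma PT.sentk {f : α → Sent} (hf : PT f) : PT fun a => List.replicate (f a).k () := by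
  have h : PT fun a => (List.replicate (f a).k (), List.replicate (f a).m (),
    (f a).ψ.map (Sum.map Fin.val Fin.val)) := hf
  exact PT.fst h
@[fun_prop] lemma PT.sentm {f : α → Sent} (hf : PT f) : PT fun a => List.replicate (f a).m () := by
  have h : PT fun a => (List.replicate (f a).k (), List.replicate (f a).m (),
    (f a).ψ.map (Sum.map Fin.val Fin.val)) := hf
  exact PT.fst (PT.snd h)
@[fun_prop] lemma PT.sentψ {f : α → Sent} (hf : PT f) :
    PT fun a => (f a).ψ.map (Sum.map Fin.val Fin.val) := by
  have h : PT fun a => (List.replicate (f a).k (), List.replicate (f a).m (),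
    (f a).ψ.map (Sum.map Fin.val Fin.val)) := hf
  exact PT.snd (PT.snd h)

/-- Names of natural number variables. -/
def nmN : ℕ ⊕ ℕ → Nm
  | Sum.inl l => [0, l]
  | Sum.inr j => [1, j]

lemma map_map_fm {U V W : Type} (f : U → V) (g : V → W) (φ : Fm U) :
    (φ.map f).map g = φ.map fun i => g (f i) := by
  have ht : ∀ t : Tm U, (t.map f).map g = t.map fun i => g (f i) := by
    intro t
    induction t with
    | var v => rfl
    | zero => rfl
    | one => rfl
    | add a b iha ihb => simp [Tm.map, iha, ihb]
    | mul a b iha ihb => simp [Tm.map, iha, ihb]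
  induction φ with
  | eq s t => simp [Fm.map, ht]
  | lt s t => simp [Fm.map, ht]
  | not φ ih => simp [Fm.map, ih]
  | and φ ψ ih1 ih2 => simp [Fm.map, ih1, ih2]
  | or φ ψ ih1 ih2 => simp [Fm.map, ih1, ih2]

lemma PT.nmN : PT nmN := by
  refine PT.congr (PT.sumCases (o := fun p : ℕ ⊕ ℕ => p) (f := fun _ l => ([0, l] : Nm))
    (g := fun _ j => ([1, j] : Nm)) (by fun_prop) (by fun_prop) (by fun_prop)) fun p => ?_
  rcases p with l | j <;> rfl

@[fun_prop] lemma PT.sentNm {f : α → Sent} (hf : PT f) :
    PT fun a => (f a).ψ.map (Pool.Agent.IsoPt.nmF) := by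
  have h : PT fun a => ((f a).ψ.map (Sum.map Fin.val Fin.val)).map
      IsoPt.nmN := PT.fmMap (f := fun _ i => IsoPt.nmN i) (PT.nmN.comp (by fun_prop)) (by fun_prop)
  refine h.congr fun a => ?_
  rw [map_map_fm]
  congr 1
  funext i
  rcases i with l | j <;> rfl

/-- The reduction. -/
noncomputable def red (B : Bds) (s : Sent) : Inst := compact (Phi (mkPar B s.k s.m (s.ψ.map nmF)))

/-- list of length `numForms` -/
def nfL (a b : List Unit) : List Unit :=
  (b.flatMap fun _ => (a ++ [()]).flatMap fun _ => a ++ [()]) ++ [()]

lemma length_nfL (a b : List Unit) : (nfL a b).length = numForms a.length b.length := by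
  have : ∀ (l l' : List Unit), (l.flatMap fun _ => l').length = l.length * l'.length := by
    intro l l'
    rw [List.length_flatMap, List.map_const', List.sum_replicate, smul_eq_mul]
  rw [nfL, List.length_append, this, this, numForms, List.length_append, List.length_singleton]
  ring

/-- list of length `mOf` -/
def mL (a : List Unit) (ψ : Fm Nm) : List Unit := a ++ ((keysOf ψ).map fun _ => ()) ++ [()]

lemma length_mL (m₀ : ℕ) (ψ : Fm Nm) : (mL (List.replicate m₀ ()) ψ).length = mOf m₀ ψ := by
  simp [mL, mOf]

@[fun_prop] lemma PT.mL {a : α → List Unit} {ψ : α → Fm Nm} (ha : PT a) (hψ : PT ψ) :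
    PT fun x => mL (a x) (ψ x) := by
  unfold IsoPt.mL
  have h : PT fun x => (IsoPt.keysOf (ψ x)).map fun _ => () :=
    PT.map (f := fun _ _ => ()) (by fun_prop) (by fun_prop)
  fun_prop

/-- list of length `sizeOf'` -/
noncomputable def szL (s : Sent) : List Unit :=
  List.replicate s.k () ++ mL (List.replicate s.m ()) (s.ψ.map nmF) ++
    (gOf s.m (s.ψ.map nmF)).post.map fun _ => ()

lemma length_szL (s : Sent) : (szL s).length = sizeOf' s.k s.m (s.ψ.map nmF) := by
  rw [szL, List.length_append, List.length_append, length_mL, List.length_replicate,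
    List.length_map, sizeOf']

@[fun_prop] lemma PT.sentmN {f : α → Sent} (hf : PT f) : PT fun a => (f a).m := by
  have h : PT fun a => (List.replicate (f a).m ()).length := by fun_prop
  exact h.congr fun a => by rw [List.length_replicate]

@[fun_prop] lemma PT.gOf' {f : α → Sent} (hf : PT f) :
    PT fun a => IsoPt.gOf (f a).m ((f a).ψ.map nmF) := PT.gOf (by fun_prop) (by fun_prop)

@[fun_prop] lemma PT.szL {f : α → Sent} (hf : PT f) : PT fun a => szL (f a) := by
  unfold IsoPt.szL
  have h : PT fun a => (IsoPt.gOf (f a).m ((f a).ψ.map nmF)).post.map fun _ => () :=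
    PT.map (f := fun _ _ => ()) (by fun_prop) (by fun_prop)
  fun_prop

lemma PT.mkPar (B : Bds) : PT fun s : Sent => mkPar B s.k s.m (s.ψ.map nmF) := by
  have hn : PT fun s : Sent => List.range s.k := by
    have h : PT fun s : Sent => List.range (List.replicate s.k ()).length := by fun_prop
    exact h.congr fun s => by rw [List.length_replicate]
  have hm : PT fun s : Sent => List.range (mOf s.m (s.ψ.map nmF)) := by
    have h : PT fun s : Sent =>
      List.range (IsoPt.mL (List.replicate s.m ()) (s.ψ.map nmF)).length := by fun_prop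
    exact h.congr fun s => by rw [length_mL]
  have hmn : PT fun s : Sent => mOf s.m (s.ψ.map nmF) := by
    have h : PT fun s : Sent =>
      (IsoPt.mL (List.replicate s.m ()) (s.ψ.map nmF)).length := by fun_prop
    exact h.congr fun s => by rw [length_mL]
  have hc : PT fun s : Sent => List.range (s.k + 1) := by
    have h : PT fun s : Sent => List.range (List.replicate s.k () ++ [()]).length := by fun_prop
    exact h.congr fun s => by simp
  have hr : PT fun s : Sent => List.range (2 * (s.k + 1)) := by
    have h : PT fun s : Sent => List.range ((List.replicate s.k () ++ [()]) ++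
      (List.replicate s.k () ++ [()])).length := by fun_prop
    refine h.congr fun s => ?_
    simp only [List.length_append, List.length_replicate, List.length_singleton]
    rw [two_mul]
  have hf : PT fun s : Sent => List.range (numForms s.k (mOf s.m (s.ψ.map nmF))) := by
    have h1 : PT fun s : Sent => nfL (List.replicate s.k ())
        (IsoPt.mL (List.replicate s.m ()) (s.ψ.map nmF)) := by
      unfold nfL
      have h2 : PT fun s : Sent => (List.replicate s.k () ++ [()]).flatMap fun _ =>
          List.replicate s.k () ++ [()] :=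
        PT.flatMap (f := fun (s : Sent) _ => List.replicate s.k () ++ [()]) (by fun_prop)
          (by fun_prop)
      have h3 : PT fun s : Sent => (IsoPt.mL (List.replicate s.m ()) (s.ψ.map nmF)).flatMap
          fun _ => (List.replicate s.k () ++ [()]).flatMap fun _ =>
          List.replicate s.k () ++ [()] :=
        PT.flatMap (f := fun (s : Sent) _ => (List.replicate s.k () ++ [()]).flatMap fun _ =>
          List.replicate s.k () ++ [()]) (h2.comp PT.fst') (by fun_prop)
      fun_prop
    have h : PT fun s : Sent => List.range (nfL (List.replicate s.k ())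
      (IsoPt.mL (List.replicate s.m ()) (s.ψ.map nmF))).length := by fun_prop
    refine h.congr fun s => ?_
    rw [length_nfL, length_mL, List.length_replicate]
  have hpr : ∀ p : Polynomial ℕ, PT fun s : Sent =>
      List.range (p.eval (sizeOf' s.k s.m (s.ψ.map nmF))) := by
    intro p
    have h := PT.polyRange p (l := fun s : Sent => IsoPt.szL s) (by fun_prop)
    exact h.congr fun s => by rw [length_szL]
  have hpe : ∀ p : Polynomial ℕ, PT fun s : Sent =>
      p.eval (sizeOf' s.k s.m (s.ψ.map nmF)) := by
    intro p
    have h := PT.polyEval p (l := fun s : Sent => IsoPt.szL s) (by fun_prop)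
    exact h.congr fun s => by rw [length_szL]
  have hnb := hpr B.NB
  have ht := hpr B.T
  have hk := hpe B.K
  have h1 := hpe B.A1
  have h2 := hpe B.A2
  have h4 := hpe B.A4
  have h5 := hpe B.A5
  have hg : PT fun s : Sent => IsoPt.gOf s.m (s.ψ.map nmF) := by fun_prop
  have h : PT fun s : Sent => (IsoPt.mkPar B s.k s.m (s.ψ.map nmF)).tup :=
    ((hn.pair (hm.pair (hc.pair hr))).pair ((hf.pair (hnb.pair ht)).pair
      ((hmn.pair (hk.pair h1)).pair ((h2.pair (h4.pair h5)).pair hg))))
  exact h

/-- compaction is computable in polynomial time -/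
lemma PT.compact {V : Type} [Enc V] [EncInj V] [DecidableEq V] {Φ : α → Fm V} (hΦ : PT Φ) :
    PT fun a => compact (Φ a) := by
  have hd : PT fun a => (Φ a).vars.dedup := PT.dedup (by fun_prop)
  have h1 : PT fun a => ((Φ a).vars.dedup.tail.map fun _ => ()) ++ [()] := by
    have : PT fun a => (Φ a).vars.dedup.tail.map fun _ => () :=
      PT.map (f := fun _ _ => ()) (by fun_prop) (by fun_prop)
    fun_prop
  have h2 : PT fun a => (Φ a).map fun v =>
      (Φ a).vars.dedup.idxOf v % ((Φ a).vars.dedup.length - 1 + 1) := by
    refine PT.fmMap (f := fun a v => (Φ a).vars.dedup.idxOf v %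
      ((Φ a).vars.dedup.length - 1 + 1)) (PT.mod ?_ ?_) hΦ
    · exact PT.idxOf (by fun_prop) (hd.comp PT.fst')
    · have := hd.comp (f := fun p : α × V => p.1) (by fun_prop)
      fun_prop
  have h3 : PT fun a => (((Φ a).vars.dedup.tail.map fun _ => ()) ++ [()],
      (Φ a).map fun v => (Φ a).vars.dedup.idxOf v % ((Φ a).vars.dedup.length - 1 + 1)) :=
    h1.pair h2
  refine FP.congr h3 fun a => ?_
  show enc _ = enc _
  congr 1
  have e1 : ((Φ a).vars.dedup.tail.map fun _ => ()) ++ [()] =
      List.replicate (IsoPt.compact (Φ a)).N () := by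
    rw [List.eq_replicate_iff]
    refine ⟨?_, fun b _ => rfl⟩
    simp [IsoPt.compact]
  have e2 : ((Φ a).map fun v => (Φ a).vars.dedup.idxOf v % ((Φ a).vars.dedup.length - 1 + 1)) =
      (IsoPt.compact (Φ a)).φ.map Fin.val := by
    rw [IsoPt.compact, map_map_fm]
    rfl
  exact Prod.ext e1 e2

/-- **The reduction is computable in polynomial time.** -/
theorem PT.red (B : Bds) : PT (red B) := by
  unfold IsoPt.red
  exact PT.compact (PT.Phi (PT.mkPar B))

end

end Pool.Agent.IsoPt
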