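import Pool.Agent.Lib.IsoPt.MainPT

/-!
# Membership: the isolated point problem reduces to the truth of sentences
-/

set_option autoImplicit false

namespace Pool.Agent.IsoPt

open Pool.Agent.PolyTime

/-- Variables of the sentence. -/
def mx {N : ℕ} (i : Fin N) : Tm (Fin (N + 1) ⊕ Fin N) := .var (Sum.inl i.castSucc)
def my {N : ℕ} (i : Fin N) : Tm (Fin (N + 1) ⊕ Fin N) := .var (Sum.inr i)
def me (N : ℕ) : Tm (Fin (N + 1) ⊕ Fin N) := .var (Sum.inl (Fin.last N))

/-- The sentence expressing that there is an isolated point. -/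
def memb (I : Inst) : Sent where
  k := I.N + 1
  m := I.N
  ψ := .and (I.φ.map fun i => Sum.inl i.castSucc) (.and (.lt .zero (me I.N))
    (.or (.not (.lt (sumT ((List.finRange I.N).map fun i =>
        .add (.mul (my i) (my i)) (.mul (mx i) (mx i))))
      (.add (.mul (me I.N) (me I.N)) (sumT ((List.finRange I.N).map fun i =>
        .add (.mul (mx i) (my i)) (.mul (mx i) (my i)))))))
    (.or (conj ((List.finRange I.N).map fun i => .eq (my i) (mx i)))
      (.not (I.φ.map Sum.inr)))))

theorem memb_correct (I : Inst) : (memb I).yes ↔ I.yes := by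
  have hfin : ∀ (f : Fin I.N → ℝ), ((List.finRange I.N).map f).sum = ∑ i, f i := by
    intro f
    rw [← List.ofFn_eq_map, List.sum_ofFn]
  have key : ∀ (x : Fin I.N → ℝ) (ε : ℝ) (y : Fin I.N → ℝ) (X : Fin (I.N + 1) → ℝ),
      (∀ i : Fin I.N, X i.castSucc = x i) → X (Fin.last I.N) = ε →
      ((memb I).ψ.holds (Sum.elim X y) ↔ (I.φ.holds x ∧ 0 < ε ∧
        (∑ i, (y i - x i) ^ 2 < ε ^ 2 → I.φ.holds y → y = x))) := by
    intro x ε y X hX hε
    simp only [memb, Fm.holds, Fm.holds_map, Tm.eval, eval_sumT, List.map_map, Function.comp_def,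
      mx, my, me, Sum.elim_inl, Sum.elim_inr, hX, hε, holds_conj, List.forall_mem_map, hfin,
      List.mem_finRange, forall_true_left]
    have h1 : (∑ i, (y i * y i + x i * x i) < ε * ε + ∑ i, (x i * y i + x i * y i)) ↔
        ∑ i, (y i - x i) ^ 2 < ε ^ 2 := by
      have h2 : ∑ i, (y i - x i) ^ 2 = ∑ i, (y i * y i + x i * x i) -
          ∑ i, (x i * y i + x i * y i) := by
        rw [← Finset.sum_sub_distrib]
        exact Finset.sum_congr rfl fun i _ => by ring
      rw [h2, sq]
      constructor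
      · intro h; linarith
      · intro h; linarith
    rw [h1]
    refine and_congr_right fun _ => and_congr_right fun _ => ?_
    rw [funext_iff]
    tauto
  have hdist : ∀ (y x : EuclideanSpace ℝ (Fin I.N)) (ε : ℝ), 0 < ε →
      (dist y x < ε ↔ ∑ i, (y i - x i) ^ 2 < ε ^ 2) := by
    intro y x ε hε
    rw [EuclideanSpace.dist_eq, Real.sqrt_lt' hε]
    simp only [Real.dist_eq, sq_abs]
  constructor
  · rintro ⟨X, hX⟩
    have h0 := (key (fun i => X i.castSucc) (X (Fin.last I.N)) (fun i => X i.castSucc) X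
      (fun _ => rfl) rfl).1 (hX _)
    refine ⟨WithLp.toLp 2 fun i => X i.castSucc, h0.1, X (Fin.last I.N), h0.2.1, ?_⟩
    apply Set.eq_singleton_iff_unique_mem.2
    refine ⟨⟨Metric.mem_ball_self h0.2.1, h0.1⟩, ?_⟩
    rintro y ⟨hy, hyS⟩
    have h1 := (key (fun i => X i.castSucc) (X (Fin.last I.N)) (fun i => y i) X
      (fun _ => rfl) rfl).1 (hX _)
    have h2 := h1.2.2 ((hdist y (WithLp.toLp 2 fun i => X i.castSucc) _ h0.2.1).1 hy) hyS
    ext i
    exact congrFun h2 i
  · rintro ⟨x, hx, ε, hε, hball⟩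
    refine ⟨Fin.snoc (α := fun _ => ℝ) (fun i => x i) ε, fun y => ?_⟩
    refine (key (fun i => x i) ε y _ (fun i => Fin.snoc_castSucc (α := fun _ => ℝ) _ _ i)
      (Fin.snoc_last (α := fun _ => ℝ) _ _)).2 ⟨hx, hε, fun hd hy => ?_⟩
    have h1 : (WithLp.toLp 2 y : EuclideanSpace ℝ (Fin I.N)) ∈ Metric.ball x ε ∩ I.set :=
      ⟨(hdist _ x ε hε).2 hd, hy⟩
    rw [hball] at h1
    have h2 : (WithLp.toLp 2 y : EuclideanSpace ℝ (Fin I.N)) = x := h1
    funext i
    exact congrArg (fun z : EuclideanSpace ℝ (Fin I.N) => z i) h2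

lemma map_sumT {V W : Type} (f : V → W) (l : List (Tm V)) :
    (sumT l).map f = sumT (l.map (Tm.map f)) := by
  induction l with
  | nil => rfl
  | cons a l ih => rw [sumT_cons, List.map_cons, sumT_cons, Tm.map, ih]

lemma map_conj {V W : Type} (f : V → W) (l : List (Fm V)) :
    (conj l).map f = conj (l.map (Fm.map f)) := by
  induction l with
  | nil => rfl
  | cons a l ih => rw [conj_cons, List.map_cons, conj_cons, Fm.map, ih]

section

variable {α : Type} [Enc α]

@[fun_prop] lemma PT.instN {f : α → Inst} (hf : PT f) : PT fun a => List.replicate (f a).N () := by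
  have h : PT fun a => (List.replicate (f a).N (), (f a).φ.map Fin.val) := hf
  exact PT.fst h
@[fun_prop] lemma PT.instφ {f : α → Inst} (hf : PT f) : PT fun a => (f a).φ.map Fin.val := by
  have h : PT fun a => (List.replicate (f a).N (), (f a).φ.map Fin.val) := hf
  exact PT.snd h

/-- The matrix of the sentence with natural numbers as variables. -/
def membN (r : List ℕ) (N : ℕ) (φ : Fm ℕ) : Fm (ℕ ⊕ ℕ) :=
  .and (φ.map Sum.inl) (.and (.lt .zero (.var (Sum.inl N)))
    (.or (.not (.lt (sumT (r.map fun i =>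
        .add (.mul (.var (Sum.inr i)) (.var (Sum.inr i)))
          (.mul (.var (Sum.inl i)) (.var (Sum.inl i)))))
      (.add (.mul (.var (Sum.inl N)) (.var (Sum.inl N))) (sumT (r.map fun i =>
        .add (.mul (.var (Sum.inl i)) (.var (Sum.inr i)))
          (.mul (.var (Sum.inl i)) (.var (Sum.inr i))))))))
    (.or (conj (r.map fun i => .eq (.var (Sum.inr i)) (.var (Sum.inl i))))
      (.not (φ.map Sum.inr)))))

lemma membN_eq (I : Inst) :
    (memb I).ψ.map (Sum.map Fin.val Fin.val) = membN (List.range I.N) I.N (I.φ.map Fin.val) := by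
  have h : List.range I.N = (List.finRange I.N).map Fin.val := by simp
  simp only [memb, membN, Fm.map, Tm.map, map_sumT, map_conj, map_map_fm, List.map_map,
    Function.comp_def, mx, my, me, h, Sum.map_inl, Sum.map_inr, Fin.val_castSucc, Fin.val_last]

theorem PT.memb : PT memb := by
  have h0 : PT fun I : Inst => List.range I.N := by
    have h : PT fun I : Inst => List.range (List.replicate I.N ()).length := by fun_prop
    exact h.congr fun I => by rw [List.length_replicate]
  have h1 : PT fun I : Inst => I.N := by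
    have h : PT fun I : Inst => (List.replicate I.N ()).length := by fun_prop
    exact h.congr fun I => by rw [List.length_replicate]
  have h2 : PT fun I : Inst => membN (List.range I.N) I.N (I.φ.map Fin.val) := by
    unfold membN
    have e1 : PT fun I : Inst => (I.φ.map Fin.val).map (Sum.inl : ℕ → ℕ ⊕ ℕ) :=
      PT.fmMap (f := fun _ i => (Sum.inl i : ℕ ⊕ ℕ)) (by fun_prop) (by fun_prop)
    have e2 : PT fun I : Inst => (I.φ.map Fin.val).map (Sum.inr : ℕ → ℕ ⊕ ℕ) :=
      PT.fmMap (f := fun _ i => (Sum.inr i : ℕ ⊕ ℕ)) (by fun_prop) (by fun_prop)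
    have e3 : PT fun I : Inst => (List.range I.N).map fun i => (Tm.add
        (.mul (.var (Sum.inr i)) (.var (Sum.inr i)))
          (.mul (.var (Sum.inl i)) (.var (Sum.inl i))) : Tm (ℕ ⊕ ℕ)) :=
      PT.map (f := fun _ i => (Tm.add
        (.mul (.var (Sum.inr i)) (.var (Sum.inr i)))
          (.mul (.var (Sum.inl i)) (.var (Sum.inl i))) : Tm (ℕ ⊕ ℕ))) (by fun_prop) h0
    have e4 : PT fun I : Inst => (List.range I.N).map fun i => (Tm.add
        (.mul (.var (Sum.inl i)) (.var (Sum.inr i)))
          (.mul (.var (Sum.inl i)) (.var (Sum.inr i))) : Tm (ℕ ⊕ ℕ)) :=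
      PT.map (f := fun _ i => (Tm.add
        (.mul (.var (Sum.inl i)) (.var (Sum.inr i)))
          (.mul (.var (Sum.inl i)) (.var (Sum.inr i))) : Tm (ℕ ⊕ ℕ))) (by fun_prop) h0
    have e5 : PT fun I : Inst => (List.range I.N).map fun i =>
        (Fm.eq (.var (Sum.inr i)) (.var (Sum.inl i)) : Fm (ℕ ⊕ ℕ)) :=
      PT.map (f := fun _ i => (Fm.eq (.var (Sum.inr i)) (.var (Sum.inl i)) : Fm (ℕ ⊕ ℕ)))
        (by fun_prop) h0
    fun_prop
  have h3 : PT fun I : Inst => (List.replicate I.N () ++ [()], List.replicate I.N (),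
      membN (List.range I.N) I.N (I.φ.map Fin.val)) := by fun_prop
  refine FP.congr h3 fun I => ?_
  show enc _ = enc _
  congr 1
  refine Prod.ext ?_ (Prod.ext rfl ?_)
  · show List.replicate I.N () ++ [()] = List.replicate (I.N + 1) ()
    rw [List.replicate_succ']
  · exact (membN_eq I).symm

end

end Pool.Agent.IsoPt
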