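import Pool.Agent.Lib.IsoPt.Chart

/-!
# The linear system for the parameters is nondegenerate (Hermite interpolation)
-/

set_option autoImplicit false

namespace Pool.Agent.IsoPt

open MvPolynomial

variable {n m : ℕ}

/-- A polynomial of degree less than `2 k` with `k` distinct double zeros vanishes. -/
theorem hermite_unique {k : ℕ} (p : Polynomial ℝ) (u : Fin k → ℝ) (hu : Function.Injective u)
    (h1 : ∀ i, p.eval (u i) = 0) (h2 : ∀ i, (Polynomial.derivative p).eval (u i) = 0)
    (hdeg : p ≠ 0 → p.natDegree < 2 * k) : p = 0 := by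
  by_contra hp
  have hd : ∀ i ∈ (Finset.univ : Finset (Fin k)),
      (Polynomial.X - Polynomial.C (u i)) ^ 2 ∣ p := by
    intro i _
    have : 1 < p.rootMultiplicity (u i) :=
      (Polynomial.one_lt_rootMultiplicity_iff_isRoot hp).2 ⟨h1 i, h2 i⟩
    exact (pow_dvd_pow _ this).trans (Polynomial.pow_rootMultiplicity_dvd p (u i))
  have hcop : ((Finset.univ : Finset (Fin k)) : Set (Fin k)).Pairwise
      (Function.onFun IsCoprime fun i => (Polynomial.X - Polynomial.C (u i)) ^ 2) := by
    intro i _ j _ hij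
    apply IsCoprime.pow
    exact Polynomial.isCoprime_X_sub_C_of_isUnit_sub
      (sub_ne_zero_of_ne (fun h => hij (hu h))).isUnit
  have hdvd := Finset.prod_dvd_of_coprime hcop hd
  have hmon : ∀ i ∈ (Finset.univ : Finset (Fin k)),
      ((Polynomial.X - Polynomial.C (u i)) ^ 2).Monic := fun i _ =>
    (Polynomial.monic_X_sub_C (u i)).pow 2
  have hle := Polynomial.natDegree_le_of_dvd hdvd hp
  rw [Polynomial.natDegree_prod_of_monic _ _ hmon] at hle
  simp only [Polynomial.natDegree_pow, Polynomial.natDegree_X_sub_C, mul_one, Finset.sum_const,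
    Finset.card_univ, Fintype.card_fin, smul_eq_mul] at hle
  have := hdeg hp
  omega

theorem natDegree_sum_lt {M k : ℕ} (a : Fin M → ℝ) (ha : ∀ r : Fin M, k ≤ (r : ℕ) → a r = 0)
    (h0 : (∑ r : Fin M, Polynomial.C (a r) * Polynomial.X ^ (r : ℕ)) ≠ 0) :
    (∑ r : Fin M, Polynomial.C (a r) * Polynomial.X ^ (r : ℕ)).natDegree < k := by
  by_contra hcon
  push Not at hcon
  apply Polynomial.leadingCoeff_ne_zero.2 h0
  rw [Polynomial.leadingCoeff, Polynomial.finsetSum_coeff]
  refine Finset.sum_eq_zero fun r _ => ?_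
  rw [Polynomial.coeff_C_mul, Polynomial.coeff_X_pow]
  split_ifs with h
  · rw [ha r (h ▸ hcon), zero_mul]
  · rw [mul_zero]

section

variable (k : ℕ) (hk : k ≤ n + 1) (N : Fin (numForms n m))

theorem kind_val (hm : 0 < m) (i : Fin k) :
    kind k N hm (Sum.inl (N, ⟨i, by have := i.2; omega⟩, none)) = some (Sum.inl i) := by
  simp [kind, i.2]

theorem kind_der0 (hm : 0 < m) (i : Fin k) :
    kind k N hm (Sum.inl (N, ⟨k + i, by have := i.2; omega⟩, none)) =
      some (Sum.inr (Sum.inl (i, ⟨0, hm⟩))) := by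
  simp [kind, i.2]

theorem kind_der (hm : 0 < m) (i : Fin k) (j : Fin m) (hj : (j : ℕ) ≠ 0) :
    kind k N hm (Sum.inl (N, ⟨i, by have := i.2; omega⟩, some j)) =
      some (Sum.inr (Sum.inl (i, j))) := by
  simp [kind, i.2, hj]

include hk in
theorem kind_surj (hm : 0 < m) (κ : EIdx n m k) : ∃ p, kind k N hm p = some κ := by
  rcases κ with i | ⟨i, j⟩ | l
  · exact ⟨_, kind_val k hk N hm i⟩
  · by_cases hj : (j : ℕ) = 0
    · have : j = ⟨0, hm⟩ := Fin.ext hj
      subst this
      exact ⟨_, kind_der0 k hk N hm i⟩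
    · exact ⟨_, kind_der k hk N hm i j hj⟩
  · exact ⟨Sum.inr l, rfl⟩

/-- Sums over parameters supported on one linear form. -/
theorem sum_supp (θ : PIdx n m → ℝ) (h1 : ∀ N' r o, N' ≠ N → θ (Sum.inl (N', r, o)) = 0)
    (h2 : ∀ l, θ (Sum.inr l) = 0) (F : PIdx n m → ℝ) :
    ∑ p, θ p * F p = ∑ r, (θ (Sum.inl (N, r, none)) * F (Sum.inl (N, r, none)) +
      ∑ j, θ (Sum.inl (N, r, some j)) * F (Sum.inl (N, r, some j))) := by
  rw [Fintype.sum_sum_type, Fintype.sum_prod_type, Finset.sum_eq_single N]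
  · simp only [h2, zero_mul, Finset.sum_const_zero, add_zero]
    rw [Fintype.sum_prod_type]
    refine Finset.sum_congr rfl fun r _ => ?_
    rw [Fintype.sum_option]
  · intro N' _ hN'
    refine Finset.sum_eq_zero fun q _ => ?_
    rw [h1 N' q.1 q.2 hN', zero_mul]
  · intro h
    exact absurd (Finset.mem_univ _) h

open Matrix in
theorem MM_det_ne_zero (hm : 0 < m) (hk0 : 0 < k) (η : ℝ) (hη : η ≠ 0) (z : PIdx n m → ℝ)
    (hinj : Function.Injective fun i : Fin k => uf N (yz k hk N z i)) :
    (MM k hk N hm η z).det ≠ 0 := by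
  intro hdet
  obtain ⟨θ, hθ0, hθ⟩ := exists_mulVec_eq_zero_iff.2 hdet
  apply hθ0
  have hnone : ∀ p, kind k N hm p = none → θ p = 0 := by
    intro p hp
    have := congrFun hθ p
    rw [MM_mulVec, hp] at this
    exact this
  have hEE : ∀ κ, EE k hk N z κ (pert n m θ) = 0 := by
    intro κ
    obtain ⟨p, hp⟩ := kind_surj k hk N hm κ
    have := congrFun hθ p
    rw [MM_mulVec, hp] at this
    exact (mul_eq_zero.1 this).resolve_left hη
  -- vanishing of coordinates
  have hr : ∀ l, θ (Sum.inr l) = 0 := by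
    intro l
    have h := hEE (Sum.inr (Sum.inr l))
    rw [EE_pert, Fintype.sum_sum_type] at h
    have e1 : ∀ q, θ (Sum.inl q) * EE k hk N z (Sum.inr (Sum.inr l)) (phi n m (Sum.inl q)) = 0 := by
      intro q
      simp only [EE, ev_dl_phi_inl, mul_zero, Finset.sum_const_zero]
    have e2 : ∀ l', θ (Sum.inr l') * EE k hk N z (Sum.inr (Sum.inr l)) (phi n m (Sum.inr l')) =
        if l' = l then θ (Sum.inr l') else 0 := by
      intro l'
      simp only [EE, ev_dl_phi_inr]
      split_ifs with h'
      · simp only [mul_one]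
        rw [sum_lz k hk N hk0, mul_one]
      · simp
    simp only [e1, e2, Finset.sum_const_zero, zero_add, Finset.sum_ite_eq', Finset.mem_univ,
      if_true] at h
    exact h
  have hN : ∀ N' r o, N' ≠ N → θ (Sum.inl (N', r, o)) = 0 := by
    intro N' r o hN'
    apply hnone
    rcases o with _ | j
    · simp [kind, hN']
    · simp [kind, hN']
  have ha : ∀ r : Fin (2 * (n + 1)), 2 * k ≤ (r : ℕ) → θ (Sum.inl (N, r, none)) = 0 := by
    intro r hr'
    apply hnone
    have h1 : ¬ (r : ℕ) < k := by omega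
    have h2 : ¬ (r : ℕ) - k < k := by omega
    simp [kind, h1, h2]
  have hb : ∀ (r : Fin (2 * (n + 1))) (j : Fin m), k ≤ (r : ℕ) → θ (Sum.inl (N, r, some j)) = 0 := by
    intro r j hr'
    apply hnone
    have h1 : ¬ (r : ℕ) < k := by omega
    simp [kind, h1]
  have hb0 : ∀ (r : Fin (2 * (n + 1))) (j : Fin m), (j : ℕ) = 0 → θ (Sum.inl (N, r, some j)) = 0 := by
    intro r j hj
    apply hnone
    simp [kind, hj]
  -- the polynomials
  let P : Polynomial ℝ := ∑ r : Fin (2 * (n + 1)),
    Polynomial.C (θ (Sum.inl (N, r, none))) * Polynomial.X ^ (r : ℕ)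
  let Q : Fin m → Polynomial ℝ := fun j => ∑ r : Fin (2 * (n + 1)),
    Polynomial.C (θ (Sum.inl (N, r, some j))) * Polynomial.X ^ (r : ℕ)
  have evP : ∀ t, P.eval t = ∑ r : Fin (2 * (n + 1)), θ (Sum.inl (N, r, none)) * t ^ (r : ℕ) := by
    intro t
    simp [P, Polynomial.eval_finsetSum]
  have evQ : ∀ j t, (Q j).eval t =
      ∑ r : Fin (2 * (n + 1)), θ (Sum.inl (N, r, some j)) * t ^ (r : ℕ) := by
    intro j t
    simp [Q, Polynomial.eval_finsetSum]
  have devP : ∀ t, (Polynomial.derivative P).eval t =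
      ∑ r : Fin (2 * (n + 1)), θ (Sum.inl (N, r, none)) * ((r : ℕ) * t ^ ((r : ℕ) - 1)) := by
    intro t
    simp only [P, Polynomial.derivative_sum, Polynomial.eval_finsetSum]
    refine Finset.sum_congr rfl fun r _ => ?_
    rw [Polynomial.derivative_C_mul, Polynomial.derivative_X_pow]
    simp
  have hQ : ∀ i j, (Q j).eval (uf N (yz k hk N z i)) = 0 ∧
      (Polynomial.derivative P).eval (uf N (yz k hk N z i)) +
        ∑ j', (∑ r : Fin (2 * (n + 1)), θ (Sum.inl (N, r, some j')) *
          ((r : ℕ) * uf N (yz k hk N z i) ^ ((r : ℕ) - 1))) * yz k hk N z i j' = 0 := by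
    intro i
    set t := uf N (yz k hk N z i) with ht
    have key : ∀ j : Fin m, ((N : ℕ) : ℝ) ^ (j : ℕ) * ((Polynomial.derivative P).eval t +
        ∑ j', (∑ r : Fin (2 * (n + 1)), θ (Sum.inl (N, r, some j')) *
          ((r : ℕ) * t ^ ((r : ℕ) - 1))) * yz k hk N z i j') + (Q j).eval t = 0 := by
      intro j
      have h := hEE (Sum.inr (Sum.inl (i, j)))
      rw [EE_pert, sum_supp N θ hN hr] at h
      simp only [EE, ev_dr_phi_none, ev_dr_phi_some] at h
      rw [← h, devP, evQ, mul_add, Finset.mul_sum, Finset.mul_sum, Finset.sum_add_distrib]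
      have e1 : ∀ r : Fin (2 * (n + 1)), ∑ j', θ (Sum.inl (N, r, some j')) *
          ((r : ℕ) * t ^ ((r : ℕ) - 1) * ((N : ℕ) : ℝ) ^ (j : ℕ) * yz k hk N z i j' +
            t ^ (r : ℕ) * (if j' = j then 1 else 0)) =
          ∑ j', ((N : ℕ) : ℝ) ^ (j : ℕ) * (θ (Sum.inl (N, r, some j')) *
          ((r : ℕ) * t ^ ((r : ℕ) - 1)) * yz k hk N z i j') + θ (Sum.inl (N, r, some j)) *
            t ^ (r : ℕ) := by
        intro r
        have e2 : ∀ j', θ (Sum.inl (N, r, some j')) *
          ((r : ℕ) * t ^ ((r : ℕ) - 1) * ((N : ℕ) : ℝ) ^ (j : ℕ) * yz k hk N z i j' +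
            t ^ (r : ℕ) * (if j' = j then 1 else 0)) =
            ((N : ℕ) : ℝ) ^ (j : ℕ) * (θ (Sum.inl (N, r, some j')) *
          ((r : ℕ) * t ^ ((r : ℕ) - 1)) * yz k hk N z i j') +
            (if j' = j then θ (Sum.inl (N, r, some j)) * t ^ (r : ℕ) else 0) := by
          intro j'
          by_cases hj : j' = j
          · subst hj
            simp only [if_true]
            ring
          · simp only [hj, if_false]
            ring
        rw [Finset.sum_congr rfl fun j' _ => e2 j', Finset.sum_add_distrib, Finset.sum_ite_eq']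
        simp
      simp only [← ht]
      rw [Finset.sum_congr rfl fun r _ => e1 r, Finset.sum_add_distrib, Finset.sum_comm,
        ← add_assoc]
      congr 1
      congr 1
      · refine Finset.sum_congr rfl fun r _ => ?_
        ring
      · refine Finset.sum_congr rfl fun j' _ => ?_
        rw [Finset.sum_mul, Finset.mul_sum]
    -- use `j = 0`
    have h0 := key ⟨0, hm⟩
    have hQ0 : (Q ⟨0, hm⟩).eval t = 0 := by
      rw [evQ]
      refine Finset.sum_eq_zero fun r _ => ?_
      rw [hb0 r _ rfl, zero_mul]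
    rw [hQ0, add_zero, pow_zero, one_mul] at h0
    intro j
    refine ⟨?_, h0⟩
    have h1 := key j
    rw [h0, mul_zero, zero_add] at h1
    exact h1
  -- `Q j = 0`
  have hQz : ∀ j, Q j = 0 := by
    intro j
    by_contra hne
    have hd := natDegree_sum_lt (k := k) (fun r => θ (Sum.inl (N, r, some j)))
      (fun r hr' => hb r j hr') hne
    exact hne (Polynomial.eq_zero_of_natDegree_lt_card_of_eval_eq_zero _ hinj
      (fun i => (hQ i j).1) (by rw [Fintype.card_fin]; exact hd))
  have hbz : ∀ (r : Fin (2 * (n + 1))) (j : Fin m), θ (Sum.inl (N, r, some j)) = 0 := by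
    intro r j
    have h := congrArg (fun f : Polynomial ℝ => f.coeff (r : ℕ)) (hQz j)
    simp only [Q, Polynomial.finsetSum_coeff, Polynomial.coeff_C_mul, Polynomial.coeff_X_pow,
      Polynomial.coeff_zero, mul_ite, mul_one, mul_zero] at h
    rw [Finset.sum_eq_single r] at h
    · simpa using h
    · intro e _ hne
      rw [if_neg fun h' => hne (Fin.ext h'.symm)]
    · intro h'
      exact absurd (Finset.mem_univ _) h'
  have hPz : P = 0 := by
    refine hermite_unique P _ hinj ?_ ?_ ?_
    · intro i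
      have h := hEE (Sum.inl i)
      rw [EE_pert, sum_supp N θ hN hr] at h
      simp only [EE, ev_phi_none, ev_phi_some, hbz, zero_mul, Finset.sum_const_zero, add_zero] at h
      rw [evP]
      exact h
    · intro i
      have h := (hQ i ⟨0, hm⟩).2
      simp only [hbz, zero_mul, Finset.sum_const_zero, add_zero] at h
      exact h
    · intro hne
      exact natDegree_sum_lt (k := 2 * k) (fun r => θ (Sum.inl (N, r, none)))
        (fun r hr' => ha r hr') hne
  have haz : ∀ r : Fin (2 * (n + 1)), θ (Sum.inl (N, r, none)) = 0 := by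
    intro r
    have h := congrArg (fun f : Polynomial ℝ => f.coeff (r : ℕ)) hPz
    simp only [P, Polynomial.finsetSum_coeff, Polynomial.coeff_C_mul, Polynomial.coeff_X_pow,
      Polynomial.coeff_zero, mul_ite, mul_one, mul_zero] at h
    rw [Finset.sum_eq_single r] at h
    · simpa using h
    · intro e _ hne
      rw [if_neg fun h' => hne (Fin.ext h'.symm)]
    · intro h'
      exact absurd (Finset.mem_univ _) h'
  funext p
  rcases p with ⟨N', r, o⟩ | l
  · by_cases hN' : N' = N
    · subst hN'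
      rcases o with _ | j
      · exact haz r
      · exact hbz r j
    · exact hN N' r o hN'
  · exact hr l

end

end Pool.Agent.IsoPt
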