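import Pool.Agent.Lib.IsoPt.Sem

/-!
# Normal form: a polynomial whose positivity is equivalent to the truth of the formula
-/

set_option autoImplicit false

namespace Pool.Agent.IsoPt

open Pool.Agent.PolyTime

section

variable (m₀ : ℕ) (ks : List (ℕ × TN × TN))

/-- positive polynomial -/
def pP (φ : Fm Nm) : TN := (pn m₀ ks φ.toEx).2.1
/-- negative polynomial -/
def pN (φ : Fm Nm) : TN := (pn m₀ ks φ.toEx).2.2

@[simp] lemma pn_tm (e : TN) : (pn m₀ ks e.toEx).1 = e := by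
  induction e with
  | var v => rfl
  | zero => rfl
  | one => rfl
  | add a b iha ihb => simp [Tm.toEx, pn, iha, ihb]
  | mul a b iha ihb => simp [Tm.toEx, pn, iha, ihb]

lemma pP_eq (a b : TN) : pP m₀ ks (.eq a b) = sqT (subT a b) := by
  simp [pP, Fm.toEx, pn, atomP]
lemma pN_eq (a b : TN) : pN m₀ ks (.eq a b) =
    sqT (subT (.mul (subT a b) (zv m₀ ks 4 a b)) .one) := by
  simp [pN, Fm.toEx, pn, atomP]
lemma pP_lt (a b : TN) : pP m₀ ks (.lt a b) =
    sqT (subT (.mul (subT b a) (sqT (zv m₀ ks 5 a b))) .one) := by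
  simp [pP, Fm.toEx, pn, atomP]
lemma pN_lt (a b : TN) : pN m₀ ks (.lt a b) = sqT (subT (subT a b) (sqT (zv m₀ ks 5 a b))) := by
  simp [pN, Fm.toEx, pn, atomP]
lemma pP_not (φ : Fm Nm) : pP m₀ ks (.not φ) = pN m₀ ks φ := rfl
lemma pN_not (φ : Fm Nm) : pN m₀ ks (.not φ) = pP m₀ ks φ := rfl
lemma pP_and (φ ψ : Fm Nm) : pP m₀ ks (.and φ ψ) = .add (pP m₀ ks φ) (pP m₀ ks ψ) := by
  simp [pP, Fm.toEx, pn]
lemma pN_and (φ ψ : Fm Nm) : pN m₀ ks (.and φ ψ) = .mul (pN m₀ ks φ) (pN m₀ ks ψ) := by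
  simp [pN, Fm.toEx, pn]
lemma pP_or (φ ψ : Fm Nm) : pP m₀ ks (.or φ ψ) = .mul (pP m₀ ks φ) (pP m₀ ks ψ) := by
  simp [pP, Fm.toEx, pn]
lemma pN_or (φ ψ : Fm Nm) : pN m₀ ks (.or φ ψ) = .add (pN m₀ ks φ) (pN m₀ ks ψ) := by
  simp [pN, Fm.toEx, pn]

lemma keys_tm (e : TN) :
    (flatE e.toEx).2.filter (fun q => decide (q.1 = 4) || decide (q.1 = 5)) = [] := by
  induction e with
  | var v => rfl
  | zero => rfl
  | one => rfl
  | add a b iha ihb => simp [Tm.toEx, flatE, iha, ihb]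
  | mul a b iha ihb => simp [Tm.toEx, flatE, iha, ihb]

lemma keysOf_eq (a b : TN) : keysOf (.eq a b) = [(4, a, b)] := by
  simp only [keysOf, Fm.toEx, flatE, flatE_toEx, List.filter_cons, List.filter_append, keys_tm]
  rfl
lemma keysOf_lt (a b : TN) : keysOf (.lt a b) = [(5, a, b)] := by
  simp only [keysOf, Fm.toEx, flatE, flatE_toEx, List.filter_cons, List.filter_append, keys_tm]
  rfl
lemma keysOf_not (φ : Fm Nm) : keysOf (.not φ) = keysOf φ := rfl
lemma keysOf_and (φ ψ : Fm Nm) : keysOf (.and φ ψ) = keysOf φ ++ keysOf ψ := by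
  simp [keysOf, Fm.toEx, flatE]
lemma keysOf_or (φ ψ : Fm Nm) : keysOf (.or φ ψ) = keysOf φ ++ keysOf ψ := by
  simp [keysOf, Fm.toEx, flatE]

lemma keysOf_vars {φ : Fm Nm} {k : ℕ} {a b : TN} (h : (k, a, b) ∈ keysOf φ) {v : Nm}
    (hv : v ∈ a.vars ∨ v ∈ b.vars) : v ∈ φ.vars := by
  induction φ with
  | eq s t =>
    rw [keysOf_eq, List.mem_singleton, Prod.mk.injEq, Prod.mk.injEq] at h
    obtain ⟨-, rfl, rfl⟩ := h
    simpa [Fm.vars] using hv
  | lt s t =>
    rw [keysOf_lt, List.mem_singleton, Prod.mk.injEq, Prod.mk.injEq] at h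
    obtain ⟨-, rfl, rfl⟩ := h
    simpa [Fm.vars] using hv
  | not φ ih => exact ih h
  | and φ ψ ih1 ih2 =>
    rw [keysOf_and, List.mem_append] at h
    simp only [Fm.vars, List.mem_append]
    exact h.imp ih1 ih2
  | or φ ψ ih1 ih2 =>
    rw [keysOf_or, List.mem_append] at h
    simp only [Fm.vars, List.mem_append]
    exact h.imp ih1 ih2

end

section real

variable (m₀ : ℕ) (ks : List (ℕ × TN × TN)) {w : Nm → ℝ} (hw : w [4] = -1)

include hw

lemma eval_subT (a b : TN) : (subT a b).eval w = a.eval w - b.eval w := by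
  simp [subT, Tm.eval, vN, hw]; ring

omit hw in
lemma pn_nonneg (φ : Fm Nm) : 0 ≤ (pP m₀ ks φ).eval w ∧ 0 ≤ (pN m₀ ks φ).eval w := by
  induction φ with
  | eq s t => simp only [pP_eq, pN_eq, eval_sqT]; exact ⟨sq_nonneg _, sq_nonneg _⟩
  | lt s t => simp only [pP_lt, pN_lt, eval_sqT]; exact ⟨sq_nonneg _, sq_nonneg _⟩
  | not φ ih => simp only [pP_not, pN_not]; exact ⟨ih.2, ih.1⟩
  | and φ ψ ih1 ih2 =>
    simp only [pP_and, pN_and, Tm.eval]
    exact ⟨add_nonneg ih1.1 ih2.1, mul_nonneg ih1.2 ih2.2⟩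
  | or φ ψ ih1 ih2 =>
    simp only [pP_or, pN_or, Tm.eval]
    exact ⟨mul_nonneg ih1.1 ih2.1, add_nonneg ih1.2 ih2.2⟩

lemma pn_sound (φ : Fm Nm) :
    ((pP m₀ ks φ).eval w = 0 → φ.holds w) ∧ ((pN m₀ ks φ).eval w = 0 → ¬ φ.holds w) := by
  induction φ with
  | eq s t =>
    simp only [pP_eq, pN_eq, eval_sqT, Fm.holds, eval_subT hw, Tm.eval]
    refine ⟨fun h => ?_, fun h h' => ?_⟩
    · have := pow_eq_zero_iff (two_ne_zero) |>.1 h
      linarith
    · have := pow_eq_zero_iff (two_ne_zero) |>.1 h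
      rw [h'] at this
      simp at this
  | lt s t =>
    simp only [pP_lt, pN_lt, eval_sqT, Fm.holds, eval_subT hw, Tm.eval]
    refine ⟨fun h => ?_, fun h h' => ?_⟩
    · have h1 := pow_eq_zero_iff (two_ne_zero) |>.1 h
      by_contra h2
      have h3 : (t.eval w - s.eval w) * (zv m₀ ks 5 s t).eval w ^ 2 ≤ 0 :=
        mul_nonpos_of_nonpos_of_nonneg (by linarith) (sq_nonneg _)
      linarith
    · have h1 := pow_eq_zero_iff (two_ne_zero) |>.1 h
      have h3 := sq_nonneg ((zv m₀ ks 5 s t).eval w)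
      linarith
  | not φ ih =>
    simp only [pP_not, pN_not, Fm.holds]
    exact ⟨ih.2, fun h h' => h' (ih.1 h)⟩
  | and φ ψ ih1 ih2 =>
    simp only [pP_and, pN_and, Tm.eval, Fm.holds]
    have n1 := pn_nonneg m₀ ks (w := w) φ
    have n2 := pn_nonneg m₀ ks (w := w) ψ
    refine ⟨fun h => ?_, fun h h' => ?_⟩
    · have h1 : (pP m₀ ks φ).eval w = 0 := by linarith [n1.1, n2.1]
      have h2 : (pP m₀ ks ψ).eval w = 0 := by linarith [n1.1, n2.1]
      exact ⟨ih1.1 h1, ih2.1 h2⟩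
    · rcases mul_eq_zero.1 h with h | h
      · exact ih1.2 h h'.1
      · exact ih2.2 h h'.2
  | or φ ψ ih1 ih2 =>
    simp only [pP_or, pN_or, Tm.eval, Fm.holds]
    have n1 := pn_nonneg m₀ ks (w := w) φ
    have n2 := pn_nonneg m₀ ks (w := w) ψ
    refine ⟨fun h => ?_, fun h h' => ?_⟩
    · rcases mul_eq_zero.1 h with h | h
      · exact Or.inl (ih1.1 h)
      · exact Or.inr (ih2.1 h)
    · have h1 : (pN m₀ ks φ).eval w = 0 := by linarith [n1.2, n2.2]
      have h2 : (pN m₀ ks ψ).eval w = 0 := by linarith [n1.2, n2.2]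
      exact h'.elim (ih1.2 h1) (ih2.2 h2)

omit hw in
/-- Witness value for an atom. -/
noncomputable def wit (w : Nm → ℝ) (k : ℕ) (a b : TN) : ℝ :=
  if k = 4 then (a.eval w - b.eval w)⁻¹
  else if a.eval w < b.eval w then (√(b.eval w - a.eval w))⁻¹ else √(a.eval w - b.eval w)

lemma pn_complete (φ : Fm Nm)
    (hk : ∀ k a b, (k, a, b) ∈ keysOf φ → (zv m₀ ks k a b).eval w = wit w k a b) :
    (φ.holds w → (pP m₀ ks φ).eval w = 0) ∧ (¬ φ.holds w → (pN m₀ ks φ).eval w = 0) := by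
  induction φ with
  | eq s t =>
    have h1 := hk 4 s t (by simp [keysOf_eq])
    simp only [pP_eq, pN_eq, eval_sqT, Fm.holds, eval_subT hw, Tm.eval, h1, wit]
    refine ⟨fun h => by rw [h]; ring, fun h => ?_⟩
    have h2 : s.eval w - t.eval w ≠ 0 := sub_ne_zero.2 h
    simp [h2]
  | lt s t =>
    have h1 := hk 5 s t (by simp [keysOf_lt])
    simp only [pP_lt, pN_lt, eval_sqT, Fm.holds, eval_subT hw, Tm.eval, h1, wit]
    refine ⟨fun h => ?_, fun h => ?_⟩
    · have h2 : 0 < t.eval w - s.eval w := sub_pos.2 h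
      rw [if_neg (by norm_num), if_pos h, inv_pow, Real.sq_sqrt h2.le, mul_inv_cancel₀ h2.ne']
      ring
    · have h2 : 0 ≤ s.eval w - t.eval w := sub_nonneg.2 (not_lt.1 h)
      rw [if_neg (by norm_num), if_neg h, Real.sq_sqrt h2]
      ring
  | not φ ih =>
    simp only [pP_not, pN_not, Fm.holds, not_not]
    exact ⟨(ih hk).2, (ih hk).1⟩
  | and φ ψ ih1 ih2 =>
    rw [keysOf_and] at hk
    have h1 := ih1 fun k a b h => hk k a b (List.mem_append_left _ h)
    have h2 := ih2 fun k a b h => hk k a b (List.mem_append_right _ h)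
    simp only [pP_and, pN_and, Tm.eval, Fm.holds]
    refine ⟨fun h => by rw [h1.1 h.1, h2.1 h.2, add_zero], fun h => ?_⟩
    by_cases h3 : φ.holds w
    · rw [h2.2 fun h4 => h ⟨h3, h4⟩, mul_zero]
    · rw [h1.2 h3, zero_mul]
  | or φ ψ ih1 ih2 =>
    rw [keysOf_or] at hk
    have h1 := ih1 fun k a b h => hk k a b (List.mem_append_left _ h)
    have h2 := ih2 fun k a b h => hk k a b (List.mem_append_right _ h)
    simp only [pP_or, pN_or, Tm.eval, Fm.holds]
    refine ⟨fun h => ?_, fun h => ?_⟩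
    · rcases h with h | h
      · rw [h1.1 h, zero_mul]
      · rw [h2.1 h, mul_zero]
    · rw [not_or] at h
      rw [h1.2 h.1, h2.2 h.2, add_zero]

end real

/-- Variables of the polynomials. -/
lemma vars_pn (m₀ : ℕ) (ks : List (ℕ × TN × TN)) (φ : Fm Nm) (v : Nm)
    (h : v ∈ (pP m₀ ks φ).vars ∨ v ∈ (pN m₀ ks φ).vars) :
    v = [4] ∨ v ∈ φ.vars ∨ ∃ k a b, (k, a, b) ∈ keysOf φ ∧ v = [1, m₀ + ks.idxOf (k, a, b)] := by
  induction φ with
  | eq s t =>
    simp only [pP_eq, pN_eq, sqT, subT, Tm.vars, zv, vY, vN, List.mem_append, List.mem_singleton,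
      List.not_mem_nil, or_false, or_self, Fm.vars] at h ⊢
    rcases h with (h | rfl | h) | (((h | rfl | h) | rfl) | rfl)
    · exact Or.inr (Or.inl (Or.inl h))
    · exact Or.inl rfl
    · exact Or.inr (Or.inl (Or.inr h))
    · exact Or.inr (Or.inl (Or.inl h))
    · exact Or.inl rfl
    · exact Or.inr (Or.inl (Or.inr h))
    · exact Or.inr (Or.inr ⟨4, s, t, by simp [keysOf_eq], rfl⟩)
    · exact Or.inl rfl
  | lt s t =>
    simp only [pP_lt, pN_lt, sqT, subT, Tm.vars, zv, vY, vN, List.mem_append, List.mem_singleton,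
      List.not_mem_nil, or_false, or_self, Fm.vars] at h ⊢
    rcases h with (((h | rfl | h) | rfl) | rfl) | ((h | rfl | h) | rfl | rfl)
    · exact Or.inr (Or.inl (Or.inr h))
    · exact Or.inl rfl
    · exact Or.inr (Or.inl (Or.inl h))
    · exact Or.inr (Or.inr ⟨5, s, t, by simp [keysOf_lt], rfl⟩)
    · exact Or.inl rfl
    · exact Or.inr (Or.inl (Or.inl h))
    · exact Or.inl rfl
    · exact Or.inr (Or.inl (Or.inr h))
    · exact Or.inl rfl
    · exact Or.inr (Or.inr ⟨5, s, t, by simp [keysOf_lt], rfl⟩)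
  | not φ ih =>
    simp only [pP_not, pN_not] at h
    exact ih h.symm
  | and φ ψ ih1 ih2 =>
    simp only [pP_and, pN_and, Tm.vars, Fm.vars, List.mem_append, keysOf_and] at h ⊢
    rcases h with (h | h) | (h | h)
    · rcases ih1 (Or.inl h) with h | h | ⟨k, a, b, h, h'⟩
      · exact Or.inl h
      · exact Or.inr (Or.inl (Or.inl h))
      · exact Or.inr (Or.inr ⟨k, a, b, Or.inl h, h'⟩)
    · rcases ih2 (Or.inl h) with h | h | ⟨k, a, b, h, h'⟩
      · exact Or.inl h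
      · exact Or.inr (Or.inl (Or.inr h))
      · exact Or.inr (Or.inr ⟨k, a, b, Or.inr h, h'⟩)
    · rcases ih1 (Or.inr h) with h | h | ⟨k, a, b, h, h'⟩
      · exact Or.inl h
      · exact Or.inr (Or.inl (Or.inl h))
      · exact Or.inr (Or.inr ⟨k, a, b, Or.inl h, h'⟩)
    · rcases ih2 (Or.inr h) with h | h | ⟨k, a, b, h, h'⟩
      · exact Or.inl h
      · exact Or.inr (Or.inl (Or.inr h))
      · exact Or.inr (Or.inr ⟨k, a, b, Or.inr h, h'⟩)
  | or φ ψ ih1 ih2 =>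
    simp only [pP_or, pN_or, Tm.vars, Fm.vars, List.mem_append, keysOf_or] at h ⊢
    rcases h with (h | h) | (h | h)
    · rcases ih1 (Or.inl h) with h | h | ⟨k, a, b, h, h'⟩
      · exact Or.inl h
      · exact Or.inr (Or.inl (Or.inl h))
      · exact Or.inr (Or.inr ⟨k, a, b, Or.inl h, h'⟩)
    · rcases ih2 (Or.inl h) with h | h | ⟨k, a, b, h, h'⟩
      · exact Or.inl h
      · exact Or.inr (Or.inl (Or.inr h))
      · exact Or.inr (Or.inr ⟨k, a, b, Or.inr h, h'⟩)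
    · rcases ih1 (Or.inr h) with h | h | ⟨k, a, b, h, h'⟩
      · exact Or.inl h
      · exact Or.inr (Or.inl (Or.inl h))
      · exact Or.inr (Or.inr ⟨k, a, b, Or.inl h, h'⟩)
    · rcases ih2 (Or.inr h) with h | h | ⟨k, a, b, h, h'⟩
      · exact Or.inl h
      · exact Or.inr (Or.inl (Or.inr h))
      · exact Or.inr (Or.inr ⟨k, a, b, Or.inr h, h'⟩)

/-- Names of the original variables. -/
def nmF {n m₀ : ℕ} : Fin n ⊕ Fin m₀ → Nm
  | Sum.inl l => [0, (l : ℕ)]
  | Sum.inr j => [1, (j : ℕ)]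

lemma vars_map {V W : Type} (f : V → W) (φ : Fm V) : (φ.map f).vars = φ.vars.map f := by
  have ht : ∀ t : Tm V, (t.map f).vars = t.vars.map f := by
    intro t
    induction t with
    | var v => rfl
    | zero => rfl
    | one => rfl
    | add a b iha ihb => simp [Tm.map, Tm.vars, iha, ihb]
    | mul a b iha ihb => simp [Tm.map, Tm.vars, iha, ihb]
  induction φ with
  | eq s t => simp [Fm.map, Fm.vars, ht]
  | lt s t => simp [Fm.map, Fm.vars, ht]
  | not φ ih => simpa [Fm.map, Fm.vars] using ih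
  | and φ ψ ih1 ih2 => simp [Fm.map, Fm.vars, ih1, ih2]
  | or φ ψ ih1 ih2 => simp [Fm.map, Fm.vars, ih1, ih2]

/-- **Normal form.** -/
theorem normal_form {n m₀ : ℕ} (ψ : Fm (Fin n ⊕ Fin m₀)) (w : (Fin n → ℝ) → (ℕ → ℝ) → Nm → ℝ)
    (hw4 : ∀ x y, w x y [4] = -1) (hwx : ∀ x y (l : Fin n), w x y [0, (l : ℕ)] = x l)
    (hwy : ∀ x y j, w x y [1, j] = y j) (x : Fin n → ℝ) :
    (∀ y₀ : Fin m₀ → ℝ, ψ.holds (Sum.elim x y₀)) ↔
      ∀ y : ℕ → ℝ, 0 < (gOf m₀ (ψ.map nmF)).eval (w x y) := by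
  set φ := ψ.map nmF with hφ
  have hh : ∀ (y : ℕ → ℝ), φ.holds (w x y) ↔ ψ.holds (Sum.elim x fun j : Fin m₀ => y j) := by
    intro y
    rw [hφ, Fm.holds_map]
    have : (fun i => w x y (nmF i)) = Sum.elim x fun j : Fin m₀ => y j := by
      funext i
      rcases i with l | j
      · simp [nmF, hwx]
      · simp [nmF, hwy]
    rw [this]
  constructor
  · intro h y
    refine lt_of_le_of_ne (pn_nonneg m₀ _ φ).2 fun h0 => ?_
    exact (pn_sound m₀ (keysOf φ) (hw4 x y) φ).2 h0.symm ((hh y).2 (h _))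
  · intro h y₀
    by_contra hcon
    obtain ⟨y1, hy1⟩ : ∃ y1 : ℕ → ℝ, ∀ j : Fin m₀, y1 j = y₀ j :=
      ⟨fun j => if hj : j < m₀ then y₀ ⟨j, hj⟩ else 0, fun j => by simp⟩
    obtain ⟨y, hy2, hy3⟩ : ∃ y : ℕ → ℝ, (∀ j : Fin m₀, y j = y₀ j) ∧
        ∀ i (hi : i < (keysOf φ).length), y (m₀ + i) =
          wit (w x y1) ((keysOf φ)[i]).1 ((keysOf φ)[i]).2.1 ((keysOf φ)[i]).2.2 :=
      ⟨fun j => if hj : j < m₀ then y₀ ⟨j, hj⟩ else
        if hj' : j - m₀ < (keysOf φ).length then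
          wit (w x y1) ((keysOf φ)[j - m₀]).1 ((keysOf φ)[j - m₀]).2.1 ((keysOf φ)[j - m₀]).2.2
        else 0, fun j => by simp, fun i hi => by
          have h2 : m₀ + i - m₀ = i := by omega
          have h3 : ¬ (m₀ + i < m₀) := by omega
          simp [h3, h2, hi]⟩
    have hy : (fun j : Fin m₀ => y j) = y₀ := by funext j; exact hy2 j
    have hφv : ∀ v ∈ φ.vars, w x y v = w x y1 v := by
      intro v hv
      rw [hφ, vars_map] at hv
      obtain ⟨i, -, rfl⟩ := List.mem_map.1 hv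
      rcases i with l | j
      · simp [nmF, hwx]
      · simp [nmF, hwy, hy1, hy2]
    have hN := (pn_complete m₀ (keysOf φ) (hw4 x y) φ (by
      intro k a b hk
      have ha : a.eval (w x y) = a.eval (w x y1) :=
        Tm.eval_congr fun v hv => hφv v (keysOf_vars hk (Or.inl hv))
      have hb : b.eval (w x y) = b.eval (w x y1) :=
        Tm.eval_congr fun v hv => hφv v (keysOf_vars hk (Or.inr hv))
      have hi : (keysOf φ).idxOf (k, a, b) < (keysOf φ).length := List.idxOf_lt_length_iff.2 hk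
      have h1 : (keysOf φ)[(keysOf φ).idxOf (k, a, b)] = (k, a, b) := List.getElem_idxOf hi
      simp only [zv, vY, Tm.eval, hwy]
      rw [hy3 _ hi, h1]
      simp only [wit, ha, hb])).2 (by rw [hh, hy]; exact hcon)
    exact (h y).ne' hN

end Pool.Agent.IsoPt
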