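import Pool.Agent.Lib.IsoPt.LinFinite

/-!
# The perturbation in coordinates
-/

set_option autoImplicit false

namespace Pool.Agent.IsoPt

open MvPolynomial

variable {n m : ℕ}

/-- basis functions of the perturbation -/
noncomputable def phi (n m : ℕ) : PIdx n m → MvPolynomial (Fin n ⊕ Fin m) ℝ
  | Sum.inl (N, r, none) => linForm n m N ^ (r : ℕ)
  | Sum.inl (N, r, some j) => linForm n m N ^ (r : ℕ) * X (Sum.inr j)
  | Sum.inr l => X (Sum.inl l)

theorem pert_eq (θ : PIdx n m → ℝ) : pert n m θ = ∑ p, C (θ p) * phi n m p := by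
  unfold pert
  rw [Fintype.sum_sum_type, Fintype.sum_prod_type]
  congr 1
  refine Finset.sum_congr rfl fun N _ => ?_
  rw [Fintype.sum_prod_type]
  refine Finset.sum_congr rfl fun r _ => ?_
  rw [Fintype.sum_option, mul_add]
  congr 1
  · rw [mul_comm]; rfl
  · rw [Finset.mul_sum]
    refine Finset.sum_congr rfl fun j _ => ?_
    change _ = C (θ (Sum.inl (N, r, some j))) * (linForm n m N ^ (r : ℕ) * X (Sum.inr j))
    ring

/-- the linear form as a function -/
noncomputable def uf (N : ℕ) (y : Fin m → ℝ) : ℝ := ∑ j : Fin m, (N : ℝ) ^ (j : ℕ) * y j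

theorem ev_linForm (N : ℕ) (x : Fin n → ℝ) (y : Fin m → ℝ) : ev (linForm n m N) x y = uf N y := by
  simp [ev, linForm, uf]

theorem pderiv_linForm_inr (N : ℕ) (j : Fin m) :
    pderiv (Sum.inr j) (linForm n m N) = C ((N : ℝ) ^ (j : ℕ)) := by
  classical
  unfold linForm
  rw [map_sum, Finset.sum_eq_single j]
  · rw [pderiv_C_mul, pderiv_X_self, mul_one]
  · intro j' _ hj
    rw [pderiv_C_mul, pderiv_X_of_ne (fun h => hj (Sum.inr.inj h)), mul_zero]
  · intro h
    exact absurd (Finset.mem_univ _) h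

theorem pderiv_linForm_inl (N : ℕ) (l : Fin n) : pderiv (Sum.inl l) (linForm n m N) = 0 := by
  classical
  unfold linForm
  rw [map_sum]
  refine Finset.sum_eq_zero fun j _ => ?_
  rw [pderiv_C_mul, pderiv_X_of_ne (by simp), mul_zero]

theorem ev_phi_none (N : Fin (numForms n m)) (r : Fin (2 * (n + 1))) (x : Fin n → ℝ)
    (y : Fin m → ℝ) : ev (phi n m (Sum.inl (N, r, none))) x y = uf N y ^ (r : ℕ) := by
  rw [← ev_linForm (n := n) N x y]
  simp [ev, phi]

theorem ev_phi_some (N : Fin (numForms n m)) (r : Fin (2 * (n + 1))) (j : Fin m) (x : Fin n → ℝ)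
    (y : Fin m → ℝ) : ev (phi n m (Sum.inl (N, r, some j))) x y = uf N y ^ (r : ℕ) * y j := by
  rw [← ev_linForm (n := n) N x y]
  simp [ev, phi]

theorem ev_phi_inr (l : Fin n) (x : Fin n → ℝ) (y : Fin m → ℝ) :
    ev (phi n m (Sum.inr l)) x y = x l := by
  simp [ev, phi]

theorem ev_dr_phi_none (N : Fin (numForms n m)) (r : Fin (2 * (n + 1))) (j : Fin m)
    (x : Fin n → ℝ) (y : Fin m → ℝ) :
    ev (pderiv (Sum.inr j) (phi n m (Sum.inl (N, r, none)))) x y =
      (r : ℕ) * uf N y ^ ((r : ℕ) - 1) * ((N : ℕ) : ℝ) ^ (j : ℕ) := by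
  rw [← ev_linForm (n := n) N x y]
  simp only [phi, Derivation.leibniz_pow, pderiv_linForm_inr, ev, smul_eq_mul,
    nsmul_eq_mul, map_mul, map_pow, map_natCast]
  ring

theorem ev_dr_phi_some (N : Fin (numForms n m)) (r : Fin (2 * (n + 1))) (j j' : Fin m)
    (x : Fin n → ℝ) (y : Fin m → ℝ) :
    ev (pderiv (Sum.inr j) (phi n m (Sum.inl (N, r, some j')))) x y =
      (r : ℕ) * uf N y ^ ((r : ℕ) - 1) * ((N : ℕ) : ℝ) ^ (j : ℕ) * y j' +
        uf N y ^ (r : ℕ) * (if j' = j then 1 else 0) := by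
  classical
  rw [← ev_linForm (n := n) N x y]
  simp only [phi, pderiv_mul, Derivation.leibniz_pow, pderiv_linForm_inr, ev, smul_eq_mul,
    nsmul_eq_mul, map_mul, map_pow, map_add, map_natCast, aeval_X]
  by_cases h : j' = j
  · subst h
    rw [pderiv_X_self, if_pos rfl, map_one, Sum.elim_inr]
    ring
  · rw [pderiv_X_of_ne (fun h' => h (Sum.inr.inj h')), if_neg h, map_zero, Sum.elim_inr]
    ring

theorem ev_dr_phi_inr (l : Fin n) (j : Fin m) (x : Fin n → ℝ) (y : Fin m → ℝ) :
    ev (pderiv (Sum.inr j) (phi n m (Sum.inr l))) x y = 0 := by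
  classical
  simp only [phi]
  rw [pderiv_X_of_ne (by simp)]
  simp [ev]

theorem ev_dl_phi_inl (q : Fin (numForms n m) × Fin (2 * (n + 1)) × Option (Fin m)) (l : Fin n)
    (x : Fin n → ℝ) (y : Fin m → ℝ) :
    ev (pderiv (Sum.inl l) (phi n m (Sum.inl q))) x y = 0 := by
  classical
  obtain ⟨N, r, j | j⟩ := q
  · simp only [phi, Derivation.leibniz_pow, pderiv_linForm_inl]
    simp [ev]
  · simp only [phi, pderiv_mul, Derivation.leibniz_pow, pderiv_linForm_inl]
    rw [pderiv_X_of_ne (by simp)]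
    simp [ev]

theorem ev_dl_phi_inr (l l' : Fin n) (x : Fin n → ℝ) (y : Fin m → ℝ) :
    ev (pderiv (Sum.inl l) (phi n m (Sum.inr l'))) x y = if l' = l then 1 else 0 := by
  classical
  simp only [phi]
  by_cases h : l' = l
  · subst h
    simp [ev]
  · rw [pderiv_X_of_ne (fun h' => h (Sum.inl.inj h'))]
    simp [ev, h]

theorem totalDegree_phi (p : PIdx n m) : (phi n m p).totalDegree ≤ 2 * n + 2 := by
  have h1 : ∀ N : ℕ, (linForm n m N).totalDegree ≤ 1 := by
    intro N
    refine totalDegree_finsetSum_le fun j _ => ?_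
    refine (totalDegree_mul _ _).trans ?_
    rw [totalDegree_C, totalDegree_X]
  have h2 : ∀ (N : ℕ) (r : Fin (2 * (n + 1))), (linForm n m N ^ (r : ℕ)).totalDegree ≤ 2 * n + 1 := by
    intro N r
    refine (totalDegree_pow _ _).trans ?_
    have := r.2
    have h3 := h1 N
    nlinarith
  rcases p with ⟨N, r, j | j⟩ | l
  · exact (h2 N r).trans (by omega)
  · refine (totalDegree_mul _ _).trans ?_
    rw [totalDegree_X]
    have := h2 N r
    omega
  · simp only [phi]
    rw [totalDegree_X]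
    omega

end Pool.Agent.IsoPt
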