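import Pool.Agent.Lib.IsoPt.Growth

/-!
# Bound for the perturbation
-/

set_option autoImplicit false

namespace Pool.Agent.IsoPt

open MvPolynomial

lemma exists_big {m : ℕ} (y : Fin m → ℝ) (e : ℕ) : ∃ b : ℝ, 1 ≤ b ∧ (∀ j, |y j| ≤ b) ∧
    b ^ (2 * e) ≤ 1 + ∑ j, y j ^ (2 * e) := by
  have hnn : ∀ j, 0 ≤ y j ^ (2 * e) := fun j => by rw [pow_mul]; positivity
  by_cases h : ∀ j, |y j| ≤ 1
  · refine ⟨1, le_rfl, h, ?_⟩
    rw [one_pow]
    have := Finset.sum_nonneg fun (j : Fin m) (_ : j ∈ Finset.univ) => hnn j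
    linarith
  · push Not at h
    obtain ⟨j0, hj0⟩ := h
    have : Nonempty (Fin m) := ⟨j0⟩
    obtain ⟨j1, hj1⟩ := Finite.exists_max fun j => |y j|
    refine ⟨|y j1|, hj0.le.trans (hj1 j0), hj1, ?_⟩
    have h1 : |y j1| ^ (2 * e) = y j1 ^ (2 * e) := by rw [pow_mul, pow_mul, sq_abs]
    rw [h1]
    have := Finset.single_le_sum (fun (j : Fin m) _ => hnn j) (Finset.mem_univ j1)
    linarith

lemma ev_linForm_aux (n m N : ℕ) (x : Fin n → ℝ) (y : Fin m → ℝ) :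
    ev (linForm n m N) x y = ∑ j : Fin m, (N : ℝ) ^ (j : ℕ) * y j := by
  simp [ev, linForm]

lemma ev_pert (n m : ℕ) (θ : PIdx n m → ℝ) (x : Fin n → ℝ) (y : Fin m → ℝ) :
    ev (pert n m θ) x y = (∑ N : Fin (numForms n m), ∑ r : Fin (2 * (n + 1)),
      (∑ j : Fin m, ((N : ℕ) : ℝ) ^ (j : ℕ) * y j) ^ (r : ℕ) * (θ (Sum.inl (N, r, none)) +
        ∑ j : Fin m, θ (Sum.inl (N, r, some j)) * y j)) + ∑ l : Fin n, θ (Sum.inr l) * x l := by
  simp [ev, pert, linForm]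

theorem pert_bound {n m nb p q : ℕ} (θ : PIdx n m → ℝ) (hθ0 : ∀ i, 0 ≤ θ i)
    (hθ : ∀ i, θ i ≤ 2 ^ nb) (hq : n + 1 ≤ q) (hp : 1 ≤ p) (x : Fin n → ℝ) (y : Fin m → ℝ) :
    |ev (pert n m θ) x y| ≤
      pertBound n m nb * (1 + ∑ l, x l ^ (2 * p) + ∑ j, y j ^ (2 * q)) := by
  obtain ⟨b, hb1, hb, hbq⟩ := exists_big y q
  have hx0 : ∀ l, 0 ≤ x l ^ (2 * p) := fun l => by rw [pow_mul]; positivity
  have hSx : 0 ≤ ∑ l, x l ^ (2 * p) := Finset.sum_nonneg fun l _ => hx0 l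
  have hSy : 0 ≤ ∑ j, y j ^ (2 * q) := Finset.sum_nonneg fun j _ => by rw [pow_mul]; positivity
  have hb0 : 0 ≤ b := zero_le_one.trans hb1
  set NF := numForms n m with hNF
  have hNF1 : (1 : ℝ) ≤ NF := by
    have : 1 ≤ NF := by rw [hNF, numForms]; omega
    exact_mod_cast this
  set c : ℝ := (NF : ℝ) ^ m * (m + 1) with hc
  have hc1 : 1 ≤ c := by
    have h1 : (1 : ℝ) ≤ (NF : ℝ) ^ m := one_le_pow₀ hNF1
    have h2 : (1 : ℝ) ≤ m + 1 := by have := Nat.cast_nonneg (α := ℝ) m; linarith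
    exact one_le_mul_of_one_le_of_one_le h1 h2
  have hlin : ∀ N : Fin NF, |∑ j : Fin m, ((N : ℕ) : ℝ) ^ (j : ℕ) * y j| ≤ c * b := by
    intro N
    calc |∑ j : Fin m, ((N : ℕ) : ℝ) ^ (j : ℕ) * y j|
        ≤ ∑ j : Fin m, |((N : ℕ) : ℝ) ^ (j : ℕ) * y j| := Finset.abs_sum_le_sum_abs _ _
      _ ≤ ∑ _j : Fin m, (NF : ℝ) ^ m * b := by
          refine Finset.sum_le_sum fun j _ => ?_
          rw [abs_mul, abs_of_nonneg (by positivity : (0 : ℝ) ≤ ((N : ℕ) : ℝ) ^ (j : ℕ))]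
          refine mul_le_mul ?_ (hb j) (abs_nonneg _) (by positivity)
          calc ((N : ℕ) : ℝ) ^ (j : ℕ) ≤ (NF : ℝ) ^ (j : ℕ) := by
                refine pow_le_pow_left₀ (by positivity) ?_ _
                exact_mod_cast N.2.le
            _ ≤ (NF : ℝ) ^ m := pow_le_pow_right₀ hNF1 j.2.le
      _ = m * ((NF : ℝ) ^ m * b) := by simp
      _ ≤ c * b := by
          rw [hc]
          have : 0 ≤ (NF : ℝ) ^ m * b := by positivity
          nlinarith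
  have hterm : ∀ (N : Fin NF) (r : Fin (2 * (n + 1))),
      |(∑ j : Fin m, ((N : ℕ) : ℝ) ^ (j : ℕ) * y j) ^ (r : ℕ) * (θ (Sum.inl (N, r, none)) +
        ∑ j : Fin m, θ (Sum.inl (N, r, some j)) * y j)| ≤
      2 ^ nb * (c ^ (2 * (n + 1)) * (m + 1)) * (1 + ∑ j, y j ^ (2 * q)) := by
    intro N r
    have h1 : |θ (Sum.inl (N, r, none)) + ∑ j : Fin m, θ (Sum.inl (N, r, some j)) * y j| ≤
        2 ^ nb * (m + 1) * b := by
      calc _ ≤ |θ (Sum.inl (N, r, none))| + |∑ j : Fin m, θ (Sum.inl (N, r, some j)) * y j| :=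
            abs_add_le _ _
        _ ≤ 2 ^ nb * b + ∑ j : Fin m, 2 ^ nb * b := by
            refine add_le_add ?_ ?_
            · rw [abs_of_nonneg (hθ0 _)]
              calc θ (Sum.inl (N, r, none)) ≤ 2 ^ nb := hθ _
                _ = 2 ^ nb * 1 := (mul_one _).symm
                _ ≤ 2 ^ nb * b := by gcongr
            · refine (Finset.abs_sum_le_sum_abs _ _).trans (Finset.sum_le_sum fun j _ => ?_)
              rw [abs_mul, abs_of_nonneg (hθ0 _)]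
              exact mul_le_mul (hθ _) (hb j) (abs_nonneg _) (by positivity)
        _ = 2 ^ nb * (m + 1) * b := by simp; ring
    have h2 : |(∑ j : Fin m, ((N : ℕ) : ℝ) ^ (j : ℕ) * y j) ^ (r : ℕ)| ≤
        (c * b) ^ (2 * (n + 1) - 1) := by
      rw [abs_pow]
      calc _ ≤ (c * b) ^ (r : ℕ) := pow_le_pow_left₀ (abs_nonneg _) (hlin N) _
        _ ≤ (c * b) ^ (2 * (n + 1) - 1) := by
            refine pow_le_pow_right₀ (one_le_mul_of_one_le_of_one_le hc1 hb1) ?_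
            have := r.2
            omega
    rw [abs_mul]
    calc _ ≤ (c * b) ^ (2 * (n + 1) - 1) * (2 ^ nb * (m + 1) * b) :=
          mul_le_mul h2 h1 (abs_nonneg _) (by positivity)
      _ = 2 ^ nb * (m + 1) * c ^ (2 * (n + 1) - 1) * b ^ (2 * (n + 1)) := by
          have h3 : b ^ (2 * (n + 1)) = b ^ (2 * (n + 1) - 1) * b := by
            rw [← pow_succ]; congr 1
          rw [h3, mul_pow]; ring
      _ ≤ 2 ^ nb * (m + 1) * c ^ (2 * (n + 1)) * (1 + ∑ j, y j ^ (2 * q)) := by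
          have h4 : b ^ (2 * (n + 1)) ≤ 1 + ∑ j, y j ^ (2 * q) :=
            (pow_le_pow_right₀ hb1 (by omega)).trans hbq
          have h5 : c ^ (2 * (n + 1) - 1) ≤ c ^ (2 * (n + 1)) := pow_le_pow_right₀ hc1 (by omega)
          gcongr
      _ = _ := by ring
  have hsumx : |∑ l : Fin n, θ (Sum.inr l) * x l| ≤ 2 ^ nb * (n + ∑ l, x l ^ (2 * p)) := by
    calc _ ≤ ∑ l : Fin n, |θ (Sum.inr l) * x l| := Finset.abs_sum_le_sum_abs _ _
      _ ≤ ∑ l : Fin n, 2 ^ nb * (1 + x l ^ (2 * p)) := by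
          refine Finset.sum_le_sum fun l _ => ?_
          rw [abs_mul, abs_of_nonneg (hθ0 _)]
          refine mul_le_mul (hθ _) ?_ (abs_nonneg _) (by positivity)
          rcases le_total |x l| 1 with h | h
          · linarith [hx0 l]
          · have h1 : |x l| ^ (2 * p) = x l ^ (2 * p) := by rw [pow_mul, pow_mul, sq_abs]
            have h2 : |x l| ^ 1 ≤ |x l| ^ (2 * p) := pow_le_pow_right₀ h (by omega)
            rw [pow_one, h1] at h2
            linarith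
      _ = 2 ^ nb * (n + ∑ l, x l ^ (2 * p)) := by
          rw [← Finset.mul_sum, Finset.sum_add_distrib]; simp
  have hsumy : |∑ N : Fin NF, ∑ r : Fin (2 * (n + 1)),
      (∑ j : Fin m, ((N : ℕ) : ℝ) ^ (j : ℕ) * y j) ^ (r : ℕ) * (θ (Sum.inl (N, r, none)) +
        ∑ j : Fin m, θ (Sum.inl (N, r, some j)) * y j)| ≤
      2 ^ nb * ((NF : ℝ) * (2 * (n + 1)) * c ^ (2 * (n + 1)) * (m + 1)) *
        (1 + ∑ j, y j ^ (2 * q)) := by
    calc _ ≤ ∑ N : Fin NF, ∑ r : Fin (2 * (n + 1)),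
          |(∑ j : Fin m, ((N : ℕ) : ℝ) ^ (j : ℕ) * y j) ^ (r : ℕ) * (θ (Sum.inl (N, r, none)) +
          ∑ j : Fin m, θ (Sum.inl (N, r, some j)) * y j)| :=
          (Finset.abs_sum_le_sum_abs _ _).trans
            (Finset.sum_le_sum fun N _ => Finset.abs_sum_le_sum_abs _ _)
      _ ≤ ∑ N : Fin NF, ∑ r : Fin (2 * (n + 1)),
          2 ^ nb * (c ^ (2 * (n + 1)) * (m + 1)) * (1 + ∑ j, y j ^ (2 * q)) :=
          Finset.sum_le_sum fun N _ => Finset.sum_le_sum fun r _ => hterm N r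
      _ = _ := by simp; ring
  rw [ev_pert]
  refine (abs_add_le _ _).trans ?_
  refine (add_le_add hsumy hsumx).trans ?_
  rw [pertBound]
  have hA : 0 ≤ (2 : ℝ) ^ nb * ((NF : ℝ) * (2 * (n + 1)) * c ^ (2 * (n + 1)) * (m + 1)) := by
    positivity
  have hn0 : (0 : ℝ) ≤ n := Nat.cast_nonneg n
  have h2 : (0 : ℝ) < 2 ^ nb := by positivity
  set A := (2 : ℝ) ^ nb * ((NF : ℝ) * (2 * (n + 1)) * c ^ (2 * (n + 1)) * (m + 1)) with hAdef
  set Sx := ∑ l, x l ^ (2 * p)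
  set Sy := ∑ j, y j ^ (2 * q)
  calc A * (1 + Sy) + 2 ^ nb * (n + Sx)
      ≤ A * (1 + Sx + Sy) + 2 ^ nb * ((n + 1) * (1 + Sx + Sy)) := by
        have e1 : A * (1 + Sy) ≤ A * (1 + Sx + Sy) := by
          apply mul_le_mul_of_nonneg_left _ hA; linarith
        have e2 : (n : ℝ) + Sx ≤ (n + 1) * (1 + Sx + Sy) := by nlinarith
        have e3 : 2 ^ nb * ((n : ℝ) + Sx) ≤ 2 ^ nb * ((n + 1) * (1 + Sx + Sy)) :=
          mul_le_mul_of_nonneg_left e2 h2.le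
        linarith
    _ = _ := by rw [hAdef]; ring

end Pool.Agent.IsoPt
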