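import Pool.Agent.Lib.IsoPt.FlatPT

/-!
# Polynomial time: the normal form
-/

set_option autoImplicit false

namespace Pool.Agent.IsoPt

open Pool.Agent.PolyTime

section idx

variable {α β : Type} [Enc α] [Enc β] [DecidableEq β]

omit [Enc β] in
lemma idxOf_eq (l : List β) (x : β) : ∀ k : ℕ,
    (l.zipIdx k).lookup x = if x ∈ l then some (k + l.idxOf x) else none := by
  induction l with
  | nil => intro k; rfl
  | cons a l ih =>
    intro k
    rw [List.zipIdx_cons, List.lookup_cons, ih]
    by_cases h : x = a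
    · subst h
      simp
    · have h1 : (x == a) = false := by simpa using h
      have h2 : a ≠ x := fun h' => h h'.symm
      rw [h1]
      simp only [List.mem_cons, h, false_or]
      rw [List.idxOf_cons_ne _ h2]
      by_cases h3 : x ∈ l
      · simp only [h3, if_true]
        congr 1
        omega
      · simp only [h3, if_false]

omit [Enc β] in
lemma idxOf_inst (i : BEq β) [h : @LawfulBEq β i] (x : β) (l : List β) :
    @List.idxOf β i x l = @List.idxOf β instBEqOfDecidableEq x l := by
  induction l with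
  | nil => rfl
  | cons a l ih =>
    rw [@List.idxOf_cons β a l x i, @List.idxOf_cons β a l x instBEqOfDecidableEq, ih]
    have h1 : (@BEq.beq β i a x) = decide (a = x) := by
      by_cases h2 : a = x
      · subst h2
        rw [decide_eq_true rfl]
        exact @beq_self_eq_true β i _ a
      · rw [decide_eq_false h2]
        exact @beq_false_of_ne β i _ a x h2
    have h3 : (@BEq.beq β instBEqOfDecidableEq a x) = decide (a = x) := rfl
    rw [h1, h3]

/-- position in a list -/
lemma PT.idxOf' [EncInj β] {x : α → β} {l : α → List β} (hx : PT x) (hl : PT l) :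
    PT fun a => @List.idxOf β instBEqOfDecidableEq (x a) (l a) := by
  have h1 : PT fun a => (l a).zipIdx.lookup (x a) := PT.lookup hx (by fun_prop)
  have h2 := PT.optionCases (o := fun a => (l a).zipIdx.lookup (x a))
    (f := fun a => (l a).length) (g := fun _ i => i) h1 (by fun_prop) (by fun_prop)
  refine h2.congr fun a => ?_
  rw [idxOf_eq]
  by_cases h : x a ∈ l a
  · simp [h]
  · simp [h]

/-- position in a list -/
lemma PT.idxOf [EncInj β] {i : BEq β} [@LawfulBEq β i] {x : α → β} {l : α → List β}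
    (hx : PT x) (hl : PT l) : PT fun a => @List.idxOf β i (x a) (l a) :=
  (PT.idxOf' hx hl).congr fun a => (idxOf_inst i (x a) (l a)).symm

omit [Enc β] in
lemma dedup_eq (l : List β) : l.reverse.foldl (fun acc a => if a ∈ acc then acc else a :: acc) [] =
    l.dedup := by
  rw [List.foldl_reverse]
  induction l with
  | nil => rfl
  | cons a l ih =>
    rw [List.foldr_cons, ih]
    by_cases h : a ∈ l
    · rw [List.dedup_cons_of_mem h, if_pos (List.mem_dedup.2 h)]
    · rw [List.dedup_cons_of_notMem h, if_neg (fun h' => h (List.mem_dedup.1 h'))]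

/-- remove duplicates -/
lemma PT.dedup [EncInj β] {l : α → List β} (hl : PT l) : PT fun a => (l a).dedup := by
  have h1 := PT.foldl (g := fun (_ : α) (acc : List β) (a : β) => if a ∈ acc then acc else a :: acc)
    (s := fun _ => []) (l := fun a => (l a).reverse)
    (PT.ite (PT.mem (by fun_prop) (by fun_prop)) (by fun_prop) (by fun_prop)) (by fun_prop)
    (by fun_prop) (B := fun a => sz (l a)) (PT.bdd hl) (by
      intro a l1 l2 h12
      have key2 : ∀ (l1 : List β) (acc : List β),
          sz (l1.foldl (fun acc a => if a ∈ acc then acc else a :: acc) acc) + 1 ≤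
            sz l1 + sz acc := by
        intro l1
        induction l1 with
        | nil => intro acc; rw [List.foldl_nil, sz_nil]; omega
        | cons b l1 ih =>
          intro acc
          rw [List.foldl_cons]
          refine (ih _).trans ?_
          rw [sz_cons]
          split_ifs
          · omega
          · rw [sz_cons]; omega
      have h2 := key2 l1 []
      have h3 : sz l1 ≤ sz (l a) := by
        have h4 := sz_append l1 l2
        rw [← h12, sz_reverse] at h4
        have := one_le_sz l2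
        omega
      rw [sz_nil] at h2
      omega)
  exact h1.congr fun a => dedup_eq _

end idx

section

variable {α : Type} [Enc α]

lemma ok_fm (ψ : Fm Nm) : ψ.toEx.ok := Fm.ok_toEx ψ

@[fun_prop] lemma PT.keysOf {ψ : α → Fm Nm} (hψ : PT ψ) : PT fun a => keysOf (ψ a) := by
  refine PT.filter (f := fun (_ : α) (q : ℕ × TN × TN) => decide (q.1 = 4) || decide (q.1 = 5))
    (by fun_prop) ?_
  exact PT.snd (PT.flatE (PT.fmToEx hψ) fun _ => Fm.ok_toEx _)

@[fun_prop] lemma PT.insT_aux {e : α → TN} (he : PT e) : PT fun a => (IsoPt.flatE (e a).toEx).2 :=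
  PT.snd (PT.flatE (PT.tmToEx he) fun _ => Tm.ok_toEx _)

end

/-- bound for the size of the witness variables -/
def zb (a : ℕ × List (ℕ × TN × TN)) : ℕ := 4 * (sz a.1 + sz a.2 + 2) + 30

lemma sz_zv (a : ℕ × List (ℕ × TN × TN)) (k : ℕ) (s t : TN) : sz (zv a.1 a.2 k s t) ≤ zb a := by
  have h1 : sz (zv a.1 a.2 k s t) = sz (1 : ℕ) + (sz (a.1 + a.2.idxOf (k, s, t)) + 1 + 1) + 1 + 4 := by
    rw [zv, vY, sz_tmvar, sz_cons, sz_cons, sz_nil]
  have h2 := sz_nat_le (a.1 + a.2.idxOf (k, s, t))
  have h3 := size_add_le a.1 (a.2.idxOf (k, s, t))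
  have h4 := size_lt_sz a.1
  have h5 : (a.2.idxOf (k, s, t)).size ≤ a.2.idxOf (k, s, t) := Nat.size_le.2 Nat.lt_two_pow_self
  have h6 : a.2.idxOf (k, s, t) ≤ a.2.length := List.idxOf_le_length
  have h7 := length_lt_sz a.2
  rw [h1, sz_1]
  unfold zb
  omega

lemma sz_sqT (t : TN) : sz (sqT t) ≤ 2 * sz t + 13 := by
  have := sz_mul t t
  unfold sqT
  omega

lemma sz_vN : sz vN = 15 := by
  rw [vN, sz_tmvar, sz_cons, sz_nil]
  have : sz (4 : ℕ) = 9 := by
    rw [sz_nat]
    have : Nat.bits 4 = [false, false, true] := by decide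
    rw [this]; rfl
  rw [this]

lemma sz_subT (s t : TN) : sz (subT s t) ≤ sz s + sz t + 39 := by
  have h1 := sz_mul vN t
  have h2 := sz_add s (.mul vN t)
  have h3 := sz_vN
  unfold subT
  omega

lemma sz_atomP (a : ℕ × List (ℕ × TN × TN)) (k : ℕ) (s t : TN) :
    sz (atomP a.1 a.2 k s t).1 ≤ 2 * (sz s + sz t) + 20 * zb a ∧
    sz (atomP a.1 a.2 k s t).2 ≤ 2 * (sz s + sz t) + 20 * zb a := by
  have hz := sz_zv a k s t
  have hb : 30 ≤ zb a := by unfold zb; omega
  unfold atomP
  split_ifs
  · have h1 := sz_subT s t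
    have h2 := sz_sqT (subT s t)
    have h3 := sz_mul (subT s t) (zv a.1 a.2 k s t)
    have h4 := sz_subT (.mul (subT s t) (zv a.1 a.2 k s t)) .one
    have h5 := sz_sqT (subT (.mul (subT s t) (zv a.1 a.2 k s t)) .one)
    have h6 := sz_one (V := Nm)
    constructor
    · simp only; omega
    · simp only; omega
  · have h1 := sz_subT s t
    have h1' := sz_subT t s
    have h2 := sz_sqT (zv a.1 a.2 k s t)
    have h3 := sz_mul (subT t s) (sqT (zv a.1 a.2 k s t))
    have h4 := sz_subT (.mul (subT t s) (sqT (zv a.1 a.2 k s t))) .one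
    have h5 := sz_sqT (subT (.mul (subT t s) (sqT (zv a.1 a.2 k s t))) .one)
    have h6 := sz_one (V := Nm)
    have h7 := sz_subT (subT s t) (sqT (zv a.1 a.2 k s t))
    have h8 := sz_sqT (subT (subT s t) (sqT (zv a.1 a.2 k s t)))
    constructor
    · simp only; omega
    · simp only; omega

lemma pn_sz1 (a : ℕ × List (ℕ × TN × TN)) (t : Ex Nm) : sz (pn a.1 a.2 t).1 ≤ 3 * sz t := by
  induction t with
  | var v => simp only [pn, sz_tmvar, sz_exvar]; omega
  | op0 k =>
    simp only [pn, sz_op0]
    split_ifs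
    · rw [sz_zero]; have := one_le_sz k; omega
    · rw [sz_one]; have := one_le_sz k; omega
  | op1 k b ih =>
    have h1 := sz_op1 k b
    have h2 := one_le_sz k
    have h3 := one_le_sz b
    simp only [pn, sz_zero]
    omega
  | op2 k b c ihb ihc =>
    have h1 := sz_op2 k b c
    have h2 := one_le_sz k
    have h3 := one_le_sz b
    have h4 := one_le_sz c
    simp only [pn]
    split_ifs
    · have := sz_add (pn a.1 a.2 b).1 (pn a.1 a.2 c).1; simp only; omega
    · have := sz_mul (pn a.1 a.2 b).1 (pn a.1 a.2 c).1; simp only; omega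
    · simp only [sz_zero]; omega
    · simp only [sz_zero]; omega
    · simp only [sz_zero]; omega

lemma pn_sz2 (a : ℕ × List (ℕ × TN × TN)) (t : Ex Nm) :
    sz (pn a.1 a.2 t).2.1 + sz (pn a.1 a.2 t).2.2 ≤ 52 * zb a * sz t := by
  have hb : 30 ≤ zb a := by unfold zb; omega
  have hz := sz_zero (V := Nm)
  have key : ∀ x : ℕ, 1 ≤ x → 14 ≤ 52 * zb a * x := by
    intro x hx
    nlinarith
  induction t with
  | var v => simp only [pn, hz]; exact key _ (one_le_sz _)
  | op0 k => simp only [pn, hz]; exact key _ (one_le_sz _)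
  | op1 k b ih =>
    have h1 := sz_op1 k b
    have h2 := one_le_sz k
    simp only [pn]
    have h4 : sz b ≤ sz (Ex.op1 k b) := by omega
    have h5 := Nat.mul_le_mul_left (52 * zb a) h4
    omega
  | op2 k b c ihb ihc =>
    have h1 := sz_op2 k b c
    have h2 := one_le_sz k
    have h3 := one_le_sz b
    have h4 := one_le_sz c
    have h8 : sz (Ex.op2 k b c) = sz b + sz c + sz k + 4 := by omega
    rw [h8]
    have h9 : 52 * zb a * (sz b + sz c + sz k + 4) = 52 * zb a * sz b + 52 * zb a * sz c +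
        52 * zb a * sz k + 52 * zb a * 4 := by ring
    have h10 := key (sz k) h2
    rw [h9]
    simp only [pn]
    split_ifs
    · simp only [hz]; omega
    · simp only [hz]; omega
    · have e1 := sz_add (pn a.1 a.2 b).2.1 (pn a.1 a.2 c).2.1
      have e2 := sz_mul (pn a.1 a.2 b).2.2 (pn a.1 a.2 c).2.2
      simp only
      omega
    · have e1 := sz_mul (pn a.1 a.2 b).2.1 (pn a.1 a.2 c).2.1
      have e2 := sz_add (pn a.1 a.2 b).2.2 (pn a.1 a.2 c).2.2
      simp only
      omega
    · have e1 := sz_atomP a k (pn a.1 a.2 b).1 (pn a.1 a.2 c).1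
      have e2 := pn_sz1 a b
      have e3 := pn_sz1 a c
      simp only
      have e4 : 12 * sz b ≤ 52 * zb a * sz b := by nlinarith
      have e5 : 12 * sz c ≤ 52 * zb a * sz c := by nlinarith
      omega

/-- step of the recursion -/
def pnStep (m₀ : ℕ) (ks : List (ℕ × TN × TN)) (k : ℕ) (a b : TN × TN × TN) : TN × TN × TN :=
  if k = 2 then (.add a.1 b.1, .zero, .zero)
  else if k = 3 then (.mul a.1 b.1, .zero, .zero)
  else if k = 7 then (.zero, .add a.2.1 b.2.1, .mul a.2.2 b.2.2)
  else if k = 8 then (.zero, .mul a.2.1 b.2.1, .add a.2.2 b.2.2)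
  else (.zero, atomP m₀ ks k a.1 b.1)

/-- The fold form of `pn`. -/
lemma pn_eq_fold (m₀ : ℕ) (ks : List (ℕ × TN × TN)) (t : Ex Nm) : pn m₀ ks t = t.fold
    (fun v => (Tm.var v, (.zero : TN), (.zero : TN)))
    (fun k => (if k = 0 then .zero else .one, .zero, .zero))
    (fun _ a => (.zero, a.2.2, a.2.1))
    (fun k a b => pnStep m₀ ks k a b) := by
  induction t with
  | var v => rfl
  | op0 k => rfl
  | op1 k a ih => simp only [pn, Ex.fold, ih]
  | op2 k a b iha ihb => simp only [pn, Ex.fold, iha, ihb, pnStep]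

section

variable {α : Type} [Enc α]

@[fun_prop] lemma PT.vY {j : α → ℕ} (hj : PT j) : PT fun a => vY (j a) := by
  unfold IsoPt.vY; fun_prop
@[fun_prop] lemma PT.vX {j : α → ℕ} (hj : PT j) : PT fun a => vX (j a) := by
  unfold IsoPt.vX; fun_prop
@[fun_prop] lemma PT.subT {s t : α → TN} (hs : PT s) (ht : PT t) : PT fun a => subT (s a) (t a) := by
  unfold IsoPt.subT; fun_prop

lemma PT.zv {m₀ k : α → ℕ} {ks : α → List (ℕ × TN × TN)} {s t : α → TN} (hm : PT m₀) (hk : PT k)
    (hks : PT ks) (hs : PT s) (ht : PT t) : PT fun a => zv (m₀ a) (ks a) (k a) (s a) (t a) := by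
  have h : PT fun a => (ks a).idxOf (k a, s a, t a) := PT.idxOf (by fun_prop) hks
  unfold IsoPt.zv
  fun_prop

lemma PT.atomP {m₀ k : α → ℕ} {ks : α → List (ℕ × TN × TN)} {s t : α → TN} (hm : PT m₀) (hk : PT k)
    (hks : PT ks) (hs : PT s) (ht : PT t) : PT fun a => atomP (m₀ a) (ks a) (k a) (s a) (t a) := by
  have h := PT.zv hm hk hks hs ht
  unfold IsoPt.atomP
  exact PT.ite (by fun_prop) (by fun_prop) (by fun_prop)

lemma PT.pnStep {m₀ k : α → ℕ} {ks : α → List (ℕ × TN × TN)} {s t : α → TN × TN × TN}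
    (hm : PT m₀) (hks : PT ks) (hk : PT k) (hs : PT s) (ht : PT t) :
    PT fun a => pnStep (m₀ a) (ks a) (k a) (s a) (t a) := by
  have h := PT.atomP hm hk hks (PT.fst hs) (PT.fst ht)
  unfold IsoPt.pnStep
  refine PT.ite (by fun_prop) (by fun_prop) (PT.ite (by fun_prop) (by fun_prop)
    (PT.ite (by fun_prop) (by fun_prop) (PT.ite (by fun_prop) (by fun_prop) (by fun_prop))))

/-- The normal form is computable in polynomial time. -/
lemma PT.gOf {m₀ : α → ℕ} {ψ : α → Fm Nm} (hm : PT m₀) (hψ : PT ψ) :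
    PT fun a => gOf (m₀ a) (ψ a) := by
  have key : PT fun a : (ℕ × List (ℕ × TN × TN)) × Fm Nm => pn a.1.1 a.1.2 a.2.toEx := by
    simp only [pn_eq_fold]
    refine PT.exFold (σ := TN × TN × TN)
      (fun a : (ℕ × List (ℕ × TN × TN)) × Fm Nm => a.2.toEx)
      (PT.fmToEx (by fun_prop)) (fun a => Fm.ok_toEx _)
      (fun _ v => (Tm.var v, (.zero : TN), (.zero : TN)))
      (fun _ k => (if k = 0 then .zero else .one, .zero, .zero))
      (fun _ _ a => (.zero, a.2.2, a.2.1))
      (fun p k a b => IsoPt.pnStep p.1.1 p.1.2 k a b) ?_ ?_ ?_ ?_ ?_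
    · fun_prop
    · exact PT.pair (PT.ite (by fun_prop) (by fun_prop) (by fun_prop)) (by fun_prop)
    · fun_prop
    · exact PT.pnStep (by fun_prop) (by fun_prop) (by fun_prop) (by fun_prop) (by fun_prop)
    · refine ⟨60 * 60, 2, fun a t => ?_⟩
      rw [← pn_eq_fold, sz_prod, sz_prod]
      have h1 := pn_sz1 a.1 t
      have h2 := pn_sz2 a.1 t
      have h3 := one_le_sz t
      have h4 : zb a.1 ≤ 60 * sz a := by
        have h5 : sz a = sz a.1.1 + sz a.1.2 + 1 + sz a.2 + 1 := by
          rw [sz_prod, sz_prod]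
        have := one_le_sz a.2
        unfold zb
        omega
      have h6 : 52 * zb a.1 * sz t ≤ 52 * (60 * sz a) * sz t := by gcongr
      have h7 := one_le_sz a
      nlinarith
  have h2 : PT fun a => pn (m₀ a) (IsoPt.keysOf (ψ a)) (ψ a).toEx :=
    key.comp (f := fun a => ((m₀ a, IsoPt.keysOf (ψ a)), ψ a)) (by fun_prop)
  exact PT.snd (PT.snd h2)

end

end Pool.Agent.IsoPt
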