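import Pool.Agent.Lib.IsoPt.Defs

/-!
# Evaluation, continuity and partial derivatives of polynomials (used in chunk A)
-/

set_option autoImplicit false

namespace Pool.Agent.IsoPt

namespace TB

open MvPolynomial Topology

section basic

variable {ι K : Type*} [CommRing K] [Algebra K ℝ]

lemma continuous_aeval (P : MvPolynomial ι K) : Continuous (fun v : ι → ℝ => aeval v P) := by
  induction P using MvPolynomial.induction_on with
  | C a => simp only [aeval_C]; exact continuous_const
  | add p q hp hq => simp only [map_add]; exact hp.add hq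
  | mul_X p i hp => simp only [map_mul, aeval_X]; exact hp.mul (continuous_apply i)

lemma hasDerivAt_aeval [DecidableEq ι] (P : MvPolynomial ι K) (v : ι → ℝ) (i : ι) :
    HasDerivAt (fun s : ℝ => aeval (Function.update v i s) P) (aeval v (pderiv i P)) (v i) := by
  induction P using MvPolynomial.induction_on with
  | C a =>
    simp only [aeval_C, pderiv_C, map_zero]
    exact hasDerivAt_const _ _
  | add p q hp hq => simp only [map_add]; exact hp.add hq
  | mul_X p k hp =>
    have hk : HasDerivAt (fun s : ℝ => Function.update v i s k) (if k = i then 1 else 0) (v i) := by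
      by_cases h : k = i
      · subst h
        simp only [Function.update_self, if_true]
        exact hasDerivAt_id _
      · simp only [Function.update_of_ne h, if_neg h]
        exact hasDerivAt_const _ _
    have h := hp.mul hk
    simp only [map_mul, aeval_X]
    refine h.congr_deriv ?_
    rw [Function.update_eq_self, Derivation.leibniz, pderiv_X]
    simp only [smul_eq_mul, map_add, map_mul, aeval_X, Pi.single_apply]
    by_cases h : k = i
    · subst h
      simp
      ring
    · rw [if_neg h, if_neg (fun h' => h h')]
      simp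
      ring

end basic

section ev

variable {σ τ K : Type*} [CommRing K] [Algebra K ℝ]

lemma continuous_ev (P : MvPolynomial (σ ⊕ τ) K) :
    Continuous (fun v : (σ → ℝ) × (τ → ℝ) => ev P v.1 v.2) := by
  unfold ev
  refine (continuous_aeval P).comp (continuous_pi fun i => ?_)
  rcases i with i | i
  · exact (continuous_apply i).comp continuous_fst
  · exact (continuous_apply i).comp continuous_snd

lemma hasDerivAt_ev [DecidableEq σ] [DecidableEq τ] (P : MvPolynomial (σ ⊕ τ) K) (y : σ → ℝ)
    (b : τ → ℝ) (j : σ) :
    HasDerivAt (fun s : ℝ => ev P (Function.update y j s) b) (ev (pderiv (Sum.inl j) P) y b) (y j) := by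
  have h := hasDerivAt_aeval P (Sum.elim y b) (Sum.inl j)
  unfold ev
  simp only [Sum.elim_inl] at h
  have e : (fun s : ℝ => aeval (Sum.elim (Function.update y j s) b) P) =
      fun s : ℝ => aeval (Function.update (Sum.elim y b) (Sum.inl j) s) P := by
    ext s
    rw [Sum.update_elim_inl]
  rw [e]
  exact h

/-- A local maximum is a critical point. -/
lemma crit_of_isLocalMax (P : MvPolynomial (σ ⊕ τ) K) {y : σ → ℝ}
    {b : τ → ℝ} (h : IsLocalMax (fun y => ev P y b) y) (j : σ) :
    ev (pderiv (Sum.inl j) P) y b = 0 := by
  classical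
  have h1 : IsLocalMax ((fun y => ev P y b) ∘ fun s : ℝ => Function.update y j s) (y j) := by
    refine IsLocalMax.comp_continuous (g := fun s : ℝ => Function.update y j s) ?_ ?_
    · rw [Function.update_eq_self]
      exact h
    · exact (continuous_const.update j continuous_id).continuousAt
  exact h1.hasDerivAt_eq_zero (hasDerivAt_ev P y b j)

/-- A local minimum is a critical point. -/
lemma crit_of_isLocalMin (P : MvPolynomial (σ ⊕ τ) K) {y : σ → ℝ}
    {b : τ → ℝ} (h : IsLocalMin (fun y => ev P y b) y) (j : σ) :
    ev (pderiv (Sum.inl j) P) y b = 0 := by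
  classical
  have h1 : IsLocalMin ((fun y => ev P y b) ∘ fun s : ℝ => Function.update y j s) (y j) := by
    refine IsLocalMin.comp_continuous (g := fun s : ℝ => Function.update y j s) ?_ ?_
    · rw [Function.update_eq_self]
      exact h
    · exact (continuous_const.update j continuous_id).continuousAt
  exact h1.hasDerivAt_eq_zero (hasDerivAt_ev P y b j)

end ev

lemma norm_pow_le_sum {n : ℕ} {r : ℕ} (hr : 0 < r) (x : Fin n → ℝ) :
    ‖x‖ ^ (2 * r) ≤ ∑ l, x l ^ (2 * r) := by
  have hS : 0 ≤ ∑ l, x l ^ (2 * r) := Finset.sum_nonneg fun l _ => (even_two_mul r).pow_nonneg _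
  rcases isEmpty_or_nonempty (Fin n) with hE | hE
  · have : ‖x‖ = 0 := by
      have : x = 0 := Subsingleton.elim _ _
      rw [this, norm_zero]
    rw [this, zero_pow (by omega)]
    exact hS
  · obtain ⟨l, hl⟩ : ∃ l, ‖x‖ = ‖x l‖ := by
      obtain ⟨l, _, hl⟩ := Finset.exists_max_image Finset.univ (fun l => ‖x l‖) Finset.univ_nonempty
      refine ⟨l, le_antisymm ?_ (norm_le_pi_norm x l)⟩
      exact (pi_norm_le_iff_of_nonempty x).2 fun k => hl k (Finset.mem_univ k)
    rw [hl]
    have h1 : ‖x l‖ ^ (2 * r) = x l ^ (2 * r) := by
      rw [Real.norm_eq_abs]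
      exact (even_two_mul r).pow_abs _
    rw [h1]
    exact Finset.single_le_sum (f := fun l => x l ^ (2 * r))
      (fun l _ => (even_two_mul r).pow_nonneg _) (Finset.mem_univ l)

end TB

end Pool.Agent.IsoPt
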