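import Pool.Agent.Lib.IsoPt.Elim
import Pool.Agent.Lib.IsoPt.Extreme
import Pool.Agent.Lib.IsoPt.TBNorm
import Pool.Agent.Lib.IsoPt.TBEval

/-!
# The algebraic part of the two-block theorem: the polynomials `χ` and `ρ`
-/

set_option autoImplicit false

namespace Pool.Agent.IsoPt

namespace TB

open MvPolynomial Filter Topology

variable {n m : ℕ}

lemma ev_fermat {σ τ K : Type*} [Fintype σ] [CommRing K] [Algebra K ℝ] (z : τ) (q : ℕ)
    (P : MvPolynomial (σ ⊕ τ) K) (y : σ → ℝ) (b : τ → ℝ) :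
    ev (fermat z q P) y b = ev P y b + b z * ∑ j, y j ^ (2 * q) := by
  simp [ev, fermat]

/-- The embedding of variables. -/
def emb (n m : ℕ) : Fin n ⊕ Fin m → Fin m ⊕ (Fin n ⊕ Fin 2) :=
  Sum.elim (fun l => Sum.inr (Sum.inl l)) (fun j => Sum.inl j)

/-- The polynomial `g (1 + |y|²)^κ - t² ∑ x^(2p)`. -/
noncomputable def P1 (g : MvPolynomial (Fin n ⊕ Fin m) ℤ) (κ p : ℕ) :
    MvPolynomial (Fin m ⊕ (Fin n ⊕ Fin 2)) ℤ :=
  rename (emb n m) g * (1 + ∑ j : Fin m, X (Sum.inl j) ^ 2) ^ κ -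
    X (Sum.inr (Sum.inr 0)) ^ 2 * ∑ l : Fin n, X (Sum.inr (Sum.inl l)) ^ (2 * p)

lemma ev_P1 (g : MvPolynomial (Fin n ⊕ Fin m) ℤ) (κ p : ℕ) (x : Fin n → ℝ) (y : Fin m → ℝ)
    (t ζ : ℝ) : ev (P1 g κ p) y (Sum.elim x ![t, ζ]) =
      ev g x y * (1 + ∑ j, y j ^ 2) ^ κ - t ^ 2 * ∑ l, x l ^ (2 * p) := by
  have h : aeval (Sum.elim y (Sum.elim x ![t, ζ])) (rename (emb n m) g) = ev g x y := by
    rw [aeval_rename, ev]
    congr 1
    congr 1
    ext i
    rcases i with i | i <;> rfl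
  simp only [ev, P1, map_sub, map_mul, map_pow, map_add, map_one, map_sum, aeval_X, Sum.elim_inl,
    Sum.elim_inr, Matrix.cons_val_zero]
  rw [h]
  rfl

lemma ev_fermat_P1 (g : MvPolynomial (Fin n ⊕ Fin m) ℤ) (κ p q : ℕ) (x : Fin n → ℝ)
    (y : Fin m → ℝ) (W : ℝ) {t : ℝ} (ht : t ≠ 0) (ζ : ℝ) :
    ev (fermat (Sum.inr 1) q (P1 g κ p)) y (Sum.elim x ![t, ζ]) =
      t * (game g κ p q W t ζ x y + W) := by
  rw [ev_fermat, ev_P1, game]
  simp only [Sum.elim_inr, Matrix.cons_val_one]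
  field_simp
  simp
  ring

lemma totalDegree_P1 (g : MvPolynomial (Fin n ⊕ Fin m) ℤ) {d κ p q : ℕ} (hd : g.totalDegree ≤ d)
    (hq : d + 2 * κ < 2 * q) (hq' : 2 * p + 2 < 2 * q) : (P1 g κ p).totalDegree ≤ 2 * q - 1 := by
  unfold P1
  refine (totalDegree_sub _ _).trans (max_le ?_ ?_)
  · refine (totalDegree_mul _ _).trans ?_
    have h1 : (rename (emb n m) g).totalDegree ≤ d := (totalDegree_rename_le _ _).trans hd
    have h2 : ((1 + ∑ j : Fin m, X (Sum.inl j) ^ 2) ^ κ :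
        MvPolynomial (Fin m ⊕ (Fin n ⊕ Fin 2)) ℤ).totalDegree ≤ κ * 2 := by
      refine (totalDegree_pow _ _).trans (Nat.mul_le_mul_left _ ?_)
      refine (totalDegree_add _ _).trans (max_le (by simp) ?_)
      refine totalDegree_finsetSum_le fun j _ => ?_
      refine (totalDegree_pow _ _).trans ?_
      rw [totalDegree_X]
    omega
  · refine (totalDegree_mul _ _).trans ?_
    have h1 : ((X (Sum.inr (Sum.inr 0)) ^ 2 :
        MvPolynomial (Fin m ⊕ (Fin n ⊕ Fin 2)) ℤ)).totalDegree ≤ 2 := by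
      refine (totalDegree_pow _ _).trans ?_
      rw [totalDegree_X]
    have h2 : ((∑ l : Fin n, X (Sum.inr (Sum.inl l)) ^ (2 * p) :
        MvPolynomial (Fin m ⊕ (Fin n ⊕ Fin 2)) ℤ)).totalDegree ≤ 2 * p := by
      refine totalDegree_finsetSum_le fun j _ => ?_
      refine (totalDegree_pow _ _).trans ?_
      rw [totalDegree_X, mul_one]
    omega

lemma norm1_P1 (g : MvPolynomial (Fin n ⊕ Fin m) ℤ) {κ p : ℕ} {H : ℝ} (hH : norm1 g ≤ H) :
    norm1 (P1 g κ p) ≤ H * (1 + m) ^ κ + n := by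
  unfold P1
  rw [sub_eq_add_neg]
  refine (norm1_add_le _ _).trans ?_
  rw [norm1_neg]
  refine add_le_add ?_ ?_
  · refine (norm1_mul_le _ _).trans ?_
    refine mul_le_mul ((norm1_rename_le _ _).trans hH) ?_ (norm1_nonneg _)
      ((norm1_nonneg g).trans hH)
    refine (norm1_pow_le _ _).trans (pow_le_pow_left₀ (norm1_nonneg _) ?_ _)
    refine (norm1_add_le _ _).trans (add_le_add norm1_one_le ?_)
    refine (norm1_sum_le _ _).trans ?_
    have : ∀ j : Fin m, norm1 (X (Sum.inl j) ^ 2 : MvPolynomial (Fin m ⊕ (Fin n ⊕ Fin 2)) ℤ) ≤ 1 := by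
      intro j
      refine (norm1_pow_le _ _).trans ?_
      rw [norm1_X, one_pow]
    refine (Finset.sum_le_sum fun j _ => this j).trans ?_
    simp
  · refine (norm1_mul_le _ _).trans ?_
    have h1 : norm1 (X (Sum.inr (Sum.inr 0)) ^ 2 : MvPolynomial (Fin m ⊕ (Fin n ⊕ Fin 2)) ℤ) ≤ 1 := by
      refine (norm1_pow_le _ _).trans ?_
      rw [norm1_X, one_pow]
    have h2 : norm1 (∑ l : Fin n, X (Sum.inr (Sum.inl l)) ^ (2 * p) :
        MvPolynomial (Fin m ⊕ (Fin n ⊕ Fin 2)) ℤ) ≤ n := by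
      refine (norm1_sum_le _ _).trans ?_
      have : ∀ l : Fin n, norm1 (X (Sum.inr (Sum.inl l)) ^ (2 * p) :
          MvPolynomial (Fin m ⊕ (Fin n ⊕ Fin 2)) ℤ) ≤ 1 := by
        intro l
        refine (norm1_pow_le _ _).trans ?_
        rw [norm1_X, one_pow]
      refine (Finset.sum_le_sum fun l _ => this l).trans ?_
      simp
    calc _ ≤ 1 * (n : ℝ) := mul_le_mul h1 h2 (norm1_nonneg _) zero_le_one
      _ = n := one_mul _

/-- The substitution `s = t (T + W)`. -/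
noncomputable def phi (n W : ℕ) : Option (Fin n ⊕ Fin 2) → MvPolynomial (Fin n ⊕ Option (Fin 3)) ℤ :=
  fun o => o.elim (X (Sum.inr (some 1)) * (X (Sum.inr (some 0)) + C (W : ℤ)))
    (Sum.elim (fun l => X (Sum.inl l)) ![X (Sum.inr (some 1)), X (Sum.inr (some 2))])

/-- The vector of parameters of the outer elimination. -/
def bvec (z T t ζ : ℝ) : Option (Fin 3) → ℝ := fun o => o.elim z ![T, t, ζ]

lemma ev_bind₁_phi (N : MvPolynomial (Option (Fin n ⊕ Fin 2)) ℤ) (W : ℕ) (x : Fin n → ℝ)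
    (z T t ζ : ℝ) :
    ev (bind₁ (phi n W) N) x (bvec z T t ζ) =
      aeval (fun o : Option (Fin n ⊕ Fin 2) => o.elim (t * (T + W)) (Sum.elim x ![t, ζ])) N := by
  unfold ev
  rw [aeval_bind₁]
  congr 1
  congr 1
  ext o
  rcases o with _ | (l | i)
  · simp [phi, bvec]
  · simp [phi]
  · fin_cases i <;> simp [phi, bvec]

lemma totalDegree_phi (W : ℕ) (o : Option (Fin n ⊕ Fin 2)) : (phi n W o).totalDegree ≤ 2 := by
  rcases o with _ | (l | i)
  · simp only [phi, Option.elim]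
    refine (totalDegree_mul _ _).trans ?_
    have h1 : (X (Sum.inr (some 1)) : MvPolynomial (Fin n ⊕ Option (Fin 3)) ℤ).totalDegree ≤ 1 := by
      rw [totalDegree_X]
    have h2 : (X (Sum.inr (some 0)) + C (W : ℤ) :
        MvPolynomial (Fin n ⊕ Option (Fin 3)) ℤ).totalDegree ≤ 1 := by
      refine (totalDegree_add _ _).trans (max_le ?_ ?_)
      · rw [totalDegree_X]
      · rw [totalDegree_C]; exact zero_le_one
    omega
  · simp only [phi, Option.elim, Sum.elim_inl]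
    rw [totalDegree_X]; norm_num
  · fin_cases i <;> simp [phi, totalDegree_X]

lemma norm1_phi (W : ℕ) (o : Option (Fin n ⊕ Fin 2)) : norm1 (phi n W o) ≤ 1 + W := by
  have hW : (0 : ℝ) ≤ W := Nat.cast_nonneg _
  rcases o with _ | (l | i)
  · simp only [phi, Option.elim]
    refine (norm1_mul_le _ _).trans ?_
    rw [norm1_X, one_mul]
    refine (norm1_add_le _ _).trans ?_
    rw [norm1_X, norm1_C]
    simp
  · simp only [phi, Option.elim, Sum.elim_inl]
    rw [norm1_X]; linarith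
  · fin_cases i <;> simp [phi, norm1_X]

lemma elimDeg_mono {ν q d d' : ℕ} (h : d ≤ d') : elimDeg ν q d ≤ elimDeg ν q d' := by
  unfold elimDeg
  gcongr

lemma elimDeg_pos {ν q d : ℕ} (hq : 0 < q) : 0 < elimDeg ν q d := by
  unfold elimDeg
  positivity

lemma elimNorm_nonneg {ν q : ℕ} {C : ℝ} (hC : 0 ≤ C) : 0 ≤ elimNorm ν q C := by
  unfold elimNorm
  positivity

/-- **The algebraic part of the two-block theorem.** -/
theorem exists_chi_rho (g : MvPolynomial (Fin n ⊕ Fin m) ℤ)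
    (d κ p q W : ℕ) (H : ℝ) (hd : g.totalDegree ≤ d) (hH : norm1 g ≤ H)
    (hq : d + 2 * κ < 2 * q) (hq' : 2 * p + 2 < 2 * q) :
    ∃ (χ : MvPolynomial (Fin n ⊕ Option (Fin 3)) ℤ) (ρ : MvPolynomial (Fin 3) ℤ),
      ρ ≠ 0 ∧ ρ.totalDegree ≤ twoDeg n m q ∧ norm1 ρ ≤ twoNorm n m q κ H W ∧
      (∀ (x : Fin n → ℝ) (z T t ζ : ℝ), ev χ x (bvec z T t ζ) = ev χ x (bvec 0 T t ζ)) ∧
      (∀ (x : Fin n → ℝ) (y : Fin m → ℝ) (z T t ζ : ℝ), 0 < t → 0 < ζ →
        IsLocalMin (game g κ p q W t ζ x) y → game g κ p q W t ζ x y = T →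
        ev χ x (bvec z T t ζ) = 0) ∧
      (∀ (x : Fin n → ℝ) (z t ζ : ℝ), 0 < t → 0 < ζ →
        {T : ℝ | ev χ x (bvec z T t ζ) = 0}.Finite) ∧
      (∀ (T t ζ : ℝ) (Ti si zi : ℕ → ℝ) (xi : ℕ → Fin n → ℝ), Tendsto Ti atTop (𝓝 T) →
        Tendsto si atTop (𝓝 0) → (∀ i, si i ≠ 0) → (∀ i, zi i ≠ 0) →
        (∀ i, |zi i| ≤ |si i| ^ i) →
        (∀ i, IsLocalMax (fun x => ev (fermat none (dchi m q) χ) x (bvec (zi i) (Ti i) t ζ)) (xi i) ∨
          IsLocalMin (fun x => ev (fermat none (dchi m q) χ) x (bvec (zi i) (Ti i) t ζ)) (xi i)) →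
        (∀ i, ev (fermat none (dchi m q) χ) (xi i) (bvec (zi i) (Ti i) t ζ) = si i) →
        aeval ![T, t, ζ] ρ = (0 : ℝ)) := by
  have hq0 : 0 < q := by omega
  have hH0 : 0 ≤ H := (norm1_nonneg g).trans hH
  obtain ⟨N1, hN1d, hN1n, hN1z, hN1f⟩ := elimination (Sum.inr 1 : Fin n ⊕ Fin 2) q (2 * q - 1)
    (H * (1 + m) ^ κ + n) (P1 g κ p) (totalDegree_P1 g hd hq hq') (by omega) (norm1_P1 g hH)
  rw [Fintype.card_fin] at hN1d hN1n
  have hN1d' : N1.totalDegree ≤ elimDeg m q (2 * q) := hN1d.trans (elimDeg_mono (by omega))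
  set χ : MvPolynomial (Fin n ⊕ Option (Fin 3)) ℤ := bind₁ (phi n W) N1 with hχ
  have hχd : χ.totalDegree ≤ dchi m q :=
    (totalDegree_bind₁_le (phi n W) N1 (totalDegree_phi W)).trans (Nat.mul_le_mul_left _ hN1d')
  have hC1 : 0 ≤ H * (1 + (m : ℝ)) ^ κ + n := by positivity
  have hW0 : (0 : ℝ) ≤ W := Nat.cast_nonneg _
  have hχn : norm1 χ ≤ elimNorm m q (H * (1 + m) ^ κ + n) * (1 + W) ^ elimDeg m q (2 * q) := by
    refine (norm1_bind₁_le (phi n W) N1 (B := 1 + W) (by linarith) (norm1_phi W)).trans ?_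
    refine mul_le_mul hN1n ?_ (by positivity) (elimNorm_nonneg hC1)
    exact pow_le_pow_right₀ (by linarith) hN1d'
  have hdc : 0 < dchi m q := by
    unfold dchi
    have := elimDeg_pos (ν := m) (d := 2 * q) hq0
    omega
  obtain ⟨N2, hN2d, hN2n, hN2z, hN2f⟩ := elimination (none : Option (Fin 3)) (dchi m q) (dchi m q)
    _ χ hχd (by omega) hχn
  rw [Fintype.card_fin] at hN2d hN2n
  have hN20 : N2 ≠ 0 := by
    rintro rfl
    have := hN2f (fun _ => 1) one_ne_zero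
    simp only [map_zero, Set.ofPred_true] at this
    exact Set.infinite_univ this
  set sw : Option (Option (Fin 3)) ≃ Option (Option (Fin 3)) := Equiv.swap none (some none) with hsw
  obtain ⟨ρ, hρ0, hρd, hρn, hρ⟩ := extreme_coeff (rename sw N2)
    (fun h => hN20 (rename_injective sw sw.injective (by rw [h, map_zero])))
  refine ⟨χ, ρ, hρ0, hρd.trans ((totalDegree_rename_le _ _).trans hN2d),
    hρn.trans ((norm1_rename_le _ _).trans hN2n), ?_, ?_, ?_, ?_⟩
  · intro x z T t ζ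
    rw [hχ, ev_bind₁_phi, ev_bind₁_phi]
  · intro x y z T t ζ ht hζ hmin hval
    rw [hχ, ev_bind₁_phi]
    have hev : ∀ y, ev (fermat (Sum.inr 1) q (P1 g κ p)) y (Sum.elim x ![t, ζ]) =
        t * (game g κ p q W t ζ x y + W) := fun y => ev_fermat_P1 g κ p q x y W ht.ne' ζ
    have hmin' : IsLocalMin (fun y => ev (fermat (Sum.inr 1) q (P1 g κ p)) y (Sum.elim x ![t, ζ])) y := by
      have e : (fun y => ev (fermat (Sum.inr 1) q (P1 g κ p)) y (Sum.elim x ![t, ζ])) =
          fun y => t * (game g κ p q W t ζ x y + W) := funext hev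
      rw [e]
      filter_upwards [hmin] with y' hy'
      have := mul_le_mul_of_nonneg_left hy' ht.le
      nlinarith
    have h := hN1z (Sum.elim x ![t, ζ]) (by simpa using hζ.ne') y (crit_of_isLocalMin _ hmin')
    rw [hev y, hval] at h
    exact h
  · intro x z t ζ ht hζ
    have h := hN1f (Sum.elim x ![t, ζ]) (by simpa using hζ.ne')
    have hinj : Function.Injective (fun T : ℝ => t * (T + W)) := by
      intro a b hab
      have := mul_left_cancel₀ ht.ne' hab
      linarith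
    have h2 := h.preimage (f := fun T : ℝ => t * (T + W)) hinj.injOn
    refine h2.subset fun T hT => ?_
    simp only [Set.mem_ofPred_eq, hχ] at hT
    rw [ev_bind₁_phi] at hT
    exact hT
  · intro T t ζ Ti si zi xi hTi hsi hsi0 hzi0 hzs hext hval
    refine hρ zi si (fun i => ![Ti i, t, ζ]) ![T, t, ζ] ?_ hsi hsi0 hzi0 hzs ?_
    · rw [tendsto_pi_nhds]
      intro k
      fin_cases k
      · exact hTi
      · exact tendsto_const_nhds
      · exact tendsto_const_nhds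
    · intro i
      have hcrit : ∀ j, ev (pderiv (Sum.inl j) (fermat none (dchi m q) χ)) (xi i)
          (bvec (zi i) (Ti i) t ζ) = 0 := by
        intro j
        rcases hext i with h | h
        · exact crit_of_isLocalMax _ h j
        · exact crit_of_isLocalMin _ h j
      have h := hN2z (bvec (zi i) (Ti i) t ζ) (hzi0 i) (xi i) hcrit
      rw [hval i] at h
      rw [aeval_rename]
      rw [← h]
      congr 1
      congr 1
      ext o
      rcases o with _ | (_ | k)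
      · simp [hsw]
      · simp [hsw, bvec]
      · have : sw (some (some k)) = some (some k) := by
          rw [hsw]
          exact Equiv.swap_apply_of_ne_of_ne (by simp) (by simp)
        simp [this, bvec]

end TB

end Pool.Agent.IsoPt
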