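import Pool.Agent.Lib.IsoPt.TBNorm
import Pool.Agent.Lib.IsoPt.TBEval

/-!
# Coercivity and compactness for the game polynomial (used in chunk A)
-/

set_option autoImplicit false

namespace Pool.Agent.IsoPt

namespace TB

open MvPolynomial Filter Topology

variable {n m : ℕ}

/-- The game with the parameters as a pair. -/
noncomputable def gm (g : MvPolynomial (Fin n ⊕ Fin m) ℤ) (κ p q : ℕ) (W : ℝ)
    (θ : ℝ × ℝ) (x : Fin n → ℝ) (y : Fin m → ℝ) : ℝ := game g κ p q W θ.1 θ.2 x y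

variable (g : MvPolynomial (Fin n ⊕ Fin m) ℤ) (κ p q : ℕ) (W : ℝ)

lemma cont_sum_pow {k : ℕ} (r : ℕ) : Continuous (fun y : Fin k → ℝ => ∑ j, y j ^ r) :=
  continuous_finsetSum _ fun j _ => (continuous_apply j).pow r

section irr

attribute [local irreducible] ev

lemma continuousAt_gm {θ : ℝ × ℝ} (h : θ.1 ≠ 0) (x : Fin n → ℝ) (y : Fin m → ℝ) :
    ContinuousAt (fun v : ((ℝ × ℝ) × (Fin n → ℝ)) × (Fin m → ℝ) =>
      gm g κ p q W v.1.1 v.1.2 v.2) ((θ, x), y) := by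
  unfold gm game
  have c1 : Continuous (fun v : ((ℝ × ℝ) × (Fin n → ℝ)) × (Fin m → ℝ) => v.1.1.1) :=
    continuous_fst.comp (continuous_fst.comp continuous_fst)
  have c2 : Continuous (fun v : ((ℝ × ℝ) × (Fin n → ℝ)) × (Fin m → ℝ) => v.1.1.2) :=
    continuous_snd.comp (continuous_fst.comp continuous_fst)
  have c3 : Continuous (fun v : ((ℝ × ℝ) × (Fin n → ℝ)) × (Fin m → ℝ) => v.1.2) :=
    continuous_snd.comp continuous_fst
  have h1 : Continuous (fun v : ((ℝ × ℝ) × (Fin n → ℝ)) × (Fin m → ℝ) => ev g v.1.2 v.2) :=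
    (continuous_ev g).comp (c3.prodMk continuous_snd)
  have h2 : Continuous (fun v : ((ℝ × ℝ) × (Fin n → ℝ)) × (Fin m → ℝ) => ∑ j, v.2 j ^ 2) :=
    (cont_sum_pow 2).comp continuous_snd
  have h2' : Continuous (fun v : ((ℝ × ℝ) × (Fin n → ℝ)) × (Fin m → ℝ) => ∑ j, v.2 j ^ (2 * q)) :=
    (cont_sum_pow (2 * q)).comp continuous_snd
  have h3 : Continuous (fun v : ((ℝ × ℝ) × (Fin n → ℝ)) × (Fin m → ℝ) => ∑ l, v.1.2 l ^ (2 * p)) :=
    (cont_sum_pow (2 * p)).comp c3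
  have h5 : Continuous (fun v : ((ℝ × ℝ) × (Fin n → ℝ)) × (Fin m → ℝ) =>
      (1 + ∑ j, v.2 j ^ 2) ^ κ) := (continuous_const.add h2).pow κ
  have h4 := (h1.mul h5).add (c2.mul h2')
  exact ((h4.continuousAt.div c1.continuousAt h).sub (c1.mul h3).continuousAt).sub
    continuousAt_const

end irr

section irr2

attribute [local irreducible] gm

lemma continuousAt_gm_left {θ : ℝ × ℝ} (h : θ.1 ≠ 0) (x : Fin n → ℝ) (y : Fin m → ℝ) :
    ContinuousAt (fun v : (ℝ × ℝ) × (Fin n → ℝ) => gm g κ p q W v.1 v.2 y) (θ, x) := by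
  have h1 := continuousAt_gm g κ p q W h x y
  have h2 : ContinuousAt (fun v : (ℝ × ℝ) × (Fin n → ℝ) => (v, y)) (θ, x) :=
    (continuous_id.prodMk continuous_const).continuousAt
  exact ContinuousAt.comp (f := fun v : (ℝ × ℝ) × (Fin n → ℝ) => (v, y)) h1 h2

lemma continuous_gm_fix {θ : ℝ × ℝ} (h : θ.1 ≠ 0) :
    Continuous (fun v : (Fin n → ℝ) × (Fin m → ℝ) => gm g κ p q W θ v.1 v.2) := by
  rw [continuous_iff_continuousAt]
  rintro ⟨x, y⟩
  have h1 := continuousAt_gm g κ p q W h x y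
  have h2 : ContinuousAt (fun v : (Fin n → ℝ) × (Fin m → ℝ) => ((θ, v.1), v.2)) (x, y) :=
    ((continuous_const.prodMk continuous_fst).prodMk continuous_snd).continuousAt
  exact ContinuousAt.comp (f := fun v : (Fin n → ℝ) × (Fin m → ℝ) => ((θ, v.1), v.2)) h1 h2

lemma continuous_gm_y {θ : ℝ × ℝ} (h : θ.1 ≠ 0) (x : Fin n → ℝ) :
    Continuous (fun y : Fin m → ℝ => gm g κ p q W θ x y) :=
  (continuous_gm_fix g κ p q W h).comp (continuous_const.prodMk continuous_id)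

lemma continuous_gm_x {θ : ℝ × ℝ} (h : θ.1 ≠ 0) (y : Fin m → ℝ) :
    Continuous (fun x : Fin n → ℝ => gm g κ p q W θ x y) :=
  (continuous_gm_fix g κ p q W h).comp (continuous_id.prodMk continuous_const)

end irr2

lemma abs_aeval_le {ι : Type*} (P : MvPolynomial ι ℤ) (v : ι → ℝ) {B : ℝ} (hB : 1 ≤ B)
    (hv : ∀ i, |v i| ≤ B) {d : ℕ} (hd : P.totalDegree ≤ d) : |aeval v P| ≤ norm1 P * B ^ d := by
  rw [aeval_def, eval₂_eq]
  refine (Finset.abs_sum_le_sum_abs _ _).trans ?_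
  rw [norm1, Finset.sum_mul]
  refine Finset.sum_le_sum fun k hk => ?_
  rw [abs_mul, Finset.abs_prod]
  have h1 : |(algebraMap ℤ ℝ) (coeff k P)| = ‖coeff k P‖ := by
    rw [eq_intCast, Int.norm_eq_abs]
  rw [h1]
  refine mul_le_mul_of_nonneg_left ?_ (norm_nonneg _)
  have h2 : ∏ i ∈ k.support, |v i ^ k i| ≤ ∏ i ∈ k.support, B ^ k i := by
    refine Finset.prod_le_prod (fun i _ => abs_nonneg _) fun i _ => ?_
    rw [abs_pow]
    exact pow_le_pow_left₀ (abs_nonneg _) (hv i) _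
  refine h2.trans ?_
  rw [Finset.prod_pow_eq_pow_sum]
  exact pow_le_pow_right₀ hB ((le_totalDegree hk).trans hd)

/-- Coercivity in `y`, locally uniformly. -/
lemma coerc_y (hg : ∀ x y, 0 ≤ ev g x y) (hq : 0 < q) {θ : ℝ × ℝ} (h1 : 0 < θ.1) (h2 : 0 < θ.2)
    (x : Fin n → ℝ) (c : ℝ) :
    ∃ R : ℝ, ∀ᶠ v : (ℝ × ℝ) × (Fin n → ℝ) in 𝓝 (θ, x), ∀ y, R < ‖y‖ →
      c < gm g κ p q W v.1 v.2 y := by
  set S : (Fin n → ℝ) → ℝ := fun x => ∑ l, x l ^ (2 * p) with hS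
  have hSc : Continuous S := cont_sum_pow (2 * p)
  have hS0 : ∀ x, 0 ≤ S x := fun x => Finset.sum_nonneg fun l _ => (even_two_mul p).pow_nonneg _
  set B : ℝ := S x + 1 with hB
  set A : ℝ := |c| + 2 * θ.1 * B + |W| with hA
  refine ⟨max 1 (A * (4 * θ.1) / θ.2), ?_⟩
  have e1 : ∀ᶠ v : (ℝ × ℝ) × (Fin n → ℝ) in 𝓝 (θ, x), θ.1 / 2 < v.1.1 :=
    (continuous_fst.comp continuous_fst).continuousAt.eventually
      (lt_mem_nhds (show θ.1 / 2 < θ.1 by linarith))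
  have e2 : ∀ᶠ v : (ℝ × ℝ) × (Fin n → ℝ) in 𝓝 (θ, x), v.1.1 < 2 * θ.1 :=
    (continuous_fst.comp continuous_fst).continuousAt.eventually
      (gt_mem_nhds (show θ.1 < 2 * θ.1 by linarith))
  have e3 : ∀ᶠ v : (ℝ × ℝ) × (Fin n → ℝ) in 𝓝 (θ, x), θ.2 / 2 < v.1.2 :=
    (continuous_snd.comp continuous_fst).continuousAt.eventually
      (lt_mem_nhds (show θ.2 / 2 < θ.2 by linarith))
  have e4 : ∀ᶠ v : (ℝ × ℝ) × (Fin n → ℝ) in 𝓝 (θ, x), S v.2 < B :=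
    (hSc.comp continuous_snd).continuousAt.eventually
      (gt_mem_nhds (show S x < B by rw [hB]; linarith))
  filter_upwards [e1, e2, e3, e4] with v h3 h4 h5 h6 y hy
  have hy1 : 1 < ‖y‖ := (le_max_left _ _).trans_lt hy
  have hy2 : A * (4 * θ.1) / θ.2 < ‖y‖ := (le_max_right _ _).trans_lt hy
  have hv1 : 0 < v.1.1 := by linarith
  have hv2 : 0 < v.1.2 := by linarith
  have hsum : ‖y‖ ≤ ∑ j, y j ^ (2 * q) := by
    refine le_trans ?_ (norm_pow_le_sum hq y)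
    exact le_self_pow₀ hy1.le (by omega)
  have hg' : 0 ≤ ev g v.2 y * (1 + ∑ j, y j ^ 2) ^ κ := by
    have := hg v.2 y
    positivity
  unfold gm game
  have hnum : θ.2 / 2 * ‖y‖ ≤ ev g v.2 y * (1 + ∑ j, y j ^ 2) ^ κ +
      v.1.2 * ∑ j, y j ^ (2 * q) := by
    have : θ.2 / 2 * ‖y‖ ≤ v.1.2 * ∑ j, y j ^ (2 * q) :=
      mul_le_mul h5.le hsum (norm_nonneg _) hv2.le
    linarith
  have hdiv : A < (ev g v.2 y * (1 + ∑ j, y j ^ 2) ^ κ +
      v.1.2 * ∑ j, y j ^ (2 * q)) / v.1.1 := by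
    rw [lt_div_iff₀ hv1]
    refine lt_of_lt_of_le ?_ hnum
    rw [div_lt_iff₀ h2] at hy2
    have hA0 : 0 ≤ A := by
      rw [hA]
      have := hS0 x
      have : 0 ≤ B := by rw [hB]; linarith
      positivity
    have : A * v.1.1 ≤ A * (2 * θ.1) := mul_le_mul_of_nonneg_left h4.le hA0
    nlinarith
  have hS' : v.1.1 * S v.2 ≤ 2 * θ.1 * B :=
    mul_le_mul h4.le h6.le (hS0 _) (by linarith)
  have h7 := le_abs_self c
  have h8 := le_abs_self W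
  have : v.1.1 * ∑ l, v.2 l ^ (2 * p) ≤ 2 * θ.1 * B := hS'
  linarith

/-- Coercivity in `x` at `y = 0`, locally uniformly in the parameters. -/
lemma coerc_x {d : ℕ} (hd : g.totalDegree ≤ d) (hp : d < 2 * p) (hq : 0 < q) {θ : ℝ × ℝ}
    (h1 : 0 < θ.1) (c : ℝ) :
    ∃ R : ℝ, ∀ᶠ v : ℝ × ℝ in 𝓝 θ, ∀ x, R < ‖x‖ → gm g κ p q W v x 0 < c := by
  set A : ℝ := |c| + |W| + 1 with hA
  have hA0 : 0 < A := by positivity
  set N : ℝ := norm1 g with hN
  have hN0 : 0 ≤ N := norm1_nonneg g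
  refine ⟨max 1 ((2 * N / θ.1 + A) * (2 / θ.1)), ?_⟩
  have e1 : ∀ᶠ v : ℝ × ℝ in 𝓝 θ, θ.1 / 2 < v.1 :=
    continuous_fst.continuousAt.eventually (lt_mem_nhds (show θ.1 / 2 < θ.1 by linarith))
  filter_upwards [e1] with v h3 x hx
  have hx1 : 1 < ‖x‖ := (le_max_left _ _).trans_lt hx
  have hx2 : (2 * N / θ.1 + A) * (2 / θ.1) < ‖x‖ := (le_max_right _ _).trans_lt hx
  have hv1 : 0 < v.1 := by linarith
  have hp0 : 0 < p := by omega
  have hsum : ‖x‖ ^ (2 * p) ≤ ∑ l, x l ^ (2 * p) := norm_pow_le_sum hp0 x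
  have hev : ev g x 0 ≤ N * ‖x‖ ^ d := by
    refine (le_abs_self _).trans (abs_aeval_le g _ hx1.le ?_ hd)
    rintro (i | i)
    · simp only [Sum.elim_inl]
      exact (Real.norm_eq_abs _ ▸ norm_le_pi_norm x i)
    · simp only [Sum.elim_inr, Pi.zero_apply, abs_zero]
      exact norm_nonneg _
  have hz : gm g κ p q W v x 0 = ev g x 0 / v.1 - v.1 * ∑ l, x l ^ (2 * p) - W := by
    unfold gm game
    simp [hq.ne']
  rw [hz]
  have hpow : ‖x‖ ^ d * ‖x‖ ≤ ‖x‖ ^ (2 * p) := by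
    rw [← pow_succ]
    exact pow_le_pow_right₀ hx1.le (by omega)
  have hpd : 1 ≤ ‖x‖ ^ d := one_le_pow₀ hx1.le
  have hd1 : ev g x 0 / v.1 ≤ N * ‖x‖ ^ d * (2 / θ.1) := by
    rw [div_le_iff₀ hv1]
    have h5 : 1 ≤ 2 / θ.1 * v.1 := by
      rw [div_mul_eq_mul_div, le_div_iff₀ h1]
      linarith
    have h6 : 0 ≤ N * ‖x‖ ^ d := by positivity
    calc ev g x 0 ≤ N * ‖x‖ ^ d := hev
      _ ≤ N * ‖x‖ ^ d * (2 / θ.1 * v.1) := le_mul_of_one_le_right h6 h5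
      _ = _ := by ring
  have hd2 : θ.1 / 2 * (‖x‖ ^ d * ‖x‖) ≤ v.1 * ∑ l, x l ^ (2 * p) := by
    exact mul_le_mul h3.le (hpow.trans hsum) (by positivity) hv1.le
  have hx3 : 2 * N / θ.1 + A < θ.1 / 2 * ‖x‖ := by
    have h7 := mul_lt_mul_of_pos_left hx2 (show 0 < θ.1 / 2 by linarith)
    have h8 : θ.1 / 2 * ((2 * N / θ.1 + A) * (2 / θ.1)) = 2 * N / θ.1 + A := by
      field_simp
    rwa [h8] at h7
  have h9 : N * ‖x‖ ^ d * (2 / θ.1) - θ.1 / 2 * (‖x‖ ^ d * ‖x‖) < -A := by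
    have h10 : N * ‖x‖ ^ d * (2 / θ.1) - θ.1 / 2 * (‖x‖ ^ d * ‖x‖) =
        ‖x‖ ^ d * (2 * N / θ.1 - θ.1 / 2 * ‖x‖) := by ring
    rw [h10]
    nlinarith
  have h11 := neg_abs_le c
  have h12 := neg_abs_le W
  linarith

section irr3

attribute [local irreducible] gm

/-- The set of `(θ, x)` with `game > c` for all `y` is open. -/
lemma open_V (hg : ∀ x y, 0 ≤ ev g x y) (hq : 0 < q) {θ : ℝ × ℝ} (h1 : 0 < θ.1) (h2 : 0 < θ.2)
    (x : Fin n → ℝ) (c : ℝ) (h : ∀ y, c < gm g κ p q W θ x y) :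
    ∀ᶠ v : (ℝ × ℝ) × (Fin n → ℝ) in 𝓝 (θ, x), ∀ y, c < gm g κ p q W v.1 v.2 y := by
  obtain ⟨R, hR⟩ := coerc_y g κ p q W hg hq h1 h2 x c
  have hK : ∀ᶠ v : (ℝ × ℝ) × (Fin n → ℝ) in 𝓝 (θ, x), ∀ y ∈ Metric.closedBall (0 : Fin m → ℝ) R,
      c < gm g κ p q W v.1 v.2 y := by
    refine (isCompact_closedBall _ _).eventually_forall_of_forall_eventually fun y _ => ?_
    exact (continuousAt_gm g κ p q W h1.ne' x y).eventually (lt_mem_nhds (h y))
  filter_upwards [hR, hK] with v h3 h4 y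
  by_cases hy : R < ‖y‖
  · exact h3 y hy
  · exact h4 y (by simpa using hy)

/-- The set of `θ` with `∀ x, ∃ y, game < c` is open. -/
lemma open_U {d : ℕ} (hd : g.totalDegree ≤ d) (hp : d < 2 * p) (hq : 0 < q) {θ : ℝ × ℝ}
    (h1 : 0 < θ.1) (c : ℝ) (h : ∀ x, ∃ y, gm g κ p q W θ x y < c) :
    ∀ᶠ v : ℝ × ℝ in 𝓝 θ, ∀ x, ∃ y, gm g κ p q W v x y < c := by
  obtain ⟨R, hR⟩ := coerc_x g κ p q W hd hp hq h1 c
  have hK : ∀ᶠ v : ℝ × ℝ in 𝓝 θ, ∀ x ∈ Metric.closedBall (0 : Fin n → ℝ) R,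
      ∃ y, gm g κ p q W v x y < c := by
    refine (isCompact_closedBall _ _).eventually_forall_of_forall_eventually fun x _ => ?_
    obtain ⟨y, hy⟩ := h x
    have h2 := continuousAt_gm_left g κ p q W h1.ne' x y
    filter_upwards [h2.eventually (gt_mem_nhds hy)] with v hv using ⟨y, hv⟩
  filter_upwards [hR, hK] with v h3 h4 x
  by_cases hx : R < ‖x‖
  · exact ⟨0, h3 x hx⟩
  · exact h4 x (by simpa using hx)

/-- Existence of minimizers in `y`. -/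
lemma exists_min (hg : ∀ x y, 0 ≤ ev g x y) (hq : 0 < q) {θ : ℝ × ℝ} (h1 : 0 < θ.1) (h2 : 0 < θ.2)
    (x : Fin n → ℝ) : ∃ y, ∀ y', gm g κ p q W θ x y ≤ gm g κ p q W θ x y' := by
  obtain ⟨R, hR⟩ := coerc_y g κ p q W hg hq h1 h2 x (gm g κ p q W θ x 0)
  have hR' := hR.self_of_nhds
  have hc : Continuous (fun y => gm g κ p q W θ x y) := continuous_gm_y g κ p q W h1.ne' x
  obtain ⟨y, hy, hmin⟩ := (isCompact_closedBall (0 : Fin m → ℝ) (max R 0)).exists_isMinOn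
    ⟨0, by simp⟩ hc.continuousOn
  refine ⟨y, fun y' => ?_⟩
  by_cases hy' : y' ∈ Metric.closedBall (0 : Fin m → ℝ) (max R 0)
  · exact hmin hy'
  · have h3 : R < ‖y'‖ := by
      simp only [Metric.mem_closedBall, dist_zero_right, not_le] at hy'
      exact (le_max_left _ _).trans_lt hy'
    have h4 : gm g κ p q W θ x y ≤ gm g κ p q W θ x 0 := hmin (by simp)
    exact h4.trans (hR' y' h3).le

/-- The superlevel sets of `min_y game` are compact. -/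
lemma isCompact_Kset {d : ℕ} (hd : g.totalDegree ≤ d) (hp : d < 2 * p) (hq : 0 < q) {θ : ℝ × ℝ}
    (h1 : 0 < θ.1) (c : ℝ) : IsCompact {x : Fin n → ℝ | ∀ y, c ≤ gm g κ p q W θ x y} := by
  obtain ⟨R, hR⟩ := coerc_x g κ p q W hd hp hq h1 c
  have hR' := hR.self_of_nhds
  refine (isCompact_closedBall (0 : Fin n → ℝ) R).of_isClosed_subset ?_ ?_
  · have : {x : Fin n → ℝ | ∀ y, c ≤ gm g κ p q W θ x y} =
        ⋂ y, {x : Fin n → ℝ | c ≤ gm g κ p q W θ x y} := by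
      ext x; simp
    rw [this]
    refine isClosed_iInter fun y => ?_
    have hc : Continuous (fun x => gm g κ p q W θ x y) := continuous_gm_x g κ p q W h1.ne' y
    exact isClosed_le continuous_const hc
  · intro x hx
    by_contra hx'
    have h3 : R < ‖x‖ := by simpa using hx'
    have := hx 0
    exact absurd (hR' x h3) (not_lt.2 this)

end irr3

end TB

end Pool.Agent.IsoPt
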