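import Pool.Agent.Lib.IsoPt.Elim
import Pool.Agent.Lib.IsoPt.Extreme
import Pool.Agent.Lib.IsoPt.Loj
import Pool.Agent.Lib.IsoPt.TBAlg
import Pool.Agent.Lib.IsoPt.TBTop

/-!
# Chunk A : effective two-block theorem

Proof sketch. `f_{t,ζ} (x,y) = game g κ p q W t ζ x y`, `F x = min_y f (x, y)`, `v* = max_x F x`.

* coercivity: `g ≥ 0` gives minima in `y`; `F x ≤ f (x, 0) → -∞` because `2p > d`.
* inner elimination with `σ = Fin m`, parameters `x, t, ζ`, `P = g (1+|y|²)^κ - t² ∑ x^(2p)`,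
  value `s = t (F x + W)`; substituting `s = t (T + W)` gives `χ (x, T, t, ζ)` with
  `χ (x, F x, t, ζ) = 0`, of degree `≤ dchi m q`, and for fixed `x`, `t, ζ > 0` only finitely many
  zeros `T`.
* outer elimination with `σ = Fin n`, parameters `T, t, ζ, ζ'`, exponent `2 * dchi`; then
  `extreme_coeff` with `ζ'` very small and `s` small gives `ρ (T, t, ζ) ≠ 0`
  with `ρ (v*, t, ζ) = 0` for all `t, ζ > 0`: take `T_i ↑ v*`, `K_i = {F ≥ T_i}` compact,
  on whose boundary `χ = 0`; `χ (·, T_i)` is not identically zero on the open set `{F > T_i}`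
  (choose `T_i` well); `max_{K_i} |χ|` is attained inside and tends to `0`; perturb by
  `ζ'_i ∑ x^(2 dchi)`.
* `nonvanish` gives integers `1 ≤ T₁ < W`, `-W/2 < T₁' ≤ -1` that are never values `v*` in the
  region `t ≤ t₁`, `ζ ≤ t^(D+1)`.
* if `∃ x₀ ∀ y, g > 0` then `lojasiewicz` gives `v* ≥ W` for small `t` (all `ζ`); go along the
  curve `t ↦ (t, λ t^(D+1))`.
  Otherwise for fixed `t` one has `v* ≤ -W/2` for small `ζ` (compactness); increase `ζ`.
-/

set_option autoImplicit false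

namespace Pool.Agent.IsoPt

open MvPolynomial

namespace TB

open Filter Topology

section key

variable {n m : ℕ} (g : MvPolynomial (Fin n ⊕ Fin m) ℤ) (κ p q : ℕ) (W : ℝ)

attribute [local irreducible] gm ev

/-- One step of the approximation of the value of the game from below. -/
lemma step {d : ℕ} (hd : g.totalDegree ≤ d) (hp : d < 2 * p) (hg : ∀ x y, 0 ≤ ev g x y)
    (hq : 0 < q) {t ζ : ℝ} (ht : 0 < t) (hζ : 0 < ζ) {dc : ℕ}
    (χ : MvPolynomial (Fin n ⊕ Option (Fin 3)) ℤ)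
    (h0 : ∀ (x : Fin n → ℝ) (z T t ζ : ℝ), ev χ x (bvec z T t ζ) = ev χ x (bvec 0 T t ζ))
    (h1 : ∀ (x : Fin n → ℝ) (y : Fin m → ℝ) (z T : ℝ),
        IsLocalMin (gm g κ p q W (t, ζ) x) y → gm g κ p q W (t, ζ) x y = T →
        ev χ x (bvec z T t ζ) = 0)
    {T' : ℝ} {x₀ : Fin n → ℝ} (hx₀ : ∀ y, T' ≤ gm g κ p q W (t, ζ) x₀ y)
    (hx₀' : ev χ x₀ (bvec 0 T' t ζ) ≠ 0) (i : ℕ) :
    ∃ (s z : ℝ) (x x' : Fin n → ℝ), s ≠ 0 ∧ z ≠ 0 ∧ |z| ≤ |s| ^ i ∧
      (IsLocalMax (fun x => ev (fermat none dc χ) x (bvec z T' t ζ)) x ∨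
        IsLocalMin (fun x => ev (fermat none dc χ) x (bvec z T' t ζ)) x) ∧
      ev (fermat none dc χ) x (bvec z T' t ζ) = s ∧
      (∀ y, T' ≤ gm g κ p q W (t, ζ) x' y) ∧ |s| ≤ 2 * |ev χ x' (bvec 0 T' t ζ)| := by
  set K : Set (Fin n → ℝ) := {x | ∀ y, T' ≤ gm g κ p q W (t, ζ) x y} with hK
  have hKc : IsCompact K := isCompact_Kset g κ p q W hd hp hq (θ := (t, ζ)) ht T'
  have hx₀K : x₀ ∈ K := hx₀
  set u : (Fin n → ℝ) → ℝ := fun x => ev χ x (bvec 0 T' t ζ) with hu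
  have huc : Continuous u := (continuous_ev χ).comp (continuous_id.prodMk continuous_const)
  set S : (Fin n → ℝ) → ℝ := fun x => ∑ l, x l ^ (2 * dc) with hS
  have hSc : Continuous S := cont_sum_pow (2 * dc)
  have hS0 : ∀ x, 0 ≤ S x := fun x => Finset.sum_nonneg fun l _ => (even_two_mul dc).pow_nonneg _
  obtain ⟨x', hx'K, hx'max⟩ := hKc.exists_isMaxOn ⟨x₀, hx₀K⟩ huc.abs.continuousOn
  obtain ⟨xB, hxBK, hxB⟩ := hKc.exists_isMaxOn ⟨x₀, hx₀K⟩ hSc.continuousOn
  set B : ℝ := S xB with hB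
  have hB0 : 0 ≤ B := hS0 _
  set M : ℝ := |u x'| with hM
  have hM0 : 0 < M := (abs_pos.2 hx₀').trans_le (hx'max hx₀K)
  have huM : ∀ x ∈ K, |u x| ≤ M := fun x hx => hx'max hx
  set z : ℝ := min ((M / 2) ^ i) (M / (4 * (B + 1))) with hz
  have hz0 : 0 < z := lt_min (by positivity) (by positivity)
  have hzS : ∀ x ∈ K, z * S x ≤ M / 4 := by
    intro x hx
    have e1 : S x ≤ B := hxB hx
    have e2 : z ≤ M / (4 * (B + 1)) := min_le_right _ _
    calc z * S x ≤ M / (4 * (B + 1)) * (B + 1) :=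
          mul_le_mul e2 (by linarith) (hS0 x) (by positivity)
      _ = M / 4 := by field_simp
  have hzi : z ≤ (M / 2) ^ i := min_le_left _ _
  set φ : (Fin n → ℝ) → ℝ := fun x => ev (fermat none dc χ) x (bvec z T' t ζ) with hφ
  have hφe : ∀ x, φ x = u x + z * S x := by
    intro x
    rw [hφ]
    simp only
    rw [ev_fermat, h0]
    rfl
  have hφc : Continuous φ := by
    have : φ = fun x => u x + z * S x := funext hφe
    rw [this]
    exact huc.add (continuous_const.mul hSc)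
  -- interior points
  have hint : ∀ x ∈ K, u x ≠ 0 → ∀ᶠ x'' in 𝓝 x, x'' ∈ K := by
    intro x hx hux
    have h2 : ∀ y, T' < gm g κ p q W (t, ζ) x y := by
      intro y
      refine lt_of_le_of_ne (hx y) fun heq => hux ?_
      refine h1 x y 0 T' ?_ heq.symm
      refine Filter.Eventually.of_forall fun y' => ?_
      rw [← heq]
      exact hx y'
    have h3 := open_V g κ p q W hg hq (θ := (t, ζ)) ht hζ x T' h2
    have h4 : Tendsto (fun x'' : Fin n → ℝ => (((t, ζ) : ℝ × ℝ), x'')) (𝓝 x) (𝓝 ((t, ζ), x)) :=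
      (continuous_const.prodMk continuous_id).continuousAt
    filter_upwards [h4.eventually h3] with x'' hx'' y using (hx'' y).le
  have hzabs : |z| = z := abs_of_pos hz0
  rcases lt_or_ge (u x') 0 with hneg | hpos
  · -- minimum
    obtain ⟨x, hxK, hxmin⟩ := hKc.exists_isMinOn ⟨x₀, hx₀K⟩ hφc.continuousOn
    have hux' : u x' = -M := by rw [hM, abs_of_neg hneg]; ring
    have hle : φ x ≤ -(3 * M / 4) := by
      have e1 : φ x ≤ φ x' := hxmin hx'K
      rw [hφe x', hux'] at e1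
      have := hzS x' hx'K
      linarith
    have hge : -M ≤ φ x := by
      rw [hφe]
      have e1 := (abs_le.1 (huM x hxK)).1
      have := mul_nonneg hz0.le (hS0 x)
      linarith
    have hux : u x ≠ 0 := by
      intro h
      rw [hφe, h] at hle
      have := mul_nonneg hz0.le (hS0 x)
      linarith
    refine ⟨φ x, z, x, x', by linarith, hz0.ne', ?_, Or.inr ?_, rfl, hx'K, ?_⟩
    · rw [hzabs]
      refine hzi.trans (pow_le_pow_left₀ (by positivity) ?_ i)
      rw [abs_of_neg (by linarith)]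
      linarith
    · filter_upwards [hint x hxK hux] with x'' hx'' using hxmin hx''
    · rw [abs_of_neg (by linarith)]
      change -φ x ≤ 2 * M
      linarith
  · -- maximum
    obtain ⟨x, hxK, hxmax⟩ := hKc.exists_isMaxOn ⟨x₀, hx₀K⟩ hφc.continuousOn
    have hux' : u x' = M := by rw [hM, abs_of_nonneg hpos]
    have hge : M ≤ φ x := by
      have e1 : φ x' ≤ φ x := hxmax hx'K
      rw [hφe x', hux'] at e1
      have := mul_nonneg hz0.le (hS0 x')
      linarith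
    have hle : φ x ≤ M + M / 4 := by
      rw [hφe]
      have e1 := (abs_le.1 (huM x hxK)).2
      have := hzS x hxK
      linarith
    have hux : u x ≠ 0 := by
      intro h
      rw [hφe, h] at hge
      have := hzS x hxK
      linarith
    refine ⟨φ x, z, x, x', by linarith, hz0.ne', ?_, Or.inl ?_, rfl, hx'K, ?_⟩
    · rw [hzabs]
      refine hzi.trans (pow_le_pow_left₀ (by positivity) ?_ i)
      rw [abs_of_pos (by linarith)]
      linarith
    · filter_upwards [hint x hxK hux] with x'' hx'' using hxmax hx''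
    · rw [abs_of_pos (by linarith)]
      change φ x ≤ 2 * M
      linarith

/-- **The value of the game is a zero of `ρ`.** -/
lemma key {d : ℕ} (hd : g.totalDegree ≤ d) (hp : d < 2 * p) (hg : ∀ x y, 0 ≤ ev g x y)
    (hq : 0 < q) {t ζ : ℝ} (ht : 0 < t) (hζ : 0 < ζ) {dc : ℕ}
    (χ : MvPolynomial (Fin n ⊕ Option (Fin 3)) ℤ) (ρ : MvPolynomial (Fin 3) ℤ)
    (h0 : ∀ (x : Fin n → ℝ) (z T t ζ : ℝ), ev χ x (bvec z T t ζ) = ev χ x (bvec 0 T t ζ))
    (h1 : ∀ (x : Fin n → ℝ) (y : Fin m → ℝ) (z T : ℝ),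
        IsLocalMin (gm g κ p q W (t, ζ) x) y → gm g κ p q W (t, ζ) x y = T →
        ev χ x (bvec z T t ζ) = 0)
    (hfin : ∀ x : Fin n → ℝ, {T : ℝ | ev χ x (bvec 0 T t ζ) = 0}.Finite)
    (hρ : ∀ (T : ℝ) (Ti si zi : ℕ → ℝ) (xi : ℕ → Fin n → ℝ), Tendsto Ti atTop (𝓝 T) →
        Tendsto si atTop (𝓝 0) → (∀ i, si i ≠ 0) → (∀ i, zi i ≠ 0) →
        (∀ i, |zi i| ≤ |si i| ^ i) →
        (∀ i, IsLocalMax (fun x => ev (fermat none dc χ) x (bvec (zi i) (Ti i) t ζ)) (xi i) ∨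
          IsLocalMin (fun x => ev (fermat none dc χ) x (bvec (zi i) (Ti i) t ζ)) (xi i)) →
        (∀ i, ev (fermat none dc χ) (xi i) (bvec (zi i) (Ti i) t ζ) = si i) →
        aeval ![T, t, ζ] ρ = (0 : ℝ))
    {T : ℝ} (hlo : ∀ x, ∃ y, gm g κ p q W (t, ζ) x y ≤ T) {x₀ : Fin n → ℝ}
    (hhi : ∀ y, T ≤ gm g κ p q W (t, ζ) x₀ y) : aeval ![T, t, ζ] ρ = (0 : ℝ) := by
  -- choice of `δ`
  obtain ⟨δ, hδ, hδZ⟩ : ∃ δ > 0, ∀ T' : ℝ, T - δ < T' → T' < T → ev χ x₀ (bvec 0 T' t ζ) ≠ 0 := by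
    have hZ : ({T : ℝ | ev χ x₀ (bvec 0 T t ζ) = 0} \ {T}).Finite := (hfin x₀).sdiff
    have hop := hZ.isClosed.isOpen_compl
    obtain ⟨δ, hδ, hball⟩ := Metric.isOpen_iff.1 hop T (by simp)
    refine ⟨δ, hδ, fun T' h2 h3 h4 => ?_⟩
    have h5 : T' ∈ Metric.ball T δ := by
      rw [Metric.mem_ball, Real.dist_eq, abs_lt]
      constructor <;> linarith
    exact hball h5 ⟨h4, fun h6 => h3.ne h6⟩
  set Ti : ℕ → ℝ := fun i => T - δ / (i + 2) with hTi
  have hTlt : ∀ i, Ti i < T := by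
    intro i
    have : 0 < δ / ((i : ℝ) + 2) := by positivity
    simp only [hTi]; linarith
  have hTgt : ∀ i, T - δ < Ti i := by
    intro i
    have : δ / ((i : ℝ) + 2) < δ := by
      rw [div_lt_iff₀ (by positivity)]
      have : (0 : ℝ) ≤ i := Nat.cast_nonneg i
      nlinarith
    simp only [hTi]; linarith
  have hTlim : Tendsto Ti atTop (𝓝 T) := by
    have h2 : Tendsto (fun i : ℕ => δ / ((i : ℝ) + 2)) atTop (𝓝 0) := by
      have h3 : Tendsto (fun i : ℕ => (i : ℝ) + 2) atTop atTop :=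
        tendsto_atTop_add_const_right _ _ tendsto_natCast_atTop_atTop
      exact tendsto_const_nhds.div_atTop h3
    simpa using tendsto_const_nhds.sub h2
  have hst := fun i => step g κ p q W hd hp hg hq ht hζ (dc := dc) χ h0 h1 (T' := Ti i) (x₀ := x₀)
    (fun y => (hTlt i).le.trans (hhi y)) (hδZ _ (hTgt i) (hTlt i)) i
  choose si zi xi x' hs0 hz0 hzs hext hval hx' hsx using hst
  refine hρ T Ti si zi xi hTlim ?_ hs0 hz0 hzs hext hval
  -- convergence to zero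
  rw [Metric.tendsto_atTop]
  intro ε hε
  set K : Set (Fin n → ℝ) := {x | ∀ y, T - δ ≤ gm g κ p q W (t, ζ) x y} with hK
  have hKc : IsCompact K := isCompact_Kset g κ p q W hd hp hq (θ := (t, ζ)) ht (T - δ)
  set U : (Fin n → ℝ) × ℝ → ℝ := fun v => ev χ v.1 (bvec 0 v.2 t ζ) with hU
  have hUc : Continuous U := by
    refine (continuous_ev χ).comp (continuous_fst.prodMk (continuous_pi fun o => ?_))
    rcases o with _ | k
    · exact continuous_const
    · fin_cases k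
      · exact continuous_snd
      · exact continuous_const
      · exact continuous_const
  have huc := (hKc.prod (isCompact_Icc (a := T - δ) (b := T))).uniformContinuousOn_of_continuous
    hUc.continuousOn
  rw [Metric.uniformContinuousOn_iff] at huc
  obtain ⟨η, hη, hUη⟩ := huc (ε / 2) (by positivity)
  obtain ⟨N, hN⟩ := (Metric.tendsto_atTop.1 hTlim) η hη
  refine ⟨N, fun i hi => ?_⟩
  have hTη := hN i hi
  rw [Real.dist_eq, abs_sub_comm, abs_of_pos (by linarith [hTlt i])] at hTη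
  obtain ⟨y, hy⟩ := exists_min g κ p q W hg hq (θ := (t, ζ)) ht hζ (x' i)
  set F : ℝ := gm g κ p q W (t, ζ) (x' i) y with hF
  have hF1 : Ti i ≤ F := hx' i y
  have hF2 : F ≤ T := by
    obtain ⟨y', hy'⟩ := hlo (x' i)
    exact (hy y').trans hy'
  have hz : U (x' i, F) = 0 :=
    h1 (x' i) y 0 F (Filter.Eventually.of_forall hy) rfl
  have hxK : x' i ∈ K := fun y' => (hTgt i).le.trans (hx' i y')
  have h2 := hUη (x' i, Ti i) ⟨hxK, ⟨(hTgt i).le, (hTlt i).le⟩⟩ (x' i, F)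
    ⟨hxK, ⟨(hTgt i).le.trans hF1, hF2⟩⟩ (by
      rw [Prod.dist_eq, dist_self, Real.dist_eq]
      refine max_lt hη ?_
      rw [abs_sub_comm, abs_of_nonneg (by linarith)]
      linarith)
  rw [hz, Real.dist_eq, sub_zero] at h2
  rw [Real.dist_eq, sub_zero]
  have h3 := hsx i
  have h4 : |ev χ (x' i) (bvec 0 (Ti i) t ζ)| < ε / 2 := h2
  linarith

/-- Propagation of the sign of `value - c` along a path. -/
lemma propagate {d : ℕ} (hd : g.totalDegree ≤ d) (hp : d < 2 * p) (hg : ∀ x y, 0 ≤ ev g x y)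
    (hq : 0 < q) {γ : ℝ → ℝ × ℝ} (hγ : Continuous γ) {a b : ℝ} (hab : a ≤ b)
    (hpos : ∀ s ∈ Set.Icc a b, 0 < (γ s).1 ∧ 0 < (γ s).2) {c : ℝ}
    (hcov : ∀ s ∈ Set.Icc a b, (∀ x, ∃ y, gm g κ p q W (γ s) x y < c) ∨
      (∃ x, ∀ y, c < gm g κ p q W (γ s) x y)) :
    ((∀ x, ∃ y, gm g κ p q W (γ a) x y < c) → (∀ x, ∃ y, gm g κ p q W (γ b) x y < c)) ∧
    ((∃ x, ∀ y, c < gm g κ p q W (γ a) x y) → (∃ x, ∀ y, c < gm g κ p q W (γ b) x y)) := by
  set u : Set ℝ := {s | 0 < (γ s).1 ∧ ∀ x, ∃ y, gm g κ p q W (γ s) x y < c} with hu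
  set v : Set ℝ := {s | 0 < (γ s).1 ∧ 0 < (γ s).2 ∧ ∃ x, ∀ y, c < gm g κ p q W (γ s) x y} with hv
  have huo : IsOpen u := by
    rw [isOpen_iff_mem_nhds]
    rintro s ⟨h1, h2⟩
    have e1 := hγ.continuousAt.eventually (open_U g κ p q W hd hp hq h1 c h2)
    have e2 : ∀ᶠ s' in 𝓝 s, 0 < (γ s').1 :=
      (continuous_fst.comp hγ).continuousAt.eventually (lt_mem_nhds h1)
    filter_upwards [e1, e2] with s' h3 h4 using ⟨h4, h3⟩
  have hvo : IsOpen v := by
    rw [isOpen_iff_mem_nhds]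
    rintro s ⟨h1, h2, x, h3⟩
    have e0 := open_V g κ p q W hg hq h1 h2 x c h3
    have e1 : Tendsto (fun s' : ℝ => (γ s', x)) (𝓝 s) (𝓝 (γ s, x)) :=
      (hγ.prodMk continuous_const).continuousAt
    have e2 : ∀ᶠ s' in 𝓝 s, 0 < (γ s').1 :=
      (continuous_fst.comp hγ).continuousAt.eventually (lt_mem_nhds h1)
    have e3 : ∀ᶠ s' in 𝓝 s, 0 < (γ s').2 :=
      (continuous_snd.comp hγ).continuousAt.eventually (lt_mem_nhds h2)
    filter_upwards [e1.eventually e0, e2, e3] with s' h4 h5 h6 using ⟨h5, h6, x, h4⟩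
  have hdis : Disjoint u v := by
    rw [Set.disjoint_left]
    rintro s ⟨_, h1⟩ ⟨_, _, x, h2⟩
    obtain ⟨y, hy⟩ := h1 x
    exact absurd (h2 y) (not_lt.2 hy.le)
  have hsub : Set.Icc a b ⊆ u ∪ v := by
    intro s hs
    obtain ⟨h1, h2⟩ := hpos s hs
    rcases hcov s hs with h3 | h3
    · exact Or.inl ⟨h1, h3⟩
    · exact Or.inr ⟨h1, h2, h3⟩
  have ha : a ∈ Set.Icc a b := ⟨le_rfl, hab⟩
  have hb : b ∈ Set.Icc a b := ⟨hab, le_rfl⟩
  obtain ⟨ha1, ha2⟩ := hpos a ha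
  constructor
  · intro h
    exact (isPreconnected_Icc.subset_left_of_subset_union huo hvo hdis hsub
      ⟨a, ha, ha1, h⟩ hb).2
  · intro h
    exact (isPreconnected_Icc.subset_right_of_subset_union huo hvo hdis hsub
      ⟨a, ha, ha1, ha2, h⟩ hb).2.2

end key

section spec

variable {n m : ℕ}

/-- The specialisation of the first block of variables. -/
noncomputable def spec (g : MvPolynomial (Fin n ⊕ Fin m) ℤ) (x : Fin n → ℝ) :
    MvPolynomial (Fin m) ℝ :=
  bind₁ (Sum.elim (fun l => C (x l)) (fun j => X j)) (map (algebraMap ℤ ℝ) g)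

lemma eval_spec (g : MvPolynomial (Fin n ⊕ Fin m) ℤ) (x : Fin n → ℝ) (y : Fin m → ℝ) :
    eval y (spec g x) = ev g x y := by
  unfold spec ev
  rw [← MvPolynomial.coe_aeval_eq_eval]
  change aeval y _ = _
  rw [aeval_bind₁, aeval_map_algebraMap]
  congr 1
  congr 1
  ext i
  rcases i with i | i <;> simp

lemma totalDegree_spec_le (g : MvPolynomial (Fin n ⊕ Fin m) ℤ) (x : Fin n → ℝ) :
    (spec g x).totalDegree ≤ g.totalDegree := by
  unfold spec
  refine (totalDegree_bind₁_le _ _ (D := 1) ?_).trans ?_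
  · rintro (i | i)
    · simp
    · simp [totalDegree_X]
  · rw [one_mul]
    exact Finset.sup_mono (support_map_subset _ _)

end spec

end TB

open Filter Topology in
/-- **Effective two-block theorem.** -/
theorem twoBlock {n m : ℕ} (g : MvPolynomial (Fin n ⊕ Fin m) ℤ) (hg : ∀ x y, 0 ≤ ev g x y)
    (d κ p q W : ℕ) (H t₁ : ℝ) (hd : g.totalDegree ≤ d) (hH : norm1 g ≤ H)
    (hκ : lojExp m d ≤ κ) (hp : d < 2 * p) (hq : d + 2 * κ < 2 * q) (hq' : 2 * p + 2 < 2 * q)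
    (hW : 2 * twoDeg n m q + 4 ≤ W) (ht₁ : 0 < t₁)
    (ht₁' : t₁ * (4 * twoNorm n m q κ H W * W ^ twoDeg n m q) ≤ 1)
    (t ζ : ℝ) (ht : 0 < t) (htt : t ≤ t₁) (hζ : 0 < ζ) (hζt : ζ ≤ t ^ (twoDeg n m q + 1)) :
    ((∃ x, ∀ y, 0 < ev g x y) → ∃ x, ∀ y, 1 ≤ game g κ p q W t ζ x y) ∧
    ((¬ ∃ x, ∀ y, 0 < ev g x y) → ∀ x, ∃ y, game g κ p q W t ζ x y ≤ -1) := by
  have hq0 : 0 < q := by omega
  obtain ⟨χ, ρ, hρ0, hρd, hρn, h0, h1, hfin, hρ⟩ := TB.exists_chi_rho g d κ p q W H hd hH hq hq'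
  set D : ℕ := twoDeg n m q with hD
  obtain ⟨S, hScard, hS⟩ := nonvanish ρ hρ0 D hρd (twoNorm n m q κ H W) hρn
  have hWD : (2 * D + 4 : ℝ) ≤ W := by exact_mod_cast hW
  have hW1 : (1 : ℝ) ≤ W := by
    have : (0 : ℝ) ≤ D := Nat.cast_nonneg D
    linarith
  -- integers outside of `S` are never values of the game in the region
  have hcov : ∀ c : ℤ, c ∉ S → |(c : ℝ)| ≤ W → ∀ t ζ : ℝ, 0 < t → t ≤ t₁ → 0 < ζ →
      ζ ≤ t ^ (D + 1) → (∀ x, ∃ y, TB.gm g κ p q W (t, ζ) x y < c) ∨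
        (∃ x, ∀ y, (c : ℝ) < TB.gm g κ p q W (t, ζ) x y) := by
    intro c hc hcW t ζ ht htt hζ hζt
    by_contra hcon
    push Not at hcon
    obtain ⟨⟨x₀, hx₀⟩, hlo⟩ := hcon
    have hA : t * (4 * twoNorm n m q κ H W * (W : ℝ) ^ D) ≤ 1 := by
      rcases le_or_gt 0 (4 * twoNorm n m q κ H W * (W : ℝ) ^ D) with h | h
      · exact (mul_le_mul_of_nonneg_right htt h).trans ht₁'
      · have := mul_neg_of_pos_of_neg ht h
        linarith
    refine hS c hc W hW1 hcW t ζ ht hA hζ hζt ?_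
    exact TB.key g κ p q W hd hp hg hq0 ht hζ χ ρ h0
      (fun x y z T hmin hT => h1 x y z T t ζ ht hζ hmin hT)
      (fun x => hfin x 0 t ζ ht hζ)
      (fun T Ti si zi xi => hρ T t ζ Ti si zi xi) hlo hx₀
  constructor
  · -- the true case
    rintro ⟨x₀, hx₀⟩
    obtain ⟨c, hcmem, hcS⟩ : ∃ c ∈ Finset.Icc (1 : ℤ) (D + 1), c ∉ S := by
      by_contra hcon
      push Not at hcon
      have := Finset.card_le_card (s := Finset.Icc (1 : ℤ) (D + 1)) (t := S) hcon
      rw [Int.card_Icc] at this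
      omega
    rw [Finset.mem_Icc] at hcmem
    have hc1 : (1 : ℝ) ≤ c := by exact_mod_cast hcmem.1
    have hc2 : (c : ℝ) ≤ D + 1 := by exact_mod_cast hcmem.2
    have hcW : |(c : ℝ)| ≤ W := by
      rw [abs_of_pos (by linarith)]
      linarith
    -- Lojasiewicz
    obtain ⟨c₀, hc₀, hloj⟩ := lojasiewicz (TB.spec g x₀) d ((TB.totalDegree_spec_le g x₀).trans hd)
      (fun y => by rw [TB.eval_spec]; exact hx₀ y) κ hκ
    set Sx : ℝ := ∑ l, x₀ l ^ (2 * p) with hSx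
    have hSx0 : 0 ≤ Sx := Finset.sum_nonneg fun l _ => (even_two_mul p).pow_nonneg _
    set A : ℝ := c + W + Sx + 1 with hA
    have hA0 : 0 < A := by rw [hA]; linarith
    set s₀ : ℝ := min t (min 1 (c₀ / A)) with hs₀
    have hs0 : 0 < s₀ := lt_min ht (lt_min one_pos (by positivity))
    have hs1 : s₀ ≤ t := min_le_left _ _
    have hs2 : s₀ ≤ 1 := (min_le_right _ _).trans (min_le_left _ _)
    have hs3 : s₀ ≤ c₀ / A := (min_le_right _ _).trans (min_le_right _ _)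
    set lam : ℝ := ζ / t ^ (D + 1) with hlam
    have hlam0 : 0 < lam := by positivity
    have hlam1 : lam ≤ 1 := by
      rw [hlam, div_le_one (by positivity)]
      exact hζt
    set γ : ℝ → ℝ × ℝ := fun s => (s, lam * s ^ (D + 1)) with hγ
    have hγc : Continuous γ := by
      rw [hγ]
      fun_prop
    have hγt : γ t = (t, ζ) := by
      simp only [hγ, hlam]
      rw [div_mul_cancel₀]
      positivity
    have hstart : ∃ x, ∀ y, (c : ℝ) < TB.gm g κ p q W (γ s₀) x y := by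
      refine ⟨x₀, fun y => ?_⟩
      have h2 := hloj y
      rw [TB.eval_spec] at h2
      have h3 : 0 ≤ lam * s₀ ^ (D + 1) * ∑ j, y j ^ (2 * q) := by
        have : 0 ≤ ∑ j, y j ^ (2 * q) := Finset.sum_nonneg fun l _ => (even_two_mul q).pow_nonneg _
        positivity
      have h4 : A ≤ (ev g x₀ y * (1 + ∑ j, y j ^ 2) ^ κ +
          lam * s₀ ^ (D + 1) * ∑ j, y j ^ (2 * q)) / s₀ := by
        rw [le_div_iff₀ hs0]
        rw [le_div_iff₀ hA0] at hs3
        linarith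
      have h5 : s₀ * Sx ≤ Sx := by nlinarith
      change (c : ℝ) < (ev g x₀ y * (1 + ∑ j, y j ^ 2) ^ κ +
          lam * s₀ ^ (D + 1) * ∑ j, y j ^ (2 * q)) / s₀ - s₀ * Sx - W
      linarith
    have hend := (TB.propagate g κ p q W hd hp hg hq0 hγc hs1 (c := (c : ℝ))
      (fun s hs => ⟨hs0.trans_le hs.1, by
        have := hs0.trans_le hs.1
        simp only [hγ]; positivity⟩)
      (fun s hs => by
        have hs' := hs0.trans_le hs.1
        refine hcov c hcS hcW s (lam * s ^ (D + 1)) hs' (hs.2.trans htt) (by positivity) ?_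
        exact mul_le_of_le_one_left (by positivity) hlam1)).2 hstart
    rw [hγt] at hend
    obtain ⟨x, hx⟩ := hend
    exact ⟨x, fun y => hc1.trans (hx y).le⟩
  · -- the false case
    intro hno
    push Not at hno
    obtain ⟨c, hcmem, hcS⟩ : ∃ c ∈ Finset.Icc (-((D : ℤ) + 1)) (-1), c ∉ S := by
      by_contra hcon
      push Not at hcon
      have := Finset.card_le_card (s := Finset.Icc (-((D : ℤ) + 1)) (-1)) (t := S) hcon
      rw [Int.card_Icc] at this
      omega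
    rw [Finset.mem_Icc] at hcmem
    have hc1 : (c : ℝ) ≤ -1 := by exact_mod_cast hcmem.2
    have hc2 : -((D : ℝ) + 1) ≤ c := by exact_mod_cast hcmem.1
    have hcW : |(c : ℝ)| ≤ W := by
      rw [abs_of_neg (by linarith)]
      linarith
    have hzero : ∀ x, ∃ y, TB.gm g κ p q W (t, 0) x y < c := by
      intro x
      obtain ⟨y, hy⟩ := hno x
      refine ⟨y, ?_⟩
      have hy0 : ev g x y = 0 := le_antisymm hy (hg x y)
      have hS0 : 0 ≤ ∑ l, x l ^ (2 * p) := Finset.sum_nonneg fun l _ => (even_two_mul p).pow_nonneg _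
      have : TB.gm g κ p q W (t, 0) x y = -(t * ∑ l, x l ^ (2 * p)) - W := by
        unfold TB.gm game
        simp only
        rw [hy0]
        ring
      rw [this]
      have h2 : 0 ≤ t * ∑ l, x l ^ (2 * p) := by positivity
      linarith
    have hop := TB.open_U g κ p q W hd hp hq0 (θ := (t, 0)) ht (c : ℝ) hzero
    set γ : ℝ → ℝ × ℝ := fun s => (t, s) with hγ
    have hγc : Continuous γ := by
      rw [hγ]
      fun_prop
    have hop' := (hγc.tendsto 0).eventually hop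
    obtain ⟨ε, hε, hball⟩ := Metric.eventually_nhds_iff.1 hop'
    set ζ₀ : ℝ := min ζ (ε / 2) with hζ₀
    have hζ0 : 0 < ζ₀ := lt_min hζ (by positivity)
    have hζ1 : ζ₀ ≤ ζ := min_le_left _ _
    have hζ2 : ζ₀ ≤ ε / 2 := min_le_right _ _
    have hstart : ∀ x, ∃ y, TB.gm g κ p q W (γ ζ₀) x y < c := by
      apply hball
      rw [Real.dist_eq, sub_zero, abs_of_pos hζ0]
      linarith
    have hend := (TB.propagate g κ p q W hd hp hg hq0 hγc hζ1 (c := (c : ℝ))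
      (fun s hs => ⟨ht, hζ0.trans_le hs.1⟩)
      (fun s hs => hcov c hcS hcW t s ht htt (hζ0.trans_le hs.1) (hs.2.trans hζt))).1 hstart
    intro x
    obtain ⟨y, hy⟩ := hend x
    exact ⟨y, (le_of_lt hy).trans hc1⟩

end Pool.Agent.IsoPt
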