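import Pool.Agent.Lib.IsoPt.PertBound
import Pool.Agent.Lib.IsoPt.TwoBlock
import Pool.Agent.Lib.IsoPt.Lagrange

/-!
# The sign of the perturbed polynomial decides the sentence
-/

set_option autoImplicit false

namespace Pool.Agent.IsoPt

open MvPolynomial

/-- Bound for the values of an integer polynomial. -/
lemma abs_ev_le {n m : ℕ} (G : MvPolynomial (Fin n ⊕ Fin m) ℤ) (d : ℕ) (hd : G.totalDegree ≤ d)
    (x : Fin n → ℝ) (y : Fin m → ℝ) (b : ℝ) (hb : 1 ≤ b) (hx : ∀ l, |x l| ≤ b)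
    (hy : ∀ j, |y j| ≤ b) : |ev G x y| ≤ norm1 G * b ^ d := by
  have h1 : ev G x y = ∑ e ∈ G.support, ((G.coeff e : ℤ) : ℝ) * ∏ i ∈ e.support, (Sum.elim x y) i ^ e i := by
    rw [ev, aeval_def, eval₂_eq]
    rfl
  rw [h1, norm1, Finset.sum_mul]
  refine (Finset.abs_sum_le_sum_abs _ _).trans (Finset.sum_le_sum fun e he => ?_)
  rw [abs_mul]
  have h2 : |∏ i ∈ e.support, (Sum.elim x y) i ^ e i| ≤ b ^ d := by
    rw [Finset.abs_prod]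
    calc ∏ i ∈ e.support, |(Sum.elim x y) i ^ e i| ≤ ∏ i ∈ e.support, b ^ e i := by
          refine Finset.prod_le_prod (fun i _ => abs_nonneg _) fun i _ => ?_
          rw [abs_pow]
          refine pow_le_pow_left₀ (abs_nonneg _) ?_ _
          rcases i with l | j
          · exact hx l
          · exact hy j
      _ = b ^ (∑ i ∈ e.support, e i) := Finset.prod_pow_eq_pow_sum _ _ _
      _ ≤ b ^ d := by
          refine pow_le_pow_right₀ hb (le_trans ?_ hd)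
          exact le_totalDegree he
  have h3 : |((G.coeff e : ℤ) : ℝ)| = ‖G.coeff e‖ := by
    rw [Int.norm_eq_abs]
  rw [h3]
  exact mul_le_mul_of_nonneg_left h2 (norm_nonneg _)

/-- Data of the main estimate. -/
structure Setup (n m L k a1 a2 a4 a5 nb : ℕ) (G : MvPolynomial (Fin n ⊕ Fin m) ℤ)
    (f : MvPolynomial (Fin n ⊕ Fin m) ℝ) (θ : PIdx n m → ℝ) : Prop where
  hn : n ≤ L
  good : GoodPar n m L k a1 a2 a4 a5 nb
  hG0 : ∀ x y, 0 ≤ ev G x y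
  hGd : G.totalDegree ≤ L
  hGn : norm1 G ≤ 2 ^ L
  hθ0 : ∀ i, 0 ≤ θ i
  hθ : ∀ i, θ i ≤ 2 ^ nb
  hf : ∀ x y, ev f x y = 2 ^ (2 ^ a1) * (ev G x y * (1 + ∑ j, y j ^ 2) ^ (2 ^ k)) +
      ((1 / 2) ^ (2 ^ a2) * (∑ j, y j ^ (2 ^ (k + 2))) +
      (-1 * ((1 / 2) ^ (2 ^ a1) * ∑ l, x l ^ (2 ^ k)) +
      (-1 * 2 ^ (2 ^ a4) + (1 / 2) ^ (2 ^ a5) * ev (pert n m θ) x y)))

section

variable {n m L k a1 a2 a4 a5 nb : ℕ} {G : MvPolynomial (Fin n ⊕ Fin m) ℤ}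
    {f : MvPolynomial (Fin n ⊕ Fin m) ℝ} {θ : PIdx n m → ℝ}
    (S : Setup n m L k a1 a2 a4 a5 nb G f θ)

include S

/-- The main estimate in a convenient form. -/
lemma Setup.key : ∃ (t z M : ℝ) (W : ℕ), 0 < t ∧ 0 < z ∧ 0 ≤ M ∧ M ≤ z / 2 ∧ z ≤ t ∧ z ≤ 1 / 2 ∧
    M ≤ 1 / 4 ∧ 2 * z ≤ (t / 2) ^ twoDeg n m (2 ^ (k + 1)) ∧
    2 * t * (4 * twoNorm n m (2 ^ (k + 1)) (2 ^ k) (2 ^ L) W * W ^ twoDeg n m (2 ^ (k + 1))) ≤ 1 ∧
    2 * twoDeg n m (2 ^ (k + 1)) + 4 ≤ W ∧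
    ∀ x y, |ev f x y - ((ev G x y * (1 + ∑ j, y j ^ 2) ^ (2 ^ k)) / t +
      z * ∑ j, y j ^ (2 * 2 ^ (k + 1)) - t * ∑ l, x l ^ (2 * 2 ^ (k - 1)) - W)| ≤
      M * (1 + ∑ l, x l ^ (2 * 2 ^ (k - 1)) + ∑ j, y j ^ (2 * 2 ^ (k + 1))) := by
  have hk := S.good.hk
  refine ⟨(1 / 2) ^ 2 ^ a1, (1 / 2) ^ 2 ^ a2, (1 / 2) ^ 2 ^ a5 * pertBound n m nb, 2 ^ 2 ^ a4,
    by positivity, by positivity, by unfold pertBound; positivity, S.good.hM, ?_, ?_, ?_,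
    S.good.hz, ?_, ?_, ?_⟩
  · refine pow_le_pow_of_le_one (by norm_num) (by norm_num) ?_
    exact Nat.pow_le_pow_right (by norm_num) S.good.hzt
  · calc (1 / 2 : ℝ) ^ 2 ^ a2 ≤ (1 / 2) ^ 1 :=
        pow_le_pow_of_le_one (by norm_num) (by norm_num) Nat.one_le_two_pow
      _ = 1 / 2 := pow_one _
  · refine S.good.hM.trans ?_
    have : (1 / 2 : ℝ) ^ 2 ^ a2 ≤ (1 / 2) ^ 1 :=
        pow_le_pow_of_le_one (by norm_num) (by norm_num) Nat.one_le_two_pow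
    linarith
  · exact S.good.ht
  · exact S.good.hW
  · intro x y
    have e1 : 2 * 2 ^ (k - 1) = 2 ^ k := by
      rw [← pow_succ', Nat.sub_add_cancel hk]
    have e2 : 2 * 2 ^ (k + 1) = 2 ^ (k + 2) := by ring
    rw [S.hf, e1, e2]
    have h1 := pert_bound (p := 2 ^ (k - 1)) (q := 2 ^ (k + 1)) θ S.hθ0 S.hθ ?_ Nat.one_le_two_pow x y
    · rw [e1, e2] at h1
      have h2 : (2 : ℝ) ^ 2 ^ a1 * (ev G x y * (1 + ∑ j, y j ^ 2) ^ (2 ^ k)) =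
          (ev G x y * (1 + ∑ j, y j ^ 2) ^ (2 ^ k)) / (1 / 2) ^ 2 ^ a1 := by
        rw [one_div, inv_pow, div_inv_eq_mul]; ring
      have h3 : 2 ^ 2 ^ a1 * (ev G x y * (1 + ∑ j, y j ^ 2) ^ 2 ^ k) +
          ((1 / 2) ^ 2 ^ a2 * ∑ j, y j ^ 2 ^ (k + 2) +
            (-1 * ((1 / 2) ^ 2 ^ a1 * ∑ l, x l ^ 2 ^ k) +
              (-1 * 2 ^ 2 ^ a4 + (1 / 2) ^ 2 ^ a5 * ev (pert n m θ) x y))) -
          (ev G x y * (1 + ∑ j, y j ^ 2) ^ 2 ^ k / (1 / 2) ^ 2 ^ a1 +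
            (1 / 2) ^ 2 ^ a2 * ∑ j, y j ^ 2 ^ (k + 2) - (1 / 2) ^ 2 ^ a1 * ∑ l, x l ^ 2 ^ k -
            ((2 ^ 2 ^ a4 : ℕ) : ℝ)) = (1 / 2) ^ 2 ^ a5 * ev (pert n m θ) x y := by
        rw [h2]; push_cast; ring
      rw [h3, abs_mul, abs_of_nonneg (by positivity : (0 : ℝ) ≤ (1 / 2) ^ 2 ^ a5), mul_assoc]
      exact mul_le_mul_of_nonneg_left h1 (by positivity)
    · have h4 : L < 2 ^ k := S.good.hL
      have h5 : 2 ^ k ≤ 2 ^ (k + 1) := Nat.pow_le_pow_right (by norm_num) (by omega)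
      have := S.hn
      omega

lemma Setup.twoBlock (t ζ : ℝ) (W : ℕ)
    (hW : 2 * twoDeg n m (2 ^ (k + 1)) + 4 ≤ W) (t₁ : ℝ) (ht₁ : 0 < t₁)
    (ht₁' : t₁ * (4 * twoNorm n m (2 ^ (k + 1)) (2 ^ k) (2 ^ L) W *
      W ^ twoDeg n m (2 ^ (k + 1))) ≤ 1)
    (ht : 0 < t) (htt : t ≤ t₁) (hζ : 0 < ζ) (hζt : ζ ≤ t ^ (twoDeg n m (2 ^ (k + 1)) + 1)) :
    ((∃ x, ∀ y, 0 < ev G x y) → ∃ x, ∀ y, 1 ≤ game G (2 ^ k) (2 ^ (k - 1)) (2 ^ (k + 1)) W t ζ x y) ∧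
    ((¬ ∃ x, ∀ y, 0 < ev G x y) →
      ∀ x, ∃ y, game G (2 ^ k) (2 ^ (k - 1)) (2 ^ (k + 1)) W t ζ x y ≤ -1) := by
  have hk := S.good.hk
  have e1 : 2 * 2 ^ (k - 1) = 2 ^ k := by
    rw [← pow_succ', Nat.sub_add_cancel hk]
  have h1 : 2 ^ (k + 1) = 2 * 2 ^ k := by ring
  have h2 : L < 2 ^ k := S.good.hL
  have h3 : 2 ^ 1 ≤ 2 ^ k := Nat.pow_le_pow_right (by norm_num) hk
  refine Pool.Agent.IsoPt.twoBlock G S.hG0 L (2 ^ k) (2 ^ (k - 1)) (2 ^ (k + 1)) W (2 ^ L) t₁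
    S.hGd S.hGn S.good.hloj ?_ ?_ ?_ hW ht₁ ht₁' t ζ ht htt hζ hζt
  · omega
  · omega
  · omega

/-- **The sign of the polynomial decides the sentence.** -/
theorem Setup.pos (h : ∃ x, ∀ y, 0 < ev G x y) : ∃ x, ∀ y, 0 < ev f x y := by
  obtain ⟨t, z, M, W, ht, hz, hM0, hM, hzt, hz2, hM4, hzD, htN, hW, hkey⟩ := S.key
  have htM : 0 < t + M := by linarith
  have hzM : 0 < z - M := by linarith
  have hD : z ≤ (t + M) ^ twoDeg n m (2 ^ (k + 1)) := by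
    have h1 : (t / 2) ^ twoDeg n m (2 ^ (k + 1)) ≤ (t + M) ^ twoDeg n m (2 ^ (k + 1)) :=
      pow_le_pow_left₀ (by linarith) (by linarith) _
    linarith
  obtain ⟨x, hx⟩ := (S.twoBlock (t + M) ((t + M) * (z - M)) W hW (2 * t) (by linarith) htN htM
    (by linarith) (by positivity) (by
      rw [pow_succ, mul_comm (_ ^ _)]
      exact mul_le_mul_of_nonneg_left (by linarith) htM.le)).1 h
  refine ⟨x, fun y => ?_⟩
  have h1 := hx y
  have h2 := (abs_le.1 (hkey x y)).1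
  rw [game] at h1
  have hSx : 0 ≤ ∑ l, x l ^ (2 * 2 ^ (k - 1)) :=
    Finset.sum_nonneg fun l _ => by rw [pow_mul]; positivity
  have hSy : 0 ≤ ∑ j, y j ^ (2 * 2 ^ (k + 1)) :=
    Finset.sum_nonneg fun l _ => by rw [pow_mul]; positivity
  set A := ev G x y * (1 + ∑ j, y j ^ 2) ^ 2 ^ k with hA
  have hA0 : 0 ≤ A := by
    have := S.hG0 x y
    have : 0 ≤ ∑ j, y j ^ 2 := Finset.sum_nonneg fun j _ => sq_nonneg _
    positivity
  set X := ∑ l, x l ^ (2 * 2 ^ (k - 1))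
  set Y := ∑ j, y j ^ (2 * 2 ^ (k + 1))
  have h3 : (A + (t + M) * (z - M) * Y) / (t + M) = A / (t + M) + (z - M) * Y := by
    field_simp
  have h4 : A / (t + M) ≤ A / t := div_le_div_of_nonneg_left hA0 ht (by linarith)
  rw [h3] at h1
  nlinarith

theorem Setup.neg (h : ¬ ∃ x, ∀ y, 0 < ev G x y) : ∀ x, ∃ y, ev f x y < 0 := by
  obtain ⟨t, z, M, W, ht, hz, hM0, hM, hzt, hz2, hM4, hzD, htN, hW, hkey⟩ := S.key
  have htM : t / 2 ≤ t - M := by linarith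
  have htM0 : 0 < t - M := by linarith
  have hD : z + M ≤ (t - M) ^ twoDeg n m (2 ^ (k + 1)) := by
    have h1 : (t / 2) ^ twoDeg n m (2 ^ (k + 1)) ≤ (t - M) ^ twoDeg n m (2 ^ (k + 1)) :=
      pow_le_pow_left₀ (by linarith) (by linarith) _
    linarith
  intro x
  obtain ⟨y, hy⟩ := (S.twoBlock (t - M) ((t - M) * (z + M)) W hW (2 * t) (by linarith) htN htM0
    (by linarith) (by positivity) (by
      rw [pow_succ, mul_comm (_ ^ _)]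
      exact mul_le_mul_of_nonneg_left (by linarith) htM0.le)).2 h x
  refine ⟨y, ?_⟩
  have h2 := (abs_le.1 (hkey x y)).2
  rw [game] at hy
  set A := ev G x y * (1 + ∑ j, y j ^ 2) ^ 2 ^ k with hA
  have hA0 : 0 ≤ A := by
    have := S.hG0 x y
    have : 0 ≤ ∑ j, y j ^ 2 := Finset.sum_nonneg fun j _ => sq_nonneg _
    positivity
  set X := ∑ l, x l ^ (2 * 2 ^ (k - 1))
  set Y := ∑ j, y j ^ (2 * 2 ^ (k + 1))
  have h3 : (A + (t - M) * (z + M) * Y) / (t - M) = A / (t - M) + (z + M) * Y := by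
    field_simp
  have h4 : A / t ≤ A / (t - M) := div_le_div_of_nonneg_left hA0 htM0 (by linarith)
  rw [h3] at hy
  nlinarith

/-- Coercivity in `y`. -/
theorem Setup.coercY : ∀ R B : ℝ, ∃ r : ℝ, ∀ x y, ‖x‖ ≤ R → ev f x y ≤ B → ‖y‖ ≤ r := by
  obtain ⟨t, z, M, W, ht, hz, hM0, hM, hzt, hz2, hM4, hzD, htN, hW, hkey⟩ := S.key
  intro R B
  set K := (B + (t + M) * (n * (max R 0) ^ (2 * 2 ^ (k - 1))) + W + M) / (z / 2) with hK
  refine ⟨max 1 K, fun x y hx hf => ?_⟩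
  have hR : ∀ l, |x l| ≤ max R 0 := fun l =>
    (norm_le_pi_norm x l).trans (hx.trans (le_max_left _ _))
  have hX : ∑ l, x l ^ (2 * 2 ^ (k - 1)) ≤ n * (max R 0) ^ (2 * 2 ^ (k - 1)) := by
    calc ∑ l, x l ^ (2 * 2 ^ (k - 1)) ≤ ∑ _l : Fin n, (max R 0) ^ (2 * 2 ^ (k - 1)) := by
          refine Finset.sum_le_sum fun l _ => ?_
          have : x l ^ (2 * 2 ^ (k - 1)) = |x l| ^ (2 * 2 ^ (k - 1)) := by
            rw [pow_mul, pow_mul, sq_abs]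
          rw [this]
          exact pow_le_pow_left₀ (abs_nonneg _) (hR l) _
      _ = _ := by simp
  have hYn : ∀ j, 0 ≤ y j ^ (2 * 2 ^ (k + 1)) := fun j => by rw [pow_mul]; positivity
  have h2 := (abs_le.1 (hkey x y)).1
  set A := ev G x y * (1 + ∑ j, y j ^ 2) ^ 2 ^ k with hA
  have hA0 : 0 ≤ A / t := by
    have := S.hG0 x y
    have : 0 ≤ ∑ j, y j ^ 2 := Finset.sum_nonneg fun j _ => sq_nonneg _
    positivity
  set X := ∑ l, x l ^ (2 * 2 ^ (k - 1))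
  have hY0 : 0 ≤ ∑ j, y j ^ (2 * 2 ^ (k + 1)) := Finset.sum_nonneg fun j _ => hYn j
  have hY : z / 2 * ∑ j, y j ^ (2 * 2 ^ (k + 1)) ≤
      B + (t + M) * (n * (max R 0) ^ (2 * 2 ^ (k - 1))) + W + M := by
    have h5 : (t + M) * X ≤ (t + M) * (n * (max R 0) ^ (2 * 2 ^ (k - 1))) :=
      mul_le_mul_of_nonneg_left hX (by linarith)
    nlinarith
  have hY' : ∑ j, y j ^ (2 * 2 ^ (k + 1)) ≤ K := by
    rw [hK, le_div_iff₀ (by linarith)]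
    linarith
  rw [pi_norm_le_iff_of_nonneg (le_trans zero_le_one (le_max_left _ _))]
  intro j
  rw [Real.norm_eq_abs]
  rcases le_total |y j| 1 with h | h
  · exact h.trans (le_max_left _ _)
  · have h6 : |y j| ^ 1 ≤ |y j| ^ (2 * 2 ^ (k + 1)) :=
      pow_le_pow_right₀ h (by have : 1 ≤ 2 ^ (k + 1) := Nat.one_le_two_pow; omega)
    have h7 : |y j| ^ (2 * 2 ^ (k + 1)) = y j ^ (2 * 2 ^ (k + 1)) := by
      rw [pow_mul, pow_mul, sq_abs]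
    rw [pow_one, h7] at h6
    have h8 := Finset.single_le_sum (fun (j : Fin m) _ => hYn j) (Finset.mem_univ j)
    exact (h6.trans (h8.trans hY')).trans (le_max_right _ _)

/-- Coercivity in `x`. -/
theorem Setup.coercX : ∃ R : ℝ, ∀ x, (∀ y, 0 < ev f x y) → ‖x‖ ≤ R := by
  obtain ⟨t, z, M, W, ht, hz, hM0, hM, hzt, hz2, hM4, hzD, htN, hW, hkey⟩ := S.key
  refine ⟨max 1 ((t / 2 + M + 2 ^ L / t) / (t / 2)), fun x hx => ?_⟩
  obtain ⟨b, hb1, hb, hbx⟩ := exists_big x (2 ^ (k - 1))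
  have h1 := hx 0
  have h2 := (abs_le.1 (hkey x 0)).2
  have hYz : ∑ j : Fin m, (0 : Fin m → ℝ) j ^ (2 * 2 ^ (k + 1)) = 0 := by
    refine Finset.sum_eq_zero fun j _ => ?_
    rw [Pi.zero_apply, zero_pow (by positivity)]
  have hY2 : ∑ j : Fin m, (0 : Fin m → ℝ) j ^ 2 = 0 := by
    refine Finset.sum_eq_zero fun j _ => ?_
    rw [Pi.zero_apply, zero_pow (by norm_num)]
  rw [hYz, hY2, add_zero, one_pow, mul_one] at h2
  have hG : ev G x 0 ≤ 2 ^ L * b ^ L := by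
    refine (le_abs_self _).trans ((abs_ev_le G L S.hGd x 0 b hb1 hb fun j => by
      simp only [Pi.zero_apply, abs_zero]; linarith).trans ?_)
    exact mul_le_mul_of_nonneg_right S.hGn (by positivity)
  have hW0 : (0 : ℝ) ≤ W := Nat.cast_nonneg W
  set X := ∑ l, x l ^ (2 * 2 ^ (k - 1))
  have hX0 : 0 ≤ X := Finset.sum_nonneg fun l _ => by rw [pow_mul]; positivity
  have h3 : (t / 2) * X ≤ 2 ^ L * b ^ L / t + M := by
    have h4 : ev G x 0 / t ≤ 2 ^ L * b ^ L / t := div_le_div_of_nonneg_right hG ht.le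
    nlinarith
  have e1 : 2 * 2 ^ (k - 1) = 2 ^ k := by
    rw [← pow_succ', Nat.sub_add_cancel S.good.hk]
  have h5 : b * b ^ L ≤ b ^ (2 * 2 ^ (k - 1)) := by
    rw [← pow_succ', e1]
    exact pow_le_pow_right₀ hb1 (by have := S.good.hL; omega)
  have hbL : 1 ≤ b ^ L := one_le_pow₀ hb1
  have h6 : (t / 2) * (b * b ^ L) ≤ (t / 2 + M + 2 ^ L / t) * b ^ L := by
    have h7 : (t / 2) * (b * b ^ L) ≤ (t / 2) * (1 + X) :=
      mul_le_mul_of_nonneg_left (h5.trans hbx) (by linarith)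
    have h8 : 2 ^ L * b ^ L / t = 2 ^ L / t * b ^ L := by ring
    have h9 : t / 2 + M ≤ (t / 2 + M) * b ^ L := le_mul_of_one_le_right (by linarith) hbL
    rw [h8] at h3
    linarith
  have h10 : b ≤ (t / 2 + M + 2 ^ L / t) / (t / 2) := by
    rw [le_div_iff₀ (by linarith)]
    have h11 : (b * (t / 2)) * b ^ L ≤ (t / 2 + M + 2 ^ L / t) * b ^ L := by linarith
    exact le_of_mul_le_mul_right h11 (by linarith)
  rw [pi_norm_le_iff_of_nonneg (le_trans zero_le_one (le_max_left _ _))]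
  intro l
  exact (hb l).trans (h10.trans (le_max_right _ _))

end

end Pool.Agent.IsoPt
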