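import Pool.Agent.Lib.IsoPt.Copies
import Pool.Agent.Lib.IsoPt.Sign

/-!
# The polynomial of the instance
-/

set_option autoImplicit false

namespace Pool.Agent.IsoPt

open Pool.Agent.PolyTime MvPolynomial

/-- degree of the value of a term -/
lemma totalDegree_eval_le {V σ K : Type} [CommRing K] (v : V → MvPolynomial σ K) (e : Tm V)
    (hv : ∀ i ∈ e.vars, (v i).totalDegree ≤ 1) : (e.eval v).totalDegree ≤ e.post.length := by
  induction e with
  | var i => simpa [Tm.eval, Tm.post] using hv i (by simp [Tm.vars])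
  | zero => simp [Tm.eval]
  | one => simp [Tm.eval]
  | add a b iha ihb =>
    have h1 := iha fun i hi => hv i (by simp [Tm.vars, hi])
    have h2 := ihb fun i hi => hv i (by simp [Tm.vars, hi])
    simp only [Tm.eval, Tm.post, List.length_append]
    refine (totalDegree_add _ _).trans ?_
    omega
  | mul a b iha ihb =>
    have h1 := iha fun i hi => hv i (by simp [Tm.vars, hi])
    have h2 := ihb fun i hi => hv i (by simp [Tm.vars, hi])
    simp only [Tm.eval, Tm.post, List.length_append]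
    refine (totalDegree_mul _ _).trans ?_
    omega

lemma norm1_eval_le {V σ : Type} (v : V → MvPolynomial σ ℤ) (e : Tm V)
    (hv : ∀ i ∈ e.vars, norm1 (v i) ≤ 1) : norm1 (e.eval v) ≤ 2 ^ e.post.length := by
  induction e with
  | var i =>
    have := hv i (by simp [Tm.vars])
    simp only [Tm.eval, Tm.post, List.length_singleton, pow_one]
    linarith
  | zero => simp only [Tm.eval, TB.norm1_zero]; positivity
  | one =>
    have h := TB.norm1_one_le (K := ℤ) (σ := σ)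
    simp only [Tm.eval, Tm.post, List.length_singleton, pow_one]
    linarith
  | add a b iha ihb =>
    have h1 := iha fun i hi => hv i (by simp [Tm.vars, hi])
    have h2 := ihb fun i hi => hv i (by simp [Tm.vars, hi])
    simp only [Tm.eval, Tm.post, List.length_append, List.length_singleton]
    have h3 := TB.norm1_add_le (a.eval v) (b.eval v)
    have h4 := two_pow_add_le a.post.length b.post.length
    linarith
  | mul a b iha ihb =>
    have h1 := iha fun i hi => hv i (by simp [Tm.vars, hi])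
    have h2 := ihb fun i hi => hv i (by simp [Tm.vars, hi])
    simp only [Tm.eval, Tm.post, List.length_append, List.length_singleton]
    calc norm1 (a.eval v * b.eval v) ≤ norm1 (a.eval v) * norm1 (b.eval v) :=
          TB.norm1_mul_le _ _
      _ ≤ 2 ^ a.post.length * 2 ^ b.post.length :=
          mul_le_mul h1 h2 (TB.norm1_nonneg _) (by positivity)
      _ = 2 ^ (a.post.length + b.post.length) := (pow_add _ _ _).symm
      _ ≤ _ := pow_le_pow_right₀ one_le_two (by omega)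

/-- The inputs as integer polynomials. -/
noncomputable def uZ (n m : ℕ) : Nm → MvPolynomial (Fin n ⊕ Fin m) ℤ
  | [0, l] => if h : l < n then X (Sum.inl ⟨l, h⟩) else 0
  | [1, j] => if h : j < m then X (Sum.inr ⟨j, h⟩) else 0
  | [4] => -1
  | _ => 0

/-- The values of the bits. -/
noncomputable def thetaOf (n m nb : ℕ) (β : Nm → ℝ) : PIdx n m → ℝ
  | Sum.inl (N, r, none) => ∑ b : Fin nb, 2 ^ (b : ℕ) * β [2, 0, N, r, m, b]
  | Sum.inl (N, r, some j) => ∑ b : Fin nb, 2 ^ (b : ℕ) * β [2, 0, N, r, j, b]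
  | Sum.inr l => ∑ b : Fin nb, 2 ^ (b : ℕ) * β [2, 1, l, b]

section

variable {p : Par} {n m nb T : ℕ}

/-- The unperturbed polynomial. -/
noncomputable def f0 (p : Par) (n m : ℕ) : MvPolynomial (Fin n ⊕ Fin m) ℝ :=
  2 ^ (2 ^ p.a1) * (pol n m 0 p.g * (1 + ∑ j : Fin m, X (Sum.inr j) ^ 2) ^ (2 ^ p.k)) +
      (C (1 / 2) ^ (2 ^ p.a2) * (∑ j : Fin m, X (Sum.inr j) ^ (2 ^ (p.k + 2))) +
      (-1 * (C (1 / 2) ^ (2 ^ p.a1) * ∑ l : Fin n, X (Sum.inl l) ^ (2 ^ p.k)) +
      (-1 * 2 ^ (2 ^ p.a4))))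

lemma pol_g (hp : p.Ok n m nb T) (β : Nm → ℝ) : pol n m β p.g = pol n m 0 p.g := by
  refine Tm.eval_congr fun v hv => ?_
  rcases hp.hg v hv with rfl | ⟨l, hl, rfl⟩ | ⟨j, hj, rfl⟩ <;> rfl

lemma pertV_eq (β : Nm → ℝ) : pertV n m nb (uP n m β) = pert n m (thetaOf n m nb β) := by
  have hX : ∀ l : Fin n, uP n m β [0, (l : ℕ)] = X (Sum.inl l) := fun l => by simp [uP]
  have hY : ∀ j : Fin m, uP n m β [1, (j : ℕ)] = X (Sum.inr j) := fun j => by simp [uP]
  have h2C : (C 2 : MvPolynomial (Fin n ⊕ Fin m) ℝ) = 2 := map_ofNat C 2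
  have h1 : ∀ N r j : ℕ, thV nb (uP n m β) (fun b => [2, 0, N, r, j, b]) =
      C (∑ b : Fin nb, 2 ^ (b : ℕ) * β [2, 0, N, r, j, b]) := by
    intro N r j
    simp [thV, uP, map_sum, h2C]
  have h2 : ∀ l : ℕ, thV nb (uP n m β) (fun b => [2, 1, l, b]) =
      C (∑ b : Fin nb, 2 ^ (b : ℕ) * β [2, 1, l, b]) := by
    intro l
    simp [thV, uP, map_sum, h2C]
  simp only [pertV, pert, linForm, hX, hY, h1, h2, thetaOf]
  simp

lemma pol_fT (hp : p.Ok n m nb T) (β : Nm → ℝ) : pol n m β (fT p) =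
    f0 p n m + C ((1 / 2) ^ (2 ^ p.a5)) * pert n m (thetaOf n m nb β) := by
  have hX : ∀ l : Fin n, uP n m β [0, (l : ℕ)] = X (Sum.inl l) := fun l => by simp [uP]
  have hY : ∀ j : Fin m, uP n m β [1, (j : ℕ)] = X (Sum.inr j) := fun j => by simp [uP]
  have h3 : uP n m β [3] = C (1 / 2) := rfl
  have h4 : uP n m β [4] = -1 := rfl
  have hg : p.g.eval (cl m (uP n m β)) = pol n m 0 p.g := pol_g hp β
  rw [pol, eval_fT hp, pertV_eq, hg]
  simp only [hX, hY, h3, h4, f0, C_pow]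
  ring

lemma ev_pow (f : MvPolynomial (Fin n ⊕ Fin m) ℝ) (k : ℕ) (x : Fin n → ℝ) (y : Fin m → ℝ) :
    ev (f ^ k) x y = ev f x y ^ k := by simp [ev]
lemma ev_sum {ι : Type*} (s : Finset ι) (f : ι → MvPolynomial (Fin n ⊕ Fin m) ℝ)
    (x : Fin n → ℝ) (y : Fin m → ℝ) :
    ev (∑ i ∈ s, f i) x y = ∑ i ∈ s, ev (f i) x y := by simp [ev]
lemma ev_neg_one (x : Fin n → ℝ) (y : Fin m → ℝ) :
    ev (-1 : MvPolynomial (Fin n ⊕ Fin m) ℝ) x y = -1 := by simp [ev]
lemma ev_two (x : Fin n → ℝ) (y : Fin m → ℝ) :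
    ev (2 : MvPolynomial (Fin n ⊕ Fin m) ℝ) x y = 2 := by
  have : (2 : MvPolynomial (Fin n ⊕ Fin m) ℝ) = C 2 := (map_ofNat C 2).symm
  rw [this, ev_C]

lemma ev_fT (hp : p.Ok n m nb T) (β : Nm → ℝ) (x : Fin n → ℝ) (y : Fin m → ℝ) :
    ev (pol n m β (fT p)) x y =
      2 ^ (2 ^ p.a1) * (ev (pol n m 0 p.g) x y * (1 + ∑ j, y j ^ 2) ^ (2 ^ p.k)) +
      ((1 / 2) ^ (2 ^ p.a2) * (∑ j, y j ^ (2 ^ (p.k + 2))) +
      (-1 * ((1 / 2) ^ (2 ^ p.a1) * ∑ l, x l ^ (2 ^ p.k)) +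
      (-1 * 2 ^ (2 ^ p.a4) + (1 / 2) ^ (2 ^ p.a5) *
        ev (pert n m (thetaOf n m nb β)) x y))) := by
  rw [pol_fT hp, f0]
  simp only [ev_add, ev_mul, ev_pow, ev_sum, ev_two, ev_neg_one, ev_one, ev_C, ev_inl, ev_inr]
  ring

lemma totalDegree_f0 (hp : p.Ok n m nb T) {L : ℕ} (hg : p.g.post.length ≤ L) (hL : L < 2 ^ p.k) :
    (f0 p n m).totalDegree ≤ 2 ^ (p.k + 3) := by
  have e2 : 2 ^ (p.k + 2) = 4 * 2 ^ p.k := by rw [pow_add]; ring
  have e3 : 2 ^ (p.k + 3) = 8 * 2 ^ p.k := by rw [pow_add]; ring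
  have h2 : ∀ i, (2 ^ i : MvPolynomial (Fin n ⊕ Fin m) ℝ).totalDegree = 0 := by
    intro i
    have : (2 : MvPolynomial (Fin n ⊕ Fin m) ℝ) = C 2 := (map_ofNat C 2).symm
    rw [this, ← C_pow, totalDegree_C]
  have hC : ∀ i, (C (1 / 2) ^ i : MvPolynomial (Fin n ⊕ Fin m) ℝ).totalDegree = 0 := by
    intro i
    rw [← C_pow, totalDegree_C]
  have hm1 : (-1 : MvPolynomial (Fin n ⊕ Fin m) ℝ).totalDegree = 0 := by
    have : (-1 : MvPolynomial (Fin n ⊕ Fin m) ℝ) = C (-1) := by simp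
    rw [this, totalDegree_C]
  have hg' : (pol n m 0 p.g).totalDegree ≤ L := by
    refine (totalDegree_eval_le _ _ fun v hv => ?_).trans hg
    rcases hp.hg v hv with rfl | ⟨l, hl, rfl⟩ | ⟨j, hj, rfl⟩
    · show (-1 : MvPolynomial (Fin n ⊕ Fin m) ℝ).totalDegree ≤ 1
      rw [hm1]; omega
    · show (uP n m 0 [0, l]).totalDegree ≤ 1
      simp [uP, hl]
    · show (uP n m 0 [1, j]).totalDegree ≤ 1
      simp [uP, hj]
  have hs1 : ∀ e, (∑ j : Fin m, X (Sum.inr j) ^ e :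
      MvPolynomial (Fin n ⊕ Fin m) ℝ).totalDegree ≤ e := by
    intro e
    refine totalDegree_finsetSum_le fun j _ => ?_
    refine (totalDegree_pow _ _).trans ?_
    rw [totalDegree_X, mul_one]
  have hs2 : ∀ e, (∑ l : Fin n, X (Sum.inl l) ^ e :
      MvPolynomial (Fin n ⊕ Fin m) ℝ).totalDegree ≤ e := by
    intro e
    refine totalDegree_finsetSum_le fun j _ => ?_
    refine (totalDegree_pow _ _).trans ?_
    rw [totalDegree_X, mul_one]
  have hw : ((1 + ∑ j : Fin m, X (Sum.inr j) ^ 2) ^ (2 ^ p.k) :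
      MvPolynomial (Fin n ⊕ Fin m) ℝ).totalDegree ≤ 2 ^ p.k * 2 := by
    refine (totalDegree_pow _ _).trans (Nat.mul_le_mul le_rfl ?_)
    refine (totalDegree_add _ _).trans (max_le (by simp) (hs1 2))
  unfold f0
  refine (totalDegree_add _ _).trans (max_le ?_ ?_)
  · refine (totalDegree_mul _ _).trans ?_
    rw [h2, zero_add]
    refine (totalDegree_mul _ _).trans ?_
    omega
  refine (totalDegree_add _ _).trans (max_le ?_ ?_)
  · refine (totalDegree_mul _ _).trans ?_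
    rw [hC, zero_add]
    refine (hs1 _).trans ?_
    omega
  refine (totalDegree_add _ _).trans (max_le ?_ ?_)
  · refine (totalDegree_mul _ _).trans ?_
    rw [hm1, zero_add]
    refine (totalDegree_mul _ _).trans ?_
    rw [hC, zero_add]
    refine (hs2 _).trans ?_
    omega
  · refine (totalDegree_mul _ _).trans ?_
    rw [hm1, h2]
    omega

/-- The integer polynomial and the real polynomial have the same values. -/
lemma ev_uZ (hp : p.Ok n m nb T) (x : Fin n → ℝ) (y : Fin m → ℝ) :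
    ev (p.g.eval (uZ n m)) x y = ev (pol n m 0 p.g) x y := by
  have h1 := Tm.eval_hom (aeval (R := ℤ) (Sum.elim x y)).toRingHom (uZ n m) p.g
  have h2 := Tm.eval_hom (aeval (R := ℝ) (Sum.elim x y)).toRingHom (cl m (uP n m 0)) p.g
  have h3 : ev (p.g.eval (uZ n m)) x y = (aeval (R := ℤ) (Sum.elim x y)).toRingHom
    (p.g.eval (uZ n m)) := rfl
  have h4 : ev (pol n m 0 p.g) x y = (aeval (R := ℝ) (Sum.elim x y)).toRingHom
    (p.g.eval (cl m (uP n m 0))) := rfl
  rw [h3, h4, h1, h2]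
  refine Tm.eval_congr fun v hv => ?_
  rcases hp.hg v hv with rfl | ⟨l, hl, rfl⟩ | ⟨j, hj, rfl⟩
  · simp [uZ, uP]
  · simp [uZ, uP, hl]
  · simp [uZ, uP, hj]

lemma totalDegree_uZ (hp : p.Ok n m nb T) : (p.g.eval (uZ n m)).totalDegree ≤ p.g.post.length := by
  refine totalDegree_eval_le _ _ fun v hv => ?_
  rcases hp.hg v hv with rfl | ⟨l, hl, rfl⟩ | ⟨j, hj, rfl⟩
  · have : (-1 : MvPolynomial (Fin n ⊕ Fin m) ℤ) = C (-1) := by simp
    show (-1 : MvPolynomial (Fin n ⊕ Fin m) ℤ).totalDegree ≤ 1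
    rw [this, totalDegree_C]; omega
  · simp [uZ, hl]
  · simp [uZ, hj]

lemma norm1_uZ (hp : p.Ok n m nb T) : norm1 (p.g.eval (uZ n m)) ≤ 2 ^ p.g.post.length := by
  refine norm1_eval_le _ _ fun v hv => ?_
  rcases hp.hg v hv with rfl | ⟨l, hl, rfl⟩ | ⟨j, hj, rfl⟩
  · show norm1 (-1 : MvPolynomial (Fin n ⊕ Fin m) ℤ) ≤ 1
    rw [TB.norm1_neg]
    exact TB.norm1_one_le
  · simp [uZ, hl, TB.norm1_X]
  · simp [uZ, hj, TB.norm1_X]

end

/-- Sum of the bits of a natural number. -/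
lemma sum_testBit (nb : ℕ) : ∀ x : ℕ, x < 2 ^ nb →
    ∑ b : Fin nb, 2 ^ (b : ℕ) * (x.testBit b).toNat = x := by
  induction nb with
  | zero => intro x hx; simp at hx; simp [hx]
  | succ nb ih =>
    intro x hx
    rw [Fin.sum_univ_succ]
    have h1 := ih (x / 2) (by rw [pow_succ] at hx; omega)
    have h2 : ∑ i : Fin nb, 2 ^ ((Fin.succ i : Fin (nb + 1)) : ℕ) *
        (x.testBit (Fin.succ i : Fin (nb + 1))).toNat = 2 * (x / 2) := by
      rw [← h1, Finset.mul_sum]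
      refine Finset.sum_congr rfl fun i _ => ?_
      rw [Fin.val_succ, pow_succ, Nat.testBit_succ]
      ring
    rw [h2]
    have h3 : (x.testBit 0).toNat = x % 2 := by
      rw [Nat.testBit_zero]
      rcases Nat.mod_two_eq_zero_or_one x with h | h <;> simp [h]
    simp only [Fin.val_zero, pow_zero, one_mul, h3]
    omega

end Pool.Agent.IsoPt
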