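import Pool.Agent.Lib.IsoPt.Defs

/-!
# Functions given by polynomials of bounded degree, and the dimension count of chunk B
-/

set_option autoImplicit false

namespace Pool.Agent.IsoPt

open MvPolynomial

/-- The function `g` is given by a polynomial of total degree at most `d`. -/
def PolyLE {ι : Type*} (d : ℕ) (g : (ι → ℝ) → ℝ) : Prop :=
  ∃ p : MvPolynomial ι ℝ, p.totalDegree ≤ d ∧ ∀ z, g z = eval z p

namespace PolyLE

variable {ι : Type*} {d e : ℕ} {f g : (ι → ℝ) → ℝ}

theorem mono (h : PolyLE d f) (hde : d ≤ e) : PolyLE e f := by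
  obtain ⟨p, hp, hp2⟩ := h
  exact ⟨p, hp.trans hde, hp2⟩

theorem const (d : ℕ) (c : ℝ) : PolyLE d (fun _ : ι → ℝ => c) :=
  ⟨C c, by rw [totalDegree_C]; exact Nat.zero_le _, fun z => by rw [eval_C]⟩

theorem coord (i : ι) : PolyLE 1 (fun z : ι → ℝ => z i) :=
  ⟨X i, by rw [totalDegree_X], fun z => by rw [eval_X]⟩

theorem add (hf : PolyLE d f) (hg : PolyLE d g) : PolyLE d (fun z => f z + g z) := by
  obtain ⟨p, hp, hp2⟩ := hf
  obtain ⟨q, hq, hq2⟩ := hg
  exact ⟨p + q, (totalDegree_add p q).trans (max_le hp hq), fun z => by simp only [map_add, hp2, hq2]⟩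

theorem mul (hf : PolyLE d f) (hg : PolyLE e g) : PolyLE (d + e) (fun z => f z * g z) := by
  obtain ⟨p, hp, hp2⟩ := hf
  obtain ⟨q, hq, hq2⟩ := hg
  exact ⟨p * q, (totalDegree_mul p q).trans (add_le_add hp hq), fun z => by simp only [map_mul, hp2, hq2]⟩

theorem const_mul (c : ℝ) (hf : PolyLE d f) : PolyLE d (fun z => c * f z) := by
  have := (const (ι := ι) 0 c).mul hf
  rwa [zero_add] at this

theorem neg (hf : PolyLE d f) : PolyLE d (fun z => - f z) := by
  have := hf.const_mul (-1)
  simpa using this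

theorem sub (hf : PolyLE d f) (hg : PolyLE d g) : PolyLE d (fun z => f z - g z) := by
  simpa only [sub_eq_add_neg] using hf.add hg.neg

theorem pow (hf : PolyLE d f) (n : ℕ) : PolyLE (n * d) (fun z => f z ^ n) := by
  obtain ⟨p, hp, hp2⟩ := hf
  exact ⟨p ^ n, (totalDegree_pow p n).trans (Nat.mul_le_mul_left _ hp), fun z => by
    simp only [map_pow, hp2]⟩

theorem sum {κ : Type*} (s : Finset κ) (F : κ → (ι → ℝ) → ℝ) (h : ∀ k ∈ s, PolyLE d (F k)) :
    PolyLE d (fun z => ∑ k ∈ s, F k z) := by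
  classical
  induction s using Finset.induction_on with
  | empty => simpa using const (ι := ι) d 0
  | insert a s ha ih =>
    simp only [Finset.sum_insert ha]
    exact (h a (Finset.mem_insert_self a s)).add
      (ih fun k hk => h k (Finset.mem_insert_of_mem hk))

theorem prod {κ : Type*} (s : Finset κ) (F : κ → (ι → ℝ) → ℝ) (D : κ → ℕ)
    (h : ∀ k ∈ s, PolyLE (D k) (F k)) :
    PolyLE (∑ k ∈ s, D k) (fun z => ∏ k ∈ s, F k z) := by
  classical
  induction s using Finset.induction_on with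
  | empty => simpa using const (ι := ι) 0 1
  | insert a s ha ih =>
    simp only [Finset.prod_insert ha, Finset.sum_insert ha]
    exact (h a (Finset.mem_insert_self a s)).mul
      (ih fun k hk => h k (Finset.mem_insert_of_mem hk))

theorem aeval {σ : Type*} [Fintype σ] (p : MvPolynomial σ ℝ) (G : σ → (ι → ℝ) → ℝ)
    (hG : ∀ i, PolyLE 1 (G i)) :
    PolyLE p.totalDegree (fun z => MvPolynomial.aeval (fun i => G i z) p) := by
  have : (fun z => MvPolynomial.aeval (fun i => G i z) p) =
      fun z => ∑ d ∈ p.support, p.coeff d * ∏ i, G i z ^ d i := by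
    funext z
    rw [aeval_def, eval₂_eq']
    rfl
  rw [this]
  refine sum _ _ fun m hm => ?_
  refine const_mul _ ?_
  refine (prod Finset.univ _ (fun i => m i * 1) fun i _ => (hG i).pow (m i)).mono ?_
  simp only [mul_one]
  refine le_trans (le_of_eq ?_) (le_totalDegree hm)
  rw [Finsupp.sum_fintype _ _ (fun _ => rfl)]

theorem det {κ : Type*} [Fintype κ] [DecidableEq κ] (M : (ι → ℝ) → Matrix κ κ ℝ)
    (h : ∀ i j, PolyLE d (fun z => M z i j)) :
    PolyLE (Fintype.card κ * d) (fun z => (M z).det) := by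
  simp only [Matrix.det_apply]
  refine sum _ _ fun σ _ => ?_
  have h1 : PolyLE (Fintype.card κ * d) (fun z => ∏ i, M z (σ i) i) := by
    refine (prod Finset.univ _ (fun _ => d) fun i _ => h (σ i) i).mono ?_
    simp
  rcases Int.units_eq_one_or (Equiv.Perm.sign σ) with h2 | h2
  · simpa [h2] using h1
  · simpa [h2] using h1.neg

theorem cramer {κ : Type*} [Fintype κ] [DecidableEq κ] (M : (ι → ℝ) → Matrix κ κ ℝ)
    (b : (ι → ℝ) → κ → ℝ) (h : ∀ i j, PolyLE d (fun z => M z i j))
    (hb : ∀ i, PolyLE d (fun z => b z i)) (i : κ) :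
    PolyLE (Fintype.card κ * d) (fun z => (M z).cramer (b z) i) := by
  simp only [Matrix.cramer_apply]
  refine det _ fun j l => ?_
  simp only [Matrix.updateCol_apply]
  by_cases h1 : l = i
  · simpa [h1] using hb j
  · simpa [h1] using h j l

end PolyLE

/-- **Dimension count.** The `P + 1` rational functions `A i / D`, `W / D` of `P` variables satisfy a
nontrivial polynomial relation of controlled degree. -/
theorem dimCount {ι : Type*} [Fintype ι] (d b : ℕ) (hd : 1 ≤ d)
    (hb : ((Fintype.card ι + 1) * d) ^ Fintype.card ι < b)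
    (A : ι → (ι → ℝ) → ℝ) (W D : (ι → ℝ) → ℝ) (hA : ∀ i, PolyLE d (A i)) (hW : PolyLE d W)
    (hD : PolyLE d D) :
    ∃ c : Fin b → MvPolynomial ι ℝ, (∃ e, c e ≠ 0) ∧ (∀ e i, (c e).degreeOf i < b) ∧
      ∀ z, D z ≠ 0 → ∑ e, eval (fun i => A i z / D z) (c e) * (W z / D z) ^ (e : ℕ) = 0 := by
  classical
  have hb0 : 0 < b := Nat.pos_of_ne_zero (by rintro rfl; exact absurd hb (Nat.not_lt_zero _))
  set P := Fintype.card ι with hP
  set B : ℕ := (P + 1) * ((b - 1) * d) with hB
  let Λ : Type _ := (ι → Fin b) × Fin b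
  -- the functions
  let F : Λ → (ι → ℝ) → ℝ := fun lam z =>
    (∏ i, A i z ^ ((lam.1 i : ℕ)) * D z ^ (b - 1 - (lam.1 i : ℕ))) *
      (W z ^ (lam.2 : ℕ) * D z ^ (b - 1 - (lam.2 : ℕ)))
  have hF : ∀ lam, PolyLE B (F lam) := by
    intro lam
    have h1 : ∀ (u : Fin b) (G : (ι → ℝ) → ℝ), PolyLE d G →
        PolyLE ((b - 1) * d) (fun z => G z ^ (u : ℕ) * D z ^ (b - 1 - (u : ℕ))) := by
      intro u G hG
      refine ((hG.pow (u : ℕ)).mul (hD.pow (b - 1 - (u : ℕ)))).mono ?_
      rw [← add_mul]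
      refine Nat.mul_le_mul_right _ ?_
      have := u.2
      omega
    have h2 : PolyLE (P * ((b - 1) * d)) (fun z =>
        ∏ i, A i z ^ ((lam.1 i : ℕ)) * D z ^ (b - 1 - (lam.1 i : ℕ))) := by
      refine (PolyLE.prod Finset.univ _ (fun _ => (b - 1) * d) fun i _ =>
        h1 (lam.1 i) (A i) (hA i)).mono ?_
      simp [hP]
    refine (h2.mul (h1 lam.2 W hW)).mono ?_
    rw [hB, add_mul, one_mul]
  choose p hp1 hp2 using hF
  -- coefficients
  let toE : (ι → Fin (B + 1)) → (ι →₀ ℕ) := fun e => Finsupp.equivFunOnFinite.symm fun i => (e i : ℕ)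
  let Ψ : (Λ → ℝ) →ₗ[ℝ] ((ι → Fin (B + 1)) → ℝ) :=
    { toFun := fun c e => ∑ lam, c lam * coeff (toE e) (p lam)
      map_add' := by
        intro c c'
        funext e
        simp only [Pi.add_apply, add_mul, Finset.sum_add_distrib]
      map_smul' := by
        intro a c
        funext e
        simp only [Pi.smul_apply, smul_eq_mul, RingHom.id_apply, Finset.mul_sum, mul_assoc] }
  have hrank : Module.finrank ℝ ((ι → Fin (B + 1)) → ℝ) < Module.finrank ℝ (Λ → ℝ) := by
    rw [Module.finrank_pi, Module.finrank_pi]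
    simp only [Λ, Fintype.card_prod, Fintype.card_pi, Finset.prod_const, Fintype.card_fin,
      Finset.card_univ]
    have h1 : B + 1 ≤ (P + 1) * d * b := by
      rw [hB]
      obtain ⟨b', rfl⟩ : ∃ b', b = b' + 1 := ⟨b - 1, by omega⟩
      have : 1 ≤ (P + 1) * d := Nat.one_le_iff_ne_zero.2 (by positivity)
      calc (P + 1) * ((b' + 1 - 1) * d) + 1 = (P + 1) * d * b' + 1 := by
            rw [Nat.add_sub_cancel]; ring
        _ ≤ (P + 1) * d * b' + (P + 1) * d := by omega
        _ = (P + 1) * d * (b' + 1) := by ring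
    calc (B + 1) ^ P ≤ ((P + 1) * d * b) ^ P := Nat.pow_le_pow_left h1 _
      _ = ((P + 1) * d) ^ P * b ^ P := by rw [mul_pow]
      _ < b * b ^ P := Nat.mul_lt_mul_of_pos_right hb (pow_pos hb0 _)
      _ = b ^ P * b := by ring
  have hker := LinearMap.ker_ne_bot_of_finrank_lt (f := Ψ) hrank
  obtain ⟨c, hc, hc0⟩ := (Submodule.ne_bot_iff _).1 hker
  rw [LinearMap.mem_ker] at hc
  -- the combination of polynomials vanishes
  have hsum : ∑ lam, C (c lam) * p lam = 0 := by
    ext e
    rw [coeff_zero, coeff_sum]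
    simp only [coeff_C_mul]
    by_cases he : ∀ i, e i ≤ B
    · have h1 := congrFun hc fun i => (⟨e i, Nat.lt_succ_of_le (he i)⟩ : Fin (B + 1))
      have h2 : toE (fun i => (⟨e i, Nat.lt_succ_of_le (he i)⟩ : Fin (B + 1))) = e := by
        ext i
        simp [toE]
      change ∑ lam, c lam * coeff (toE _) (p lam) = 0 at h1
      rw [h2] at h1
      exact h1
    · push Not at he
      obtain ⟨i, hi⟩ := he
      refine Finset.sum_eq_zero fun lam _ => ?_
      have : coeff e (p lam) = 0 := by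
        by_contra hne
        have h1 := le_totalDegree (mem_support_iff.2 hne)
        rw [Finsupp.sum_fintype _ _ (fun _ => rfl)] at h1
        have h2 : e i ≤ ∑ j, e j := Finset.single_le_sum (fun _ _ => Nat.zero_le _)
          (Finset.mem_univ i)
        have := hp1 lam
        omega
      rw [this, mul_zero]
  have hzero : ∀ z, ∑ lam, c lam * F lam z = 0 := by
    intro z
    have := congrArg (eval z) hsum
    rw [map_sum, map_zero] at this
    rw [← this]
    refine Finset.sum_congr rfl fun lam _ => ?_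
    rw [map_mul, eval_C, hp2]
  -- the polynomial
  let toE' : (ι → Fin b) → (ι →₀ ℕ) := fun e => Finsupp.equivFunOnFinite.symm fun i => (e i : ℕ)
  have htoE' : Function.Injective toE' := by
    intro e e' h
    funext i
    have := DFunLike.congr_fun h i
    simp only [toE', Finsupp.equivFunOnFinite_symm_apply_apply] at this
    exact Fin.ext this
  refine ⟨fun e => ∑ μ : ι → Fin b, monomial (toE' μ) (c (μ, e)), ?_, ?_, ?_⟩
  · obtain ⟨⟨μ, e⟩, hne⟩ := Function.ne_iff.1 hc0
    refine ⟨e, fun h => hne ?_⟩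
    have h1 := congrArg (coeff (toE' μ)) h
    rw [coeff_sum, coeff_zero] at h1
    simp only [coeff_monomial] at h1
    rw [Finset.sum_eq_single μ] at h1
    · simpa using h1
    · intro ν _ hν
      rw [if_neg fun h' => hν (htoE' h')]
    · intro h'
      exact absurd (Finset.mem_univ _) h'
  · intro e i
    rw [degreeOf_lt_iff hb0]
    intro m hm
    have h1 := support_sum hm
    rw [Finset.mem_biUnion] at h1
    obtain ⟨μ, _, hμ⟩ := h1
    have h2 := support_monomial_subset hμ
    rw [Finset.mem_singleton] at h2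
    rw [h2]
    simp only [toE', Finsupp.equivFunOnFinite_symm_apply_apply]
    exact (μ i).2
  · intro z hz
    have h1 := hzero z
    have h2 : ∀ lam : Λ, F lam z = D z ^ ((P + 1) * (b - 1)) *
        ((∏ i, (A i z / D z) ^ ((lam.1 i : ℕ))) * (W z / D z) ^ (lam.2 : ℕ)) := by
      intro lam
      have h3 : ∀ (u : Fin b) (a : ℝ), a ^ (u : ℕ) * D z ^ (b - 1 - (u : ℕ)) =
          D z ^ (b - 1) * (a / D z) ^ (u : ℕ) := by
        intro u a
        have hu : (u : ℕ) ≤ b - 1 := by have := u.2; omega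
        have : D z ^ (b - 1) = D z ^ (b - 1 - (u : ℕ)) * D z ^ (u : ℕ) := by
          rw [← pow_add]; congr 1; omega
        rw [this, div_pow]
        field_simp
      have h7 : (∏ i, A i z ^ ((lam.1 i : ℕ)) * D z ^ (b - 1 - (lam.1 i : ℕ))) =
          (D z ^ (b - 1)) ^ P * ∏ i, (A i z / D z) ^ ((lam.1 i : ℕ)) := by
        rw [Finset.prod_congr rfl fun i _ => h3 (lam.1 i) (A i z), Finset.prod_mul_distrib,
          Finset.prod_const, Finset.card_univ, hP]
      change (∏ i, A i z ^ ((lam.1 i : ℕ)) * D z ^ (b - 1 - (lam.1 i : ℕ))) *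
        (W z ^ (lam.2 : ℕ) * D z ^ (b - 1 - (lam.2 : ℕ))) = _
      rw [h7, h3]
      have h4 : D z ^ ((P + 1) * (b - 1)) = (D z ^ (b - 1)) ^ P * D z ^ (b - 1) := by
        rw [← pow_mul, ← pow_add]; congr 1; ring
      rw [h4]
      ring
    simp only [h2] at h1
    have h5 : ∑ lam : Λ, c lam * ((∏ i, (A i z / D z) ^ ((lam.1 i : ℕ))) *
        (W z / D z) ^ (lam.2 : ℕ)) = 0 := by
      have h6 : D z ^ ((P + 1) * (b - 1)) * ∑ lam : Λ, c lam * ((∏ i, (A i z / D z) ^
          ((lam.1 i : ℕ))) * (W z / D z) ^ (lam.2 : ℕ)) = 0 := by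
        rw [← h1, Finset.mul_sum]
        refine Finset.sum_congr rfl fun lam _ => ?_
        ring
      exact (mul_eq_zero.1 h6).resolve_left (pow_ne_zero _ hz)
    rw [← h5, Fintype.sum_prod_type_right]
    refine Finset.sum_congr rfl fun e _ => ?_
    rw [map_sum, Finset.sum_mul]
    refine Finset.sum_congr rfl fun μ _ => ?_
    rw [eval_monomial, Finsupp.prod_fintype _ _ (fun _ => pow_zero _)]
    simp only [toE', Finsupp.equivFunOnFinite_symm_apply_apply]
    ring

end Pool.Agent.IsoPt
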