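import Pool.Agent.Lib.IsoPt.Build
import Pool.Agent.Lib.IsoPt.Defs

/-!
# Semantics of the instructions
-/

set_option autoImplicit false

namespace Pool.Agent.IsoPt

open Pool.Agent.PolyTime

lemma flatE_toEx {V : Type} (e : Tm V) : (flatE e.toEx).1 = e := by
  induction e with
  | var v => rfl
  | zero => rfl
  | one => rfl
  | add a b iha ihb => simp [Tm.toEx, flatE, iha, ihb]
  | mul a b iha ihb => simp [Tm.toEx, flatE, iha, ihb]

@[simp] lemma insT_var (v : Nm) : insT (.var v) = [] := rfl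
@[simp] lemma insT_zero : insT .zero = [(0, .zero, .zero, .zero)] := rfl
@[simp] lemma insT_one : insT .one = [(1, .one, .zero, .zero)] := rfl
@[simp] lemma insT_add (a b : TN) :
    insT (.add a b) = (2, .add a b, a, b) :: (insT a ++ insT b) := by
  simp [insT, Tm.toEx, flatE, flatE_toEx, tgt]
@[simp] lemma insT_mul (a b : TN) :
    insT (.mul a b) = (3, .mul a b, a, b) :: (insT a ++ insT b) := by
  simp [insT, Tm.toEx, flatE, flatE_toEx, tgt]

/-- Properties of the parameters used in the semantics. -/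
structure Par.Ok (p : Par) (n m nb T : ℕ) : Prop where
  hns : p.ns = List.range n
  hms : p.ms = List.range m
  hcs : p.cs = List.range (n + 1)
  hrs : p.rs = List.range (2 * (n + 1))
  hfs : p.fs = List.range (numForms n m)
  hbs : p.bs = List.range nb
  hts : p.ts = List.range T
  hm : p.m = m
  hk : p.k + 2 ≤ T
  ha1 : p.a1 ≤ T
  ha2 : p.a2 ≤ T
  ha4 : p.a4 ≤ T
  ha5 : p.a5 ≤ T
  hg : ∀ v ∈ p.g.vars, v = [4] ∨ (∃ l < n, v = [0, l]) ∨ ∃ j < m, v = [1, j]

/-- The values of the chains. -/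
def cl {R : Type*} [CommRing R] (m : ℕ) (u : Nm → R) : Nm → R
  | [5, 0, i] => 2 ^ (2 ^ i)
  | [5, 1, i] => u [3] ^ (2 ^ i)
  | [5, 2, i] => (1 + ∑ j : Fin m, u [1, (j : ℕ)] ^ 2) ^ (2 ^ i)
  | [6, j, i] => u [1, j] ^ (2 ^ i)
  | [7, l, i] => u [0, l] ^ (2 ^ i)
  | nm => u nm

section cl

variable {R : Type*} [CommRing R] (m : ℕ) (u : Nm → R)

@[simp] lemma cl_0 (l : ℕ) : cl m u [0, l] = u [0, l] := rfl
@[simp] lemma cl_1 (j : ℕ) : cl m u [1, j] = u [1, j] := rfl
@[simp] lemma cl_20 (N r j b : ℕ) : cl m u [2, 0, N, r, j, b] = u [2, 0, N, r, j, b] := rfl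
@[simp] lemma cl_21 (l b : ℕ) : cl m u [2, 1, l, b] = u [2, 1, l, b] := rfl
@[simp] lemma cl_3 : cl m u [3] = u [3] := rfl
@[simp] lemma cl_4 : cl m u [4] = u [4] := rfl
@[simp] lemma cl_50 (i : ℕ) : cl m u [5, 0, i] = 2 ^ (2 ^ i) := rfl
@[simp] lemma cl_51 (i : ℕ) : cl m u [5, 1, i] = u [3] ^ (2 ^ i) := rfl
@[simp] lemma cl_52 (i : ℕ) :
    cl m u [5, 2, i] = (1 + ∑ j : Fin m, u [1, (j : ℕ)] ^ 2) ^ (2 ^ i) := rfl
@[simp] lemma cl_6 (j i : ℕ) : cl m u [6, j, i] = u [1, j] ^ (2 ^ i) := rfl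
@[simp] lemma cl_7 (l i : ℕ) : cl m u [7, l, i] = u [0, l] ^ (2 ^ i) := rfl

end cl

lemma sum_map_range {M : Type*} [AddCommMonoid M] (n : ℕ) (f : ℕ → M) :
    ((List.range n).map f).sum = ∑ i : Fin n, f i := by
  induction n with
  | zero => simp
  | succ n ih => rw [List.range_succ, Fin.sum_univ_castSucc]; simp [ih]

/-- The assignments hold for the closed forms. -/
lemma cl_asg {R : Type*} [CommRing R] {p : Par} {n m nb T : ℕ} (hp : p.Ok n m nb T) (u : Nm → R)
    (q : Nm × TN) (hq : q ∈ asg p) : cl m u q.1 = q.2.eval (cl m u) := by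
  simp only [asg, List.mem_flatMap] at hq
  obtain ⟨⟨t, c, b⟩, hb, hq⟩ := hq
  simp only [chainsOf, List.mem_cons, List.mem_map] at hq
  have hsq : ∀ i, [t, c, i] ∈ Set.univ := fun _ => trivial
  simp only [bases, List.mem_cons, Prod.mk.injEq, List.mem_append, List.mem_map, hp.hms] at hb
  rcases hb with ⟨rfl, rfl, rfl⟩ | ⟨rfl, rfl, rfl⟩ | ⟨rfl, rfl, rfl⟩ |
    ⟨j, -, rfl, rfl, rfl⟩ | ⟨l, -, rfl, rfl, rfl⟩
  · rcases hq with rfl | ⟨i, -, rfl⟩
    · simp [two, Tm.eval]; norm_num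
    · simp only [cl_50, eval_sqT, Tm.eval]; ring
  · rcases hq with rfl | ⟨i, -, rfl⟩
    · simp [vH, Tm.eval]
    · simp only [cl_51, eval_sqT, Tm.eval]; ring
  · rcases hq with rfl | ⟨i, -, rfl⟩
    · simp only [Tm.eval, eval_sumT, List.map_map, Function.comp_def, eval_sqT, vY, cl_1, cl_52]
      rw [sum_map_range]; simp
    · simp only [cl_52, eval_sqT, Tm.eval]; ring
  · rcases hq with rfl | ⟨i, -, rfl⟩
    · simp [vY, Tm.eval]
    · simp only [cl_6, eval_sqT, Tm.eval]; ring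
  · rcases hq with rfl | ⟨i, -, rfl⟩
    · simp [vX, Tm.eval]
    · simp only [cl_7, eval_sqT, Tm.eval]; ring

/-- Induction along a term. -/
lemma term_ind {p : Par} {Good : TN → Prop}
    (hz : ∀ a b, (0, .zero, a, b) ∈ allIns p → Good .zero)
    (ho : ∀ a b, (1, .one, a, b) ∈ allIns p → Good .one)
    (ha : ∀ a b, (2, .add a b, a, b) ∈ allIns p → Good a → Good b → Good (.add a b))
    (hm : ∀ a b, (3, .mul a b, a, b) ∈ allIns p → Good a → Good b → Good (.mul a b))
    (e : TN) (he : ∀ v ∈ e.vars, Good (.var v)) (hi : ∀ q ∈ insT e, q ∈ allIns p) :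
    Good e ∧ ∀ q ∈ insT e, Good q.2.1 ∧ (2 ≤ q.1 → Good q.2.2.1 ∧ Good q.2.2.2) := by
  induction e with
  | var v => exact ⟨he v (by simp [Tm.vars]), by simp⟩
  | zero =>
    have h := hz _ _ (hi (0, .zero, .zero, .zero) (by simp))
    exact ⟨h, by simpa using h⟩
  | one =>
    have h := ho _ _ (hi (1, .one, .zero, .zero) (by simp))
    exact ⟨h, by simpa using h⟩
  | add a b iha ihb =>
    obtain ⟨h1, h2⟩ := iha (fun v hv => he v (by simp [Tm.vars, hv]))
      (fun q hq => hi q (by simp [hq]))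
    obtain ⟨h3, h4⟩ := ihb (fun v hv => he v (by simp [Tm.vars, hv]))
      (fun q hq => hi q (by simp [hq]))
    have h := ha a b (hi _ (by simp)) h1 h3
    refine ⟨h, ?_⟩
    intro q hq
    simp only [insT_add, List.mem_cons, List.mem_append] at hq
    rcases hq with rfl | hq | hq
    · exact ⟨h, fun _ => ⟨h1, h3⟩⟩
    · exact h2 q hq
    · exact h4 q hq
  | mul a b iha ihb =>
    obtain ⟨h1, h2⟩ := iha (fun v hv => he v (by simp [Tm.vars, hv]))
      (fun q hq => hi q (by simp [hq]))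
    obtain ⟨h3, h4⟩ := ihb (fun v hv => he v (by simp [Tm.vars, hv]))
      (fun q hq => hi q (by simp [hq]))
    have h := hm a b (hi _ (by simp)) h1 h3
    refine ⟨h, ?_⟩
    intro q hq
    simp only [insT_mul, List.mem_cons, List.mem_append] at hq
    rcases hq with rfl | hq | hq
    · exact ⟨h, fun _ => ⟨h1, h3⟩⟩
    · exact h2 q hq
    · exact h4 q hq

lemma mem_allIns_of_asg {p : Par} {nm : Nm} {e : TN} (h : (nm, e) ∈ asg p) :
    (4, .var nm, e, e) ∈ allIns p := by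
  simp only [allIns, List.mem_append, List.mem_flatMap]
  exact Or.inl ⟨(nm, e), h, by simp⟩

lemma mem_allIns_of_asg' {p : Par} {nm : Nm} {e : TN} (h : (nm, e) ∈ asg p)
    {q : ℕ × TN × TN × TN} (hq : q ∈ insT e) : q ∈ allIns p := by
  simp only [allIns, List.mem_append, List.mem_flatMap]
  exact Or.inl ⟨(nm, e), h, by simp [hq]⟩

/-- The variables of the bases are inputs. -/
lemma bases_vars {p : Par} {t c : ℕ} {b : TN} (h : (t, c, b) ∈ bases p) :
    ∀ v ∈ b.vars, v ∈ inNames p := by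
  simp only [bases, List.mem_cons, Prod.mk.injEq, List.mem_append, List.mem_map] at h
  rcases h with ⟨rfl, rfl, rfl⟩ | ⟨rfl, rfl, rfl⟩ | ⟨rfl, rfl, rfl⟩ |
    ⟨j, hj, rfl, rfl, rfl⟩ | ⟨l, hl, rfl, rfl, rfl⟩
  · simp [two, Tm.vars]
  · simp [vH, Tm.vars, inNames, parNames]
  · intro v hv
    simp only [Tm.vars, vars_sumT, List.nil_append, List.mem_flatMap, List.mem_map] at hv
    obtain ⟨_, ⟨j, hj, rfl⟩, hv⟩ := hv
    simp only [sqT, vY, Tm.vars, List.mem_append, List.mem_singleton, or_self] at hv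
    subst hv
    simp only [inNames, List.mem_append, List.mem_map]
    exact Or.inl ⟨j, hj, rfl⟩
  · intro v hv
    simp only [vY, Tm.vars, List.mem_singleton] at hv
    subst hv
    simp only [inNames, List.mem_append, List.mem_map]
    exact Or.inl ⟨j, hj, rfl⟩
  · intro v hv
    simp only [vX, Tm.vars, List.mem_singleton] at hv
    subst hv
    simp only [inNames, parNames, List.mem_append, List.mem_map, List.mem_cons]
    exact Or.inr (Or.inr (Or.inr (Or.inl ⟨l, hl, rfl⟩)))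

/-- The chain names. -/
def chNames (p : Par) (T : ℕ) : Set Nm := {v | ∃ t c b i, (t, c, b) ∈ bases p ∧ i ≤ T ∧ v = [t, c, i]}

lemma vars_th {bs : List ℕ} {N r j : ℕ} {v : Nm} (h : v ∈ (th bs N r j).vars) :
    ∃ b ∈ bs, v = [2, 0, N, r, j, b] := by
  rcases mem_vars_horner _ _ h with h | ⟨a, ha, h⟩
  · simp [two, Tm.vars] at h
  · obtain ⟨b, hb, rfl⟩ := List.mem_map.1 ha
    simp only [Tm.vars, List.mem_singleton] at h
    exact ⟨b, hb, h⟩

lemma vars_thx {bs : List ℕ} {l : ℕ} {v : Nm} (h : v ∈ (thx bs l).vars) :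
    ∃ b ∈ bs, v = [2, 1, l, b] := by
  rcases mem_vars_horner _ _ h with h | ⟨a, ha, h⟩
  · simp [two, Tm.vars] at h
  · obtain ⟨b, hb, rfl⟩ := List.mem_map.1 ha
    simp only [Tm.vars, List.mem_singleton] at h
    exact ⟨b, hb, h⟩

lemma vars_lin {ms : List ℕ} {N : ℕ} {v : Nm} (h : v ∈ (lin ms N).vars) :
    ∃ j ∈ ms, v = [1, j] := by
  rcases mem_vars_horner _ _ h with h | ⟨a, ha, h⟩
  · simp [vars_numT] at h
  · obtain ⟨b, hb, rfl⟩ := List.mem_map.1 ha
    simp only [vY, Tm.vars, List.mem_singleton] at h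
    exact ⟨b, hb, h⟩

lemma mem_in_Y {p : Par} {j : ℕ} (h : j ∈ p.ms) : [1, j] ∈ inNames p := by
  simp only [inNames, List.mem_append, List.mem_map]
  exact Or.inl ⟨j, h, rfl⟩

lemma mem_par_X {p : Par} {l : ℕ} (h : l ∈ p.ns) : [0, l] ∈ parNames p := by
  simp only [parNames, List.mem_append, List.mem_map, List.mem_cons]
  exact Or.inr (Or.inr (Or.inl ⟨l, h, rfl⟩))

lemma mem_par_3 {p : Par} : [3] ∈ parNames p := by simp [parNames]
lemma mem_par_4 {p : Par} : [4] ∈ parNames p := by simp [parNames]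

lemma mem_in_par {p : Par} {nm : Nm} (h : nm ∈ parNames p) : nm ∈ inNames p := by
  simp only [inNames, List.mem_append]; exact Or.inr h

lemma mem_bit0 {p : Par} {N r j b : ℕ} (hN : N ∈ p.fs) (hr : r ∈ p.rs) (hj : j = p.m ∨ j ∈ p.ms)
    (hb : b ∈ p.bs) : [2, 0, N, r, j, b] ∈ bitNames p := by
  simp only [bitNames, List.mem_append, List.mem_flatMap, List.mem_map, List.mem_cons]
  exact Or.inl ⟨N, hN, r, hr, j, hj, b, hb, rfl⟩

lemma mem_bit1 {p : Par} {l b : ℕ} (hl : l ∈ p.ns) (hb : b ∈ p.bs) :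
    [2, 1, l, b] ∈ bitNames p := by
  simp only [bitNames, List.mem_append, List.mem_flatMap, List.mem_map]
  exact Or.inr ⟨l, hl, b, hb, rfl⟩

lemma mem_par_bit {p : Par} {nm : Nm} (h : nm ∈ bitNames p) : nm ∈ parNames p := by
  simp only [parNames, List.mem_append, List.mem_cons]
  exact Or.inr (Or.inr (Or.inr h))

lemma vars_pertT {p : Par} {v : Nm} (h : v ∈ (pertT p).vars) : v ∈ inNames p := by
  simp only [pertT, Tm.vars, vars_sumT, List.mem_append, List.mem_flatMap, List.mem_map] at h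
  rcases h with ⟨_, ⟨N, hN, rfl⟩, h⟩ | ⟨_, ⟨l, hl, rfl⟩, h⟩
  · rcases mem_vars_horner _ _ h with h | ⟨a, ha, h⟩
    · obtain ⟨j, hj, rfl⟩ := vars_lin h
      exact mem_in_Y hj
    · obtain ⟨r, hr, rfl⟩ := List.mem_map.1 ha
      simp only [Tm.vars, vars_sumT, List.mem_append, List.mem_flatMap, List.mem_map] at h
      rcases h with h | ⟨_, ⟨j, hj, rfl⟩, h⟩
      · obtain ⟨b, hb, rfl⟩ := vars_th h
        exact mem_in_par (mem_par_bit (mem_bit0 hN hr (Or.inl rfl) hb))
      · simp only [Tm.vars, List.mem_append, vY, List.mem_singleton] at h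
        rcases h with h | rfl
        · obtain ⟨b, hb, rfl⟩ := vars_th h
          exact mem_in_par (mem_par_bit (mem_bit0 hN hr (Or.inr hj) hb))
        · exact mem_in_Y hj
  · simp only [Tm.vars, List.mem_append, vX, List.mem_singleton] at h
    rcases h with h | rfl
    · obtain ⟨b, hb, rfl⟩ := vars_thx h
      exact mem_in_par (mem_par_bit (mem_bit1 hl hb))
    · exact mem_in_par (mem_par_X hl)

lemma vars_fT {p : Par} {n m nb T : ℕ} (hp : p.Ok n m nb T) :
    ∀ v ∈ (fT p).vars, v ∈ inNames p ∨ v ∈ chNames p T := by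
  intro v hv
  simp only [fT, Tm.vars, vars_sumT, List.mem_append, List.mem_flatMap, List.mem_map,
    List.mem_singleton, vN] at hv
  have h0 : ∀ i ≤ T, [5, 0, i] ∈ chNames p T := fun i hi => ⟨5, 0, two, i, by simp [bases], hi, rfl⟩
  have h1 : ∀ i ≤ T, [5, 1, i] ∈ chNames p T := fun i hi => ⟨5, 1, vH, i, by simp [bases], hi, rfl⟩
  have h2 : ∀ i ≤ T, [5, 2, i] ∈ chNames p T := fun i hi => ⟨5, 2, _, i, by
    simp only [bases, List.mem_cons]; exact Or.inr (Or.inr (Or.inl rfl)), hi, rfl⟩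
  have h6 : ∀ j ∈ p.ms, ∀ i ≤ T, [6, j, i] ∈ chNames p T := fun j hj i hi => ⟨6, j, vY j, i, by
    simp only [bases, List.mem_cons, List.mem_append, List.mem_map]
    exact Or.inr (Or.inr (Or.inr (Or.inl ⟨j, hj, rfl⟩))), hi, rfl⟩
  have h7 : ∀ l ∈ p.ns, ∀ i ≤ T, [7, l, i] ∈ chNames p T := fun l hl i hi => ⟨7, l, vX l, i, by
    simp only [bases, List.mem_cons, List.mem_append, List.mem_map]
    exact Or.inr (Or.inr (Or.inr (Or.inr ⟨l, hl, rfl⟩))), hi, rfl⟩
  have hk := hp.hk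
  rcases hv with (rfl | hv | rfl) | (rfl | ⟨_, ⟨j, hj, rfl⟩, hv⟩) |
    (rfl | rfl | ⟨_, ⟨l, hl, rfl⟩, hv⟩) | (rfl | rfl) | (rfl | hv)
  · exact Or.inr (h0 _ hp.ha1)
  · rcases hp.hg v hv with rfl | ⟨l, hl, rfl⟩ | ⟨j, hj, rfl⟩
    · exact Or.inl (mem_in_par mem_par_4)
    · exact Or.inl (mem_in_par (mem_par_X (by rw [hp.hns]; exact List.mem_range.2 hl)))
    · exact Or.inl (mem_in_Y (by rw [hp.hms]; exact List.mem_range.2 hj))
  · exact Or.inr (h2 _ (by omega))
  · exact Or.inr (h1 _ hp.ha2)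
  · simp only [Tm.vars, List.mem_singleton] at hv
    subst hv
    exact Or.inr (h6 j hj _ hk)
  · exact Or.inl (mem_in_par mem_par_4)
  · exact Or.inr (h1 _ hp.ha1)
  · simp only [Tm.vars, List.mem_singleton] at hv
    subst hv
    exact Or.inr (h7 l hl _ (by omega))
  · exact Or.inl (mem_in_par mem_par_4)
  · exact Or.inr (h0 _ hp.ha4)
  · exact Or.inr (h1 _ hp.ha5)
  · exact Or.inl (vars_pertT hv)

/-- Induction along the instructions. -/
theorem names_ind {p : Par} {n m nb T : ℕ} (hp : p.Ok n m nb T) {Good : TN → Prop}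
    (hz : ∀ a b, (0, .zero, a, b) ∈ allIns p → Good .zero)
    (ho : ∀ a b, (1, .one, a, b) ∈ allIns p → Good .one)
    (ha : ∀ a b, (2, .add a b, a, b) ∈ allIns p → Good a → Good b → Good (.add a b))
    (hm : ∀ a b, (3, .mul a b, a, b) ∈ allIns p → Good a → Good b → Good (.mul a b))
    (hin : ∀ nm ∈ inNames p, Good (.var nm))
    (hv : ∀ nm e, (nm, e) ∈ asg p → (4, .var nm, e, e) ∈ allIns p → Good e → Good (.var nm)) :
    (∀ q ∈ allIns p, Good q.2.1 ∧ (2 ≤ q.1 → Good q.2.2.1 ∧ Good q.2.2.2)) ∧ Good (fT p) := by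
  have hb : ∀ t c b, (t, c, b) ∈ bases p →
      Good b ∧ ∀ q ∈ insT b, Good q.2.1 ∧ (2 ≤ q.1 → Good q.2.2.1 ∧ Good q.2.2.2) := by
    intro t c b hb
    refine term_ind hz ho ha hm b (fun v hv => hin v (bases_vars hb v hv)) fun q hq => ?_
    refine mem_allIns_of_asg' (nm := [t, c, 0]) ?_ hq
    simp only [asg, List.mem_flatMap]
    exact ⟨_, hb, by simp [chainsOf]⟩
  have hmem : ∀ t c b, (t, c, b) ∈ bases p → ∀ i < T,
      ([t, c, i + 1], sqT (.var [t, c, i])) ∈ asg p := by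
    intro t c b hb i hi
    simp only [asg, List.mem_flatMap]
    refine ⟨_, hb, ?_⟩
    simp only [chainsOf, hp.hts, List.mem_cons, List.mem_map, List.mem_range]
    exact Or.inr ⟨i, hi, rfl⟩
  have hch : ∀ t c b, (t, c, b) ∈ bases p → ∀ i ≤ T, Good (.var [t, c, i]) := by
    intro t c b hb' i
    induction i with
    | zero =>
      intro _
      have h : ([t, c, 0], b) ∈ asg p := by
        simp only [asg, List.mem_flatMap]
        exact ⟨_, hb', by simp [chainsOf]⟩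
      exact hv _ _ h (mem_allIns_of_asg h) (hb t c b hb').1
    | succ i ih =>
      intro hi
      have h := hmem t c b hb' i hi
      refine hv _ _ h (mem_allIns_of_asg h) ?_
      have hg := ih (by omega)
      exact hm _ _ (mem_allIns_of_asg' h (by simp [sqT])) hg hg
  have hf := term_ind hz ho ha hm (fT p) (fun v hv' => by
    rcases vars_fT hp v hv' with h | ⟨t, c, b, i, hb', hi, rfl⟩
    · exact hin v h
    · exact hch t c b hb' i hi) (fun q hq => by
    simp only [allIns, List.mem_append]; exact Or.inr hq)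
  refine ⟨?_, hf.1⟩
  intro q hq
  simp only [allIns, List.mem_append, List.mem_flatMap] at hq
  rcases hq with ⟨⟨nm, e⟩, hne, hq⟩ | hq
  · have hne' := hne
    simp only [asg, List.mem_flatMap] at hne
    obtain ⟨⟨t, c, b⟩, hb', hne⟩ := hne
    simp only [chainsOf, hp.hts, List.mem_cons, List.mem_map, List.mem_range, Prod.mk.injEq] at hne
    have hge : Good e ∧ ∀ q ∈ insT e, Good q.2.1 ∧ (2 ≤ q.1 → Good q.2.2.1 ∧ Good q.2.2.2) := by
      rcases hne with ⟨rfl, rfl⟩ | ⟨i, hi, rfl, rfl⟩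
      · exact hb t c e hb'
      · have hg := hch t c b hb' i hi.le
        have h2 := hm _ _ (mem_allIns_of_asg' hne' (by simp [sqT])) hg hg
        refine ⟨h2, ?_⟩
        simp only [sqT, insT_mul, insT_var, List.append_nil, List.mem_singleton]
        rintro q rfl
        exact ⟨h2, fun _ => ⟨hg, hg⟩⟩
    rw [List.mem_singleton] at hq
    rcases hq with hq | rfl
    · exact hge.2 q hq
    · exact ⟨hv _ _ hne' (mem_allIns_of_asg hne') hge.1, fun _ => ⟨hge.1, hge.1⟩⟩
  · exact hf.2 q hq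

lemma eval_horner_range {V : Type} {R : Type*} [CommRing R] (v : V → R) (q : Tm V) (n : ℕ) :
    ∀ f : ℕ → Tm V, (horner q ((List.range n).map f)).eval v =
      ∑ i : Fin n, q.eval v ^ (i : ℕ) * (f i).eval v := by
  induction n with
  | zero => intro f; simp [Tm.eval]
  | succ n ih =>
    intro f
    rw [List.range_succ_eq_map, List.map_cons, List.map_map, horner_cons, Tm.eval, Tm.eval]
    have := ih (f ∘ Nat.succ)
    rw [this, Fin.sum_univ_succ, Finset.mul_sum]
    simp only [Fin.val_zero, pow_zero, one_mul, Function.comp_apply, Fin.val_succ, pow_succ,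
      Nat.succ_eq_add_one]
    congr 1
    refine Finset.sum_congr rfl fun i _ => ?_
    ring

/-- value of a parameter of the perturbation -/
def thV {R : Type*} [CommRing R] (nb : ℕ) (u : Nm → R) (pre : ℕ → Nm) : R :=
  ∑ b : Fin nb, 2 ^ (b : ℕ) * u (pre b)

/-- value of the perturbation -/
def pertV {R : Type*} [CommRing R] (n m nb : ℕ) (u : Nm → R) : R :=
  (∑ N : Fin (numForms n m), ∑ r : Fin (2 * (n + 1)),
    (∑ j : Fin m, (N : R) ^ (j : ℕ) * u [1, (j : ℕ)]) ^ (r : ℕ) *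
      (thV nb u (fun b => [2, 0, N, r, m, b]) +
      ∑ j : Fin m, thV nb u (fun b => [2, 0, N, r, j, b]) * u [1, (j : ℕ)]))
  + ∑ l : Fin n, thV nb u (fun b => [2, 1, l, b]) * u [0, (l : ℕ)]

lemma eval_two {R : Type*} [CommRing R] (v : Nm → R) : two.eval v = 2 := by
  simp [two, Tm.eval]; norm_num

lemma eval_pertT {R : Type*} [CommRing R] {p : Par} {n m nb T : ℕ} (hp : p.Ok n m nb T)
    (u : Nm → R) : (pertT p).eval (cl m u) = pertV n m nb u := by
  simp only [pertT, pertV, Tm.eval, eval_sumT, hp.hns, hp.hfs, hp.hms, hp.hbs, hp.hrs, List.map_map,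
    Function.comp_def, sum_map_range, eval_horner_range, th, thx, lin, eval_two, eval_numT, vY, vX,
    cl_0, cl_1, cl_20, cl_21, thV, hp.hm]

lemma eval_fT {R : Type*} [CommRing R] {p : Par} {n m nb T : ℕ} (hp : p.Ok n m nb T)
    (u : Nm → R) : (fT p).eval (cl m u) =
      2 ^ (2 ^ p.a1) * (p.g.eval (cl m u) * (1 + ∑ j : Fin m, u [1, (j : ℕ)] ^ 2) ^ (2 ^ p.k)) +
      (u [3] ^ (2 ^ p.a2) * (∑ j : Fin m, u [1, (j : ℕ)] ^ (2 ^ (p.k + 2))) +
      (u [4] * (u [3] ^ (2 ^ p.a1) * ∑ l : Fin n, u [0, (l : ℕ)] ^ (2 ^ p.k)) +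
      (u [4] * 2 ^ (2 ^ p.a4) + u [3] ^ (2 ^ p.a5) * pertV n m nb u))) := by
  simp only [fT, Tm.eval, eval_sumT, hp.hns, hp.hms, List.map_map,
    Function.comp_def, sum_map_range, vN, cl_50, cl_51, cl_52, cl_6, cl_7, cl_4, eval_pertT hp]

end Pool.Agent.IsoPt
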