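import Pool.Agent.Lib.IsoPt.Copies

/-!
# All solutions of the formula `Phi` are standard
-/

set_option autoImplicit false
set_option linter.unusedSimpArgs false

namespace Pool.Agent.IsoPt

open Pool.Agent.PolyTime MvPolynomial

/-- The terms named in the formula. -/
def Dom (p : Par) (e : TN) : Prop :=
  e = fT p ∨ (∃ nm ∈ inNames p, e = .var nm) ∨
    ∃ q ∈ allIns p, e = q.2.1 ∨ (2 ≤ q.1 ∧ (e = q.2.2.1 ∨ e = q.2.2.2))

/-- Classification of the variables of the formula. -/
lemma vars_phi {p : Par} {P : FN → Prop}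
    (hV : ∀ i ∈ p.cs, ∀ e, Dom p e → P (nV i e))
    (hD : ∀ i ∈ p.cs, ∀ d ∈ dirs p, ∀ e, Dom p e → P (nD i d e))
    (hP : ∀ nm ∈ parNames p, P (nP nm)) (hS : ∀ e, Dom p e → P (nS e)) (hT : P nT)
    (hL : ∀ i ∈ p.cs, P (nL i)) (hv : P nv) : ∀ nm ∈ (Phi p).vars, P nm := by
  have hins1 : ∀ q ∈ allIns p, Dom p q.2.1 := fun q hq => Or.inr (Or.inr ⟨q, hq, Or.inl rfl⟩)
  have hins2 : ∀ q ∈ allIns p, 2 ≤ q.1 → Dom p q.2.2.1 := fun q hq h =>
    Or.inr (Or.inr ⟨q, hq, Or.inr ⟨h, Or.inl rfl⟩⟩)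
  have hins3 : ∀ q ∈ allIns p, 2 ≤ q.1 → Dom p q.2.2.2 := fun q hq h =>
    Or.inr (Or.inr ⟨q, hq, Or.inr ⟨h, Or.inr rfl⟩⟩)
  have hf : Dom p (fT p) := Or.inl rfl
  have hin : ∀ nm ∈ inNames p, Dom p (.var nm) := fun nm h => Or.inr (Or.inl ⟨nm, h, rfl⟩)
  have hY : ∀ j ∈ p.ms, Dom p (vY j) := fun j hj => hin _ (mem_in_Y hj)
  intro nm hnm
  rw [Phi, vars_conj, List.mem_flatMap] at hnm
  obtain ⟨φ, hφ, hnm⟩ := hnm
  simp only [List.mem_append, List.mem_flatMap, List.mem_map, List.mem_cons, List.not_mem_nil,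
    or_false] at hφ
  rcases hφ with hφ | ⟨i, hi, hφ⟩ | ⟨i, hi, d, hd, hφ⟩ | ⟨i, hi, rfl⟩ | ⟨l, hl, rfl⟩ |
    ⟨i, hi, i', hi', rfl⟩ | rfl | rfl
  · simp only [phiA, List.mem_cons, List.mem_map] at hφ
    rcases hφ with rfl | rfl | ⟨nm', hnm', rfl⟩
    · simp only [Fm.vars, Tm.vars, List.mem_append, List.mem_singleton, List.not_mem_nil,
        or_false, or_self] at hnm
      subst hnm; exact hP _ mem_par_3
    · simp only [Fm.vars, Tm.vars, List.mem_append, List.mem_singleton, List.not_mem_nil,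
        or_false] at hnm
      subst hnm; exact hP _ mem_par_4
    · simp only [Fm.vars, Tm.vars, List.mem_append, List.mem_singleton, or_self] at hnm
      subst hnm; exact hP _ (mem_par_bit hnm')
  · simp only [phiB, List.mem_append, List.mem_map] at hφ
    rcases hφ with ⟨nm', hnm', rfl⟩ | ⟨q, hq, rfl⟩
    · simp only [Fm.vars, Tm.vars, List.mem_append, List.mem_singleton] at hnm
      rcases hnm with rfl | rfl
      · exact hV i hi _ (hin _ (mem_in_par hnm'))
      · exact hP _ hnm'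
    · rcases allIns_cases hq with ⟨h1, h2⟩ | ⟨h1, h2⟩ | ⟨h1, h2⟩ | ⟨h1, h2⟩ | ⟨h1, nm, h2, h3, h4⟩
      all_goals
        simp only [insV, h1, Fm.vars, Tm.vars, List.mem_append, List.mem_singleton,
          List.not_mem_nil, or_false, if_true, if_false, one_ne_zero, OfNat.ofNat_ne_zero,
          OfNat.ofNat_ne_one, reduceIte, OfNat.ofNat_eq_ofNat, Nat.reduceEqDiff] at hnm
      · subst hnm; exact hV i hi _ (hins1 q hq)
      · subst hnm; exact hV i hi _ (hins1 q hq)
      · rcases hnm with rfl | rfl | rfl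
        · exact hV i hi _ (hins1 q hq)
        · exact hV i hi _ (hins2 q hq (by omega))
        · exact hV i hi _ (hins3 q hq (by omega))
      · rcases hnm with rfl | rfl | rfl
        · exact hV i hi _ (hins1 q hq)
        · exact hV i hi _ (hins2 q hq (by omega))
        · exact hV i hi _ (hins3 q hq (by omega))
      · rcases hnm with rfl | rfl
        · exact hV i hi _ (hins1 q hq)
        · exact hV i hi _ (hins2 q hq (by omega))
  · simp only [phiD, List.mem_append, List.mem_map] at hφ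
    rcases hφ with ⟨nm', hnm', rfl⟩ | ⟨q, hq, rfl⟩
    · have : nm = nD i d (.var nm') := by
        simp only [Fm.vars, Tm.vars, List.mem_append, List.mem_singleton] at hnm
        rcases hnm with h | h
        · exact h
        · split_ifs at h <;> simp [Tm.vars] at h
      subst this
      exact hD i hi d hd _ (hin _ hnm')
    · rcases allIns_cases hq with ⟨h1, h2⟩ | ⟨h1, h2⟩ | ⟨h1, h2⟩ | ⟨h1, h2⟩ | ⟨h1, nm, h2, h3, h4⟩
      all_goals
        simp only [insD, h1, Fm.vars, Tm.vars, List.mem_append, List.mem_singleton,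
          List.not_mem_nil, or_false, if_true, if_false, one_ne_zero, OfNat.ofNat_ne_zero,
          OfNat.ofNat_ne_one, reduceIte, OfNat.ofNat_eq_ofNat, Nat.reduceEqDiff] at hnm
      · subst hnm; exact hD i hi d hd _ (hins1 q hq)
      · subst hnm; exact hD i hi d hd _ (hins1 q hq)
      · rcases hnm with rfl | rfl | rfl
        · exact hD i hi d hd _ (hins1 q hq)
        · exact hD i hi d hd _ (hins2 q hq (by omega))
        · exact hD i hi d hd _ (hins3 q hq (by omega))
      · rcases hnm with rfl | (rfl | rfl) | (rfl | rfl)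
        · exact hD i hi d hd _ (hins1 q hq)
        · exact hD i hi d hd _ (hins2 q hq (by omega))
        · exact hV i hi _ (hins3 q hq (by omega))
        · exact hV i hi _ (hins2 q hq (by omega))
        · exact hD i hi d hd _ (hins3 q hq (by omega))
      · rcases hnm with rfl | rfl
        · exact hD i hi d hd _ (hins1 q hq)
        · exact hD i hi d hd _ (hins2 q hq (by omega))
  · simp only [phiE, Fm.vars, vars_conj, List.mem_append, List.mem_flatMap, List.mem_cons,
      List.mem_map] at hnm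
    rcases hnm with ⟨φ, (rfl | ⟨j, hj, rfl⟩), hnm⟩ | ⟨φ, (rfl | rfl | ⟨j, hj, rfl⟩), hnm⟩
    all_goals
      simp only [Fm.vars, Tm.vars, List.mem_append, List.mem_singleton, List.not_mem_nil,
        or_false] at hnm
    · subst hnm; exact hL i hi
    · subst hnm; exact hV i hi _ (hY j hj)
    · subst hnm; exact hL i hi
    · rcases hnm with rfl | rfl
      · exact hV i hi _ hf
      · exact hv
    · subst hnm
      refine hD i hi _ ?_ _ hf
      simp only [dirs, List.mem_append, List.mem_map]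
      exact Or.inr ⟨j, hj, rfl⟩
  · simp only [phiS, Fm.vars, vars_sumT, List.mem_append, List.mem_flatMap,
      List.mem_map, Tm.vars, List.not_mem_nil, or_false] at hnm
    obtain ⟨_, ⟨i, hi, rfl⟩, hnm⟩ := hnm
    simp only [Tm.vars, List.mem_append, List.mem_singleton] at hnm
    rcases hnm with rfl | rfl
    · exact hL i hi
    · refine hD i hi _ ?_ _ hf
      simp only [dirs, List.mem_append, List.mem_map]
      exact Or.inl ⟨l, hl, rfl⟩
  · unfold phiN at hnm
    split_ifs at hnm with h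
    · simp [Fm.vars, Tm.vars] at hnm
    · simp only [Fm.vars, vars_conj, List.mem_flatMap, List.mem_cons,
        List.mem_map] at hnm
      obtain ⟨φ, (rfl | rfl | ⟨j, hj, rfl⟩), hnm⟩ := hnm
      all_goals
        simp only [Fm.vars, Tm.vars, List.mem_append, List.mem_singleton, List.not_mem_nil,
          or_false] at hnm
      · subst hnm; exact hL i hi
      · subst hnm; exact hL i' hi'
      · rcases hnm with rfl | rfl
        · exact hV i hi _ (hY j hj)
        · exact hV i' hi' _ (hY j hj)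
  · simp only [Fm.vars, vars_sumT, List.mem_append, List.mem_flatMap,
      List.mem_map, Tm.vars, List.not_mem_nil, or_false] at hnm
    obtain ⟨_, ⟨i, hi, rfl⟩, hnm⟩ := hnm
    simp only [Tm.vars, List.mem_singleton] at hnm
    subst hnm
    exact hL i hi
  · rw [phiC, Fm.vars, List.mem_append, vars_conj, vars_conj, List.mem_flatMap,
      List.mem_flatMap] at hnm
    rcases hnm with ⟨φ, hφ, hnm⟩ | ⟨φ, hφ, hnm⟩
    · rw [List.mem_cons, List.mem_append, List.mem_map, List.mem_map] at hφ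
      rcases hφ with rfl | ⟨nm', hnm', rfl⟩ | ⟨q, hq, rfl⟩
      all_goals
        simp only [Fm.vars, Tm.vars, List.mem_append, List.mem_singleton, List.not_mem_nil,
          or_false] at hnm
      · subst hnm; exact hT
      · subst hnm; exact hS _ (hin _ hnm')
      · subst hnm; exact hS _ (hins1 q hq)
    · rw [List.mem_cons, List.mem_cons, List.mem_append, List.mem_map, List.mem_map] at hφ
      rcases hφ with rfl | rfl | ⟨nm', hnm', rfl⟩ | ⟨q, hq, rfl⟩
      · simp only [Fm.vars, Tm.vars, List.mem_append, List.mem_singleton, List.not_mem_nil,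
          false_or] at hnm
        subst hnm; exact hT
      · simp only [Fm.vars, Tm.vars, List.mem_append, List.mem_singleton, List.not_mem_nil,
          false_or] at hnm
        subst hnm; exact hS _ hf
      · simp only [Fm.vars, Tm.vars, List.mem_append, List.mem_singleton] at hnm
        rcases hnm with rfl | rfl | rfl
        · exact hS _ (hin _ (mem_in_par hnm'))
        · exact hT
        · exact hP _ hnm'
      · rcases allIns_cases hq with ⟨h1, h2⟩ | ⟨h1, h2⟩ | ⟨h1, h2⟩ | ⟨h1, h2⟩ | ⟨h1, nm, h2, h3, h4⟩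
        all_goals
          simp only [insS, h1, Fm.vars, Tm.vars, List.mem_append, List.mem_singleton,
            List.not_mem_nil, or_false, if_true, if_false, one_ne_zero, OfNat.ofNat_ne_zero,
            OfNat.ofNat_ne_one, reduceIte, OfNat.ofNat_eq_ofNat, Nat.reduceEqDiff,
            OfNat.zero_ne_ofNat, OfNat.one_ne_ofNat] at hnm
        · subst hnm; exact hS _ (hins1 q hq)
        · rcases hnm with rfl | rfl
          · exact hS _ (hins1 q hq)
          · exact hT
        · rcases hnm with rfl | rfl | rfl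
          · exact hS _ (hins1 q hq)
          · exact hS _ (hins2 q hq (by omega))
          · exact hS _ (hins3 q hq (by omega))
        · rcases hnm with (rfl | rfl) | (rfl | rfl)
          · exact hT
          · exact hS _ (hins1 q hq)
          · exact hS _ (hins2 q hq (by omega))
          · exact hS _ (hins3 q hq (by omega))
        · rcases hnm with rfl | rfl
          · exact hS _ (hins1 q hq)
          · exact hS _ (hins2 q hq (by omega))

/-- All solutions are standard. -/
theorem phi_sol {p : Par} {n m nb T : ℕ} (hp : p.Ok n m nb T) (ρ : FN → ℝ)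
    (h : (Phi p).holds ρ) :
    ∃ (β : Nm → ℝ) (x : Fin n → ℝ) (y : Fin (n + 1) → Fin m → ℝ) (lam : Fin (n + 1) → ℝ)
      (v t : ℝ) (y' : Fin m → ℝ),
      (∀ nm ∈ bitNames p, β nm * β nm = β nm) ∧ (∀ nm, nm ∉ bitNames p → β nm = 0) ∧
      LagSol (pol n m β (fT p)) x y lam v ∧ 0 ≤ t ∧
      (0 < t → ev (pol n m β (fT p)) x y' ≤ 0) ∧
      ∀ nm ∈ (Phi p).vars, ρ nm = rho n m β x y lam v t y' nm := by
  classical
  rw [holds_phi] at h
  obtain ⟨hA, hB, hD, hE, hS, hN, hL, hC⟩ := h
  obtain ⟨β, hβ⟩ : ∃ β : Nm → ℝ, β = fun nm => if nm ∈ bitNames p then ρ (nP nm) else 0 := ⟨_, rfl⟩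
  obtain ⟨x, hx⟩ : ∃ x : Fin n → ℝ, x = fun l : Fin n => ρ (nP [0, (l : ℕ)]) := ⟨_, rfl⟩
  obtain ⟨y, hy⟩ : ∃ y : Fin (n + 1) → Fin m → ℝ, y = fun (i : Fin (n + 1)) (j : Fin m) =>
    ρ (nV i (vY j)) := ⟨_, rfl⟩
  obtain ⟨lam, hlam⟩ : ∃ lam : Fin (n + 1) → ℝ, lam = fun i : Fin (n + 1) => ρ (nL i) := ⟨_, rfl⟩
  obtain ⟨t, ht⟩ : ∃ t, t = ρ nT := ⟨_, rfl⟩
  obtain ⟨y', hy'⟩ : ∃ y' : Fin m → ℝ, y' = fun j : Fin m => ρ (nS (vY j)) / t := ⟨_, rfl⟩
  -- basic facts
  have hbit : ∀ nm ∈ bitNames p, β nm = ρ (nP nm) := fun nm hnm => by rw [hβ]; exact if_pos hnm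
  have hA3 : ρ (nP [3]) = 1 / 2 := by
    have := hA _ (List.mem_cons_self ..)
    simp only [Fm.holds, Tm.eval] at this
    linarith
  have hA4 : ρ (nP [4]) = -1 := by
    have := hA _ (List.mem_cons_of_mem _ (List.mem_cons_self ..))
    simp only [Fm.holds, Tm.eval] at this
    linarith
  have hAb : ∀ nm ∈ bitNames p, ρ (nP nm) * ρ (nP nm) = ρ (nP nm) := by
    intro nm hnm
    have := hA _ (List.mem_cons_of_mem _ (List.mem_cons_of_mem _ (List.mem_map_of_mem hnm)))
    simpa only [Fm.holds, Tm.eval] using this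
  have hneg : (-1 : MvPolynomial (Fin n ⊕ Fin m) ℝ) = C (-1) := by simp
  have hpar : ∀ nm ∈ parNames p, ∀ z, ρ (nP nm) = ev (pol n m β (.var nm)) x z := by
    intro nm hnm z
    simp only [parNames, hp.hns, List.mem_append, List.mem_map, List.mem_range,
      List.mem_cons] at hnm
    rcases hnm with rfl | rfl | ⟨l, hl, rfl⟩ | hb
    · rw [pol_3, ev_C, hA3]
    · rw [pol_4, hneg, ev_C, hA4]
    · rw [pol_X β ⟨l, hl⟩, ev_inl, hx]
    · rw [pol_bit β hb, ev_C, hbit nm hb]
  have hBp : ∀ i : Fin (n + 1), ∀ nm ∈ parNames p, ρ (nV i (.var nm)) = ρ (nP nm) := by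
    intro i nm hnm
    have h1 := hB i (by rw [hp.hcs]; exact List.mem_range.2 i.2) _
      (List.mem_append_left _ (List.mem_map_of_mem hnm))
    simpa only [Fm.holds, Tm.eval] using h1
  have hBi : ∀ i : Fin (n + 1), ∀ q ∈ allIns p, (insV i q).holds ρ := by
    intro i q hq
    exact hB i (by rw [hp.hcs]; exact List.mem_range.2 i.2) _
      (List.mem_append_right _ (List.mem_map_of_mem hq))
  have hDp : ∀ i : Fin (n + 1), ∀ d ∈ dirs p, ∀ nm ∈ inNames p,
      ρ (nD i d (.var nm)) = if nm = d then 1 else 0 := by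
    intro i d hd nm hnm
    have h1 := hD i (by rw [hp.hcs]; exact List.mem_range.2 i.2) d hd _
      (List.mem_append_left _ (List.mem_map_of_mem hnm))
    simp only [Fm.holds, Tm.eval] at h1
    rw [h1]
    split_ifs <;> rfl
  have hDi : ∀ i : Fin (n + 1), ∀ d ∈ dirs p, ∀ q ∈ allIns p, (insD i d q).holds ρ := by
    intro i d hd q hq
    exact hD i (by rw [hp.hcs]; exact List.mem_range.2 i.2) d hd _
      (List.mem_append_right _ (List.mem_map_of_mem hq))
  rw [holds_phiC, ← ht] at hC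
  have ht0 : 0 ≤ t := by
    rcases hC with hC | hC
    · rw [hC.1]
    · exact hC.1.le
  have hSin : ∀ nm ∈ inNames p, ρ (nS (.var nm)) = t * ev (pol n m β (.var nm)) x y' := by
    intro nm hnm
    rcases hC with ⟨h1, h2, h3⟩ | ⟨h1, h2, h3, h4⟩
    · rw [h2 nm hnm, h1, zero_mul]
    · simp only [inNames, hp.hms, List.mem_append, List.mem_map, List.mem_range] at hnm
      rcases hnm with ⟨j, hj, rfl⟩ | hnm
      · rw [pol_Y β ⟨j, hj⟩, ev_inr, hy']
        simp only
        rw [mul_div_cancel₀ _ h1.ne']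
        rfl
      · rw [h3 nm hnm, hpar nm hnm]
  have hSi : ∀ q ∈ allIns p, (t = 0 ∧ ρ (nS q.2.1) = 0) ∨ (0 < t ∧ (insS q).holds ρ) := by
    intro q hq
    rcases hC with ⟨h1, h2, h3⟩ | ⟨h1, h2, h3, h4⟩
    · exact Or.inl ⟨h1, h3 q hq⟩
    · exact Or.inr ⟨h1, h4 q hq⟩
  -- values of all names
  have key := names_ind hp (Good := fun e =>
    (∀ i : Fin (n + 1), ρ (nV i e) = ev (pol n m β e) x (y i)) ∧
    (∀ i : Fin (n + 1), ∀ d ∈ dirs p, ρ (nD i d e) = ev (dP n m d (pol n m β e)) x (y i)) ∧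
    ρ (nS e) = t * ev (pol n m β e) x y') ?_ ?_ ?_ ?_ ?_ ?_
  rotate_left
  · intro a b hq
    refine ⟨fun i => ?_, fun i d hd => ?_, ?_⟩
    · have := hBi i _ hq
      simpa [insV, Fm.holds, Tm.eval, pol_zero] using this
    · have := hDi i d hd _ hq
      simpa [insD, Fm.holds, Tm.eval, pol_zero, dP_zero] using this
    · rcases hSi _ hq with ⟨h1, h2⟩ | ⟨h1, h2⟩
      · rw [h2, h1, zero_mul]
      · simpa [insS, Fm.holds, Tm.eval, pol_zero] using h2
  · intro a b hq
    refine ⟨fun i => ?_, fun i d hd => ?_, ?_⟩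
    · have := hBi i _ hq
      simpa [insV, Fm.holds, Tm.eval, pol_one] using this
    · have := hDi i d hd _ hq
      simpa [insD, Fm.holds, Tm.eval, pol_one, dP_one] using this
    · rcases hSi _ hq with ⟨h1, h2⟩ | ⟨h1, h2⟩
      · rw [h2, h1, zero_mul]
      · simpa [insS, Fm.holds, Tm.eval, pol_one, ht] using h2
  · rintro a b hq ⟨a1, a2, a3⟩ ⟨b1, b2, b3⟩
    refine ⟨fun i => ?_, fun i d hd => ?_, ?_⟩
    · have := hBi i _ hq
      simpa [insV, Fm.holds, Tm.eval, pol_add, ev_add, a1, b1] using this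
    · have := hDi i d hd _ hq
      simpa [insD, Fm.holds, Tm.eval, pol_add, dP_add, ev_add, a2 i d hd, b2 i d hd] using this
    · rcases hSi _ hq with ⟨h1, h2⟩ | ⟨h1, h2⟩
      · rw [h2, h1, zero_mul]
      · rw [pol_add, ev_add, mul_add, ← a3, ← b3]
        simpa [insS, Fm.holds, Tm.eval] using h2
  · rintro a b hq ⟨a1, a2, a3⟩ ⟨b1, b2, b3⟩
    refine ⟨fun i => ?_, fun i d hd => ?_, ?_⟩
    · have := hBi i _ hq
      simpa [insV, Fm.holds, Tm.eval, pol_mul, ev_mul, a1, b1] using this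
    · have := hDi i d hd _ hq
      simpa [insD, Fm.holds, Tm.eval, pol_mul, dP_mul, ev_add, ev_mul, a1, b1, a2 i d hd,
        b2 i d hd] using this
    · rcases hSi _ hq with ⟨h1, h2⟩ | ⟨h1, h2⟩
      · rw [h2, h1, zero_mul]
      · have h3 : t * ρ (nS (.mul a b)) = ρ (nS a) * ρ (nS b) := by
          simpa [insS, Fm.holds, Tm.eval, ht] using h2
        rw [a3, b3] at h3
        rw [pol_mul, ev_mul]
        apply mul_left_cancel₀ h1.ne'
        rw [h3]; ring
  · intro nm hnm
    refine ⟨fun i => ?_, fun i d hd => ?_, hSin nm hnm⟩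
    · simp only [inNames, hp.hms, List.mem_append, List.mem_map, List.mem_range] at hnm
      rcases hnm with ⟨j, hj, rfl⟩ | hnm
      · rw [pol_Y β ⟨j, hj⟩, ev_inr, hy]
        rfl
      · rw [hBp i nm hnm, hpar nm hnm]
    · rw [hDp i d hd nm hnm, dP_input hp β hd hnm]
      split_ifs <;> simp
  · rintro nm e hne hq ⟨e1, e2, e3⟩
    rw [pol_asg β hp hne]
    refine ⟨fun i => ?_, fun i d hd => ?_, ?_⟩
    · have := hBi i _ hq
      simpa [insV, Fm.holds, Tm.eval, e1] using this
    · have := hDi i d hd _ hq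
      simpa [insD, Fm.holds, Tm.eval, e2 i d hd] using this
    · rcases hSi _ hq with ⟨h1, h2⟩ | ⟨h1, h2⟩
      · rw [h2, h1, zero_mul]
      · rw [← e3]
        simpa [insS, Fm.holds, Tm.eval] using h2
  obtain ⟨key1, key2⟩ := key
  have hdom : ∀ e, Dom p e → (∀ i : Fin (n + 1), ρ (nV i e) = ev (pol n m β e) x (y i)) ∧
      (∀ i : Fin (n + 1), ∀ d ∈ dirs p, ρ (nD i d e) = ev (dP n m d (pol n m β e)) x (y i)) ∧
      ρ (nS e) = t * ev (pol n m β e) x y' := by
    rintro e (rfl | ⟨nm, hnm, rfl⟩ | ⟨q, hq, rfl | ⟨h2, rfl | rfl⟩⟩)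
    · exact key2
    · refine ⟨fun i => ?_, fun i d hd => ?_, hSin nm hnm⟩
      · simp only [inNames, hp.hms, List.mem_append, List.mem_map, List.mem_range] at hnm
        rcases hnm with ⟨j, hj, rfl⟩ | hnm
        · rw [pol_Y β ⟨j, hj⟩, ev_inr, hy]
          rfl
        · rw [hBp i nm hnm, hpar nm hnm]
      · rw [hDp i d hd nm hnm, dP_input hp β hd hnm]
        split_ifs <;> simp
    · exact (key1 q hq).1
    · exact ((key1 q hq).2 h2).1
    · exact ((key1 q hq).2 h2).2
  have hY : ∀ (i : Fin (n + 1)) (j : Fin m), ρ (nV i (vY j)) = y i j := fun i j => by rw [hy]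
  refine ⟨β, x, y, lam, ρ nv, t, y', ?_, ?_, ⟨?_, ?_, ?_, ?_⟩, ht0, ?_, ?_⟩
  · intro nm hnm
    rw [hbit nm hnm]; exact hAb nm hnm
  · intro nm hnm
    rw [hβ]; exact if_neg hnm
  · intro i
    have h1 := hE i (by rw [hp.hcs]; exact List.mem_range.2 i.2)
    simp only [phiE, Fm.holds, holds_conj, List.forall_mem_cons, List.forall_mem_map,
      Tm.eval] at h1
    rcases h1 with ⟨h2, h3⟩ | ⟨h2, h3, h4⟩
    · refine Or.inl ⟨by rw [hlam]; exact h2, ?_⟩
      funext j
      rw [← hY i j]
      exact h3 j (by rw [hp.hms]; exact List.mem_range.2 j.2)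
    · refine Or.inr ⟨by rw [hlam]; exact h2, by rw [← key2.1 i]; exact h3, fun j => ?_⟩
      have h5 := h4 j (by rw [hp.hms]; exact List.mem_range.2 j.2)
      have hd : [1, (j : ℕ)] ∈ dirs p := by
        simp only [dirs, hp.hms, List.mem_append, List.mem_map, List.mem_range]
        exact Or.inr ⟨j, j.2, rfl⟩
      rw [key2.2.1 i _ hd] at h5
      simpa [dP] using h5
  · intro l
    have h1 := hS l (by rw [hp.hns]; exact List.mem_range.2 l.2)
    have hd : [0, (l : ℕ)] ∈ dirs p := by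
      simp only [dirs, hp.hns, List.mem_append, List.mem_map, List.mem_range]
      exact Or.inl ⟨l, l.2, rfl⟩
    simp only [phiS, Fm.holds, eval_sumT, List.map_map, hp.hcs, Function.comp_def, Tm.eval,
      sum_map_range] at h1
    rw [← h1, hlam]
    refine Finset.sum_congr rfl fun i _ => ?_
    rw [key2.2.1 i _ hd]
    simp [dP]
  · simp only [Fm.holds, eval_sumT, List.map_map, hp.hcs, Function.comp_def, Tm.eval,
      sum_map_range] at hL
    rw [hlam]; exact hL
  · intro i i' hne h1 h2 h3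
    have h4 := hN i (by rw [hp.hcs]; exact List.mem_range.2 i.2) i'
      (by rw [hp.hcs]; exact List.mem_range.2 i'.2)
    have hne' : ¬ ((i : ℕ) = i') := fun h => hne (Fin.ext h)
    rw [phiN, if_neg hne'] at h4
    simp only [Fm.holds, holds_conj, List.forall_mem_cons, List.forall_mem_map, Tm.eval] at h4
    apply h4
    rw [hlam] at h1 h2
    refine ⟨h1, h2, fun j hj => ?_⟩
    rw [hp.hms, List.mem_range] at hj
    have := congrFun h3 ⟨j, hj⟩
    rw [hy] at this
    exact this
  · intro htp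
    rcases hC with hC | ⟨-, h1, -⟩
    · exact absurd hC.1 htp.ne'
    · rw [key2.2.2] at h1
      by_contra h2
      exact h1 (mul_pos htp (not_le.1 h2))
  · have hcs : ∀ i ∈ p.cs, ∃ i' : Fin (n + 1), i = i' := by
      intro i hi
      rw [hp.hcs, List.mem_range] at hi
      exact ⟨⟨i, hi⟩, rfl⟩
    refine vars_phi ?_ ?_ ?_ ?_ ?_ ?_ ?_
    · intro i hi e he
      obtain ⟨i, rfl⟩ := hcs i hi
      rw [rho_V]; exact (hdom e he).1 i
    · intro i hi d hd e he
      obtain ⟨i, rfl⟩ := hcs i hi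
      rw [rho_D]; exact (hdom e he).2.1 i d hd
    · intro nm hnm
      rw [rho_P]; exact hpar nm hnm _
    · intro e he
      rw [rho_S]; exact (hdom e he).2.2
    · rw [rho_T, ht]
    · intro i hi
      obtain ⟨i, rfl⟩ := hcs i hi
      rw [rho_L, hlam]
    · rw [rho_v]

end Pool.Agent.IsoPt
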