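import Mathlib

/-!
# Terms and quantifier free formulas in the language (0, 1, +, *, =, <)
-/

set_option autoImplicit false

namespace Pool.Agent.IsoPt

/-- Terms in the language `(0, 1, +, *)` with variables in `V`. -/
inductive Tm (V : Type) : Type
  | var (v : V) : Tm V
  | zero : Tm V
  | one : Tm V
  | add (s t : Tm V) : Tm V
  | mul (s t : Tm V) : Tm V

/-- Quantifier free formulas in the language `(0, 1, +, *, =, <)` with variables in `V`. -/
inductive Fm (V : Type) : Type
  | eq (s t : Tm V) : Fm V
  | lt (s t : Tm V) : Fm V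
  | not (φ : Fm V) : Fm V
  | and (φ ψ : Fm V) : Fm V
  | or (φ ψ : Fm V) : Fm V

namespace Tm

variable {V W R : Type}

/-- Value of a term. -/
def eval {R : Type*} [CommRing R] (v : V → R) : Tm V → R
  | var i => v i
  | zero => 0
  | one => 1
  | add s t => eval v s + eval v t
  | mul s t => eval v s * eval v t

/-- Reverse Polish listing of a term: `0, 1, 2, 3` are the symbols `0, 1, +, *`. -/
def post : Tm V → List (V ⊕ ℕ)
  | var i => [Sum.inl i]
  | zero => [Sum.inr 0]
  | one => [Sum.inr 1]
  | add s t => post s ++ post t ++ [Sum.inr 2]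
  | mul s t => post s ++ post t ++ [Sum.inr 3]

/-- Renaming of variables. -/
def map (f : V → W) : Tm V → Tm W
  | var i => var (f i)
  | zero => zero
  | one => one
  | add s t => add (map f s) (map f t)
  | mul s t => mul (map f s) (map f t)

/-- The list of variables. -/
def vars : Tm V → List V
  | var i => [i]
  | zero => []
  | one => []
  | add s t => vars s ++ vars t
  | mul s t => vars s ++ vars t

lemma eval_map {R : Type*} [CommRing R] (f : V → W) (v : W → R) (t : Tm V) :
    (t.map f).eval v = t.eval (fun i => v (f i)) := by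
  induction t with
  | var i => rfl
  | zero => rfl
  | one => rfl
  | add s t ihs iht => simp [map, eval, ihs, iht]
  | mul s t ihs iht => simp [map, eval, ihs, iht]

lemma eval_congr {R : Type*} [CommRing R] {v w : V → R} {t : Tm V} (h : ∀ i ∈ t.vars, v i = w i) :
    t.eval v = t.eval w := by
  induction t with
  | var i => exact h i (by simp [vars])
  | zero => rfl
  | one => rfl
  | add s t ihs iht =>
    simp only [eval]
    rw [ihs fun i hi => h i (by simp [vars, hi]), iht fun i hi => h i (by simp [vars, hi])]
  | mul s t ihs iht =>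
    simp only [eval]
    rw [ihs fun i hi => h i (by simp [vars, hi]), iht fun i hi => h i (by simp [vars, hi])]

lemma post_map (f : V → W) (t : Tm V) : (t.map f).post = t.post.map (Sum.map f id) := by
  induction t with
  | var i => rfl
  | zero => rfl
  | one => rfl
  | add s t ihs iht => simp [map, post, ihs, iht]
  | mul s t ihs iht => simp [map, post, ihs, iht]

lemma vars_eq (t : Tm V) : t.vars = t.post.filterMap Sum.getLeft? := by
  induction t with
  | var i => rfl
  | zero => rfl
  | one => rfl
  | add s t ihs iht => simp [vars, post, ihs, iht]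
  | mul s t ihs iht => simp [vars, post, ihs, iht]

end Tm

namespace Fm

variable {V W : Type}

/-- Truth of a formula over the reals. -/
def holds (v : V → ℝ) : Fm V → Prop
  | eq s t => s.eval v = t.eval v
  | lt s t => s.eval v < t.eval v
  | not φ => ¬ holds v φ
  | and φ ψ => holds v φ ∧ holds v ψ
  | or φ ψ => holds v φ ∨ holds v ψ

/-- Reverse Polish listing of a formula: `4, ..., 8` are the symbols `=, <, ¬, ∧, ∨`. -/
def post : Fm V → List (V ⊕ ℕ)
  | eq s t => s.post ++ t.post ++ [Sum.inr 4]
  | lt s t => s.post ++ t.post ++ [Sum.inr 5]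
  | not φ => post φ ++ [Sum.inr 6]
  | and φ ψ => post φ ++ post ψ ++ [Sum.inr 7]
  | or φ ψ => post φ ++ post ψ ++ [Sum.inr 8]

/-- Renaming of variables. -/
def map (f : V → W) : Fm V → Fm W
  | eq s t => eq (s.map f) (t.map f)
  | lt s t => lt (s.map f) (t.map f)
  | not φ => not (map f φ)
  | and φ ψ => and (map f φ) (map f ψ)
  | or φ ψ => or (map f φ) (map f ψ)

/-- The list of variables. -/
def vars : Fm V → List V
  | eq s t => s.vars ++ t.vars
  | lt s t => s.vars ++ t.vars
  | not φ => vars φ
  | and φ ψ => vars φ ++ vars ψ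
  | or φ ψ => vars φ ++ vars ψ

lemma holds_map (f : V → W) (v : W → ℝ) (φ : Fm V) :
    (φ.map f).holds v ↔ φ.holds (fun i => v (f i)) := by
  induction φ with
  | eq s t => simp [map, holds, Tm.eval_map]
  | lt s t => simp [map, holds, Tm.eval_map]
  | not φ ih => simp [map, holds, ih]
  | and φ ψ ih1 ih2 => simp [map, holds, ih1, ih2]
  | or φ ψ ih1 ih2 => simp [map, holds, ih1, ih2]

lemma holds_congr {v w : V → ℝ} {φ : Fm V} (h : ∀ i ∈ φ.vars, v i = w i) :
    φ.holds v ↔ φ.holds w := by
  induction φ with
  | eq s t =>
    simp only [holds]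
    rw [Tm.eval_congr fun i hi => h i (by simp [vars, hi]),
      Tm.eval_congr (t := t) fun i hi => h i (by simp [vars, hi])]
  | lt s t =>
    simp only [holds]
    rw [Tm.eval_congr fun i hi => h i (by simp [vars, hi]),
      Tm.eval_congr (t := t) fun i hi => h i (by simp [vars, hi])]
  | not φ ih => simp only [holds]; rw [ih fun i hi => h i (by simp [vars, hi])]
  | and φ ψ ih1 ih2 =>
    simp only [holds]
    rw [ih1 fun i hi => h i (by simp [vars, hi]), ih2 fun i hi => h i (by simp [vars, hi])]
  | or φ ψ ih1 ih2 =>
    simp only [holds]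
    rw [ih1 fun i hi => h i (by simp [vars, hi]), ih2 fun i hi => h i (by simp [vars, hi])]

lemma post_map (f : V → W) (φ : Fm V) : (φ.map f).post = φ.post.map (Sum.map f id) := by
  induction φ with
  | eq s t => simp [map, post, Tm.post_map]
  | lt s t => simp [map, post, Tm.post_map]
  | not φ ih => simp [map, post, ih]
  | and φ ψ ih1 ih2 => simp [map, post, ih1, ih2]
  | or φ ψ ih1 ih2 => simp [map, post, ih1, ih2]

lemma vars_eq (φ : Fm V) : φ.vars = φ.post.filterMap Sum.getLeft? := by
  induction φ with
  | eq s t => simp [vars, post, Tm.vars_eq]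
  | lt s t => simp [vars, post, Tm.vars_eq]
  | not φ ih => simp [vars, post, ih]
  | and φ ψ ih1 ih2 => simp [vars, post, ih1, ih2]
  | or φ ψ ih1 ih2 => simp [vars, post, ih1, ih2]

end Fm

end Pool.Agent.IsoPt
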